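import Pool.Agent.Work.MP_99279c_al.LW.Defs2

/-! Final numerics of the second version: the choice of the parameters. -/

namespace Pool.LW

namespace Final2

/-- the parameters: `P = 10^12 G^2 t^2`, `D = 16 G` -/
theorem num (G t N n w P : ℤ) (hG : 1 ≤ G) (ht : 1 ≤ t)
    (hn : 4 * 10 ^ 38 * (G ^ 6 * t ^ 7) ≤ n) (hN1 : 512 * (t * N) ≤ n)
    (hN2 : n ≤ 1024 * (t * N)) (hw0 : 0 ≤ w)
    (hw : w ≤ n * G) (hP : P = 10 ^ 12 * (G ^ 2 * t ^ 2)) :
    1 ≤ P ∧ 3 * (51200 * (G * P * t)) + 1 ≤ n ∧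
      w + 6 * (16 * P) + 10 * (51200 * (G * P * t)) + 10 ≤ 2 * n * G ∧
      16 * (3 * (51200 * (G * P * t))) ^ 2 ≤ N ∧
      32 * (3 * (51200 * (G * P * t))) ^ 2 * (4 * (4 + 1)) *
          (6 * (w + 6 * (16 * P) + 10 * (51200 * (G * P * t)) + 10)) <
        (25600 * (G * P * t) - 2 * P) * (N * (4 * P) ^ 2) ∧
      16 * G * (256 * t * N) + 4 * (w + 6 * (16 * P) + 10 * (51200 * (G * P * t)) + 10) ≤
        16 * G * n := by
  have hG0 : 0 < G := by omega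
  have ht0 : 0 < t := by omega
  have hGt2 : 0 < G ^ 2 * t ^ 2 := by positivity
  have hP1 : 1 ≤ P := by
    rw [hP]
    norm_num
    omega
  have hP0 : 0 < P := by omega
  have hGt3 : 0 < G ^ 3 * t ^ 3 := by positivity
  have hGPt : G * P * t = 10 ^ 12 * (G ^ 3 * t ^ 3) := by rw [hP]; ring
  have h36 : G ^ 3 * t ^ 3 ≤ G ^ 6 * t ^ 7 :=
    mul_le_mul (pow_le_pow_right₀ hG (by norm_num)) (pow_le_pow_right₀ ht (by norm_num))
      (by positivity) (by positivity)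
  have hPGt : P ≤ G * P * t := by
    have h1 : P * 1 ≤ P * (G * t) := by
      refine mul_le_mul_of_nonneg_left ?_ hP0.le
      nlinarith
    linarith
  have hX1 : 1 ≤ G * P * t := le_trans hP1 hPGt
  have hsmall : 1000000 * (G * P * t) ≤ n := by
    calc 1000000 * (G * P * t) = 1000000 * 10 ^ 12 * (G ^ 3 * t ^ 3) := by rw [hGPt]; ring
      _ ≤ 4 * 10 ^ 38 * (G ^ 3 * t ^ 3) := mul_le_mul_of_nonneg_right (by norm_num) hGt3.le
      _ ≤ 4 * 10 ^ 38 * (G ^ 6 * t ^ 7) := mul_le_mul_of_nonneg_left h36 (by norm_num)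
      _ ≤ n := hn
  have hn0 : 0 < n := by omega
  have hnG : n ≤ n * G := by nlinarith
  have hlow : 6 * (16 * P) + 10 * (51200 * (G * P * t)) + 10 ≤ n := by linarith
  have hW : w + 6 * (16 * P) + 10 * (51200 * (G * P * t)) + 10 ≤ 2 * n * G := by linarith
  refine ⟨hP1, by linarith, hW, ?_, ?_, ?_⟩
  · -- second moment
    have e1 : (1024 * t) * (16 * (3 * (51200 * (G * P * t))) ^ 2) ≤ (1024 * t) * N := by
      calc (1024 * t) * (16 * (3 * (51200 * (G * P * t))) ^ 2)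
          = (1024 * 16 * (3 * 51200) ^ 2 * 10 ^ 24) * (G ^ 6 * t ^ 7) := by rw [hGPt]; ring
        _ ≤ 4 * 10 ^ 38 * (G ^ 6 * t ^ 7) :=
            mul_le_mul_of_nonneg_right (by norm_num) (by positivity)
        _ ≤ n := hn
        _ ≤ 1024 * (t * N) := hN2
        _ = (1024 * t) * N := by ring
    exact le_of_mul_le_mul_left e1 (by positivity)
  · -- the oracle
    set X := w + 6 * (16 * P) + 10 * (51200 * (G * P * t)) + 10 with hXdef
    have hX0 : 0 ≤ X := by positivity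
    have hN0 : 0 ≤ N := by nlinarith
    have s1 : 32 * (3 * (51200 * (G * P * t))) ^ 2 * (4 * (4 + 1)) * (6 * X) ≤
        32 * (3 * (51200 * (G * P * t))) ^ 2 * (4 * (4 + 1)) * (6 * (2 * n * G)) := by
      apply mul_le_mul_of_nonneg_left
      · linarith
      · positivity
    have s2 : 32 * (3 * (51200 * (G * P * t))) ^ 2 * (4 * (4 + 1)) * (6 * (2 * n * G)) =
        (G * t * P ^ 2) * (181193932800000 * (G ^ 2 * t * n)) := by ring
    have s3 : (G * t * P ^ 2) * (409568 * (N * P)) ≤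
        (25600 * (G * P * t) - 2 * P) * (N * (4 * P) ^ 2) := by
      have e : (25600 * (G * P * t) - 2 * P) * (N * (4 * P) ^ 2) =
          (P ^ 2) * ((409600 * (G * t) - 32) * (N * P)) := by ring
      rw [e]
      have e2 : (G * t * P ^ 2) * (409568 * (N * P)) =
          (P ^ 2) * ((409568 * (G * t)) * (N * P)) := by ring
      rw [e2]
      refine mul_le_mul_of_nonneg_left ?_ (by positivity)
      refine mul_le_mul_of_nonneg_right ?_ (by positivity)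
      nlinarith
    have s4 : 181193932800000 * (G ^ 2 * t * n) < 409568 * (N * P) := by
      have hk4 : 0 < G ^ 2 * t * n := by positivity
      have e : 1024 * (409568 * (N * P)) = 409568 * 10 ^ 12 * (G ^ 2 * t * (1024 * (t * N))) := by
        rw [hP]; ring
      have e5 : G ^ 2 * t * n ≤ G ^ 2 * t * (1024 * (t * N)) :=
        mul_le_mul_of_nonneg_left hN2 (by positivity)
      have e6 : 409568 * 10 ^ 12 * (G ^ 2 * t * n) ≤ 1024 * (409568 * (N * P)) := by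
        rw [e]
        exact mul_le_mul_of_nonneg_left e5 (by norm_num)
      have e7 : 1024 * (181193932800000 * (G ^ 2 * t * n)) < 409568 * 10 ^ 12 * (G ^ 2 * t * n) := by
        norm_num
        linarith
      linarith
    calc _ ≤ _ := s1
      _ = (G * t * P ^ 2) * (181193932800000 * (G ^ 2 * t * n)) := s2
      _ < (G * t * P ^ 2) * (409568 * (N * P)) := mul_lt_mul_of_pos_left s4 (by positivity)
      _ ≤ _ := s3
  · -- the number of vertices
    have : 8 * G * (512 * (t * N)) ≤ 8 * G * n := mul_le_mul_of_nonneg_left hN1 (by positivity)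
    linarith

/-- powers of the logarithm are small -/
theorem growth (a : ℝ) (ha1 : a < 1 / 6) : ∃ n0 : ℕ, ∀ n ≥ n0, ∀ G : ℝ, 0 ≤ G →
    G ≤ 2 * (n : ℝ) ^ a →
    4 * 10 ^ 38 * (G ^ 6 * (4 * ((Nat.log 2 n : ℝ) + 1)) ^ 7) ≤ (n : ℝ) := by
  obtain ⟨b, hb⟩ : ∃ b : ℝ, b = (1 - 6 * a) / 7 := ⟨_, rfl⟩
  have hb0 : 0 < b := by rw [hb]; linarith
  have h1 : ∀ᶠ x : ℝ in Filter.atTop,
      ‖Real.log x‖ ≤ (1 / (16 * 10 ^ 6) : ℝ) * ‖x ^ b‖ :=
    (isLittleO_log_rpow_atTop hb0).def (by norm_num)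
  have h2 : ∀ᶠ x : ℝ in Filter.atTop, (8 * 10 ^ 6 : ℝ) ≤ x ^ b :=
    (tendsto_rpow_atTop hb0).eventually_ge_atTop _
  have h3 := (h1.and (h2.and (Filter.eventually_ge_atTop (1 : ℝ)))).natCast_atTop
  obtain ⟨n0, h0⟩ := Filter.eventually_atTop.1 h3
  refine ⟨n0, fun n hn G hG0 hG => ?_⟩
  obtain ⟨a1, a2, a3⟩ := h0 n hn
  have hx0 : (0 : ℝ) ≤ n := by linarith
  have hx00 : (0 : ℝ) < n := by linarith
  have hy0 : 0 ≤ (n : ℝ) ^ b := Real.rpow_nonneg hx0 _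
  have hz0 : 0 ≤ (n : ℝ) ^ a := Real.rpow_nonneg hx0 _
  have hlog0 : 0 ≤ Real.log n := Real.log_nonneg a3
  rw [Real.norm_of_nonneg hlog0, Real.norm_of_nonneg hy0] at a1
  have hL : (Nat.log 2 n : ℝ) ≤ 2 * Real.log n := by
    have := Real.natLog_le_logb n 2
    refine le_trans (by exact_mod_cast this) ?_
    rw [Real.logb, div_le_iff₀ (Real.log_pos (by norm_num))]
    have hl2 : (1 / 2 : ℝ) ≤ Real.log ((2 : ℕ) : ℝ) := by
      have := Real.log_two_gt_d9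
      norm_num at this ⊢
      linarith
    nlinarith
  have hb1 : 4 * ((Nat.log 2 n : ℝ) + 1) ≤ (1 / 10 ^ 6) * (n : ℝ) ^ b := by
    norm_num at a1 a2 ⊢
    linarith
  have hc : (4 * ((Nat.log 2 n : ℝ) + 1)) ^ 7 ≤ ((1 / 10 ^ 6) * (n : ℝ) ^ b) ^ 7 :=
    pow_le_pow_left₀ (by positivity) hb1 7
  have hd : G ^ 6 ≤ (2 * (n : ℝ) ^ a) ^ 6 := pow_le_pow_left₀ hG0 hG 6
  have hyz : ((n : ℝ) ^ a) ^ 6 * ((n : ℝ) ^ b) ^ 7 = n := by
    rw [← Real.rpow_natCast, ← Real.rpow_mul hx0, ← Real.rpow_natCast, ← Real.rpow_mul hx0,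
      ← Real.rpow_add hx00]
    have : a * ((6 : ℕ) : ℝ) + b * ((7 : ℕ) : ℝ) = 1 := by
      rw [hb]; push_cast; ring
    rw [this, Real.rpow_one]
  calc 4 * 10 ^ 38 * (G ^ 6 * (4 * ((Nat.log 2 n : ℝ) + 1)) ^ 7)
      ≤ 4 * 10 ^ 38 * ((2 * (n : ℝ) ^ a) ^ 6 * ((1 / 10 ^ 6) * (n : ℝ) ^ b) ^ 7) := by
        refine mul_le_mul_of_nonneg_left ?_ (by norm_num)
        exact mul_le_mul hd hc (by positivity) (by positivity)
    _ = (4 * 10 ^ 38 * 2 ^ 6 * (1 / 10 ^ 6) ^ 7) * (((n : ℝ) ^ a) ^ 6 * ((n : ℝ) ^ b) ^ 7) := by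
        ring
    _ = (4 * 10 ^ 38 * 2 ^ 6 * (1 / 10 ^ 6) ^ 7) * n := by rw [hyz]
    _ ≤ 1 * n := mul_le_mul_of_nonneg_right (by norm_num) hx0
    _ = n := one_mul _

theorem redL_toWord (w : FreeGroup (Fin 2)) : RedL w.toWord := by
  have := FreeGroup.isReduced_toWord (x := w)
  refine List.IsChain.imp ?_ this
  intro a b hab hba
  have h1 : a.1 = b.1 := by rw [hba]; rfl
  have h2 := hab h1
  rw [hba] at h2
  simp [iv] at h2

end Final2

theorem Final2.laws_of_core2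
    (hcore : ∀ (P h m lam0 lam L : ℤ) (D t : ℕ), Par2 P h m lam0 lam L D t → ∀ (n N : ℕ)
      (w : List Lt), RedL w → w ≠ [] →
      (∀ f : Fin 2 → Equiv.Perm (Fin n), FreeGroup.lift f (FreeGroup.mk w) = 1) →
      (w.length + 6 * m + 10 * L + 10) * (3 * L + 1) < 2 ^ t →
      16 * (3 * L) ^ 2 ≤ N →
      32 * (3 * L) ^ 2 * (4 * (h / P + 1)) * (6 * (w.length + 6 * m + 10 * L + 10)) <
        (lam - 2 * P) * (N * h ^ 2) →
      (D : ℤ) * (256 * t * N) + 4 * (w.length + 6 * m + 10 * L + 10) ≤ D * n → False)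
    (c : ℝ) (hc : c < 7 / 6) : ∃ n0 : ℕ, ∀ n ≥ n0,
    ∀ w : FreeGroup (Fin 2), w ≠ 1 → (w.toWord.length : ℝ) ≤ (n : ℝ) ^ c →
    ∃ f : Fin 2 → Equiv.Perm (Fin n), FreeGroup.lift f w ≠ 1 := by
  obtain ⟨a, ha⟩ : ∃ a : ℝ, a = max c 1 - 1 := ⟨_, rfl⟩
  have ha0 : 0 ≤ a := by
    have := le_max_right c 1
    linarith
  have ha1 : a < 1 / 6 := by
    have : max c 1 < 7 / 6 := max_lt hc (by norm_num)
    linarith
  obtain ⟨n0, h0⟩ := Final2.growth a ha1
  refine ⟨max n0 1, fun n hn w hw hlen => ?_⟩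
  have hn1 : 1 ≤ n := le_trans (le_max_right _ _) hn
  have hnR : (1 : ℝ) ≤ n := by exact_mod_cast hn1
  by_contra hcon
  push Not at hcon
  -- the parameters
  obtain ⟨G, hGdef⟩ : ∃ G : ℕ, G = ⌈(n : ℝ) ^ a⌉₊ := ⟨_, rfl⟩
  obtain ⟨t, htdef⟩ : ∃ t : ℕ, t = 4 * (Nat.log 2 n + 1) := ⟨_, rfl⟩
  obtain ⟨N, hNdef⟩ : ∃ N : ℕ, N = n / (512 * t) := ⟨_, rfl⟩
  set x : ℝ := (n : ℝ) ^ a with hx
  have hx1 : 1 ≤ x := Real.one_le_rpow hnR ha0
  have hxG : x ≤ G := by rw [hGdef]; exact Nat.le_ceil _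
  have hGx : (G : ℝ) ≤ 2 * x := by
    have := Nat.ceil_lt_add_one (by linarith : 0 ≤ x)
    rw [← hGdef] at this
    linarith
  have ht1 : 1 ≤ t := by omega
  have hG1 : 1 ≤ G := by
    have : (1 : ℝ) ≤ G := hx1.trans hxG
    exact_mod_cast this
  have hG1Z : (1 : ℤ) ≤ G := by exact_mod_cast hG1
  have ht1Z : (1 : ℤ) ≤ t := by exact_mod_cast ht1
  have gK : 4 * 10 ^ 38 * ((G : ℤ) ^ 6 * (t : ℤ) ^ 7) ≤ n := by
    have := h0 n (le_trans (le_max_left _ _) hn) G (by positivity) hGx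
    have h' : 4 * 10 ^ 38 * ((G : ℝ) ^ 6 * (t : ℝ) ^ 7) ≤ n := by
      rw [htdef]; push_cast; exact this
    exact_mod_cast h'
  have hbt : 1024 * (t : ℤ) ≤ n ∧ 2 * (G : ℤ) ≤ n := by
    have e1 : (t : ℤ) ≤ t ^ 7 := by
      calc (t : ℤ) = (t : ℤ) ^ 1 := by ring
        _ ≤ (t : ℤ) ^ 7 := pow_le_pow_right₀ ht1Z (by norm_num)
    have e2 : (G : ℤ) ≤ G ^ 6 := by
      calc (G : ℤ) = (G : ℤ) ^ 1 := by ring
        _ ≤ (G : ℤ) ^ 6 := pow_le_pow_right₀ hG1Z (by norm_num)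
    have e3 : (1 : ℤ) ≤ t ^ 7 := one_le_pow₀ ht1Z
    have e4 : (1 : ℤ) ≤ G ^ 6 := one_le_pow₀ hG1Z
    have e5 : (t : ℤ) ≤ G ^ 6 * t ^ 7 := by nlinarith
    have e6 : (G : ℤ) ≤ G ^ 6 * t ^ 7 := by nlinarith
    constructor <;> linarith
  obtain ⟨hbt1, hbt2⟩ := hbt
  have hN1 : 512 * ((t : ℤ) * N) ≤ n := by
    have := Nat.mul_div_le n (512 * t)
    rw [← hNdef] at this
    have h' : ((512 * t * N : ℕ) : ℤ) ≤ n := by exact_mod_cast this
    push_cast at h'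
    linarith
  have hN2 : (n : ℤ) ≤ 1024 * (t * N) := by
    have h1 : n < 512 * t * (N + 1) := by
      rw [hNdef]
      exact Nat.lt_mul_div_succ n (by omega)
    have h2 : (n : ℤ) < 512 * t * (N + 1) := by exact_mod_cast h1
    have h3 : 1 ≤ N := by
      rw [hNdef, Nat.one_le_div_iff (by omega)]
      have : (512 * t : ℤ) ≤ n := by linarith
      exact_mod_cast this
    have h4 : (1 : ℤ) ≤ N := by exact_mod_cast h3
    have h5 : (0 : ℤ) ≤ t := by positivity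
    nlinarith
  have hlenZ : ((w.toWord.length : ℕ) : ℤ) ≤ n * G := by
    have h1 : (n : ℝ) ^ c ≤ n * x := by
      rw [hx]
      calc (n : ℝ) ^ c ≤ (n : ℝ) ^ (1 + a) := by
            refine Real.rpow_le_rpow_of_exponent_le hnR ?_
            have := le_max_left c 1
            linarith
        _ = n * (n : ℝ) ^ a := by rw [Real.rpow_add (by linarith), Real.rpow_one]
    have : (w.toWord.length : ℝ) ≤ n * G := by
      refine (hlen.trans h1).trans ?_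
      exact mul_le_mul_of_nonneg_left hxG (by linarith)
    exact_mod_cast this
  obtain ⟨P, hP⟩ : ∃ P : ℤ, P = 10 ^ 12 * ((G : ℤ) ^ 2 * (t : ℤ) ^ 2) := ⟨_, rfl⟩
  obtain ⟨c1, c3, c4, c5, c6, c7⟩ := Final2.num (G : ℤ) t N n w.toWord.length P
    hG1Z ht1Z gK hN1 hN2 (by positivity) hlenZ hP
  have hlog : (n : ℤ) < 2 ^ (Nat.log 2 n + 1) := by
    exact_mod_cast Nat.lt_pow_succ_log_self (by norm_num) n
  have hQ : Par2 P (4 * P) (16 * P) (800 * (P * t)) (25600 * (G * P * t)) (51200 * (G * P * t))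
      (16 * G) t := by
    refine ⟨c1, rfl, by ring, by omega, ht1, by ring, ?_, by ring⟩
    push_cast
    ring
  refine hcore _ _ _ _ _ _ _ _ hQ n N w.toWord (Final2.redL_toWord w) ?_ ?_ ?_ c5 ?_ ?_
  · intro h
    exact hw (FreeGroup.toWord_eq_nil_iff.1 h)
  · intro f
    rw [FreeGroup.mk_toWord]
    exact hcon f
  · -- the number of windows
    have hn0 : (0 : ℤ) ≤ n := by positivity
    have hL0 : (0 : ℤ) ≤ 3 * (51200 * (G * P * t)) + 1 := by positivity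
    have hn1Z : (1 : ℤ) ≤ n := by exact_mod_cast hn1
    calc _ ≤ (2 * (n : ℤ) * G) * n := mul_le_mul c4 c3 hL0 (by positivity)
      _ ≤ (n * n) * n := by
          refine mul_le_mul_of_nonneg_right ?_ hn0
          nlinarith
      _ = (n : ℤ) ^ 3 := by ring
      _ ≤ (n : ℤ) ^ 4 := pow_le_pow_right₀ hn1Z (by norm_num)
      _ < (2 ^ (Nat.log 2 n + 1)) ^ 4 := pow_lt_pow_left₀ hlog hn0 (by norm_num)
      _ = 2 ^ t := by rw [htdef, ← pow_mul, mul_comm]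
  · rw [Int.mul_ediv_cancel _ (by omega)]
    exact c6
  · push_cast
    exact c7

end Pool.LW
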