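import Pool.Agent.Work.MP_99279c_al.LW.Core2
import Pool.Agent.Work.MP_99279c_al.LW.FinalNum2

namespace Pool.LW

theorem laws_seven_sixths (c : ℝ) (hc : c < 7 / 6) : ∃ n0 : ℕ, ∀ n ≥ n0,
    ∀ w : FreeGroup (Fin 2), w ≠ 1 → (w.toWord.length : ℝ) ≤ (n : ℝ) ^ c →
    ∃ f : Fin 2 → Equiv.Perm (Fin n), FreeGroup.lift f w ≠ 1 :=
  Final2.laws_of_core2 (fun P h m lam0 lam L D t Q n N w => core2 Q n N w) c hc

end Pool.LW
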