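import Mathlib

/-!
Finite second moment tools: independence by exchanging coordinates, Chebyshev, rounds.
-/

namespace Pool.LW.Bk

open Finset

/-- Two sets of functions which depend on disjoint sets of coordinates are independent. -/
theorem indep {X Y : Type*} [Fintype X] [DecidableEq X] [Fintype Y] [DecidableEq Y]
    (A B : Finset (X → Y)) (P : X → Prop) [DecidablePred P]
    (hA : ∀ c d : X → Y, (∀ x, ¬ P x → c x = d x) → c ∈ A → d ∈ A)
    (hB : ∀ c d : X → Y, (∀ x, P x → c x = d x) → c ∈ B → d ∈ B) :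
    (A ∩ B).card * Fintype.card (X → Y) ≤ A.card * B.card := by
  rw [← card_univ, ← card_product, ← card_product]
  refine card_le_card_of_injOn
    (fun p => (fun x => if P x then p.2 x else p.1 x, fun x => if P x then p.1 x else p.2 x)) ?_ ?_
  · rintro ⟨c, d⟩ h
    simp only [coe_product, coe_inter, coe_univ, Set.mem_prod, Set.mem_inter_iff, mem_coe,
      Set.mem_univ, and_true] at h ⊢
    refine ⟨hA c _ (fun x hx => by simp [hx]) h.1, hB c _ (fun x hx => by simp [hx]) h.2⟩
  · rintro ⟨c, d⟩ _ ⟨c', d'⟩ _ h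
    simp only [Prod.mk.injEq] at h
    obtain ⟨h1, h2⟩ := h
    have e1 : c = c' := by
      funext x
      by_cases hx : P x
      · have := congrFun h2 x
        simpa [hx] using this
      · have := congrFun h1 x
        simpa [hx] using this
    have e2 : d = d' := by
      funext x
      by_cases hx : P x
      · have := congrFun h1 x
        simpa [hx] using this
      · have := congrFun h2 x
        simpa [hx] using this
    rw [e1, e2]

/-- Chebyshev: if all but `b` pairs per element are independent, the number of `ω` whose count is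
less than half of the mean is at most a quarter. -/
theorem cheb {Ω ι : Type*} [Fintype Ω] [DecidableEq Ω] [DecidableEq ι] (S : Finset ι)
    (Z : ι → Finset Ω) (Sh : ι → ι → Prop) [∀ v w, Decidable (Sh v w)] (b : ℕ)
    (hb : ∀ v ∈ S, (S.filter fun w => Sh v w).card ≤ b)
    (hi : ∀ v ∈ S, ∀ w ∈ S, ¬ Sh v w →
      (Z v ∩ Z w).card * Fintype.card Ω ≤ (Z v).card * (Z w).card)
    (y : ℝ) (hy : 0 < y) (hmean : 2 * y * Fintype.card Ω ≤ ∑ v ∈ S, ((Z v).card : ℝ))
    (hvar : 8 * (b : ℝ) ≤ y) :
    4 * (univ.filter fun ω : Ω => ((S.filter fun v => ω ∈ Z v).card : ℝ) < y).card ≤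
      Fintype.card Ω := by
  classical
  set X : Ω → ℝ := fun ω => ((S.filter fun v => ω ∈ Z v).card : ℝ) with hX
  set M : ℝ := (Fintype.card Ω : ℝ) with hM
  set t : ℝ := ∑ v ∈ S, ((Z v).card : ℝ) with ht
  have hXs : ∀ ω, X ω = ∑ v ∈ S, if ω ∈ Z v then (1 : ℝ) else 0 := by
    intro ω
    rw [hX]
    simp
  have hsum : ∑ ω, X ω = t := by
    simp only [hXs]
    rw [sum_comm, ht]
    refine sum_congr rfl fun v _ => ?_
    simp
  have hM0 : 0 ≤ M := Nat.cast_nonneg _
  have hsq : ∑ ω, X ω ^ 2 = ∑ v ∈ S, ∑ w ∈ S, ((Z v ∩ Z w).card : ℝ) := by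
    have h1 : ∀ ω, X ω ^ 2 = ∑ v ∈ S, ∑ w ∈ S, if ω ∈ Z v ∩ Z w then (1 : ℝ) else 0 := by
      intro ω
      rw [hXs, sq, sum_mul_sum]
      refine sum_congr rfl fun v _ => sum_congr rfl fun w _ => ?_
      by_cases h1 : ω ∈ Z v <;> by_cases h2 : ω ∈ Z w <;> simp [h1, h2]
    simp only [h1]
    rw [sum_comm]
    refine sum_congr rfl fun v _ => ?_
    rw [sum_comm]
    refine sum_congr rfl fun w _ => ?_
    rw [sum_ite_mem, univ_inter, sum_const, nsmul_eq_mul, mul_one]
  have hsq2 : (∑ ω, X ω ^ 2) * M ≤ b * t * M + t ^ 2 := by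
    have h1 : ∀ v ∈ S, (∑ w ∈ S, ((Z v ∩ Z w).card : ℝ)) * M ≤
        b * (Z v).card * M + (Z v).card * t := by
      intro v hv
      rw [← sum_filter_add_sum_filter_not S (fun w => Sh v w), add_mul]
      refine add_le_add ?_ ?_
      · refine mul_le_mul_of_nonneg_right ?_ hM0
        calc ∑ w ∈ S.filter (fun w => Sh v w), ((Z v ∩ Z w).card : ℝ)
            ≤ ∑ w ∈ S.filter (fun w => Sh v w), ((Z v).card : ℝ) :=
              sum_le_sum fun w _ => Nat.cast_le.mpr (card_le_card inter_subset_left)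
          _ = (S.filter (fun w => Sh v w)).card * ((Z v).card : ℝ) := by
              rw [sum_const, nsmul_eq_mul]
          _ ≤ b * (Z v).card := by
              refine mul_le_mul_of_nonneg_right (Nat.cast_le.mpr (hb v hv)) (Nat.cast_nonneg _)
      · rw [sum_mul, ht, mul_sum]
        calc ∑ w ∈ S.filter (fun w => ¬ Sh v w), ((Z v ∩ Z w).card : ℝ) * M
            ≤ ∑ w ∈ S.filter (fun w => ¬ Sh v w), ((Z v).card : ℝ) * (Z w).card := by
              refine sum_le_sum fun w hw => ?_
              rw [mem_filter] at hw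
              have := hi v hv w hw.1 hw.2
              rw [hM]
              exact_mod_cast this
          _ ≤ ∑ w ∈ S, ((Z v).card : ℝ) * (Z w).card :=
              sum_le_sum_of_subset_of_nonneg (filter_subset _ _) fun w _ _ => by positivity
    calc (∑ ω, X ω ^ 2) * M = ∑ v ∈ S, (∑ w ∈ S, ((Z v ∩ Z w).card : ℝ)) * M := by
          rw [hsq, sum_mul]
      _ ≤ ∑ v ∈ S, (b * (Z v).card * M + (Z v).card * t) := sum_le_sum h1
      _ = b * t * M + t ^ 2 := by
          rw [sum_add_distrib, ← sum_mul, ← mul_sum, ← sum_mul, ← ht]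
          ring
  -- the variance
  rcases eq_or_lt_of_le hM0 with h0 | hMpos
  · have : Fintype.card Ω = 0 := by
      have : (Fintype.card Ω : ℝ) = 0 := h0.symm
      exact_mod_cast this
    have h2 := Fintype.card_eq_zero_iff.mp this
    simp
  set m : ℝ := t / M with hm
  have hm2 : 2 * y ≤ m := by
    rw [hm, le_div_iff₀ hMpos]
    exact hmean
  have hvar2 : ∑ ω, (X ω - m) ^ 2 ≤ b * t := by
    have h1 : ∑ ω, (X ω - m) ^ 2 = ∑ ω, X ω ^ 2 - 2 * m * t + M * m ^ 2 := by
      have : ∀ ω, (X ω - m) ^ 2 = X ω ^ 2 - 2 * m * X ω + m ^ 2 := fun ω => by ring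
      simp only [this]
      rw [sum_add_distrib, sum_sub_distrib, ← mul_sum, hsum, sum_const, card_univ, nsmul_eq_mul]
    rw [h1]
    have h2 : m * M = t := by rw [hm]; field_simp
    have h3 : ∑ ω, X ω ^ 2 ≤ b * t + t * m := by
      have h4 : ∑ ω, X ω ^ 2 ≤ (b * t * M + t ^ 2) / M := by
        rw [le_div_iff₀ hMpos]
        exact hsq2
      refine h4.trans (le_of_eq ?_)
      rw [hm]
      field_simp
    have h5 : M * m ^ 2 = t * m := by rw [← h2]; ring
    rw [h5]
    linarith
  set Bd := univ.filter fun ω : Ω => X ω < y with hBd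
  have hlow : (Bd.card : ℝ) * (m / 2) ^ 2 ≤ b * t := by
    calc (Bd.card : ℝ) * (m / 2) ^ 2 = ∑ ω ∈ Bd, (m / 2) ^ 2 := by
          rw [sum_const, nsmul_eq_mul]
      _ ≤ ∑ ω ∈ Bd, (X ω - m) ^ 2 := by
          refine sum_le_sum fun ω hω => ?_
          rw [hBd, mem_filter] at hω
          have h1 : X ω < m / 2 := lt_of_lt_of_le hω.2 (by linarith)
          have h2 : 0 ≤ m / 2 := by linarith
          nlinarith
      _ ≤ ∑ ω, (X ω - m) ^ 2 :=
          sum_le_sum_of_subset_of_nonneg (subset_univ _) fun ω _ _ => sq_nonneg _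
      _ ≤ b * t := hvar2
  have hmpos : 0 < m := by linarith
  have h2 : t = m * M := by rw [hm]; field_simp
  have h3 : (Bd.card : ℝ) * m ≤ 4 * b * M := by
    have h4 : (Bd.card : ℝ) * m * m ≤ 4 * b * M * m := by
      rw [h2] at hlow
      nlinarith
    exact le_of_mul_le_mul_right h4 hmpos
  have h4 : (Bd.card : ℝ) * (16 * b) ≤ 4 * b * M := by
    refine le_trans ?_ h3
    exact mul_le_mul_of_nonneg_left (by linarith) (Nat.cast_nonneg _)
  have hfin : 4 * (Bd.card : ℝ) ≤ M := by
    rcases Nat.eq_zero_or_pos b with hb0 | hb0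
    · subst hb0
      have h5 : (Bd.card : ℝ) * m ≤ 0 := by simpa using h3
      have h6 : (Bd.card : ℝ) ≤ 0 := by
        by_contra h7
        push Not at h7
        nlinarith
      linarith
    · have hb1 : (0 : ℝ) < b := Nat.cast_pos.mpr hb0
      have h5 : (4 * (Bd.card : ℝ)) * (4 * b) ≤ M * (4 * b) := by linarith
      exact le_of_mul_le_mul_right h5 (by linarith)
  rw [hM] at hfin
  exact_mod_cast hfin

/-- Rounds: if every element is served by half of all choices, then `T` choices serve any family of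
less than `2 ^ T` elements. -/
theorem rounds {β ι : Type*} [Fintype β] [Nonempty β] [DecidableEq ι] (R : ι → β → Prop)
    [∀ i b, Decidable (R i b)] :
    ∀ (T : ℕ) (W : Finset ι),
      (∀ i ∈ W, Fintype.card β ≤ 2 * (univ.filter fun b => R i b).card) → W.card < 2 ^ T →
      ∃ B : Fin T → β, ∀ i ∈ W, ∃ t, R i (B t)
  | 0, W, _, hW => by
    refine ⟨Fin.elim0, fun i hi => ?_⟩
    have : W.card = 0 := by simpa using hW
    rw [card_eq_zero] at this
    simp [this] at hi
  | T + 1, W, h, hW => by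
    have h1 : ∑ b : β, W.card ≤ ∑ b : β, 2 * (W.filter fun i => R i b).card := by
      have e1 : ∑ b : β, (W.filter fun i => R i b).card =
          ∑ i ∈ W, (univ.filter fun b => R i b).card := by
        simp only [card_filter]
        exact sum_comm
      rw [← mul_sum, e1, mul_sum, sum_const, card_univ, smul_eq_mul]
      calc Fintype.card β * W.card = ∑ i ∈ W, Fintype.card β := by
            rw [sum_const, smul_eq_mul, mul_comm]
        _ ≤ ∑ i ∈ W, 2 * (univ.filter fun b => R i b).card := sum_le_sum h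
    obtain ⟨b, _, hb⟩ := exists_le_of_sum_le univ_nonempty h1
    have h2 : (W.filter fun i => ¬ R i b).card < 2 ^ T := by
      have h3 := card_filter_add_card_filter_not (s := W) (fun i => R i b)
      rw [pow_succ] at hW
      omega
    obtain ⟨B, hB⟩ := rounds R T (W.filter fun i => ¬ R i b)
      (fun i hi => h i (mem_of_mem_filter i hi)) h2
    refine ⟨Fin.cons b B, fun i hi => ?_⟩
    by_cases hR : R i b
    · exact ⟨0, hR⟩
    · obtain ⟨t, ht⟩ := hB i (mem_filter.mpr ⟨hi, hR⟩)
      exact ⟨t.succ, by simpa using ht⟩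

end Pool.LW.Bk
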