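import Pool.Agent.Work.MP_99279c_al.LW.Path
import Pool.Agent.Work.MP_99279c_al.LW.Cheb

/-!
Bulks: pairs of permutations with deleted edges which serve all windows.
-/

namespace Pool.LW.Bk

open Finset Equiv

variable {α : Type*}

/-- The edge of the `i`-th step of the path (an edge is `(g, u)`, from `u` to `f g u`). -/
def edg (f : Fin 2 → Perm α) (V : ℕ → Ltr) (v : α) (i : ℕ) : Fin 2 × α :=
  ((V i).1, if (V i).2 then pth f V v i else pth f V v (i + 1))

theorem edg_inj (f : Fin 2 → Perm α) (V : ℕ → Ltr) (i : ℕ) :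
    Function.Injective fun v => edg f V v i := by
  intro a b h
  simp only [edg, Prod.mk.injEq, true_and] at h
  by_cases h1 : (V i).2 = true
  · simp only [h1, if_true] at h
    exact pth_inj f V i h
  · simp only [Bool.not_eq_true] at h1
    simp only [h1, Bool.false_eq_true, if_false] at h
    exact pth_inj f V (i + 1) h

theorem edg_ne (f : Fin 2 → Perm α) (V : ℕ → Ltr) (len : ℕ) (v : α)
    (hV : ∀ i, i + 1 < len → V (i + 1) ≠ linv (V i))
    (hs : ∀ a b, a < b → b ≤ len → pth f V v a ≠ pth f V v b) (i j : ℕ) (hij : i < j)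
    (hj : j < len) : edg f V v i ≠ edg f V v j := by
  intro h
  simp only [edg, Prod.mk.injEq] at h
  obtain ⟨h1, h2⟩ := h
  by_cases hi' : (V i).2 = true <;> by_cases hj' : (V j).2 = true
  · simp only [hi', hj', if_true] at h2
    exact hs i j hij (by omega) h2
  · simp only [Bool.not_eq_true] at hj'
    simp only [hi', hj', if_true, Bool.false_eq_true, if_false] at h2
    exact hs i (j + 1) (by omega) (by omega) h2
  · simp only [Bool.not_eq_true] at hi'
    simp only [hi', hj', if_true, Bool.false_eq_true, if_false] at h2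
    have h3 : i + 1 = j := by
      by_contra h4
      exact hs (i + 1) j (by omega) (by omega) h2
    refine hV i (by omega) ?_
    rw [h3]
    refine Prod.ext h1.symm ?_
    simp [linv, hi', hj']
  · simp only [Bool.not_eq_true] at hi' hj'
    simp only [hi', hj', Bool.false_eq_true, if_false] at h2
    exact hs (i + 1) (j + 1) (by omega) (by omega) h2

/-- The vertex `v` serves the window `V 0 … V (len-1)`: its path is simple, and exactly two of its
edges are deleted, one among the first `h` and one among the last `h`. -/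
def Serve (f : Fin 2 → Perm α) (D : Finset (Fin 2 × α)) (h : ℕ) (V : ℕ → Ltr) (len : ℕ)
    (v : α) : Prop :=
  (∀ a b, a < b → b ≤ len → pth f V v a ≠ pth f V v b) ∧
    ∃ i j, i < h ∧ len - h ≤ j ∧ j < len ∧ ∀ k, k < len → (edg f V v k ∈ D ↔ k = i ∨ k = j)

theorem pow_succ_le_two_mul (m k : ℕ) (h : 2 * k ≤ m + 1) : (m + 1) ^ k ≤ 2 * m ^ k := by
  have h1 : (1 : ℝ) + (k : ℝ) * (-(1 / ((m : ℝ) + 1))) ≤ (1 + -(1 / ((m : ℝ) + 1))) ^ k := by
    refine one_add_mul_le_pow ?_ k
    have : 1 / ((m : ℝ) + 1) ≤ 1 := by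
      rw [div_le_one (by positivity)]
      have : (0 : ℝ) ≤ m := Nat.cast_nonneg m
      linarith
    linarith
  have hm : (0 : ℝ) < (m : ℝ) + 1 := by positivity
  have h2 : (1 : ℝ) + -(1 / ((m : ℝ) + 1)) = m / (m + 1) := by
    field_simp
    ring
  rw [h2, div_pow] at h1
  have h3 : (1 : ℝ) / 2 ≤ 1 + (k : ℝ) * (-(1 / ((m : ℝ) + 1))) := by
    have h4 : (k : ℝ) * (1 / ((m : ℝ) + 1)) ≤ 1 / 2 := by
      rw [mul_one_div, div_le_div_iff₀ hm (by norm_num)]
      have : (2 * k : ℝ) ≤ m + 1 := by exact_mod_cast h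
      linarith
    linarith
  have h5 : (1 : ℝ) / 2 ≤ (m : ℝ) ^ k / ((m : ℝ) + 1) ^ k := h3.trans h1
  rw [div_le_div_iff₀ (by norm_num) (by positivity)] at h5
  have h6 : ((m : ℝ) + 1) ^ k ≤ 2 * (m : ℝ) ^ k := by linarith
  exact_mod_cast h6

/-- Labelings with exactly two zeros at prescribed places of a simple path. -/
theorem card_two {X : Type*} [Fintype X] [DecidableEq X] (m len : ℕ) (e : ℕ → X)
    (he : ∀ a b, a < b → b < len → e a ≠ e b) (hm : 2 * len ≤ m + 1) (i j : ℕ) (hij : i < j)
    (hj : j < len) :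
    (m + 1) ^ Fintype.card X ≤ 2 * (m + 1) ^ 2 *
      (univ.filter fun c : X → Fin (m + 1) =>
        ∀ k, k < len → (c (e k) = 0 ↔ k = i ∨ k = j)).card := by
  classical
  have hinj : ∀ a b, a < len → b < len → e a = e b → a = b := by
    intro a b ha hb hab
    rcases lt_trichotomy a b with h | h | h
    · exact absurd hab (he a b h hb)
    · exact h
    · exact absurd hab.symm (he b a h ha)
  set E : Finset X := (range len).image e with hE
  have hEcard : E.card = len := by
    rw [hE, card_image_of_injOn, card_range]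
    intro a ha b hb hab
    rw [mem_coe, mem_range] at ha hb
    exact hinj a b ha hb hab
  set t : X → Finset (Fin (m + 1)) := fun x =>
    if x ∈ E then (if x = e i ∨ x = e j then {0} else {0}ᶜ) else univ with ht
  have hsub : Fintype.piFinset t ⊆ univ.filter fun c : X → Fin (m + 1) =>
      ∀ k, k < len → (c (e k) = 0 ↔ k = i ∨ k = j) := by
    intro c hc
    rw [Fintype.mem_piFinset] at hc
    rw [mem_filter]
    refine ⟨mem_univ _, fun k hk => ?_⟩
    have h1 := hc (e k)
    have hkE : e k ∈ E := by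
      rw [hE, mem_image]
      exact ⟨k, mem_range.mpr hk, rfl⟩
    simp only [ht, hkE, if_true] at h1
    have hiff : (e k = e i ∨ e k = e j) ↔ (k = i ∨ k = j) := by
      constructor
      · rintro (h | h)
        · exact Or.inl (hinj k i hk (by omega) h)
        · exact Or.inr (hinj k j hk hj h)
      · rintro (h | h)
        · exact Or.inl (by rw [h])
        · exact Or.inr (by rw [h])
    by_cases h2 : e k = e i ∨ e k = e j
    · simp only [h2, if_true, mem_singleton] at h1
      exact ⟨fun _ => hiff.mp h2, fun _ => h1⟩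
    · simp only [h2, if_false, mem_compl, mem_singleton] at h1
      exact ⟨fun h => absurd h h1, fun h => absurd (hiff.mpr h) h2⟩
  have hprod : (Fintype.piFinset t).card = m ^ (len - 2) * (m + 1) ^ (Fintype.card X - len) := by
    rw [Fintype.card_piFinset, ← prod_mul_prod_compl E]
    congr 1
    · rw [hE, prod_image]
      · have h1 : ∀ k ∈ range len, (t (e k)).card = if k = i ∨ k = j then 1 else m := by
          intro k hk
          rw [mem_range] at hk
          have hkE : e k ∈ E := by
            rw [hE, mem_image]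
            exact ⟨k, mem_range.mpr hk, rfl⟩
          simp only [ht, hkE, if_true]
          by_cases h2 : k = i ∨ k = j
          · have h3 : e k = e i ∨ e k = e j := by
              rcases h2 with h | h
              · exact Or.inl (by rw [h])
              · exact Or.inr (by rw [h])
            simp only [h2, h3, if_true, card_singleton]
          · have h3 : ¬ (e k = e i ∨ e k = e j) := by
              rintro (h | h)
              · exact h2 (Or.inl (hinj k i hk (by omega) h))
              · exact h2 (Or.inr (hinj k j hk hj h))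
            simp only [h2, h3, if_false, card_compl, card_singleton, Fintype.card_fin]
            omega
        rw [prod_congr rfl h1, prod_ite, prod_const_one, one_mul, prod_const]
        congr 1
        have h4 : (range len).filter (fun k => ¬ (k = i ∨ k = j)) =
            ((range len).erase i).erase j := by
          ext k
          simp only [mem_filter, mem_range, mem_erase, not_or]
          tauto
        rw [h4, card_erase_of_mem, card_erase_of_mem, card_range]
        · omega
        · rw [mem_range]; omega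
        · rw [mem_erase, mem_range]; omega
      · intro a ha b hb hab
        rw [mem_coe, mem_range] at ha hb
        exact hinj a b ha hb hab
    · have h1 : ∀ x ∈ Eᶜ, (t x).card = m + 1 := by
        intro x hx
        rw [mem_compl] at hx
        simp only [ht, hx, if_false, card_univ, Fintype.card_fin]
      rw [prod_congr rfl h1, prod_const, card_compl, hEcard]
  have hle : len ≤ Fintype.card X := by
    rw [← hEcard]
    exact card_le_univ E
  refine le_trans ?_ (Nat.mul_le_mul_left _ (card_le_card hsub))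
  rw [hprod]
  have hlen : len = 2 + (len - 2) := by omega
  calc (m + 1) ^ Fintype.card X
      = (m + 1) ^ 2 * (m + 1) ^ (len - 2) * (m + 1) ^ (Fintype.card X - len) := by
        rw [← pow_add, ← pow_add]
        congr 1
        omega
    _ ≤ (m + 1) ^ 2 * (2 * m ^ (len - 2)) * (m + 1) ^ (Fintype.card X - len) := by
        refine Nat.mul_le_mul_right _ (Nat.mul_le_mul_left _ ?_)
        exact pow_succ_le_two_mul m (len - 2) (by omega)
    _ = 2 * (m + 1) ^ 2 * (m ^ (len - 2) * (m + 1) ^ (Fintype.card X - len)) := by ring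

open Classical in
/-- Labelings for which the path has exactly one zero at each end. -/
theorem card_ends {X : Type*} [Fintype X] [DecidableEq X] (m len h : ℕ) (e : ℕ → X)
    (he : ∀ a b, a < b → b < len → e a ≠ e b) (hm : 2 * len ≤ m + 1) (hh : 1 ≤ h)
    (hl : 2 * h ≤ len) :
    h ^ 2 * (m + 1) ^ Fintype.card X ≤ 2 * (m + 1) ^ 2 *
      (univ.filter fun c : X → Fin (m + 1) => ∃ i j, i < h ∧ len - h ≤ j ∧ j < len ∧
        ∀ k, k < len → (c (e k) = 0 ↔ k = i ∨ k = j)).card := by
  set Z : ℕ × ℕ → Finset (X → Fin (m + 1)) := fun p =>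
    univ.filter fun c : X → Fin (m + 1) => ∀ k, k < len → (c (e k) = 0 ↔ k = p.1 ∨ k = p.2) with hZ
  have hsub : (range h ×ˢ Ico (len - h) len).biUnion Z ⊆
      univ.filter fun c : X → Fin (m + 1) => ∃ i j, i < h ∧ len - h ≤ j ∧ j < len ∧
        ∀ k, k < len → (c (e k) = 0 ↔ k = i ∨ k = j) := by
    intro c hc
    rw [mem_biUnion] at hc
    obtain ⟨⟨i, j⟩, hij, hc⟩ := hc
    rw [mem_product, mem_range, mem_Ico] at hij
    rw [hZ, mem_filter] at hc
    rw [mem_filter]
    exact ⟨mem_univ _, i, j, hij.1, hij.2.1, hij.2.2, hc.2⟩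
  have hdisj : Set.PairwiseDisjoint (↑(range h ×ˢ Ico (len - h) len) : Set (ℕ × ℕ)) Z := by
    rintro ⟨i, j⟩ hij ⟨i', j'⟩ hij' hne
    simp only [coe_product, Set.mem_prod, mem_coe, mem_range, mem_Ico] at hij hij'
    rw [Function.onFun, disjoint_left]
    intro c hc hc'
    rw [hZ, mem_filter] at hc hc'
    apply hne
    have h1 := (hc'.2 i (by omega)).mp ((hc.2 i (by omega)).mpr (Or.inl rfl))
    have h2 := (hc'.2 j (by omega)).mp ((hc.2 j (by omega)).mpr (Or.inr rfl))
    simp only at h1 h2
    have e1 : i = i' := by omega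
    have e2 : j = j' := by omega
    rw [e1, e2]
  refine le_trans ?_ (Nat.mul_le_mul_left _ (card_le_card hsub))
  rw [card_biUnion hdisj, mul_sum]
  calc h ^ 2 * (m + 1) ^ Fintype.card X
      = ∑ p ∈ range h ×ˢ Ico (len - h) len, (m + 1) ^ Fintype.card X := by
        rw [sum_const, card_product, card_range, Nat.card_Ico, smul_eq_mul]
        congr 1
        have : len - (len - h) = h := by omega
        rw [this, sq]
    _ ≤ ∑ p ∈ range h ×ˢ Ico (len - h) len, 2 * (m + 1) ^ 2 * (Z p).card := by
        refine sum_le_sum fun p hp => ?_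
        rw [mem_product, mem_range, mem_Ico] at hp
        exact card_two m len e he hm p.1 p.2 (by omega) hp.2.2

section main

variable [Fintype α] [DecidableEq α]

open Classical in
/-- At most a quarter of the pairs of permutations have more than half non-simple paths. -/
theorem card_bad (V : ℕ → Ltr) (len : ℕ) (hlen : 1 ≤ len)
    (hV : ∀ i, i + 1 < len → V (i + 1) ≠ linv (V i)) (hN : 8 * len ^ 2 + len ≤ Fintype.card α) :
    4 * (univ.filter fun f : Fin 2 → Perm α =>
      Fintype.card α < 2 * (univ.filter fun v : α => ¬ Simple f V len v).card).card ≤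
      Fintype.card (Fin 2 → Perm α) := by
  set N := Fintype.card α with hNdef
  set F := Fintype.card (Fin 2 → Perm α) with hF
  set Bd := univ.filter fun f : Fin 2 → Perm α =>
    N < 2 * (univ.filter fun v : α => ¬ Simple f V len v).card with hBd
  have h1 : Bd.card * N ≤ 2 * ∑ f : Fin 2 → Perm α, (univ.filter fun v : α => ¬ Simple f V len v).card := by
    calc Bd.card * N = ∑ f ∈ Bd, N := by rw [sum_const, smul_eq_mul]
      _ ≤ ∑ f ∈ Bd, 2 * (univ.filter fun v : α => ¬ Simple f V len v).card := by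
          refine sum_le_sum fun f hf => ?_
          rw [hBd, mem_filter] at hf
          exact hf.2.le
      _ ≤ ∑ f, 2 * (univ.filter fun v : α => ¬ Simple f V len v).card :=
          sum_le_sum_of_subset (subset_univ _)
      _ = _ := by rw [mul_sum]
  have h2 : ∑ f : Fin 2 → Perm α, (univ.filter fun v : α => ¬ Simple f V len v).card =
      ∑ v : α, (univ.filter fun f : Fin 2 → Perm α => ¬ Simple f V len v).card := by
    simp only [card_filter]
    exact sum_comm
  have h3 : (∑ v : α, (univ.filter fun f : Fin 2 → Perm α => ¬ Simple f V len v).card) * (N - len) ≤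
      N * (len ^ 2 * F) := by
    rw [sum_mul]
    calc ∑ v : α, (univ.filter fun f : Fin 2 → Perm α => ¬ Simple f V len v).card * (N - len)
        ≤ ∑ v : α, len ^ 2 * F := sum_le_sum fun v _ => card_not_simple V v len hV
      _ = N * (len ^ 2 * F) := by rw [sum_const, card_univ, smul_eq_mul]
  have h4 : Bd.card * N * (N - len) ≤ 2 * (N * (len ^ 2 * F)) := by
    calc Bd.card * N * (N - len) ≤ 2 * (∑ v : α, (univ.filter fun f : Fin 2 → Perm α =>
          ¬ Simple f V len v).card) * (N - len) := by
          refine Nat.mul_le_mul_right _ ?_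
          rw [← h2]
          exact h1
      _ = 2 * ((∑ v : α, (univ.filter fun f : Fin 2 → Perm α =>
          ¬ Simple f V len v).card) * (N - len)) := by ring
      _ ≤ _ := Nat.mul_le_mul_left _ h3
  have hNpos : 0 < N := by omega
  have h5 : Bd.card * (N - len) ≤ 2 * (len ^ 2 * F) := by
    refine Nat.le_of_mul_le_mul_left ?_ hNpos
    calc N * (Bd.card * (N - len)) = Bd.card * N * (N - len) := by ring
      _ ≤ 2 * (N * (len ^ 2 * F)) := h4
      _ = N * (2 * (len ^ 2 * F)) := by ring
  have h6 : Bd.card * (8 * len ^ 2) ≤ 2 * (len ^ 2 * F) :=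
    le_trans (Nat.mul_le_mul_left _ (by omega)) h5
  have h7 : 0 < 2 * len ^ 2 := by positivity
  refine Nat.le_of_mul_le_mul_left ?_ h7
  calc 2 * len ^ 2 * (4 * Bd.card) = Bd.card * (8 * len ^ 2) := by ring
    _ ≤ 2 * (len ^ 2 * F) := h6
    _ = 2 * len ^ 2 * F := by ring

open Classical in
/-- For a good pair of permutations at least three quarters of the labelings serve. -/
theorem card_good (f : Fin 2 → Perm α) (V : ℕ → Ltr) (len h m : ℕ) (hh : 1 ≤ h)
    (hl : 2 * h ≤ len) (hm : 2 * len ≤ m + 1)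
    (hV : ∀ i, i + 1 < len → V (i + 1) ≠ linv (V i))
    (hN : 64 * (m + 1) ^ 2 * len ^ 2 ≤ Fintype.card α * h ^ 2)
    (hf : Fintype.card α ≤ 2 * (univ.filter fun v : α => Simple f V len v).card) :
    4 * (univ.filter fun c : Fin 2 × α → Fin (m + 1) =>
      8 * (m + 1) ^ 2 * (univ.filter fun v : α =>
        Serve f (univ.filter fun e => c e = 0) h V len v).card < Fintype.card α * h ^ 2).card ≤
      Fintype.card (Fin 2 × α → Fin (m + 1)) := by
  set S := univ.filter fun v : α => Simple f V len v with hS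
  set Z : α → Finset (Fin 2 × α → Fin (m + 1)) := fun v =>
    univ.filter fun c => ∃ i j, i < h ∧ len - h ≤ j ∧ j < len ∧
        ∀ k, k < len → (c (edg f V v k) = 0 ↔ k = i ∨ k = j) with hZ
  set Sh : α → α → Prop := fun v w => ∃ i j, i < len ∧ j < len ∧ edg f V v i = edg f V w j with hSh
  have hlen : 1 ≤ len := by omega
  have hb : ∀ v ∈ S, (S.filter fun w => Sh v w).card ≤ len ^ 2 := by
    intro v _
    have h1 : (S.filter fun w => Sh v w) ⊆ (range len ×ˢ range len).biUnion fun p =>
        univ.filter fun w => edg f V v p.1 = edg f V w p.2 := by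
      intro w hw
      rw [mem_filter] at hw
      obtain ⟨_, i, j, hi, hj, hij⟩ := hw
      rw [mem_biUnion]
      exact ⟨(i, j), by rw [mem_product, mem_range, mem_range]; exact ⟨hi, hj⟩,
        by rw [mem_filter]; exact ⟨mem_univ _, hij⟩⟩
    refine (card_le_card h1).trans (card_biUnion_le.trans ?_)
    calc ∑ p ∈ range len ×ˢ range len, (univ.filter fun w => edg f V v p.1 = edg f V w p.2).card
        ≤ ∑ p ∈ range len ×ˢ range len, 1 := by
          refine sum_le_sum fun p _ => ?_
          rw [card_le_one]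
          intro a ha b hb
          rw [mem_filter] at ha hb
          exact edg_inj f V p.2 (ha.2.symm.trans hb.2)
      _ = len ^ 2 := by rw [sum_const, card_product, card_range, smul_eq_mul, mul_one, sq]
  have hi : ∀ v ∈ S, ∀ w ∈ S, ¬ Sh v w →
      (Z v ∩ Z w).card * Fintype.card (Fin 2 × α → Fin (m + 1)) ≤ (Z v).card * (Z w).card := by
    intro v _ w _ hvw
    refine indep (Z v) (Z w) (fun x => ∃ k, k < len ∧ edg f V w k = x) ?_ ?_
    · intro c d hcd hc
      rw [hZ, mem_filter] at hc ⊢
      obtain ⟨_, i, j, hi, hj, hj', hk⟩ := hc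
      refine ⟨mem_univ _, i, j, hi, hj, hj', fun k hk' => ?_⟩
      rw [← hcd (edg f V v k)]
      · exact hk k hk'
      · rintro ⟨k', hk1, hk2⟩
        exact hvw ⟨k, k', hk', hk1, hk2.symm⟩
    · intro c d hcd hc
      rw [hZ, mem_filter] at hc ⊢
      obtain ⟨_, i, j, hi, hj, hj', hk⟩ := hc
      refine ⟨mem_univ _, i, j, hi, hj, hj', fun k hk' => ?_⟩
      rw [← hcd (edg f V w k) ⟨k, hk', rfl⟩]
      exact hk k hk'
  have hm0 : (0 : ℝ) < (m : ℝ) + 1 := by positivity
  set y : ℝ := (Fintype.card α : ℝ) * h ^ 2 / (8 * ((m : ℝ) + 1) ^ 2) with hy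
  have hNr : 64 * ((m : ℝ) + 1) ^ 2 * (len : ℝ) ^ 2 ≤ (Fintype.card α : ℝ) * (h : ℝ) ^ 2 := by
    exact_mod_cast hN
  have hlenr : (1 : ℝ) ≤ len := by exact_mod_cast hlen
  have hvar : 8 * ((len ^ 2 : ℕ) : ℝ) ≤ y := by
    rw [hy, le_div_iff₀ (by positivity)]
    push_cast
    linarith
  have hy0 : 0 < y := by
    refine lt_of_lt_of_le ?_ hvar
    push_cast
    positivity
  have hcardX : (Fintype.card (Fin 2 × α → Fin (m + 1)) : ℝ) =
      ((m : ℝ) + 1) ^ Fintype.card (Fin 2 × α) := by
    rw [Fintype.card_fun, Fintype.card_fin]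
    push_cast
    rfl
  have hZv : ∀ v ∈ S, (h : ℝ) ^ 2 * Fintype.card (Fin 2 × α → Fin (m + 1)) /
      (2 * ((m : ℝ) + 1) ^ 2) ≤ ((Z v).card : ℝ) := by
    intro v hv
    rw [hS, mem_filter] at hv
    have h1 := card_ends m len h (edg f V v) (fun a b hab hb => edg_ne f V len v hV hv.2 a b hab hb)
      hm hh hl
    rw [div_le_iff₀ (by positivity), hcardX]
    have h2 : ((h : ℝ) ^ 2) * ((m : ℝ) + 1) ^ Fintype.card (Fin 2 × α) ≤
        2 * ((m : ℝ) + 1) ^ 2 * ((Z v).card : ℝ) := by
      exact_mod_cast h1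
    linarith
  have hmean : 2 * y * Fintype.card (Fin 2 × α → Fin (m + 1)) ≤ ∑ v ∈ S, ((Z v).card : ℝ) := by
    have h1 : (S.card : ℝ) * ((h : ℝ) ^ 2 * Fintype.card (Fin 2 × α → Fin (m + 1)) /
      (2 * ((m : ℝ) + 1) ^ 2)) ≤ ∑ v ∈ S, ((Z v).card : ℝ) := by
      rw [← nsmul_eq_mul, ← sum_const]
      exact sum_le_sum hZv
    refine le_trans ?_ h1
    have h2 : (Fintype.card α : ℝ) ≤ 2 * S.card := by exact_mod_cast hf
    have h3 : 2 * y * Fintype.card (Fin 2 × α → Fin (m + 1)) =
        ((Fintype.card α : ℝ) / 2) * ((h : ℝ) ^ 2 * Fintype.card (Fin 2 × α → Fin (m + 1)) /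
      (2 * ((m : ℝ) + 1) ^ 2)) := by
      rw [hy]
      field_simp
      ring
    rw [h3]
    refine mul_le_mul_of_nonneg_right (by linarith) (by positivity)
  have hch := cheb S Z Sh (len ^ 2) hb hi y hy0 hmean hvar
  refine le_trans (Nat.mul_le_mul_left 4 (card_le_card ?_)) hch
  intro c hc
  rw [mem_filter] at hc ⊢
  refine ⟨mem_univ _, ?_⟩
  have h1 : (univ.filter fun v : α => Serve f (univ.filter fun e => c e = 0) h V len v) =
      S.filter fun v => c ∈ Z v := by
    ext v
    constructor
    · intro hv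
      rw [mem_filter] at hv
      obtain ⟨_, hs, i, j, hi', hj', hj'', hk⟩ := hv
      rw [mem_filter, hS, mem_filter]
      refine ⟨⟨mem_univ _, hs⟩, ?_⟩
      rw [hZ, mem_filter]
      refine ⟨mem_univ _, i, j, hi', hj', hj'', fun k hk' => ?_⟩
      rw [← hk k hk', mem_filter]
      simp
    · intro hv
      rw [mem_filter, hS, mem_filter, hZ, mem_filter] at hv
      obtain ⟨⟨_, hs⟩, _, i, j, hi', hj', hj'', hk⟩ := hv
      rw [mem_filter]
      refine ⟨mem_univ _, hs, i, j, hi', hj', hj'', fun k hk' => ?_⟩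
      rw [← hk k hk', mem_filter]
      simp
  rw [h1] at hc
  have h2 : (8 * ((m : ℝ) + 1) ^ 2 * ((S.filter fun v => c ∈ Z v).card : ℝ)) <
      (Fintype.card α : ℝ) * (h : ℝ) ^ 2 := by
    exact_mod_cast hc.2
  rw [hy, lt_div_iff₀ (by positivity)]
  linarith

open Classical in
/-- **Bulks.** There are `T` bulks (pairs of permutations with deleted edges) such that every window
of a family of less than `2 ^ T` reduced windows is served by many vertices of some bulk. -/
theorem bulks {ι : Type*} (W : Finset ι) (V : ι → ℕ → Ltr) (len : ι → ℕ) (h ell T : ℕ)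
    (hh : 1 ≤ h) (hl : ∀ w ∈ W, 2 * h ≤ len w ∧ len w ≤ ell)
    (hV : ∀ w ∈ W, ∀ i, i + 1 < len w → V w (i + 1) ≠ linv (V w i))
    (hN : 256 * ell ^ 4 ≤ Fintype.card α * h ^ 2) (hW : W.card < 2 ^ T) :
    ∃ B : Fin T → (Fin 2 → Perm α) × Finset (Fin 2 × α), ∀ w ∈ W, ∃ t,
      Fintype.card α * h ^ 2 ≤ 32 * ell ^ 2 *
        (univ.filter fun v : α => Serve (B t).1 (B t).2 h (V w) (len w) v).card := by
  rcases W.eq_empty_or_nonempty with hWe | ⟨w₀, hw₀⟩
  · refine ⟨fun _ => (fun _ => 1, ∅), fun w hw => ?_⟩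
    rw [hWe] at hw
    exact absurd hw (notMem_empty _)
  have hell : 2 ≤ ell := by
    have := hl w₀ hw₀
    omega
  obtain ⟨m, hm⟩ : ∃ m, m + 1 = 2 * ell := ⟨2 * ell - 1, by omega⟩
  set β := (Fin 2 → Perm α) × (Fin 2 × α → Fin (m + 1)) with hβ
  set R : ι → β → Prop := fun w b => Fintype.card α * h ^ 2 ≤ 32 * ell ^ 2 *
    (univ.filter fun v : α => Serve b.1 (univ.filter fun e => b.2 e = 0) h (V w) (len w) v).card
    with hR
  have : Nonempty β := ⟨(fun _ => 1, fun _ => 0)⟩
  suffices hsuff : ∀ w ∈ W, Fintype.card β ≤ 2 * (univ.filter fun b => R w b).card by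
    obtain ⟨B, hB⟩ := rounds R T W hsuff hW
    exact ⟨fun t => ((B t).1, univ.filter fun e => (B t).2 e = 0), fun w hw => hB w hw⟩
  intro w hw
  obtain ⟨hl1, hl2⟩ := hl w hw
  have hlen1 : 1 ≤ len w := by omega
  have hNh : 256 * ell ^ 2 ≤ Fintype.card α := by
    have h1 : h ^ 2 ≤ ell ^ 2 := Nat.pow_le_pow_left (by omega) 2
    have h2 : 256 * ell ^ 4 ≤ Fintype.card α * ell ^ 2 := hN.trans (Nat.mul_le_mul_left _ h1)
    have h3 : 0 < ell ^ 2 := by positivity
    refine Nat.le_of_mul_le_mul_right ?_ h3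
    calc 256 * ell ^ 2 * ell ^ 2 = 256 * ell ^ 4 := by ring
      _ ≤ _ := h2
  have hbad := card_bad (α := α) (V w) (len w) hlen1 (hV w hw) (by
    have h1 : len w ^ 2 ≤ ell ^ 2 := Nat.pow_le_pow_left hl2 2
    have h2 : len w ≤ len w ^ 2 := by nlinarith
    omega)
  set Bd := univ.filter fun f : Fin 2 → Perm α =>
      Fintype.card α < 2 * (univ.filter fun v : α => ¬ Simple f (V w) (len w) v).card with hBd
  set NR : (Fin 2 → Perm α) → Finset (Fin 2 × α → Fin (m + 1)) := fun f =>
    univ.filter fun c => ¬ R w (f, c) with hNR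
  set Om := Fintype.card (Fin 2 × α → Fin (m + 1)) with hOm
  have hgood : ∀ f, f ∉ Bd → 4 * (NR f).card ≤ Om := by
    intro f hf
    rw [hBd, mem_filter, not_and] at hf
    have hf' := hf (mem_univ _)
    push Not at hf'
    have hsum := card_filter_add_card_filter_not (s := (univ : Finset α))
      (fun v => Simple f (V w) (len w) v)
    rw [card_univ] at hsum
    have hN2 : 64 * (m + 1) ^ 2 * (len w) ^ 2 ≤ Fintype.card α * h ^ 2 := by
      rw [hm]
      have h1 : len w ^ 2 ≤ ell ^ 2 := Nat.pow_le_pow_left hl2 2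
      calc 64 * (2 * ell) ^ 2 * len w ^ 2 ≤ 64 * (2 * ell) ^ 2 * ell ^ 2 :=
            Nat.mul_le_mul_left _ h1
        _ = 256 * ell ^ 4 := by ring
        _ ≤ _ := hN
    have hg := card_good f (V w) (len w) h m hh hl1 (by omega) (hV w hw) hN2 (by omega)
    refine le_trans (Nat.mul_le_mul_left 4 (card_le_card ?_)) hg
    intro c hc
    rw [hNR] at hc
    simp only [mem_filter, mem_univ, true_and, hR, not_le] at hc ⊢
    have hm4 : 8 * (m + 1) ^ 2 = 32 * ell ^ 2 := by
      rw [hm]
      ring
    rw [hm4]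
    exact hc
  have hsplit : (univ.filter fun b : β => ¬ R w b).card = ∑ f, (NR f).card := by
    rw [card_filter, Fintype.sum_prod_type]
    refine sum_congr rfl fun f _ => ?_
    rw [hNR, card_filter]
  have h4 : 4 * (univ.filter fun b : β => ¬ R w b).card ≤ 2 * Fintype.card β := by
    rw [hsplit, mul_sum, ← sum_filter_add_sum_filter_not univ (fun f => f ∈ Bd)]
    have e1 : ∑ f ∈ univ.filter (fun f => f ∈ Bd), 4 * (NR f).card ≤ 4 * Bd.card * Om := by
      calc ∑ f ∈ univ.filter (fun f => f ∈ Bd), 4 * (NR f).card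
          ≤ ∑ f ∈ univ.filter (fun f => f ∈ Bd), 4 * Om :=
            sum_le_sum fun f _ => Nat.mul_le_mul_left _ (card_le_univ _)
        _ = 4 * Bd.card * Om := by
            rw [sum_const, smul_eq_mul, filter_mem_eq_inter, univ_inter]
            ring
    have e2 : ∑ f ∈ univ.filter (fun f => f ∉ Bd), 4 * (NR f).card ≤
        Fintype.card (Fin 2 → Perm α) * Om := by
      calc ∑ f ∈ univ.filter (fun f => f ∉ Bd), 4 * (NR f).card
          ≤ ∑ f ∈ univ.filter (fun f => f ∉ Bd), Om :=
            sum_le_sum fun f hf => hgood f (mem_filter.mp hf).2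
        _ = (univ.filter (fun f => f ∉ Bd)).card * Om := by rw [sum_const, smul_eq_mul]
        _ ≤ _ := Nat.mul_le_mul_right _ (card_le_univ _)
    calc _ ≤ 4 * Bd.card * Om + Fintype.card (Fin 2 → Perm α) * Om := add_le_add e1 e2
      _ ≤ Fintype.card (Fin 2 → Perm α) * Om + Fintype.card (Fin 2 → Perm α) * Om :=
          Nat.add_le_add_right (Nat.mul_le_mul_right _ hbad) _
      _ = 2 * Fintype.card β := by
          have hβc : Fintype.card β = Fintype.card (Fin 2 → Perm α) * Om := Fintype.card_prod _ _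
          rw [hβc]
          ring
  have h5 := card_filter_add_card_filter_not (s := (univ : Finset β)) (fun b => R w b)
  rw [card_univ] at h5
  omega

end main

end Pool.LW.Bk
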