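import Pool.Agent.Work.MP_99279c_al.LW.Defs
import Pool.Agent.Work.MP_99279c_al.LW.Bulk

/-!
The bulks, in the form used by the oracle.
-/

namespace Pool.LW

theorem Rounds.pth_eq {N : ℕ} (σ : Fin 2 → Equiv.Perm (Fin N)) (V : ℕ → Lt) (v : Fin N) :
    ∀ k, Bk.pth σ V v k = pth σ V v k
  | 0 => rfl
  | k + 1 => by
    show Bk.act σ (V k) (Bk.pth σ V v k) = act σ (V k) (pth σ V v k)
    rw [Rounds.pth_eq σ V v k]
    rfl

theorem Rounds.edg_eq {N : ℕ} (σ : Fin 2 → Equiv.Perm (Fin N)) (V : ℕ → Lt) (v : Fin N) (k : ℕ) :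
    Bk.edg σ V v k = eg σ V v k := by
  unfold Bk.edg eg
  rw [Rounds.pth_eq, Rounds.pth_eq]

theorem Rounds.serve_iff {N : ℕ} (σ : Fin 2 → Equiv.Perm (Fin N)) (D : Finset (Fin 2 × Fin N))
    (h : ℕ) (V : ℕ → Lt) (len : ℕ) (v : Fin N) :
    Bk.Serve σ D h V len v ↔ GoodV σ (fun e => decide (e ∈ D)) V len h v := by
  unfold Bk.Serve GoodV
  refine and_congr ?_ ?_
  · constructor
    · intro h a ha b hb hab
      rw [Set.mem_Iic] at ha hb
      rcases lt_trichotomy a b with h1 | h1 | h1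
      · refine absurd ?_ (h a b h1 hb)
        rw [Rounds.pth_eq, Rounds.pth_eq, hab]
      · exact h1
      · refine absurd ?_ (h b a h1 ha)
        rw [Rounds.pth_eq, Rounds.pth_eq, hab]
    · intro h a b hab hb h1
      rw [Rounds.pth_eq, Rounds.pth_eq] at h1
      have h2 := h (Set.mem_Iic.mpr (by omega)) (Set.mem_Iic.mpr hb) h1
      omega
  · constructor
    · rintro ⟨i, j, hi, hj, hj', hk⟩
      refine ⟨i, hi, j, hj, hj', fun k hk' => ?_⟩
      rw [← hk k hk', Rounds.edg_eq, decide_eq_true_iff]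
    · rintro ⟨i, hi, j, hj, hj', hk⟩
      refine ⟨i, j, hi, hj, hj', fun k hk' => ?_⟩
      rw [← hk k hk', Rounds.edg_eq, decide_eq_true_iff]

/-- M6c Rounds.lean -/
theorem bulks (N l h T : ℕ) (hh : 1 ≤ h) (hN : 256 * l ^ 4 ≤ N * h ^ 2) {I : Type} [Fintype I]
    (hI : Fintype.card I < 2 ^ T) (V : I → ℕ → Lt) (len : I → ℕ)
    (hlen : ∀ i, 2 * h < len i ∧ len i ≤ l)
    (hV : ∀ i k, k + 1 < len i → V i (k + 1) ≠ iv (V i k)) :
    ∃ (σ : Fin T → Fin 2 → Equiv.Perm (Fin N)) (del : Fin T → Fin 2 × Fin N → Bool),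
      ∀ i, ∃ t, N * h ^ 2 ≤
        32 * l ^ 2 * Nat.card {v : Fin N // GoodV (σ t) (del t) (V i) (len i) h v} := by
  classical
  obtain ⟨B, hB⟩ := Bk.bulks (α := Fin N) (Finset.univ : Finset I)
    V len h l T hh (fun i _ => ⟨(hlen i).1.le, (hlen i).2⟩) (fun i _ k hk => hV i k hk)
    (by rw [Fintype.card_fin]; exact hN) (by rw [Finset.card_univ]; exact hI)
  refine ⟨fun t => (B t).1, fun t e => decide (e ∈ (B t).2), fun i => ?_⟩
  obtain ⟨t, ht⟩ := hB i (Finset.mem_univ i)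
  refine ⟨t, ?_⟩
  rw [Fintype.card_fin] at ht
  refine ht.trans (Nat.mul_le_mul_left _ (le_of_eq ?_))
  rw [Nat.card_eq_fintype_card, Fintype.card_subtype]
  congr 1
  ext v
  simp only [Finset.mem_filter, Finset.mem_univ, true_and]
  exact Rounds.serve_iff _ _ _ _ _ _

end Pool.LW
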