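import Pool.Agent.Work.MP_99279c_al.LW.Pz
import Pool.Agent.Work.MP_99279c_al.LW.Rounds

/-!
Bulks with the Paley-Zygmund bound (second version).
-/

namespace Pool.LW.Bk

open Finset Equiv

variable {α : Type*} [Fintype α] [DecidableEq α]

open Classical in
/-- For a good pair of permutations a positive proportion of the labelings serve. -/
theorem card_good2 (f : Fin 2 → Perm α) (V : ℕ → Ltr) (len h m : ℕ) (hh : 1 ≤ h)
    (hl : 2 * h ≤ len) (hm : 2 * len ≤ m + 1)
    (hV : ∀ i, i + 1 < len → V (i + 1) ≠ linv (V i))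
    (hN : 4 * (m + 1) ^ 2 ≤ Fintype.card α)
    (hf : Fintype.card α ≤ 2 * (univ.filter fun v : α => Simple f V len v).card) :
    Fintype.card (Fin 2 × α → Fin (m + 1)) ≤
      112 * (univ.filter fun c : Fin 2 × α → Fin (m + 1) =>
        Fintype.card α * h ^ 2 ≤ 8 * (m + 1) ^ 2 * (univ.filter fun v : α =>
          Serve f (univ.filter fun e => c e = 0) h V len v).card).card := by
  set S := univ.filter fun v : α => Simple f V len v with hS
  set J := range h ×ˢ Ico (len - h) len with hJ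
  set Q : Finset (α × ℕ × ℕ) := S ×ˢ J with hQ
  set Z : α × ℕ × ℕ → Finset (Fin 2 × α → Fin (m + 1)) := fun q =>
    univ.filter fun c => ∀ k, k < len → (c (edg f V q.1 k) = 0 ↔ k = q.2.1 ∨ k = q.2.2) with hZ
  have hJc : J.card = h ^ 2 := by
    rw [hJ, card_product, card_range, Nat.card_Ico]
    have : len - (len - h) = h := by omega
    rw [this, sq]
  have hQc : Q.card = S.card * h ^ 2 := by rw [hQ, card_product, hJc]
  have hSN : S.card ≤ Fintype.card α := card_le_univ _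
  have hJm : ∀ q ∈ Q, q.1 ∈ S ∧ q.2.1 < h ∧ len - h ≤ q.2.2 ∧ q.2.2 < len := by
    intro q hq
    rw [hQ, mem_product, hJ, mem_product, mem_range, mem_Ico] at hq
    exact ⟨hq.1, hq.2.1, hq.2.2.1, hq.2.2.2⟩
  have hsimple : ∀ v ∈ S, ∀ a b, a < b → b ≤ len → pth f V v a ≠ pth f V v b := by
    intro v hv
    rw [hS, mem_filter] at hv
    exact hv.2
  have hne : ∀ v ∈ S, ∀ i j, i < j → j < len → edg f V v i ≠ edg f V v j := fun v hv i j =>
    edg_ne f V len v hV (hsimple v hv) i j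
  have cnt1 : ∀ x : Fin 2 × α, (Q.filter fun q => x = edg f V q.1 q.2.1).card ≤ h ^ 2 := by
    intro x
    rw [← hJc]
    refine card_le_card_of_injOn (fun q => q.2) ?_ ?_
    · intro q hq
      rw [mem_coe, mem_filter, hQ, mem_product] at hq
      exact hq.1.2
    · rintro ⟨v, j⟩ hq ⟨v', j'⟩ hq' hqq
      rw [mem_coe, mem_filter] at hq hq'
      simp only at hqq hq hq'
      subst hqq
      have := edg_inj f V j.1 (hq.2.symm.trans hq'.2)
      rw [this]
  have cnt1' : ∀ x : Fin 2 × α, (Q.filter fun q => x = edg f V q.1 q.2.2).card ≤ h ^ 2 := by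
    intro x
    rw [← hJc]
    refine card_le_card_of_injOn (fun q => q.2) ?_ ?_
    · intro q hq
      rw [mem_coe, mem_filter, hQ, mem_product] at hq
      exact hq.1.2
    · rintro ⟨v, j⟩ hq ⟨v', j'⟩ hq' hqq
      rw [mem_coe, mem_filter] at hq hq'
      simp only at hqq hq hq'
      subst hqq
      have := edg_inj f V j.2 (hq.2.symm.trans hq'.2)
      rw [this]
  have cnt2 : ∀ x y : Fin 2 × α, (Q.filter fun q => x = edg f V q.1 q.2.1 ∧
      y = edg f V q.1 q.2.2).card ≤ h := by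
    intro x y
    conv_rhs => rw [← card_range h]
    refine card_le_card_of_injOn (fun q => q.2.1) ?_ ?_
    · intro q hq
      rw [mem_coe, mem_filter] at hq
      exact mem_coe.mpr (mem_range.mpr (hJm q hq.1).2.1)
    · rintro ⟨v, i, j⟩ hq ⟨v', i', j'⟩ hq' hqq
      rw [mem_coe, mem_filter] at hq hq'
      have h1 := hJm _ hq.1
      have h1' := hJm _ hq'.1
      simp only at hqq hq hq' h1 h1'
      subst hqq
      have h2 : v = v' := edg_inj f V i (hq.2.1.symm.trans hq'.2.1)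
      subst h2
      have h3 : j = j' := by
        rcases lt_trichotomy j j' with h4 | h4 | h4
        · exact absurd (hq.2.2.symm.trans hq'.2.2) (hne v h1.1 j j' h4 h1'.2.2.2)
        · exact h4
        · exact absurd (hq'.2.2.symm.trans hq.2.2) (hne v h1.1 j' j h4 h1.2.2.2)
      rw [h3]
  have cnt2' : ∀ x y : Fin 2 × α, (Q.filter fun q => x = edg f V q.1 q.2.2 ∧
      y = edg f V q.1 q.2.1).card ≤ h := by
    intro x y
    refine le_trans (le_of_eq ?_) (cnt2 y x)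
    congr 1
    ext q
    simp only [mem_filter, and_comm]
  -- the second moment
  set X := Fintype.card (Fin 2 × α) with hX
  have hpair : ∀ q ∈ Q, ∀ q' ∈ Q, (Z q ∩ Z q').card * (m + 1) ^ 4 ≤ (m + 1) ^ X *
      (1 + (m + 1) * ((if edg f V q.1 q.2.1 = edg f V q'.1 q'.2.1 then 1 else 0) +
        (if edg f V q.1 q.2.1 = edg f V q'.1 q'.2.2 then 1 else 0) +
        (if edg f V q.1 q.2.2 = edg f V q'.1 q'.2.1 then 1 else 0) +
        (if edg f V q.1 q.2.2 = edg f V q'.1 q'.2.2 then 1 else 0)) +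
        (m + 1) ^ 2 * ((if edg f V q.1 q.2.1 = edg f V q'.1 q'.2.1 ∧
            edg f V q.1 q.2.2 = edg f V q'.1 q'.2.2 then 1 else 0) +
          (if edg f V q.1 q.2.1 = edg f V q'.1 q'.2.2 ∧
            edg f V q.1 q.2.2 = edg f V q'.1 q'.2.1 then 1 else 0))) := by
    intro q hq q' hq'
    have h1 := hJm q hq
    have h1' := hJm q' hq'
    refine le_trans (Nat.mul_le_mul_right _ (card_le_card ?_))
      (card_pairs m (edg f V q.1 q.2.1) (edg f V q.1 q.2.2) (edg f V q'.1 q'.2.1)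
        (edg f V q'.1 q'.2.2) (hne q.1 h1.1 _ _ (by omega) h1.2.2.2)
        (hne q'.1 h1'.1 _ _ (by omega) h1'.2.2.2))
    intro c hc
    rw [mem_inter, hZ, mem_filter, mem_filter] at hc
    rw [mem_filter]
    refine ⟨mem_univ _, ⟨(hc.1.2 _ (by omega)).mpr (Or.inl rfl),
      (hc.1.2 _ (by omega)).mpr (Or.inr rfl)⟩, (hc.2.2 _ (by omega)).mpr (Or.inl rfl),
      (hc.2.2 _ (by omega)).mpr (Or.inr rfl)⟩
  have hrow : ∀ q ∈ Q, ∑ q' ∈ Q, (Z q ∩ Z q').card * (m + 1) ^ 4 ≤ (m + 1) ^ X *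
      (Q.card + (m + 1) * (4 * h ^ 2) + (m + 1) ^ 2 * (2 * h)) := by
    intro q hq
    refine le_trans (sum_le_sum fun q' hq' => hpair q hq q' hq') ?_
    rw [← mul_sum]
    refine Nat.mul_le_mul_left _ ?_
    rw [sum_add_distrib, sum_add_distrib, ← mul_sum, ← mul_sum, sum_add_distrib, sum_add_distrib,
      sum_add_distrib, sum_add_distrib]
    simp only [← card_filter]
    have e1 := cnt1 (edg f V q.1 q.2.1)
    have e2 := cnt1' (edg f V q.1 q.2.1)
    have e3 := cnt1 (edg f V q.1 q.2.2)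
    have e4 := cnt1' (edg f V q.1 q.2.2)
    have e5 := cnt2 (edg f V q.1 q.2.1) (edg f V q.1 q.2.2)
    have e6 := cnt2' (edg f V q.1 q.2.1) (edg f V q.1 q.2.2)
    refine Nat.add_le_add (Nat.add_le_add ?_ (Nat.mul_le_mul_left _ ?_))
      (Nat.mul_le_mul_left _ ?_)
    · rw [sum_const, smul_eq_mul, mul_one]
    · omega
    · omega
  have hall : (∑ q ∈ Q, ∑ q' ∈ Q, (Z q ∩ Z q').card) * (m + 1) ^ 4 ≤ Q.card * ((m + 1) ^ X *
      (Q.card + (m + 1) * (4 * h ^ 2) + (m + 1) ^ 2 * (2 * h))) := by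
    rw [sum_mul, ← smul_eq_mul (a := Q.card), ← sum_const]
    refine sum_le_sum fun q hq => ?_
    rw [sum_mul]
    exact hrow q hq
  -- real numbers
  have hMpos : (0 : ℝ) < (m : ℝ) + 1 := by positivity
  set N : ℝ := (Fintype.card α : ℝ) with hNdef
  have hNr : 4 * ((m : ℝ) + 1) ^ 2 ≤ N := by rw [hNdef]; exact_mod_cast hN
  have hM4 : (4 : ℝ) ≤ (m : ℝ) + 1 := by
    have : 4 ≤ m + 1 := by omega
    exact_mod_cast this
  have hhr : (1 : ℝ) ≤ h := by exact_mod_cast hh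
  have hNpos : 0 < N := lt_of_lt_of_le (by positivity) hNr
  have hcardX : (Fintype.card (Fin 2 × α → Fin (m + 1)) : ℝ) = ((m : ℝ) + 1) ^ X := by
    rw [Fintype.card_fun, Fintype.card_fin]
    push_cast
    rfl
  have hQN : (Q.card : ℝ) ≤ N * h ^ 2 := by
    rw [hQc, hNdef]
    push_cast
    refine mul_le_mul_of_nonneg_right (by exact_mod_cast hSN) (by positivity)
  have hQN2 : N * h ^ 2 ≤ 2 * (Q.card : ℝ) := by
    rw [hQc, hNdef]
    push_cast
    have h1 : (Fintype.card α : ℝ) ≤ 2 * S.card := by exact_mod_cast hf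
    nlinarith [sq_nonneg (h : ℝ)]
  set y : ℝ := N * h ^ 2 / (8 * ((m : ℝ) + 1) ^ 2) with hy
  set A : ℝ := 7 / 4 * (N ^ 2 * h ^ 4) / ((m : ℝ) + 1) ^ 4 with hA
  have hy0 : 0 < y := by rw [hy]; positivity
  have hA0 : 0 < A := by rw [hA]; positivity
  have hmean : 2 * y * Fintype.card (Fin 2 × α → Fin (m + 1)) ≤ ∑ q ∈ Q, ((Z q).card : ℝ) := by
    have h1 : ∀ q ∈ Q, ((m : ℝ) + 1) ^ X / (2 * ((m : ℝ) + 1) ^ 2) ≤ ((Z q).card : ℝ) := by
      intro q hq
      have h2 := hJm q hq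
      have h3 := card_two m len (edg f V q.1) (fun a b hab hb => hne q.1 h2.1 a b hab hb) hm
        q.2.1 q.2.2 (by omega) h2.2.2.2
      rw [div_le_iff₀ (by positivity)]
      have h4 : ((m : ℝ) + 1) ^ Fintype.card (Fin 2 × α) ≤
          2 * ((m : ℝ) + 1) ^ 2 * ((Z q).card : ℝ) := by
        exact_mod_cast h3
      rw [hX]
      linarith
    have h5 : (Q.card : ℝ) * (((m : ℝ) + 1) ^ X / (2 * ((m : ℝ) + 1) ^ 2)) ≤
        ∑ q ∈ Q, ((Z q).card : ℝ) := by
      rw [← nsmul_eq_mul, ← sum_const]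
      exact sum_le_sum h1
    refine le_trans ?_ h5
    rw [hcardX, hy]
    have h6 : 2 * (N * h ^ 2 / (8 * ((m : ℝ) + 1) ^ 2)) * ((m : ℝ) + 1) ^ X =
        (N * h ^ 2 / 2) * (((m : ℝ) + 1) ^ X / (2 * ((m : ℝ) + 1) ^ 2)) := by
      field_simp
      ring
    rw [h6]
    refine mul_le_mul_of_nonneg_right (by linarith) (by positivity)
  have hsq : ∑ q ∈ Q, ∑ q' ∈ Q, ((Z q ∩ Z q').card : ℝ) ≤
      A * Fintype.card (Fin 2 × α → Fin (m + 1)) := by
    have h1 : (∑ q ∈ Q, ∑ q' ∈ Q, ((Z q ∩ Z q').card : ℝ)) * ((m : ℝ) + 1) ^ 4 ≤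
        Q.card * (((m : ℝ) + 1) ^ X *
      (Q.card + ((m : ℝ) + 1) * (4 * (h : ℝ) ^ 2) + ((m : ℝ) + 1) ^ 2 * (2 * h))) := by
      exact_mod_cast hall
    have h2 : (Q.card : ℝ) * (Q.card + ((m : ℝ) + 1) * (4 * (h : ℝ) ^ 2) +
        ((m : ℝ) + 1) ^ 2 * (2 * h)) ≤ 7 / 4 * (N ^ 2 * h ^ 4) := by
      have h3 : ((m : ℝ) + 1) * (4 * (h : ℝ) ^ 2) ≤ N * h ^ 2 / 4 := by
        have h4 : 16 * ((m : ℝ) + 1) ≤ N := by nlinarith
        have h5 : 0 ≤ (h : ℝ) ^ 2 := sq_nonneg _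
        nlinarith
      have h4 : ((m : ℝ) + 1) ^ 2 * (2 * h) ≤ N * h ^ 2 / 2 := by
        have h5 : ((m : ℝ) + 1) ^ 2 * (2 * h) ≤ N / 4 * (2 * h) := by
          refine mul_le_mul_of_nonneg_right (by linarith) (by positivity)
        have h6 : N / 4 * (2 * h) ≤ N * h ^ 2 / 2 := by
          have : (h : ℝ) ≤ h ^ 2 := by nlinarith
          nlinarith
        linarith
      have h5 : (Q.card : ℝ) + ((m : ℝ) + 1) * (4 * (h : ℝ) ^ 2) +
        ((m : ℝ) + 1) ^ 2 * (2 * h) ≤ 7 / 4 * (N * h ^ 2) := by linarith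
      have h6 : (0 : ℝ) ≤ Q.card := Nat.cast_nonneg _
      calc (Q.card : ℝ) * (Q.card + ((m : ℝ) + 1) * (4 * (h : ℝ) ^ 2) +
        ((m : ℝ) + 1) ^ 2 * (2 * h)) ≤ Q.card * (7 / 4 * (N * h ^ 2)) :=
            mul_le_mul_of_nonneg_left h5 h6
        _ ≤ (N * h ^ 2) * (7 / 4 * (N * h ^ 2)) :=
            mul_le_mul_of_nonneg_right hQN (by positivity)
        _ = 7 / 4 * (N ^ 2 * h ^ 4) := by ring
    rw [hcardX, hA, div_mul_eq_mul_div, le_div_iff₀ (by positivity)]
    refine h1.trans ?_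
    calc (Q.card : ℝ) * (((m : ℝ) + 1) ^ X * (Q.card + ((m : ℝ) + 1) * (4 * (h : ℝ) ^ 2) +
          ((m : ℝ) + 1) ^ 2 * (2 * h)))
        = ((m : ℝ) + 1) ^ X * ((Q.card : ℝ) * (Q.card + ((m : ℝ) + 1) * (4 * (h : ℝ) ^ 2) +
          ((m : ℝ) + 1) ^ 2 * (2 * h))) := by ring
      _ ≤ ((m : ℝ) + 1) ^ X * (7 / 4 * (N ^ 2 * h ^ 4)) :=
          mul_le_mul_of_nonneg_left h2 (by positivity)
      _ = _ := by ring
  have hpz := pz Q Z y A hy0 hA0 hmean hsq
  set G := univ.filter fun ω => y ≤ ((Q.filter fun q => ω ∈ Z q).card : ℝ) with hG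
  have hfin : (Fintype.card (Fin 2 × α → Fin (m + 1)) : ℝ) ≤ 112 * G.card := by
    have h1 : y ^ 2 = N ^ 2 * h ^ 4 / (64 * ((m : ℝ) + 1) ^ 4) := by
      rw [hy, div_pow]
      ring
    have hc : 0 < N ^ 2 * (h : ℝ) ^ 4 / (64 * ((m : ℝ) + 1) ^ 4) := by positivity
    rw [h1] at hpz
    have h2 : A * (G.card : ℝ) = N ^ 2 * (h : ℝ) ^ 4 / (64 * ((m : ℝ) + 1) ^ 4) *
        (112 * G.card) := by
      rw [hA]
      field_simp
      ring
    rw [h2] at hpz
    exact le_of_mul_le_mul_left hpz hc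
  have hfin' : Fintype.card (Fin 2 × α → Fin (m + 1)) ≤ 112 * G.card := by exact_mod_cast hfin
  refine hfin'.trans (Nat.mul_le_mul_left _ (card_le_card ?_))
  intro c hc
  rw [hG, mem_filter] at hc
  rw [mem_filter]
  refine ⟨mem_univ _, ?_⟩
  have h1 : (Q.filter fun q => c ∈ Z q).card ≤ (univ.filter fun v : α =>
      Serve f (univ.filter fun e => c e = 0) h V len v).card := by
    refine card_le_card_of_injOn (fun q => q.1) ?_ ?_
    · intro q hq
      rw [mem_coe, mem_filter] at hq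
      have h2 := hJm q hq.1
      have h3 := hq.2
      rw [hZ, mem_filter] at h3
      rw [mem_coe, mem_filter]
      refine ⟨mem_univ _, hsimple _ h2.1, q.2.1, q.2.2, h2.2.1, h2.2.2.1, h2.2.2.2,
        fun k hk => ?_⟩
      rw [← h3.2 k hk, mem_filter]
      simp
    · rintro ⟨v, i, j⟩ hq ⟨v', i', j'⟩ hq' hqq
      rw [mem_coe, mem_filter] at hq hq'
      have h2 := hJm _ hq.1
      have h2' := hJm _ hq'.1
      have h3 := hq.2
      have h3' := hq'.2
      rw [hZ, mem_filter] at h3 h3'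
      simp only at hqq h2 h2' h3 h3'
      subst hqq
      have h4 := (h3'.2 i (by omega)).mp ((h3.2 i (by omega)).mpr (Or.inl rfl))
      have h5 := (h3'.2 j (by omega)).mp ((h3.2 j (by omega)).mpr (Or.inr rfl))
      have e1 : i = i' := by omega
      have e2 : j = j' := by omega
      rw [e1, e2]
  have h2 : y ≤ ((univ.filter fun v : α =>
      Serve f (univ.filter fun e => c e = 0) h V len v).card : ℝ) :=
    hc.2.trans (by exact_mod_cast h1)
  rw [hy, div_le_iff₀ (by positivity)] at h2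
  have h3 : N * (h : ℝ) ^ 2 ≤ 8 * ((m : ℝ) + 1) ^ 2 * ((univ.filter fun v : α =>
      Serve f (univ.filter fun e => c e = 0) h V len v).card : ℝ) := by linarith
  rw [hNdef] at h3
  exact_mod_cast h3

open Classical in
/-- **Bulks**, second version. -/
theorem bulks2 {ι : Type*} (W : Finset ι) (V : ι → ℕ → Ltr) (len : ι → ℕ) (h ell T : ℕ)
    (hh : 1 ≤ h) (hl : ∀ w ∈ W, 2 * h ≤ len w ∧ len w ≤ ell)
    (hV : ∀ w ∈ W, ∀ i, i + 1 < len w → V w (i + 1) ≠ linv (V w i))
    (hN : 16 * ell ^ 2 ≤ Fintype.card α) (hW : 255 ^ T * W.card < 256 ^ T) :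
    ∃ B : Fin T → (Fin 2 → Perm α) × Finset (Fin 2 × α), ∀ w ∈ W, ∃ t,
      Fintype.card α * h ^ 2 ≤ 32 * ell ^ 2 *
        (univ.filter fun v : α => Serve (B t).1 (B t).2 h (V w) (len w) v).card := by
  rcases W.eq_empty_or_nonempty with hWe | ⟨w₀, hw₀⟩
  · refine ⟨fun _ => (fun _ => 1, ∅), fun w hw => ?_⟩
    rw [hWe] at hw
    exact absurd hw (notMem_empty _)
  have hell : 2 ≤ ell := by
    have := hl w₀ hw₀
    omega
  obtain ⟨m, hm⟩ : ∃ m, m + 1 = 2 * ell := ⟨2 * ell - 1, by omega⟩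
  set β := (Fin 2 → Perm α) × (Fin 2 × α → Fin (m + 1)) with hβ
  set R : ι → β → Prop := fun w b => Fintype.card α * h ^ 2 ≤ 32 * ell ^ 2 *
    (univ.filter fun v : α => Serve b.1 (univ.filter fun e => b.2 e = 0) h (V w) (len w) v).card
    with hR
  have : Nonempty β := ⟨(fun _ => 1, fun _ => 0)⟩
  suffices hsuff : ∀ w ∈ W, Fintype.card β ≤ 256 * (univ.filter fun b => R w b).card by
    obtain ⟨B, hB⟩ := rounds2 R T W hsuff hW
    exact ⟨fun t => ((B t).1, univ.filter fun e => (B t).2 e = 0), fun w hw => hB w hw⟩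
  intro w hw
  obtain ⟨hl1, hl2⟩ := hl w hw
  have hlen1 : 1 ≤ len w := by omega
  have hl3 : len w ^ 2 ≤ ell ^ 2 := Nat.pow_le_pow_left hl2 2
  have hbad := card_bad (α := α) (V w) (len w) hlen1 (hV w hw) (by
    have h2 : len w ≤ len w ^ 2 := by nlinarith
    omega)
  set Bd := univ.filter fun f : Fin 2 → Perm α =>
      Fintype.card α < 2 * (univ.filter fun v : α => ¬ Simple f (V w) (len w) v).card with hBd
  set RR : (Fin 2 → Perm α) → Finset (Fin 2 × α → Fin (m + 1)) := fun f =>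
    univ.filter fun c => R w (f, c) with hRR
  set Om := Fintype.card (Fin 2 × α → Fin (m + 1)) with hOm
  have hgood : ∀ f, f ∉ Bd → Om ≤ 112 * (RR f).card := by
    intro f hf
    rw [hBd, mem_filter, not_and] at hf
    have hf' := hf (mem_univ _)
    push Not at hf'
    have hsum := card_filter_add_card_filter_not (s := (univ : Finset α))
      (fun v => Simple f (V w) (len w) v)
    rw [card_univ] at hsum
    have hN2 : 4 * (m + 1) ^ 2 ≤ Fintype.card α := by
      rw [hm]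
      refine le_trans (le_of_eq ?_) hN
      ring
    have hg := card_good2 f (V w) (len w) h m hh hl1 (by omega) (hV w hw) hN2 (by omega)
    refine le_trans hg (Nat.mul_le_mul_left 112 (card_le_card ?_))
    intro c hc
    rw [hRR]
    simp only [mem_filter, mem_univ, true_and, hR] at hc ⊢
    have hm4 : 8 * (m + 1) ^ 2 = 32 * ell ^ 2 := by
      rw [hm]
      ring
    rw [hm4] at hc
    exact hc
  have hsplit : (univ.filter fun b : β => R w b).card = ∑ f, (RR f).card := by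
    rw [card_filter, Fintype.sum_prod_type]
    refine sum_congr rfl fun f _ => ?_
    rw [hRR, card_filter]
  have h4 : 3 * Fintype.card (Fin 2 → Perm α) * Om ≤ 4 * (112 * ∑ f, (RR f).card) := by
    have e2 : (univ.filter (fun f => f ∉ Bd)).card * Om ≤
        112 * ∑ f, (RR f).card := by
      rw [mul_sum]
      calc (univ.filter (fun f => f ∉ Bd)).card * Om
          = ∑ f ∈ univ.filter (fun f => f ∉ Bd), Om := by rw [sum_const, smul_eq_mul]
        _ ≤ ∑ f ∈ univ.filter (fun f => f ∉ Bd), 112 * (RR f).card :=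
            sum_le_sum fun f hf => hgood f (mem_filter.mp hf).2
        _ ≤ ∑ f, 112 * (RR f).card := sum_le_sum_of_subset (subset_univ _)
    have e3 := card_filter_add_card_filter_not (s := (univ : Finset (Fin 2 → Perm α)))
      (fun f => f ∈ Bd)
    rw [card_univ, filter_mem_eq_inter, univ_inter] at e3
    have e4 : 3 * Fintype.card (Fin 2 → Perm α) ≤
        4 * (univ.filter (fun f : Fin 2 → Perm α => f ∉ Bd)).card := by omega
    calc 3 * Fintype.card (Fin 2 → Perm α) * Om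
        ≤ 4 * (univ.filter (fun f : Fin 2 → Perm α => f ∉ Bd)).card * Om :=
          Nat.mul_le_mul_right _ e4
      _ = 4 * ((univ.filter (fun f : Fin 2 → Perm α => f ∉ Bd)).card * Om) := by ring
      _ ≤ _ := Nat.mul_le_mul_left _ e2
  have hβc : Fintype.card β = Fintype.card (Fin 2 → Perm α) * Om := Fintype.card_prod _ _
  rw [hsplit, hβc]
  have h5 : 3 * (Fintype.card (Fin 2 → Perm α) * Om) ≤ 448 * ∑ f, (RR f).card := by
    calc 3 * (Fintype.card (Fin 2 → Perm α) * Om) = 3 * Fintype.card (Fin 2 → Perm α) * Om := by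
          ring
      _ ≤ 4 * (112 * ∑ f, (RR f).card) := h4
      _ = 448 * ∑ f, (RR f).card := by ring
  omega

end Pool.LW.Bk

namespace Pool.LW

theorem Bulk2.pow_bound (t k : ℕ) (hk : k < 2 ^ t) :
    255 ^ (256 * t) * k < 256 ^ (256 * t) := by
  have h1 : 2 * 255 ^ 256 ≤ 256 ^ 256 := by norm_num
  have h2 : (2 * 255 ^ 256) ^ t ≤ (256 ^ 256) ^ t := Nat.pow_le_pow_left h1 t
  rw [mul_pow, ← pow_mul, ← pow_mul] at h2
  calc 255 ^ (256 * t) * k < 255 ^ (256 * t) * 2 ^ t :=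
        Nat.mul_lt_mul_of_pos_left hk (by positivity)
    _ = 2 ^ t * 255 ^ (256 * t) := by ring
    _ ≤ 256 ^ (256 * t) := h2

theorem bulks2 (N l h t : ℕ) (hh : 1 ≤ h) (hN : 16 * l ^ 2 ≤ N) {I : Type} [Fintype I]
    (hI : Fintype.card I < 2 ^ t) (V : I → ℕ → Lt) (len : I → ℕ)
    (hlen : ∀ i, 2 * h < len i ∧ len i ≤ l)
    (hV : ∀ i k, k + 1 < len i → V i (k + 1) ≠ iv (V i k)) :
    ∃ (σ : Fin (256 * t) → Fin 2 → Equiv.Perm (Fin N))
      (del : Fin (256 * t) → Fin 2 × Fin N → Bool),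
      ∀ i, ∃ τ, N * h ^ 2 ≤
        32 * l ^ 2 * Nat.card {v : Fin N // GoodV (σ τ) (del τ) (V i) (len i) h v} := by
  classical
  obtain ⟨B, hB⟩ := Bk.bulks2 (α := Fin N) (Finset.univ : Finset I)
    V len h l (256 * t) hh (fun i _ => ⟨(hlen i).1.le, (hlen i).2⟩) (fun i _ k hk => hV i k hk)
    (by rw [Fintype.card_fin]; exact hN) (by rw [Finset.card_univ]; exact Bulk2.pow_bound t _ hI)
  refine ⟨fun t => (B t).1, fun t e => decide (e ∈ (B t).2), fun i => ?_⟩
  obtain ⟨t, ht⟩ := hB i (Finset.mem_univ i)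
  refine ⟨t, ?_⟩
  rw [Fintype.card_fin] at ht
  refine ht.trans (Nat.mul_le_mul_left _ (le_of_eq ?_))
  rw [Nat.card_eq_fintype_card, Fintype.card_subtype]
  congr 1
  ext v
  simp only [Finset.mem_filter, Finset.mem_univ, true_and]
  exact Rounds.serve_iff _ _ _ _ _ _

end Pool.LW
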