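import Pool.Agent.Work.MP_99279c_al.LW.Per

/-!
# The class words at entrances, exits and junctions: separation and distinctness
-/

namespace Pool.LW

namespace Cls

theorem seg_get {W : ℤ → Lt} {a b : ℤ} {i : ℕ} (hi : (i : ℤ) < b - a) :
    (seg W a b)[i]? = some (W (a + i)) := by
  unfold seg
  rw [List.getElem?_map, List.getElem?_range (by omega)]
  rfl

theorem wv_get {l : List Lt} {i : ℕ} (hi : i < l.length) :
    (wv l)[i]? = (l[l.length - 1 - i]?).map iv := by
  unfold wv
  rw [List.getElem?_reverse (by simpa using hi), List.getElem?_map, List.length_map]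

theorem length_seg (W : ℤ → Lt) (a b : ℤ) : (seg W a b).length = (b - a).toNat := by
  simp [seg]

theorem fw_get {W : ℤ → Lt} {m x : ℤ} {i : ℕ} (hi : (i : ℤ) < m) :
    (seg W x (x + m))[i]? = some (W (x + i)) := seg_get (by omega)

theorem bw_get {W : ℤ → Lt} {m y : ℤ} {i : ℕ} (hi : (i : ℤ) < m) :
    (wv (seg W (y - m) y))[i]? = some (iv (W (y - 1 - i))) := by
  have hl : (seg W (y - m) y).length = m.toNat := by
    rw [length_seg]
    congr 1
    omega
  rw [wv_get (by omega), hl, seg_get (by omega)]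
  simp only [Option.map_some]
  congr 3
  omega

theorem fw_eq {W W' : ℤ → Lt} {m x x' : ℤ} (h : seg W x (x + m) = seg W' x' (x' + m)) {i : ℤ}
    (h0 : 0 ≤ i) (hi : i < m) : W (x + i) = W' (x' + i) := by
  obtain ⟨k, rfl⟩ := Int.eq_ofNat_of_zero_le h0
  have h1 := fw_get (W := W) (x := x) hi
  have h2 := fw_get (W := W') (x := x') hi
  rw [h, h2] at h1
  exact (Option.some.inj h1).symm

theorem bw_eq {W W' : ℤ → Lt} {m y y' : ℤ}
    (h : wv (seg W (y - m) y) = wv (seg W' (y' - m) y')) {i : ℤ}
    (h0 : 0 ≤ i) (hi : i < m) : W (y - 1 - i) = W' (y' - 1 - i) := by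
  obtain ⟨k, rfl⟩ := Int.eq_ofNat_of_zero_le h0
  have h1 := bw_get (W := W) (y := y) hi
  have h2 := bw_get (W := W') (y := y') hi
  rw [h, h2] at h1
  exact iv_inj (Option.some.inj h1).symm

theorem fb_eq {W W' : ℤ → Lt} {m x y : ℤ}
    (h : seg W x (x + m) = wv (seg W' (y - m) y)) {i : ℤ}
    (h0 : 0 ≤ i) (hi : i < m) : W (x + i) = iv (W' (y - 1 - i)) := by
  obtain ⟨k, rfl⟩ := Int.eq_ofNat_of_zero_le h0
  have h1 := fw_get (W := W) (x := x) hi
  have h2 := bw_get (W := W') (y := y) hi
  rw [h, h2] at h1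
  exact (Option.some.inj h1).symm

theorem per_of_fw {W : ℤ → Lt} {m x x' : ℤ} (h : seg W x (x + m) = seg W x' (x' + m)) :
    Per W (x' - x) x (x' + m) := by
  intro i h1 h2
  have := fw_eq h (i := i - x) (by omega) (by omega)
  have e1 : x + (i - x) = i := by ring
  have e2 : x' + (i - x) = i + (x' - x) := by ring
  rw [e1, e2] at this
  exact this.symm

theorem per_of_bw {W : ℤ → Lt} {m y y' : ℤ}
    (h : wv (seg W (y - m) y) = wv (seg W (y' - m) y')) : Per W (y' - y) (y - m) y' := by
  intro i h1 h2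
  have := bw_eq h (i := y - 1 - i) (by omega) (by omega)
  have e1 : y - 1 - (y - 1 - i) = i := by ring
  have e2 : y' - 1 - (y - 1 - i) = i + (y' - y) := by ring
  rw [e1, e2] at this
  exact this.symm

theorem lp_num {P h m lam L : ℤ} {D : ℕ} (Q : Par P h m lam L D) {X p : ℤ} (hX : lam ≤ X)
    (hp : 1 ≤ p) (hpP : p ≤ P) :
    p ∣ lp P m D X p ∧ 8 * m < lp P m D X p ∧ lp P m D X p + 2 * m ≤ X := by
  obtain ⟨h1, h2, h3, h4, h5, h6, h7⟩ := Q
  have h8 : (16 : ℤ) ≤ D := by exact_mod_cast h4
  have hDp : 0 < (D : ℤ) * p := by positivity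
  have hDm : 16 * m ≤ D * m := mul_le_mul_of_nonneg_right h8 (by omega)
  have hdiv := Int.emod_add_mul_ediv (X - (2 * m + 4 * P)) (D * p)
  have hm0 := Int.emod_nonneg (X - (2 * m + 4 * P)) hDp.ne'
  have hm1 := Int.emod_lt_of_pos (X - (2 * m + 4 * P)) hDp
  unfold lp
  set q := (X - (2 * m + 4 * P)) / (D * p) with hq
  set t := (X - (2 * m + 4 * P)) % (D * p) with ht
  have hDpP : (D : ℤ) * p ≤ D * P := mul_le_mul_of_nonneg_left hpP (by omega)
  have key : (D : ℤ) * (p * q) = X - (2 * m + 4 * P) - t := by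
    rw [← hdiv]
    ring
  have hlow : (D : ℤ) * (8 * m) < D * (p * q) := by
    have : (D : ℤ) * (8 * m) = 8 * (D * m) := by ring
    rw [key, this]
    omega
  have hlow' : 8 * m < p * q := lt_of_mul_lt_mul_left hlow (by omega)
  refine ⟨dvd_mul_right _ _, hlow', ?_⟩
  have : p * q ≤ D * (p * q) := by nlinarith
  omega

end Cls

open Cls

theorem sep_c1m_good {W : ℤ → Lt} {P m a b : ℤ} (hm : P < m)
    (h : ∀ y, a ≤ y → y < b → good W P m y) : Sep P a b (c1m W m) := by
  intro y y' h1 h2 h3 h4 heq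
  exact h y h1 (by omega) (y' - y) (by omega) h4 ((per_of_bw heq).mono le_rfl h2.le)

theorem sep_c1p_good {W : ℤ → Lt} {P m a b : ℤ} (hm : P < m)
    (h : ∀ x, a ≤ x → x < b → good W P m (x + m)) : Sep P a b (c1p W m) := by
  intro x x' h1 h2 h3 h4 heq
  exact h x h1 (by omega) (x' - x) (by omega) h4
    ((per_of_fw heq).mono (by omega) (by omega))

theorem sep_c1p_run {P h m lam L : ℤ} {D : ℕ} (Q : Par P h m lam L D) {W : ℤ → Lt}
    {s e p : ℤ} (h1 : LR W P lam s e p) : Sep P (s - h) s (c1p W m) := by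
  intro x x' k1 k2 k3 k4 heq
  obtain ⟨q1, q2, q3, q4, q5⟩ := Per.par Q
  have a1 := h1.p1
  have a2 := h1.pP
  have a3 := h1.len
  have hp : Per W p (s - 1 + 1) e := h1.per.mono (by omega) le_rfl
  exact h1.left (Per.three_left (per_of_fw heq) hp (by omega) (by omega) (by omega) (by omega)
    (by omega))

theorem sep_c1m_run {P h m lam L : ℤ} {D : ℕ} (Q : Par P h m lam L D) {W : ℤ → Lt}
    {s e p : ℤ} (h1 : LR W P lam s e p) : Sep P (e + 1) (e + h + 1) (c1m W m) := by
  intro y y' k1 k2 k3 k4 heq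
  obtain ⟨q1, q2, q3, q4, q5⟩ := Per.par Q
  have a1 := h1.p1
  have a2 := h1.pP
  have a3 := h1.len
  exact h1.right (Per.three_right (per_of_bw heq) h1.per (by omega) (by omega) (by omega)
    (by omega) (by omega))

/-- shifts by multiples of the period inside a run -/
theorem Cls.shift {W : ℤ → Lt} {P lam s e p : ℤ} (h1 : LR W P lam s e p) {k i j : ℤ}
    (hk : p ∣ k) (hk0 : 0 ≤ k) (hi : s ≤ i) (hj : j < e) (hij : j = i + k) : W j = W i :=
  (h1.per.of_dvd (by have := h1.p1; omega) hk0 hk).eq' hi hj hij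

theorem sep_c2p_run {P h m lam L : ℤ} {D : ℕ} (Q : Par P h m lam L D) {W : ℤ → Lt}
    (hW : Red W) {s e p : ℤ} (h1 : LR W P lam s e p) :
    Sep P (s - h) s (c2p W m s (lp P m D (e - s) p)) := by
  intro x x' k1 k2 k3 k4 heq
  obtain ⟨q1, q2, q3, q4, q5⟩ := Per.par Q
  have a1 := h1.p1
  have a2 := h1.pP
  have a3 := h1.len
  obtain ⟨l1, l2, l3⟩ := lp_num Q h1.len h1.p1 h1.pP
  set l := lp P m D (e - s) p with hl
  unfold c2p at heq
  rw [max_eq_left (by omega), max_eq_left (by omega)] at heq
  have hq : Per (Vp W s l) p (s - 1 + 1) (s + l) := by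
    intro i h2 h3
    unfold Vp
    rw [if_neg (by omega), if_neg (by omega)]
    congr 1
    exact (Cls.shift h1 (dvd_refl p) (by omega) (by omega) (by omega) (by ring)).symm
  have h4 := Per.three_left (per_of_fw heq) hq (by omega) (by omega) (by omega) (by omega)
    (by omega)
  unfold Vp at h4
  rw [if_neg (by omega), if_pos (by omega)] at h4
  have h5 : W (2 * s + l - 1 - (s - 1 + p)) = W s :=
    Cls.shift h1 (dvd_sub_self_right.mpr l1) (k := l - p) (by omega) (by omega) (by omega) (by ring)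
  rw [h5] at h4
  have h6 := hW (s - 1)
  rw [sub_add_cancel, ← h4, iv_iv] at h6
  exact h6 rfl

theorem sep_c2m_run {P h m lam L : ℤ} {D : ℕ} (Q : Par P h m lam L D) {W : ℤ → Lt}
    (hW : Red W) {s e p : ℤ} (h1 : LR W P lam s e p) :
    Sep P (e + 1) (e + h + 1) (c2m W m e (lp P m D (e - s) p)) := by
  intro y y' k1 k2 k3 k4 heq
  obtain ⟨q1, q2, q3, q4, q5⟩ := Per.par Q
  have a1 := h1.p1
  have a2 := h1.pP
  have a3 := h1.len
  obtain ⟨l1, l2, l3⟩ := lp_num Q h1.len h1.p1 h1.pP
  set l := lp P m D (e - s) p with hl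
  unfold c2m at heq
  have hq : Per (Vm W e l) p (e - l) e := by
    intro i h2 h3
    unfold Vm
    rw [if_neg (by omega), if_neg (by omega)]
    congr 1
    exact (Cls.shift h1 (dvd_refl p) (by omega) (by omega) (by omega) (by ring)).symm
  have h4 := Per.three_right (per_of_bw heq) hq (by omega) (by omega) (by omega) (by omega)
    (by omega)
  unfold Vm at h4
  rw [if_neg (by omega), if_pos (by omega)] at h4
  have h5 : W (e - 1) = W (2 * e - l - 1 - (e - p)) :=
    Cls.shift h1 (dvd_sub_self_right.mpr l1) (k := l - p) (by omega) (by omega) (by omega) (by ring)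
  rw [← h5] at h4
  have h6 := hW (e - 1)
  rw [sub_add_cancel, h4] at h6
  exact h6 rfl

/-- classes at the left end of a run differ -/
theorem c1p_ne_c2p {P h m lam L : ℤ} {D : ℕ} (Q : Par P h m lam L D) {W : ℤ → Lt}
    (hW : Red W) {s e p q : ℤ} (h1 : LR W P lam s e p) (hq : s ≤ q + 2 * h) (hq' : q < s + 2 * P) :
    c1p W m q ≠ c2p W m s (lp P m D (e - s) p) q := by
  intro heq
  obtain ⟨q1, q2, q3, q4, q5⟩ := Per.par Q
  have a1 := h1.p1
  have a2 := h1.pP
  have a3 := h1.len
  obtain ⟨l1, l2, l3⟩ := lp_num Q h1.len h1.p1 h1.pP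
  set l := lp P m D (e - s) p with hl
  have hs' : max s q < s + 2 * P := by omega
  have hs1 : s ≤ max s q := le_max_left _ _
  have hs2 : q ≤ max s q := le_max_right _ _
  have hs3 : max s q ≤ q + 2 * h := by omega
  unfold c1p c2p at heq
  set s' := max s q with hs
  have h2 := fw_eq heq (i := s' - q) (by omega) (by omega)
  unfold Vp at h2
  rw [add_sub_cancel, if_neg (lt_irrefl _)] at h2
  have h3 : W (s' + l) = W s' := Cls.shift h1 l1 (by omega) hs1 (by omega) rfl
  have h4 := hW (s' + l - 1)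
  rw [sub_add_cancel, h3, h2] at h4
  apply h4
  congr 2
  ring

/-- classes at the right end of a run differ -/
theorem c1m_ne_c2m {P h m lam L : ℤ} {D : ℕ} (Q : Par P h m lam L D) {W : ℤ → Lt}
    (hW : Red W) {s e p q : ℤ} (h1 : LR W P lam s e p) (hq : e ≤ q) (hq' : q ≤ e + h) :
    c1m W m q ≠ c2m W m e (lp P m D (e - s) p) q := by
  intro heq
  obtain ⟨q1, q2, q3, q4, q5⟩ := Per.par Q
  have a1 := h1.p1
  have a2 := h1.pP
  have a3 := h1.len
  obtain ⟨l1, l2, l3⟩ := lp_num Q h1.len h1.p1 h1.pP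
  set l := lp P m D (e - s) p with hl
  unfold c1m c2m at heq
  have h2 := bw_eq heq (i := q - e) (by omega) (by omega)
  unfold Vm at h2
  rw [if_neg (by omega)] at h2
  have e1 : q - 1 - (q - e) = e - 1 := by ring
  have e2 : 2 * e - l - 1 - (q - 1 - (q - e)) = e - l := by ring
  rw [e2, e1] at h2
  have h3 : W (e - 1) = W (e - l - 1) := Cls.shift h1 l1 (by omega) (by omega) (by omega) (by ring)
  have h4 := hW (e - l - 1)
  rw [sub_add_cancel, ← h3, h2, iv_iv] at h4
  exact h4 rfl

/-- the four classes at a junction are different -/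
theorem junction {P h m lam L : ℤ} {D : ℕ} (Q : Par P h m lam L D) {W : ℤ → Lt}
    (hW : Red W) {s e p s' e' p' : ℤ} (h1 : LR W P lam s e p) (h2 : LR W P lam s' e' p')
    (he : e < e') (hs : s' ≤ e + 2 * h) (hs' : e < s' + 2 * P) :
    c1p W m e ≠ c1m W m e ∧ c1p W m e ≠ c2m W m e (lp P m D (e - s) p) e ∧
      c2p W m s' (lp P m D (e' - s') p') e ≠ c1m W m e ∧
      c2p W m s' (lp P m D (e' - s') p') e ≠ c2m W m e (lp P m D (e - s) p) e := by
  obtain ⟨q1, q2, q3, q4, q5⟩ := Per.par Q
  have a1 := h1.p1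
  have a2 := h1.pP
  have a3 := h1.len
  have b1 := h2.p1
  have b2 := h2.pP
  have b3 := h2.len
  obtain ⟨l1, l2, l3⟩ := lp_num Q h1.len h1.p1 h1.pP
  obtain ⟨n1, n2, n3⟩ := lp_num Q h2.len h2.p1 h2.pP
  set l := lp P m D (e - s) p with hl
  set l' := lp P m D (e' - s') p' with hl'
  have hred : W e ≠ iv (W (e - 1)) := by
    have := hW (e - 1)
    rwa [sub_add_cancel] at this
  -- the first letter of `c2m`
  have hVm : ∀ i, 0 ≤ i → i < m → iv (Vm W e l (e - 1 - i)) = W (e - l + i) := by
    intro i _ _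
    unfold Vm
    rw [if_neg (by omega), iv_iv]
    congr 1
    ring
  have hVm0 : iv (Vm W e l (e - 1 - 0)) = W (e - p) := by
    rw [hVm 0 le_rfl (by omega), add_zero]
    exact (Cls.shift h1 (dvd_sub_self_right.mpr l1) (k := l - p) (by omega) (by omega) (by omega)
      (by ring)).symm
  refine ⟨?_, ?_, ?_, ?_⟩
  · intro heq
    have := fb_eq heq (i := 0) le_rfl (by omega)
    rw [add_zero, sub_zero] at this
    exact hred this
  · intro heq
    have := fb_eq heq (i := 0) le_rfl (by omega)
    rw [add_zero, hVm0] at this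
    exact h1.right this.symm
  · intro heq
    rcases lt_or_ge e s' with hc | hc
    · unfold c2p at heq
      have := fb_eq heq (i := 0) le_rfl (by omega)
      rw [max_eq_left hc.le, Vp, if_pos (by omega), add_zero, sub_zero] at this
      exact hred this
    · unfold c2p at heq
      have := fb_eq heq (i := e - s') (by omega) (by omega)
      rw [max_eq_right hc, Vp, if_neg (by omega)] at this
      have h3 := iv_inj this
      have e1 : e - 1 - (e - s') = s' - 1 := by ring
      rw [e1] at h3
      have h4 : W (2 * e + l' - 1 - (e + (e - s'))) = W (s' - 1 + p') :=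
        Cls.shift h2 (dvd_sub_self_right.mpr n1) (k := l' - p') (by omega) (by omega) (by omega)
          (by ring)
      rw [h4] at h3
      exact h2.left h3
  · intro heq
    rcases lt_or_ge e s' with hc | hc
    · unfold c2p at heq
      have := fb_eq heq (i := 0) le_rfl (by omega)
      rw [max_eq_left hc.le, Vp, if_pos (by omega), add_zero, hVm0] at this
      exact h1.right this.symm
    · unfold c2p at heq
      rw [max_eq_right hc] at heq
      have hall : ∀ i, 0 ≤ i → i < m → iv (W (e + l' - 1 - i)) = W (e - l + i) := by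
        intro i hi0 him
        have := fb_eq heq (i := i) hi0 him
        rw [hVm i hi0 him, Vp, if_neg (by omega)] at this
        rw [← this]
        congr 2
        ring
      rcases lt_or_eq_of_le hc with hlt | heq'
      · have h3 := hall 0 le_rfl (by omega)
        rw [sub_zero, add_zero] at h3
        have h4 : W (e + l' - 1) = W (e - 1) :=
          Cls.shift h2 n1 (by omega) (by omega) (by omega) (by ring)
        have h5 : W (e - 1) = W (e - l - 1) :=
          Cls.shift h1 l1 (by omega) (by omega) (by omega) (by ring)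
        have h6 := hW (e - l - 1)
        rw [sub_add_cancel, ← h5, ← h4] at h6
        exact h6 h3.symm
      · subst heq'
        have c1 : W (s' - 1) = W (s' - l + (p - 1)) :=
          Cls.shift h1 (dvd_sub_self_right.mpr l1) (k := l - p) (by omega) (by omega) (by omega)
            (by ring)
        have c2 := hall (p - 1) (by omega) (by omega)
        have c3 : W (s' + l' - 1 - (p - 1)) = W (s' + l' - 1 - (p - 1 + p')) :=
          Cls.shift h2 (dvd_refl p') (by omega) (by omega) (by omega) (by ring)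
        have c4 := hall (p - 1 + p') (by omega) (by omega)
        have c5 : W (s' - l + (p - 1 + p')) = W (s' - l + (p' - 1)) :=
          Cls.shift h1 (dvd_refl p) (by omega) (by omega) (by omega) (by ring)
        have c6 := hall (p' - 1) (by omega) (by omega)
        have c7 : W (s' + l' - 1 - (p' - 1)) = W s' :=
          Cls.shift h2 (dvd_sub_self_right.mpr n1) (k := l' - p') (by omega) (by omega) (by omega)
            (by ring)
        have c8 : W (s' - 1) = iv (W s') := by
          rw [c1, ← c2, c3, c4, c5, ← c6, c7]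
        apply hred
        rw [c8, iv_iv]

end Pool.LW
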