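import Pool.Agent.Work.MP_99279c_al.LW.Seg

/-!
Second version (exponent 7/6): definitions. Runs are the maximal `P`-periodic intervals of
length at least `lam0`; those of length at least `lam` are mandatory.
-/

namespace Pool.LW

/-- the parameters (second version) -/
structure Par2 (P h m lam0 lam L : ℤ) (D t : ℕ) : Prop where
  hP : 1 ≤ P
  hh : h = 4 * P
  hm : m = 4 * h
  hD : 16 ≤ D
  ht : 1 ≤ t
  hlam0 : lam0 = 50 * (m * t)
  hlam : lam = 2 * (D * lam0)
  hL : L = 2 * lam

/-- `l` is a good loop length, used `k` times, for a run of length `X` and period `p`. -/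
structure LP (P m X p l : ℤ) (k : ℕ) : Prop where
  dvd : p ∣ l
  k1 : 1 ≤ k
  lo : 2 * m + 4 * P ≤ X - k * l
  hi : (X - k * l) + 2 * m + 4 * P + 2 ≤ l

/-- the basic parameters -/
structure Bas (P h m : ℤ) : Prop where
  hP : 1 ≤ P
  hPh : 4 * P ≤ h
  hm : m = 4 * h

end Pool.LW
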