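import Pool.Agent.Work.MP_99279c_al.LW.Cls
import Pool.Agent.Work.MP_99279c_al.LW.Defs2

/-!
# Second version: class words at entrances, exits and junctions, with general loop lengths
-/

namespace Pool.LW

open Cls

/-- the numerical consequences of a loop length -/
theorem Cls.lp_num2 {P h m X p l : ℤ} {k : ℕ} (Q : Bas P h m) (hl : LP P m X p l k) :
    p ∣ l ∧ 4 * m + 8 * P + 2 ≤ l ∧ l + 2 * m + 4 * P ≤ X := by
  obtain ⟨h1, h2, h3⟩ := Q
  obtain ⟨a1, a2, a3, a4⟩ := hl
  have a5 : (1 : ℤ) ≤ k := by exact_mod_cast a2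
  have a6 : 1 * l ≤ k * l := mul_le_mul_of_nonneg_right a5 (by omega)
  refine ⟨a1, by omega, by omega⟩

theorem sep2_c1p_run {P h m lam0 : ℤ} (Q : Bas P h m) (hlam : m ≤ lam0) {W : ℤ → Lt}
    {s e p : ℤ} (h1 : LR W P lam0 s e p) : Sep P (s - h) s (c1p W m) := by
  intro x x' k1 k2 k3 k4 heq
  obtain ⟨q1, q2, q3⟩ := Q
  have a1 := h1.p1
  have a2 := h1.pP
  have a3 := h1.len
  have hp : Per W p (s - 1 + 1) e := h1.per.mono (by omega) le_rfl
  exact h1.left (Per.three_left (per_of_fw heq) hp (by omega) (by omega) (by omega) (by omega)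
    (by omega))

theorem sep2_c1m_run {P h m lam0 : ℤ} (Q : Bas P h m) (hlam : m ≤ lam0) {W : ℤ → Lt}
    {s e p : ℤ} (h1 : LR W P lam0 s e p) : Sep P (e + 1) (e + h + 1) (c1m W m) := by
  intro y y' k1 k2 k3 k4 heq
  obtain ⟨q1, q2, q3⟩ := Q
  have a1 := h1.p1
  have a2 := h1.pP
  have a3 := h1.len
  exact h1.right (Per.three_right (per_of_bw heq) h1.per (by omega) (by omega) (by omega)
    (by omega) (by omega))

theorem sep2_c2p_run {P h m lam0 : ℤ} (Q : Bas P h m) {W : ℤ → Lt}
    (hW : Red W) {s e p l : ℤ} {k : ℕ} (h1 : LR W P lam0 s e p) (hl : LP P m (e - s) p l k) :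
    Sep P (s - h) s (c2p W m s l) := by
  intro x x' k1 k2 k3 k4 heq
  obtain ⟨l1, l2, l3⟩ := lp_num2 Q hl
  obtain ⟨q1, q2, q3⟩ := Q
  have a1 := h1.p1
  have a2 := h1.pP
  unfold c2p at heq
  rw [max_eq_left (by omega), max_eq_left (by omega)] at heq
  have hq : Per (Vp W s l) p (s - 1 + 1) (s + l) := by
    intro i h2 h3
    unfold Vp
    rw [if_neg (by omega), if_neg (by omega)]
    congr 1
    exact (Cls.shift h1 (dvd_refl p) (by omega) (by omega) (by omega) (by ring)).symm
  have h4 := Per.three_left (per_of_fw heq) hq (by omega) (by omega) (by omega) (by omega)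
    (by omega)
  unfold Vp at h4
  rw [if_neg (by omega), if_pos (by omega)] at h4
  have h5 : W (2 * s + l - 1 - (s - 1 + p)) = W s :=
    Cls.shift h1 (dvd_sub_self_right.mpr l1) (k := l - p) (by omega) (by omega) (by omega) (by ring)
  rw [h5] at h4
  have h6 := hW (s - 1)
  rw [sub_add_cancel, ← h4, iv_iv] at h6
  exact h6 rfl

theorem sep2_c2m_run {P h m lam0 : ℤ} (Q : Bas P h m) {W : ℤ → Lt}
    (hW : Red W) {s e p l : ℤ} {k : ℕ} (h1 : LR W P lam0 s e p) (hl : LP P m (e - s) p l k) :
    Sep P (e + 1) (e + h + 1) (c2m W m e l) := by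
  intro y y' k1 k2 k3 k4 heq
  obtain ⟨l1, l2, l3⟩ := lp_num2 Q hl
  obtain ⟨q1, q2, q3⟩ := Q
  have a1 := h1.p1
  have a2 := h1.pP
  unfold c2m at heq
  have hq : Per (Vm W e l) p (e - l) e := by
    intro i h2 h3
    unfold Vm
    rw [if_neg (by omega), if_neg (by omega)]
    congr 1
    exact (Cls.shift h1 (dvd_refl p) (by omega) (by omega) (by omega) (by ring)).symm
  have h4 := Per.three_right (per_of_bw heq) hq (by omega) (by omega) (by omega) (by omega)
    (by omega)
  unfold Vm at h4
  rw [if_neg (by omega), if_pos (by omega)] at h4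
  have h5 : W (e - 1) = W (2 * e - l - 1 - (e - p)) :=
    Cls.shift h1 (dvd_sub_self_right.mpr l1) (k := l - p) (by omega) (by omega) (by omega) (by ring)
  rw [← h5] at h4
  have h6 := hW (e - 1)
  rw [sub_add_cancel, h4] at h6
  exact h6 rfl

/-- classes at the left end of a run differ -/
theorem c1p_ne_c2p2 {P h m lam0 : ℤ} (Q : Bas P h m) {W : ℤ → Lt} (hW : Red W)
    {s e p l q : ℤ} {k : ℕ} (h1 : LR W P lam0 s e p) (hl : LP P m (e - s) p l k)
    (hq : s ≤ q + 2 * h) (hq' : q < s + 2 * P) : c1p W m q ≠ c2p W m s l q := by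
  intro heq
  obtain ⟨l1, l2, l3⟩ := lp_num2 Q hl
  obtain ⟨q1, q2, q3⟩ := Q
  have a1 := h1.p1
  have a2 := h1.pP
  have hs' : max s q < s + 2 * P := by omega
  have hs1 : s ≤ max s q := le_max_left _ _
  have hs2 : q ≤ max s q := le_max_right _ _
  have hs3 : max s q ≤ q + 2 * h := by omega
  unfold c1p c2p at heq
  set s' := max s q with hs
  have h2 := fw_eq heq (i := s' - q) (by omega) (by omega)
  unfold Vp at h2
  rw [add_sub_cancel, if_neg (lt_irrefl _)] at h2
  have h3 : W (s' + l) = W s' := Cls.shift h1 l1 (by omega) hs1 (by omega) rfl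
  have h4 := hW (s' + l - 1)
  rw [sub_add_cancel, h3, h2] at h4
  apply h4
  congr 2
  ring

/-- classes at the right end of a run differ -/
theorem c1m_ne_c2m2 {P h m lam0 : ℤ} (Q : Bas P h m) {W : ℤ → Lt} (hW : Red W)
    {s e p l q : ℤ} {k : ℕ} (h1 : LR W P lam0 s e p) (hl : LP P m (e - s) p l k)
    (hq : e ≤ q) (hq' : q ≤ e + h) : c1m W m q ≠ c2m W m e l q := by
  intro heq
  obtain ⟨l1, l2, l3⟩ := lp_num2 Q hl
  obtain ⟨q1, q2, q3⟩ := Q
  have a1 := h1.p1
  have a2 := h1.pP
  unfold c1m c2m at heq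
  have h2 := bw_eq heq (i := q - e) (by omega) (by omega)
  unfold Vm at h2
  rw [if_neg (by omega)] at h2
  have e1 : q - 1 - (q - e) = e - 1 := by ring
  have e2 : 2 * e - l - 1 - (q - 1 - (q - e)) = e - l := by ring
  rw [e2, e1] at h2
  have h3 : W (e - 1) = W (e - l - 1) := Cls.shift h1 l1 (by omega) (by omega) (by omega) (by ring)
  have h4 := hW (e - l - 1)
  rw [sub_add_cancel, ← h3, h2, iv_iv] at h4
  exact h4 rfl

/-- the four classes at a junction are different -/
theorem junction2 {P h m lam0 : ℤ} (Q : Bas P h m) {W : ℤ → Lt} (hW : Red W)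
    {s e p s' e' p' l l' : ℤ} {k k' : ℕ} (h1 : LR W P lam0 s e p) (hl : LP P m (e - s) p l k)
    (h2 : LR W P lam0 s' e' p') (hl' : LP P m (e' - s') p' l' k')
    (he : e < e') (hs : s' ≤ e + 2 * h) (hs' : e < s' + 2 * P) :
    c1p W m e ≠ c1m W m e ∧ c1p W m e ≠ c2m W m e l e ∧
      c2p W m s' l' e ≠ c1m W m e ∧ c2p W m s' l' e ≠ c2m W m e l e := by
  obtain ⟨l1, l2, l3⟩ := lp_num2 Q hl
  obtain ⟨n1, n2, n3⟩ := lp_num2 Q hl'
  obtain ⟨q1, q2, q3⟩ := Q
  have a1 := h1.p1
  have a2 := h1.pP
  have b1 := h2.p1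
  have b2 := h2.pP
  have hred : W e ≠ iv (W (e - 1)) := by
    have := hW (e - 1)
    rwa [sub_add_cancel] at this
  -- the first letter of `c2m`
  have hVm : ∀ i, 0 ≤ i → i < m → iv (Vm W e l (e - 1 - i)) = W (e - l + i) := by
    intro i _ _
    unfold Vm
    rw [if_neg (by omega), iv_iv]
    congr 1
    ring
  have hVm0 : iv (Vm W e l (e - 1 - 0)) = W (e - p) := by
    rw [hVm 0 le_rfl (by omega), add_zero]
    exact (Cls.shift h1 (dvd_sub_self_right.mpr l1) (k := l - p) (by omega) (by omega) (by omega)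
      (by ring)).symm
  refine ⟨?_, ?_, ?_, ?_⟩
  · intro heq
    have := fb_eq heq (i := 0) le_rfl (by omega)
    rw [add_zero, sub_zero] at this
    exact hred this
  · intro heq
    have := fb_eq heq (i := 0) le_rfl (by omega)
    rw [add_zero, hVm0] at this
    exact h1.right this.symm
  · intro heq
    rcases lt_or_ge e s' with hc | hc
    · unfold c2p at heq
      have := fb_eq heq (i := 0) le_rfl (by omega)
      rw [max_eq_left hc.le, Vp, if_pos (by omega), add_zero, sub_zero] at this
      exact hred this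
    · unfold c2p at heq
      have := fb_eq heq (i := e - s') (by omega) (by omega)
      rw [max_eq_right hc, Vp, if_neg (by omega)] at this
      have h3 := iv_inj this
      have e1 : e - 1 - (e - s') = s' - 1 := by ring
      rw [e1] at h3
      have h4 : W (2 * e + l' - 1 - (e + (e - s'))) = W (s' - 1 + p') :=
        Cls.shift h2 (dvd_sub_self_right.mpr n1) (k := l' - p') (by omega) (by omega) (by omega)
          (by ring)
      rw [h4] at h3
      exact h2.left h3
  · intro heq
    rcases lt_or_ge e s' with hc | hc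
    · unfold c2p at heq
      have := fb_eq heq (i := 0) le_rfl (by omega)
      rw [max_eq_left hc.le, Vp, if_pos (by omega), add_zero, hVm0] at this
      exact h1.right this.symm
    · unfold c2p at heq
      rw [max_eq_right hc] at heq
      have hall : ∀ i, 0 ≤ i → i < m → iv (W (e + l' - 1 - i)) = W (e - l + i) := by
        intro i hi0 him
        have := fb_eq heq (i := i) hi0 him
        rw [hVm i hi0 him, Vp, if_neg (by omega)] at this
        rw [← this]
        congr 2
        ring
      rcases lt_or_eq_of_le hc with hlt | heq'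
      · have h3 := hall 0 le_rfl (by omega)
        rw [sub_zero, add_zero] at h3
        have h4 : W (e + l' - 1) = W (e - 1) :=
          Cls.shift h2 n1 (by omega) (by omega) (by omega) (by ring)
        have h5 : W (e - 1) = W (e - l - 1) :=
          Cls.shift h1 l1 (by omega) (by omega) (by omega) (by ring)
        have h6 := hW (e - l - 1)
        rw [sub_add_cancel, ← h5, ← h4] at h6
        exact h6 h3.symm
      · subst heq'
        have c1 : W (s' - 1) = W (s' - l + (p - 1)) :=
          Cls.shift h1 (dvd_sub_self_right.mpr l1) (k := l - p) (by omega) (by omega) (by omega)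
            (by ring)
        have c2 := hall (p - 1) (by omega) (by omega)
        have c3 : W (s' + l' - 1 - (p - 1)) = W (s' + l' - 1 - (p - 1 + p')) :=
          Cls.shift h2 (dvd_refl p') (by omega) (by omega) (by omega) (by ring)
        have c4 := hall (p - 1 + p') (by omega) (by omega)
        have c5 : W (s' - l + (p - 1 + p')) = W (s' - l + (p' - 1)) :=
          Cls.shift h1 (dvd_refl p) (by omega) (by omega) (by omega) (by ring)
        have c6 := hall (p' - 1) (by omega) (by omega)
        have c7 : W (s' + l' - 1 - (p' - 1)) = W s' :=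
          Cls.shift h2 (dvd_sub_self_right.mpr n1) (k := l' - p') (by omega) (by omega) (by omega)
            (by ring)
        have c8 : W (s' - 1) = iv (W s') := by
          rw [c1, ← c2, c3, c4, c5, ← c6, c7]
        apply hred
        rw [c8, iv_iv]

end Pool.LW
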