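import Pool.Agent.Work.MP_99279c_al.LW.Defs

/-! Module M2: gluing of private paths to a folded labelled graph. -/

namespace Pool.LW.Glue

variable {B : Type}

/-- names of vertices: `((u, c), 0)` is the node `c` in the tree at `u`; `((u, c), t)` with
`t > 0` is the `t`-th private vertex of the record with left end `(u, c)`. -/
abbrev Vx (B : Type) := ((B ⊕ ℤ) × List Lt) × ℕ

open Classical in
/-- the record with a given left end -/
noncomputable def recL (rs : List (Rc (B ⊕ ℤ))) (e : (B ⊕ ℤ) × List Lt) :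
    Option (Rc (B ⊕ ℤ)) :=
  rs.find? fun r => decide ((r.lc, r.lw) = e)

open Classical in
/-- the record with a given right end -/
noncomputable def recR (rs : List (Rc (B ⊕ ℤ))) (e : (B ⊕ ℤ) × List Lt) :
    Option (Rc (B ⊕ ℤ)) :=
  rs.find? fun r => decide ((r.vc, r.vw) = e)

/-- the vertices of a record outside of its two trees -/
def prv (r : Rc (B ⊕ ℤ)) (t : ℕ) : Vx B :=
  if t < r.lab.length then ((r.lc, r.lw), t) else ((r.vc, r.vw), 0)

open Classical in
/-- the step function -/
noncomputable def stp (m : ℕ) (bk : Lt → B → Option B) (rs : List (Rc (B ⊕ ℤ))) (x : Lt) :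
    Vx B → Option (Vx B)
  | ((u, c), 0) =>
      if c = [] then
        match bkC bk x u with
        | some v => some ((v, []), 0)
        | none => some ((u, [x]), 0)
      else if c.getLast? = some (iv x) then some ((u, c.dropLast), 0)
      else if c.length < m then some ((u, c ++ [x]), 0)
      else match recL rs (u, c) with
        | some r => if r.lab.head? = some x then some (prv r 1) else none
        | none => match recR rs (u, c) with
          | some r => if r.lab.getLast? = some (iv x) then some (prv r (r.lab.length - 1)) else none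
          | none => none
  | ((u, c), t + 1) =>
      match recL rs (u, c) with
      | some r =>
          if r.lab[t + 1]? = some x then some (prv r (t + 2))
          else if r.lab[t]? = some (iv x) then some (prv r t) else none
      | none => none

theorem adj {l l1 l2 : List Lt} {a b : Lt} (h : RedL l) (e : l = l1 ++ a :: b :: l2) :
    b ≠ iv a := by
  unfold RedL at h
  rw [List.isChain_iff_forall_rel_of_append_cons_cons] at h
  exact h e

section
variable {m : ℕ} {bk : Lt → B → Option B} {rs : List (Rc (B ⊕ ℤ))}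

theorem step_fwd {c : List Lt} {u : B ⊕ ℤ} (hred : RedL c) (hlen : c.length = m)
    (hb : ∀ x, c.head? = some x → bkC bk x u = none) {p l : List Lt} {x : Lt}
    (hc : p ++ x :: l = c) : stp m bk rs x ((u, p), 0) = some ((u, p ++ [x]), 0) := by
  rcases List.eq_nil_or_concat p with rfl | ⟨p', y, rfl⟩
  · have h1 : bkC bk x u = none := hb x (by rw [← hc]; simp)
    simp [stp, h1]
  · have h1 : x ≠ iv y := by
      apply adj hred (l1 := p') (l2 := l)
      rw [← hc]; simp
    have h2 : y ≠ iv x := by
      intro h; apply h1; rw [h, iv_iv]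
    have h3 : (p' ++ [y]).length < m := by
      rw [← hlen, ← hc]; simp
    have h4 : p'.length + 1 < m := by simpa using h3
    simp [stp, h2, h4]

theorem step_bwd {u : B ⊕ ℤ} {p : List Lt} {x : Lt} :
    stp m bk rs (iv x) ((u, p ++ [x]), 0) = some ((u, p), 0) := by
  simp [stp]

theorem step_leaf_none {c : List Lt} {u : B ⊕ ℤ} {z : Lt} (hred : RedL (c ++ [z]))
    (hne : c ≠ []) (hlen : c.length = m) (hL : recL rs (u, c) = none)
    (hR : recR rs (u, c) = none) : stp m bk rs z ((u, c), 0) = none := by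
  rcases List.eq_nil_or_concat c with h0 | ⟨p', y, h0⟩
  · exact absurd h0 hne
  · have h1 : z ≠ iv y := by
      apply adj hred (l1 := p') (l2 := [])
      rw [h0]; simp
    have h2 : y ≠ iv z := by
      intro h; apply h1; rw [h, iv_iv]
    have h4 : ¬ (c.length < m) := by omega
    have h5 : c.getLast? = some y := by rw [h0]; simp
    simp only [stp, hne, h5, h4, if_false]
    rw [if_neg (by simpa using h2), hL, hR]

end

/-! ### the records -/

section
variable {rs : List (Rc (B ⊕ ℤ))}

theorem mem_endsL {e : (B ⊕ ℤ) × List Lt} : e ∈ endsL rs ↔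
    ∃ r ∈ rs, e = (r.lc, r.lw) ∨ e = (r.vc, r.vw) := by
  simp [endsL, Rc.ends]

theorem nd_both (hnd : (endsL rs).Nodup) {r : Rc (B ⊕ ℤ)} (hr : r ∈ rs) :
    (r.lc, r.lw) ≠ (r.vc, r.vw) := by
  unfold endsL at hnd
  rw [List.nodup_flatMap] at hnd
  have := hnd.1 r hr
  simpa [Rc.ends] using this

theorem nd_disj (hnd : (endsL rs).Nodup) {r r' : Rc (B ⊕ ℤ)} (hr : r ∈ rs) (hr' : r' ∈ rs)
    (hne : r ≠ r') {e : (B ⊕ ℤ) × List Lt} (h : e ∈ r.ends) (h' : e ∈ r'.ends) : False := by
  unfold endsL at hnd
  rw [List.nodup_flatMap] at hnd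
  have hs : Std.Symm (Function.onFun List.Disjoint (Rc.ends : Rc (B ⊕ ℤ) → _)) :=
    ⟨fun a b hab => List.Disjoint.symm hab⟩
  have := hnd.2.forall hr hr' hne
  exact this h h'

theorem recL_mem (hnd : (endsL rs).Nodup) {r : Rc (B ⊕ ℤ)} (hr : r ∈ rs) :
    recL rs (r.lc, r.lw) = some r := by
  classical
  unfold recL
  cases h : rs.find? (fun r' => decide ((r'.lc, r'.lw) = (r.lc, r.lw))) with
  | none =>
    rw [List.find?_eq_none] at h
    exact absurd (by simp) (h r hr)
  | some r' =>
    have h1 := List.find?_some h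
    have h2 := List.mem_of_find?_eq_some h
    have h3 : (r'.lc, r'.lw) = (r.lc, r.lw) := by simpa using h1
    by_contra hne
    have hne' : r' ≠ r := fun e => hne (by rw [e])
    exact nd_disj hnd h2 hr hne' (e := (r.lc, r.lw)) (by rw [← h3]; simp [Rc.ends])
      (by simp [Rc.ends])

theorem recR_mem (hnd : (endsL rs).Nodup) {r : Rc (B ⊕ ℤ)} (hr : r ∈ rs) :
    recR rs (r.vc, r.vw) = some r := by
  classical
  unfold recR
  cases h : rs.find? (fun r' => decide ((r'.vc, r'.vw) = (r.vc, r.vw))) with
  | none =>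
    rw [List.find?_eq_none] at h
    exact absurd (by simp) (h r hr)
  | some r' =>
    have h1 := List.find?_some h
    have h2 := List.mem_of_find?_eq_some h
    have h3 : (r'.vc, r'.vw) = (r.vc, r.vw) := by simpa using h1
    by_contra hne
    have hne' : r' ≠ r := fun e => hne (by rw [e])
    exact nd_disj hnd h2 hr hne' (e := (r.vc, r.vw)) (by rw [← h3]; simp [Rc.ends])
      (by simp [Rc.ends])

theorem recL_none (hnd : (endsL rs).Nodup) {r : Rc (B ⊕ ℤ)} (hr : r ∈ rs) :
    recL rs (r.vc, r.vw) = none := by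
  classical
  unfold recL
  rw [List.find?_eq_none]
  intro r' hr' h
  have h3 : (r'.lc, r'.lw) = (r.vc, r.vw) := by simpa using h
  by_cases hne : r' = r
  · subst hne
    exact nd_both hnd hr' h3
  · exact nd_disj hnd hr' hr hne (e := (r.vc, r.vw)) (by rw [← h3]; simp [Rc.ends])
      (by simp [Rc.ends])

theorem recL_none' {e : (B ⊕ ℤ) × List Lt} (h : e ∉ endsL rs) : recL rs e = none := by
  classical
  unfold recL
  rw [List.find?_eq_none]
  intro r' hr' h1
  have h3 : (r'.lc, r'.lw) = e := by simpa using h1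
  exact h (mem_endsL.2 ⟨r', hr', Or.inl h3.symm⟩)

theorem recR_none' {e : (B ⊕ ℤ) × List Lt} (h : e ∉ endsL rs) : recR rs e = none := by
  classical
  unfold recR
  rw [List.find?_eq_none]
  intro r' hr' h1
  have h3 : (r'.vc, r'.vw) = e := by simpa using h1
  exact h (mem_endsL.2 ⟨r', hr', Or.inr h3.symm⟩)

end

/-! ### steps along a label -/

section
variable {m : ℕ} {bk : Lt → B → Option B} {rs : List (Rc (B ⊕ ℤ))}

theorem red_parts {r : Rc (B ⊕ ℤ)} (hv : r.Valid m (bkC bk)) :
    RedL r.lw ∧ RedL r.lab ∧ RedL (wv r.vw) := by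
  have h := hv.red
  unfold Rc.word RedL at h
  exact ⟨h.left_of_append, h.right_of_append.left_of_append,
    h.right_of_append.right_of_append⟩

theorem prv_zero {r : Rc (B ⊕ ℤ)} (hv : r.Valid m (bkC bk)) : prv r 0 = ((r.lc, r.lw), 0) := by
  have : 0 < r.lab.length := List.length_pos_iff.2 hv.hlab
  simp [prv, this]

theorem lab_fwd (hm : 1 ≤ m) (hnd : (endsL rs).Nodup) {r : Rc (B ⊕ ℤ)} (hr : r ∈ rs)
    (hv : r.Valid m (bkC bk)) {p l : List Lt} {x : Lt} (hc : p ++ x :: l = r.lab) :
    stp m bk rs x (prv r p.length) = some (prv r (p.length + 1)) := by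
  rcases List.eq_nil_or_concat p with rfl | ⟨p', y, rfl⟩
  · have hlab : r.lab = x :: l := by rw [← hc]; simp
    rw [show prv r ([] : List Lt).length = ((r.lc, r.lw), 0) from prv_zero hv]
    rcases List.eq_nil_or_concat r.lw with h0 | ⟨q, y, h0⟩
    · have := hv.hl; rw [h0] at this; simp at this; omega
    · have h1 : x ≠ iv y := by
        apply adj hv.red (l1 := q) (l2 := l ++ wv r.vw)
        unfold Rc.word
        rw [h0, hlab]; simp
      have h2 : y ≠ iv x := by
        intro h; apply h1; rw [h, iv_iv]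
      have h4 : ¬ (r.lw.length < m) := by rw [hv.hl]; omega
      have h5 : r.lw.getLast? = some y := by rw [h0]; simp
      have h6 : r.lw ≠ [] := by rw [h0]; simp
      have h7 : r.lab.head? = some x := by rw [hlab]; simp
      simp only [stp, h6, h5, h4, if_false]
      rw [if_neg (by simpa using h2), recL_mem hnd hr]
      simp [h7]
  · rw [List.concat_eq_append] at hc ⊢
    have hlt : (p' ++ [y]).length < r.lab.length := by rw [← hc]; simp
    have hg : r.lab[(p' ++ [y]).length]? = some x := by
      rw [← hc]; simp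
    have he : (p' ++ [y]).length = p'.length + 1 := by simp
    rw [he] at hlt hg ⊢
    have hp : prv r (p'.length + 1) = ((r.lc, r.lw), p'.length + 1) := by
      simp [prv, hlt]
    rw [hp]
    simp only [stp]
    rw [recL_mem hnd hr]
    simp [hg]

theorem lab_bwd (hm : 1 ≤ m) (hnd : (endsL rs).Nodup) {r : Rc (B ⊕ ℤ)} (hr : r ∈ rs)
    (hv : r.Valid m (bkC bk)) {p l : List Lt} {x : Lt} (hc : p ++ x :: l = r.lab) :
    stp m bk rs (iv x) (prv r (p.length + 1)) = some (prv r p.length) := by
  rcases l with _ | ⟨z, l⟩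
  · have hlen : r.lab.length = p.length + 1 := by rw [← hc]; simp
    have hp : prv r (p.length + 1) = ((r.vc, r.vw), 0) := by
      simp [prv, hlen]
    rw [hp]
    rcases List.eq_nil_or_concat r.vw with h0 | ⟨q, y, h0⟩
    · have := hv.hv; rw [h0] at this; simp at this; omega
    · have h1 : iv y ≠ iv x := by
        apply adj hv.red (l1 := r.lw ++ p) (l2 := wv q)
        unfold Rc.word
        rw [h0, ← hc]; simp [wv]
      have h2 : y ≠ x := by
        intro h; apply h1; rw [h]
      have h4 : ¬ (r.vw.length < m) := by rw [hv.hv]; omega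
      have h5 : r.vw.getLast? = some y := by rw [h0]; simp
      have h6 : r.vw ≠ [] := by rw [h0]; simp
      have h7 : r.lab.getLast? = some x := by rw [← hc]; simp
      have h8 : r.lab.length - 1 = p.length := by omega
      simp only [stp, h6, h5, h4, if_false]
      rw [if_neg (by simpa using h2), recL_none hnd hr, recR_mem hnd hr]
      simp [h7, h8]
  · have hlt : p.length + 1 < r.lab.length := by rw [← hc]; simp
    have hg : r.lab[p.length + 1]? = some z := by
      rw [← hc]; simp
    have hg' : r.lab[p.length]? = some x := by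
      rw [← hc]; simp
    have h1 : z ≠ iv x := adj (red_parts hv).2.1 (l1 := p) (l2 := l) (by rw [← hc])
    have hp : prv r (p.length + 1) = ((r.lc, r.lw), p.length + 1) := by
      simp [prv, hlt]
    rw [hp]
    simp only [stp]
    rw [recL_mem hnd hr]
    simp [hg, hg', h1]

end

/-! ### the vertex set -/

section
variable {m : ℕ} {bk : Lt → B → Option B} {rs : List (Rc (B ⊕ ℤ))}

open Classical in
/-- the vertices of a record -/
noncomputable def vr (m : ℕ) (r : Rc (B ⊕ ℤ)) : Finset (Vx B) :=
  ((Finset.range (m + 1)).image fun j => ((r.lc, r.lw.take j), 0)) ∪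
    (((Finset.range (m + 1)).image fun j => ((r.vc, r.vw.take j), 0)) ∪
      ((Finset.range r.lab.length).image fun t => ((r.lc, r.lw), t)))

theorem card_vr (r : Rc (B ⊕ ℤ)) : (vr m r).card ≤ r.cost m := by
  classical
  unfold vr Rc.cost
  refine (Finset.card_union_le _ _).trans ?_
  have h1 := Finset.card_image_le (s := Finset.range (m + 1))
    (f := fun j => (((r.lc, r.lw.take j), 0) : Vx B))
  have h2 := Finset.card_union_le
    ((Finset.range (m + 1)).image fun j => (((r.vc, r.vw.take j), 0) : Vx B))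
    ((Finset.range r.lab.length).image fun t => (((r.lc, r.lw), t) : Vx B))
  have h3 := Finset.card_image_le (s := Finset.range (m + 1))
    (f := fun j => (((r.vc, r.vw.take j), 0) : Vx B))
  have h4 := Finset.card_image_le (s := Finset.range r.lab.length)
    (f := fun t => (((r.lc, r.lw), t) : Vx B))
  simp only [Finset.card_range] at h1 h3 h4
  omega

open Classical in
/-- the vertex set -/
noncomputable def vs [Fintype B] (m : ℕ) : List (Rc (B ⊕ ℤ)) → Finset (Vx B)
  | [] => Finset.univ.image fun u : B => ((Sum.inl u, []), 0)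
  | r :: rs => vr m r ∪ vs m rs

theorem card_vs [Fintype B] (rs : List (Rc (B ⊕ ℤ))) :
    (vs m rs).card ≤ Fintype.card B + costL m rs := by
  classical
  induction rs with
  | nil =>
    simp only [vs, costL]
    have := Finset.card_image_le (s := (Finset.univ : Finset B))
      (f := fun u : B => (((Sum.inl u, []), 0) : Vx B))
    rw [Finset.card_univ] at this
    simpa using this
  | cons r rs ih =>
    simp only [vs, costL, List.map_cons, List.sum_cons] at ih ⊢
    have h1 := Finset.card_union_le (vr m r) (vs m rs)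
    have h2 := card_vr (m := m) r
    omega

theorem base_mem [Fintype B] (rs : List (Rc (B ⊕ ℤ))) (u : B) :
    (((Sum.inl u, []), 0) : Vx B) ∈ vs m rs := by
  induction rs with
  | nil => simp [vs]
  | cons r rs ih => simp only [vs, Finset.mem_union]; exact Or.inr ih

theorem vr_sub [Fintype B] {rs : List (Rc (B ⊕ ℤ))} {r : Rc (B ⊕ ℤ)} (hr : r ∈ rs) :
    vr m r ⊆ vs m rs := by
  induction rs with
  | nil => simp at hr
  | cons r' rs ih =>
    rcases List.mem_cons.1 hr with h | h
    · subst h
      intro a ha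
      simp only [vs, Finset.mem_union]; exact Or.inl ha
    · intro a ha
      simp only [vs, Finset.mem_union]; exact Or.inr (ih h ha)

theorem mem_left [Fintype B] {r : Rc (B ⊕ ℤ)} (hr : r ∈ rs) (hv : r.Valid m (bkC bk))
    {p l : List Lt} (h : p ++ l = r.lw) : (((r.lc, p), 0) : Vx B) ∈ vs m rs := by
  classical
  apply vr_sub hr
  unfold vr
  rw [Finset.mem_union, Finset.mem_image]
  left
  refine ⟨p.length, ?_, ?_⟩
  · have := hv.hl
    rw [← h, List.length_append] at this
    rw [Finset.mem_range]; omega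
  · rw [← h]; simp

theorem mem_right [Fintype B] {r : Rc (B ⊕ ℤ)} (hr : r ∈ rs) (hv : r.Valid m (bkC bk))
    {p l : List Lt} (h : p ++ l = r.vw) : (((r.vc, p), 0) : Vx B) ∈ vs m rs := by
  classical
  apply vr_sub hr
  unfold vr
  rw [Finset.mem_union, Finset.mem_union]
  right; left
  rw [Finset.mem_image]
  refine ⟨p.length, ?_, ?_⟩
  · have := hv.hv
    rw [← h, List.length_append] at this
    rw [Finset.mem_range]; omega
  · rw [← h]; simp

theorem mem_prv [Fintype B] {r : Rc (B ⊕ ℤ)} (hr : r ∈ rs) (hv : r.Valid m (bkC bk))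
    (t : ℕ) : prv r t ∈ vs m rs := by
  classical
  unfold prv
  split_ifs with h
  · apply vr_sub hr
    unfold vr
    rw [Finset.mem_union, Finset.mem_union]
    right; right
    rw [Finset.mem_image]
    exact ⟨t, Finset.mem_range.2 h, rfl⟩
  · exact mem_right hr hv (List.append_nil _)

end

/-! ### the graph -/

/-- the edges -/
def Ed [Fintype B] (m : ℕ) (bk : Lt → B → Option B) (rs : List (Rc (B ⊕ ℤ))) (x : Lt)
    (a b : Vx B) : Prop :=
  a ∈ vs m rs ∧ b ∈ vs m rs ∧ stp m bk rs x a = some b ∧ stp m bk rs (iv x) b = some a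

theorem ed_sys [Fintype B] (m : ℕ) (bk : Lt → B → Option B) (rs : List (Rc (B ⊕ ℤ))) :
    Sys (Ed m bk rs) where
  sym := by
    rintro x u v ⟨h1, h2, h3, h4⟩
    exact ⟨h2, h1, h4, by rw [iv_iv]; exact h3⟩
  func := by
    rintro x u v v' ⟨h1, h2, h3, h4⟩ ⟨h1', h2', h3', h4'⟩
    rw [h3] at h3'
    exact Option.some.inj h3'

theorem wk_append {V : Type} {E : Lt → V → V → Prop} {l l' : List Lt} {u v w : V}
    (h : Wk E l u v) (h' : Wk E l' v w) : Wk E (l ++ l') u w := by
  induction h with
  | nil u => exact h'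
  | cons hx _ ih => exact Wk.cons hx (ih h')

theorem wk_inv {V : Type} {E : Lt → V → V → Prop} (hE : Sys E) {l : List Lt} {u v : V}
    (h : Wk E l u v) : Wk E (wv l) v u := by
  induction h with
  | nil u => exact Wk.nil u
  | @cons x l u v w hx _ ih =>
    have h1 : wv (x :: l) = wv l ++ [iv x] := by simp [wv]
    rw [h1]
    exact wk_append ih (Wk.cons (hE.sym _ _ _ hx) (Wk.nil _))

section
variable [Fintype B] {m : ℕ} {bk : Lt → B → Option B} {rs : List (Rc (B ⊕ ℤ))}

theorem wk_class {c : List Lt} {u : B ⊕ ℤ} (hred : RedL c) (hlen : c.length = m)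
    (hb : ∀ x, c.head? = some x → bkC bk x u = none)
    (hS : ∀ p l, p ++ l = c → (((u, p), 0) : Vx B) ∈ vs m rs) (l : List Lt) :
    ∀ p : List Lt, p ++ l = c → Wk (Ed m bk rs) l ((u, p), 0) ((u, c), 0) := by
  induction l with
  | nil =>
    intro p hp
    rw [List.append_nil] at hp
    rw [hp]
    exact Wk.nil _
  | cons x l ih =>
    intro p hp
    have hp' : (p ++ [x]) ++ l = c := by rw [← hp]; simp
    refine Wk.cons (v := ((u, p ++ [x]), 0)) ⟨hS _ _ hp, hS _ _ hp', ?_, step_bwd⟩ (ih _ hp')
    exact step_fwd hred hlen hb hp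

theorem wk_lab (hm : 1 ≤ m) (hnd : (endsL rs).Nodup) {r : Rc (B ⊕ ℤ)} (hr : r ∈ rs)
    (hv : r.Valid m (bkC bk)) (l : List Lt) :
    ∀ p : List Lt, p ++ l = r.lab →
      Wk (Ed m bk rs) l (prv r p.length) ((r.vc, r.vw), 0) := by
  induction l with
  | nil =>
    intro p hp
    rw [List.append_nil] at hp
    have : prv r p.length = ((r.vc, r.vw), 0) := by rw [hp]; simp [prv]
    rw [this]
    exact Wk.nil _
  | cons x l ih =>
    intro p hp
    have hp' : (p ++ [x]) ++ l = r.lab := by rw [← hp]; simp
    have h1 := ih _ hp'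
    have h2 : (p ++ [x]).length = p.length + 1 := by simp
    rw [h2] at h1
    exact Wk.cons (v := prv r (p.length + 1)) ⟨mem_prv hr hv _, mem_prv hr hv _,
      lab_fwd hm hnd hr hv hp, lab_bwd hm hnd hr hv hp⟩ h1

theorem wv_red {l : List Lt} (h : RedL (wv l)) : RedL l := by
  unfold RedL at h ⊢
  unfold wv at h
  rw [List.isChain_reverse, List.isChain_map] at h
  refine h.imp ?_
  intro a b hab hb
  apply hab
  rw [hb, iv_iv]

theorem wk_word (hm : 1 ≤ m) (hnd : (endsL rs).Nodup) {r : Rc (B ⊕ ℤ)} (hr : r ∈ rs)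
    (hv : r.Valid m (bkC bk)) :
    Wk (Ed m bk rs) r.word ((r.lc, []), 0) ((r.vc, []), 0) := by
  have h1 : Wk (Ed m bk rs) r.lw ((r.lc, []), 0) ((r.lc, r.lw), 0) :=
    wk_class (red_parts hv).1 hv.hl hv.bl (fun p l h => mem_left hr hv h) _ [] rfl
  have h2 : Wk (Ed m bk rs) r.vw ((r.vc, []), 0) ((r.vc, r.vw), 0) :=
    wk_class (wv_red (red_parts hv).2.2) hv.hv hv.bv (fun p l h => mem_right hr hv h) _ [] rfl
  have h3 : Wk (Ed m bk rs) r.lab (prv r ([] : List Lt).length) ((r.vc, r.vw), 0) :=
    wk_lab hm hnd hr hv _ [] rfl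
  rw [show prv r ([] : List Lt).length = ((r.lc, r.lw), 0) from prv_zero hv] at h3
  exact wk_append h1 (wk_append h3 (wk_inv (ed_sys _ _ _) h2))

theorem wk_det_class {c : List Lt} {u : B ⊕ ℤ} (hred : RedL c) (hlen : c.length = m)
    (hb : ∀ x, c.head? = some x → bkC bk x u = none) (z : Lt)
    (hz : stp m bk rs z ((u, c), 0) = none) (l : List Lt) :
    ∀ p : List Lt, p ++ l = c → ∀ w, ¬ Wk (Ed m bk rs) (l ++ [z]) ((u, p), 0) w := by
  induction l with
  | nil =>
    intro p hp w hw
    rw [List.append_nil] at hp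
    subst hp
    cases hw with
    | cons hx _ =>
      have := hx.2.2.1
      rw [hz] at this
      exact absurd this (by simp)
  | cons x l ih =>
    intro p hp w hw
    have hp' : (p ++ [x]) ++ l = c := by rw [← hp]; simp
    cases hw with
    | cons hx hw' =>
      have h1 := hx.2.2.1
      rw [step_fwd hred hlen hb hp] at h1
      have h2 := Option.some.inj h1
      rw [← h2] at hw'
      exact ih _ hp' w hw'

end

end Pool.LW.Glue

namespace Pool.LW

theorem glue {B : Type} [Fintype B] (m : ℕ) (hm : 1 ≤ m) (bk : Lt → B → Option B)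
    (hbk : ∀ x u v, bk x u = some v → bk (iv x) v = some u) (rs : List (Rc (B ⊕ ℤ)))
    (hv : ∀ r ∈ rs, r.Valid m (bkC bk)) (hnd : (endsL rs).Nodup) :
    ∃ (V : Type) (E : Lt → V → V → Prop) (ι : B ⊕ ℤ → V) (S : Finset V), Sys E ∧
      (∀ x u v, E x u v → u ∈ S ∧ v ∈ S) ∧ (∀ u : B, ι (Sum.inl u) ∈ S) ∧
      S.card ≤ Fintype.card B + costL m rs ∧ Comp bk rs E ι ∧
      ∀ (c : List Lt) (z : Lt) (u : B), c.length = m → RedL (c ++ [z]) →
        (Sum.inl u, c) ∉ endsL rs → (∀ x, c.head? = some x → bk x u = none) →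
        ¬ ∃ v, Wk E (c ++ [z]) (ι (Sum.inl u)) v := by
  refine ⟨Glue.Vx B, Glue.Ed m bk rs, fun u => ((u, []), 0), Glue.vs m rs, Glue.ed_sys _ _ _,
    fun x u v h => ⟨h.1, h.2.1⟩, Glue.base_mem rs, Glue.card_vs rs, ⟨?_, ?_⟩, ?_⟩
  · intro x u v h
    refine ⟨Glue.base_mem rs u, Glue.base_mem rs v, ?_, ?_⟩
    · simp [Glue.stp, bkC, h]
    · simp [Glue.stp, bkC, hbk x u v h]
  · intro r hr
    exact Glue.wk_word hm hnd hr (hv r hr)
  · rintro c z u hc hred hend hhead ⟨v, hw⟩
    have hred' : RedL c := by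
      unfold RedL at hred ⊢; exact hred.left_of_append
    have hb : ∀ x, c.head? = some x → bkC bk x (Sum.inl u) = none := by
      intro x hx
      simp [bkC, hhead x hx]
    have hne : c ≠ [] := by
      intro h; rw [h] at hc; simp at hc; omega
    exact Glue.wk_det_class hred' hc hb z (Glue.step_leaf_none hred hne hc
      (Glue.recL_none' hend) (Glue.recR_none' hend)) c [] rfl v hw

end Pool.LW
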