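import Pool.Agent.Work.MP_99279c_al.LW.Seg

/-!
# Local periods of a bi-infinite word: three-step lemmas, good positions, long runs
-/

namespace Pool.LW

namespace Per

variable {W : ℤ → Lt}

theorem eq' {p a b : ℤ} (h : Per W p a b) {i j : ℤ} (h1 : a ≤ i) (h2 : j < b)
    (hij : j = i + p) : W j = W i := by
  subst hij
  exact h i h1 h2

/-- the three-step lemma at the right end `c` of the `q`-periodic interval -/
theorem three_right {p q a b a' c : ℤ} (hp : Per W p a b) (hq : Per W q a' c)
    (hq0 : 0 ≤ q) (hp0 : 1 ≤ p) (hcb : c < b) (ha : a ≤ c - p - q) (ha' : a' ≤ c - p - q) :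
    W (c - q) = W c := by
  have h1 : W c = W (c - p) := hp.eq' (by omega) hcb (by omega)
  have h2 : W (c - p) = W (c - p - q) := hq.eq' ha' (by omega) (by omega)
  have h3 : W (c - q) = W (c - p - q) := hp.eq' ha (by omega) (by omega)
  rw [h1, h2, h3]

/-- the three-step lemma at the left end: position `c` just before the `q`-periodic interval -/
theorem three_left {p q a b b' c : ℤ} (hp : Per W p a b) (hq : Per W q (c + 1) b')
    (hq0 : 0 ≤ q) (hp0 : 1 ≤ p) (hca : a ≤ c) (hb : c + p + q < b) (hb' : c + p + q < b') :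
    W (c + q) = W c := by
  have h1 : W (c + p) = W c := hp.eq' (by omega) (by omega) (by omega)
  have h2 : W (c + p + q) = W (c + p) := hq.eq' (by omega) hb' (by omega)
  have h3 : W (c + p + q) = W (c + q) := hp.eq' (by omega) hb (by omega)
  rw [← h3, h2, h1]

/-- extension of a period by one letter to the right -/
theorem snoc {p a c : ℤ} (h : Per W p a c) (hc : W (c - p) = W c) :
    Per W p a (c + 1) := by
  intro i h1 h2
  rcases eq_or_lt_of_le (show i + p ≤ c by omega) with h3 | h3
  · rw [h3, ← hc]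
    congr 1
    omega
  · exact h i h1 h3

/-- extension of a period by one letter to the left -/
theorem cons {p c b : ℤ} (h : Per W p (c + 1) b) (hc : W (c + p) = W c) :
    Per W p c b := by
  intro i h1 h2
  rcases eq_or_lt_of_le h1 with h3 | h3
  · rw [← h3, hc]
  · exact h i (by omega) h2

theorem of_dvd {p l a b : ℤ} (h : Per W p a b) (hp : 0 < p) (hl : 0 ≤ l)
    (hd : p ∣ l) : Per W l a b := by
  obtain ⟨k, rfl⟩ := hd
  have hk : 0 ≤ k := by
    by_contra hk
    push Not at hk
    nlinarith
  obtain ⟨k', rfl⟩ := Int.eq_ofNat_of_zero_le hk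
  rw [mul_comm]
  exact h.mul hp.le k'

/-- (1a) consecutive non-good positions have one period -/
theorem of_not_good {P m y : ℤ} (hm : 2 * P + 1 ≤ m) (k : ℕ)
    (h : ∀ j : ℤ, y ≤ j → j ≤ y + k → ¬ good W P m j) :
    ∃ p, 1 ≤ p ∧ p ≤ P ∧ Per W p (y - m) (y + k) := by
  induction k with
  | zero =>
    have := h y le_rfl (by simp)
    unfold good at this
    push Not at this
    obtain ⟨p, h1, h2, h3⟩ := this
    exact ⟨p, h1, h2, by simpa using h3⟩
  | succ k ih =>
    obtain ⟨p, h1, h2, h3⟩ := ih (fun j hj hj' => h j hj (by push_cast; omega))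
    have := h (y + (k + 1 : ℕ)) (by omega) le_rfl
    unfold good at this
    push Not at this
    obtain ⟨q, h4, h5, h6⟩ := this
    refine ⟨p, h1, h2, ?_⟩
    have e : y + ((k + 1 : ℕ) : ℤ) = (y + k) + 1 := by
      push_cast
      ring
    rw [e] at h6 ⊢
    refine h3.snoc (three_right h6 h3 (by omega) (by omega) (by omega) (by omega) (by omega))

/-- (1b) after a change from non-good to good, the next positions are good -/
theorem good_after {P m y : ℤ} (h0 : ¬ good W P m (y - 1)) (h1 : good W P m y)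
    {j : ℤ} (hj : y ≤ j) (hj' : j + 2 * P + 1 ≤ y + m) : good W P m j := by
  rcases eq_or_lt_of_le hj with rfl | hlt
  · exact h1
  intro q hq1 hqP hq
  unfold good at h0
  push Not at h0
  obtain ⟨p, hp1, hpP, hp⟩ := h0
  have h2 : W (y - 1 - p) = W (y - 1) :=
    three_right hq hp (by omega) (by omega) (by omega) (by omega) (by omega)
  have h3 := hp.snoc h2
  refine h1 p hp1 hpP (h3.mono (by omega) (by omega))

/-- (1c) scanning, general form -/
theorem scan' {P m h lam z : ℤ} (hP : 0 ≤ P) (hh : 1 ≤ h) (hm : 2 * P + 1 + h ≤ m)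
    (hlam : m + h ≤ lam)
    (hno : ∀ a p, z - m ≤ a → a + lam ≤ z + lam → 1 ≤ p → p ≤ P → ¬ Per W p a (a + lam)) :
    ∃ t, z ≤ t ∧ t ≤ z + lam ∧ ∀ j, t ≤ j → j < t + h → good W P m j := by
  classical
  by_cases hall : ∀ j, z ≤ j → j < z + h → good W P m j
  · exact ⟨z, le_rfl, by omega, hall⟩
  push Not at hall
  obtain ⟨z', hz1, hz2, hz3⟩ := hall
  -- the next good position after `z'`
  have hex : ∃ k : ℕ, good W P m (z' + 1 + k) ∧ (k : ℤ) + m ≤ lam - 1 + 1 := by
    by_contra hcon
    push Not at hcon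
    obtain ⟨K, hK⟩ := Int.eq_ofNat_of_zero_le (show 0 ≤ lam - m by omega)
    obtain ⟨p, hp1, hpP, hp⟩ := of_not_good (W := W) (P := P) (m := m) (y := z')
      (by omega) K (by
        intro j hj1 hj2 hg
        rcases eq_or_lt_of_le hj1 with rfl | hlt
        · exact hz3 hg
        · obtain ⟨k, hk⟩ := Int.eq_ofNat_of_zero_le (show 0 ≤ j - (z' + 1) by omega)
          have : j = z' + 1 + k := by omega
          rw [this] at hg
          have := hcon k hg
          omega)
    refine hno (z' - m) p (by omega) (by omega) hp1 hpP (hp.mono le_rfl (by omega))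
  have hk := Nat.find_spec hex
  set k := Nat.find hex with hkdef
  have hprev : ¬ good W P m (z' + 1 + k - 1) := by
    rcases Nat.eq_zero_or_pos k with h0 | h0
    · rw [h0]
      simpa using hz3
    · intro hg
      have := Nat.find_min hex (m := k - 1) (by omega)
      apply this
      have e : ((k - 1 : ℕ) : ℤ) = k - 1 := by omega
      rw [e]
      refine ⟨?_, by omega⟩
      have e2 : z' + 1 + (k - 1 : ℤ) = z' + 1 + k - 1 := by ring
      rw [e2]
      exact hg
  refine ⟨z' + 1 + k, by omega, by omega, fun j hj1 hj2 => good_after hprev hk.1 hj1 (by omega)⟩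

end Per

/-- the numerical consequences of the choice of the parameters -/
theorem Per.par {P h m lam L : ℤ} {D : ℕ} (Q : Par P h m lam L D) :
    1 ≤ P ∧ 4 * P ≤ h ∧ m = 4 * h ∧ 144 * m ≤ lam ∧ 0 < lam := by
  obtain ⟨h1, h2, h3, h4, h5, h6, h7⟩ := Q
  have h8 : (16 : ℤ) ≤ D := by exact_mod_cast h4
  have h9 : 16 * m ≤ D * m := mul_le_mul_of_nonneg_right h8 (by omega)
  refine ⟨h1, h2, h3, by omega, by omega⟩

theorem scan {P h m lam L : ℤ} {D : ℕ} (Q : Par P h m lam L D) (W : ℤ → Lt) (z : ℤ)
    (hno : ∀ p a b, 1 ≤ p → p ≤ P → z - m ≤ a → b ≤ z + lam → lam ≤ b - a → ¬ Per W p a b) :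
    ∃ t, z ≤ t ∧ t ≤ z + lam ∧ ∀ y, t ≤ y → y < t + h → good W P m y := by
  obtain ⟨h1, h2, h3, h4, h5⟩ := Per.par Q
  exact Per.scan' (by omega) (by omega) (by omega) (by omega)
    fun a p ha hb hp hpP => hno p a (a + lam) hp hpP ha hb (by omega)

theorem long_le {P h m lam L : ℤ} {D : ℕ} (Q : Par P h m lam L D) {W : ℤ → Lt}
    {s e p s' e' p' : ℤ} (h1 : LR W P lam s e p) (h2 : LR W P lam s' e' p') (he : e < e') :
    e < s' + 2 * P := by
  obtain ⟨k1, k2, k3, k4, k5⟩ := Per.par Q
  by_contra hcon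
  push Not at hcon
  have a1 := h1.p1
  have a2 := h1.pP
  have a3 := h1.len
  have a4 := h2.p1
  have a5 := h2.pP
  exact h1.right (Per.three_right h2.per h1.per (by omega) (by omega) he (by omega) (by omega))

theorem extend_run {P lam : ℤ} {W : ℤ → Lt} {p a b A B : ℤ} (hp : 1 ≤ p) (hpP : p ≤ P)
    (hlam : P < lam) (hab : lam ≤ b - a) (hper : Per W p a b)
    (hb : ∀ a b, lam ≤ b - a → Per W p a b → A ≤ a ∧ b ≤ B) :
    ∃ s e, s ≤ a ∧ b ≤ e ∧ LR W P lam s e p := by
  -- the left end
  have hL : ∃ s, s ≤ a ∧ Per W p s b ∧ W (s - 1 + p) ≠ W (s - 1) := by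
    by_contra hcon
    push Not at hcon
    have : ∀ k : ℕ, Per W p (a - k) b := by
      intro k
      induction k with
      | zero => simpa using hper
      | succ k ih =>
        have h1 := hcon (a - k) (by omega) ih
        have e : a - ((k + 1 : ℕ) : ℤ) = a - k - 1 := by
          push_cast
          ring
        rw [e]
        refine Per.cons ?_ h1
        rw [sub_add_cancel]
        exact ih
    obtain ⟨k, hk⟩ := Int.eq_ofNat_of_zero_le (show 0 ≤ |a - A| + 1 by positivity)
    have h2 := (hb (a - k) b (by omega) (this k)).1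
    have h3 : a - A ≤ |a - A| := le_abs_self _
    omega
  obtain ⟨s, hs, hsper, hsl⟩ := hL
  have hR : ∃ e, b ≤ e ∧ Per W p s e ∧ W (e - p) ≠ W e := by
    by_contra hcon
    push Not at hcon
    have : ∀ k : ℕ, Per W p s (b + k) := by
      intro k
      induction k with
      | zero => simpa using hsper
      | succ k ih =>
        have h1 := hcon (b + k) (by omega) ih
        have e : b + ((k + 1 : ℕ) : ℤ) = b + k + 1 := by
          push_cast
          ring
        rw [e]
        exact ih.snoc h1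
    obtain ⟨k, hk⟩ := Int.eq_ofNat_of_zero_le (show 0 ≤ |B - b| + 1 by positivity)
    have h2 := (hb s (b + k) (by omega) (this k)).2
    have h3 : B - b ≤ |B - b| := le_abs_self _
    omega
  obtain ⟨e, he, heper, her⟩ := hR
  exact ⟨s, e, hs, he, ⟨hp, hpP, by omega, heper, hsl, her⟩⟩

end Pool.LW
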