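import Pool.Agent.Work.MP_99279c_al.LW.Seg

/-! Module M3: the two private paths of a long run. -/

namespace Pool.LW

namespace Run

theorem append {V : Type} {E : Lt → V → V → Prop} {l l' : List Lt} {u v w : V}
    (h : Wk E l u v) (h' : Wk E l' v w) : Wk E (l ++ l') u w := by
  induction h with
  | nil u => exact h'
  | cons hx _ ih => exact Wk.cons hx (ih h')

theorem split {V : Type} {E : Lt → V → V → Prop} {l l' : List Lt} {u w : V}
    (h : Wk E (l ++ l') u w) : ∃ v, Wk E l u v ∧ Wk E l' v w := by
  induction l generalizing u with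
  | nil => exact ⟨u, Wk.nil u, h⟩
  | cons x l ih =>
    cases h with
    | cons hx h =>
      obtain ⟨v, h1, h2⟩ := ih h
      exact ⟨v, Wk.cons hx h1, h2⟩

theorem inv {V : Type} {E : Lt → V → V → Prop} (hE : Sys E) {l : List Lt} {u v : V}
    (h : Wk E l u v) : Wk E (wv l) v u := by
  induction h with
  | nil u => exact Wk.nil u
  | cons hx _ ih =>
    rw [wv_cons]
    exact append ih (Wk.cons (hE.sym _ _ _ hx) (Wk.nil _))

theorem det {V : Type} {E : Lt → V → V → Prop} (hE : Sys E) {l : List Lt} {u v v' : V}
    (h : Wk E l u v) (h' : Wk E l u v') : v = v' := by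
  induction h with
  | nil u => cases h'; rfl
  | cons hx _ ih =>
    cases h' with
    | cons hx' h' =>
      have := hE.func _ _ _ _ hx hx'
      subst this
      exact ih h'

/-- a period gives all its multiples -/
theorem shift_mul {W : ℤ → Lt} {l a b : ℤ} (h : Per W l a b) (hl : 0 ≤ l) (k : ℕ) (i : ℤ)
    (h1 : a ≤ i) (h2 : i + k * l < b) : W (i + k * l) = W i := by
  have h3 := h.mul hl k
  exact h3 i h1 h2

end Run

theorem run_walk {V : Type} {E : Lt → V → V → Prop} (hE : Sys E) (W : ℤ → Lt)
    (s e p l ρ q q' s' : ℤ) (k : ℕ) (hper : Per W p s e) (hp : 0 < p) (hdvd : p ∣ l)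
    (hX : e = s + ρ + k * l) (hk : 1 ≤ k) (hρ : 0 < ρ) (hl : ρ ≤ l) (h1 : s ≤ s') (h2 : q ≤ s')
    (h3 : s' ≤ s + ρ) (h4 : e ≤ q') (A Z : V)
    (main : Wk E (seg W q (s + ρ) ++ seg W e q') A Z)
    (ear : Wk E (wv (seg W e q') ++ (seg W (s + ρ) (s' + l) ++ wv (seg W q s'))) Z A) :
    Wk E (seg W q q') A Z := by
  have hl0 : 0 < l := by omega
  have hperl : Per W l s e := hper.dvd hp hl0.le hdvd
  have hkl : l ≤ k * l := by
    have : (1 : ℤ) ≤ k := by exact_mod_cast hk
    nlinarith
  obtain ⟨X, m1, m2⟩ := Run.split main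
  rw [← seg_append W h2 h3] at m1
  obtain ⟨S, m3, m4⟩ := Run.split m1
  obtain ⟨Y1, e1, e2⟩ := Run.split ear
  obtain ⟨Y2, e3, e4⟩ := Run.split e2
  have hY1 : Y1 = X := Run.det hE e1 (Run.inv hE m2)
  subst hY1
  have hY2 : Y2 = S := by
    have := Run.inv hE e4
    rw [wv_wv] at this
    exact Run.det hE this m3
  subst hY2
  -- the loop
  have hs1 : seg W s' (s + ρ) = seg W (s' + l) (s + ρ + l) := by
    symm
    apply seg_shift
    intro i hi hi'
    exact hperl i (by omega) (by omega)
  rw [hs1] at m4
  have loop : Wk E (seg W (s + ρ) (s + ρ + l)) Y1 Y1 := by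
    rw [← seg_append W (show s + ρ ≤ s' + l by omega) (show s' + l ≤ s + ρ + l by omega)]
    exact Run.append e3 m4
  have loops : ∀ j : ℕ, j ≤ k → Wk E (seg W (s + ρ) (s + ρ + j * l)) Y1 Y1 := by
    intro j
    induction j with
    | zero =>
      intro _
      rw [seg_of_le W (by simp)]
      exact Wk.nil _
    | succ j ih =>
      intro hj
      have hjl : 0 ≤ (j : ℤ) * l := by positivity
      have hjk : ((j : ℤ) + 1) * l ≤ k * l := by
        have : ((j : ℤ) + 1) ≤ k := by exact_mod_cast hj
        exact mul_le_mul_of_nonneg_right this hl0.le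
      have e5 : s + ρ + ((j + 1 : ℕ) : ℤ) * l = s + ρ + l + j * l := by push_cast; ring
      rw [e5, ← seg_append W (show s + ρ ≤ s + ρ + j * l by omega)
        (show s + ρ + j * l ≤ s + ρ + l + j * l by omega)]
      have e6 : seg W (s + ρ + j * l) (s + ρ + l + j * l) = seg W (s + ρ) (s + ρ + l) := by
        apply seg_shift
        intro i hi hi'
        apply Run.shift_mul hperl hl0.le j i (by omega)
        rw [add_mul, one_mul] at hjk
        omega
      rw [e6]
      exact Run.append (ih (by omega)) loop
  have hloop := loops k le_rfl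
  rw [← hX] at hloop
  have hkl0 : 0 ≤ (k : ℤ) * l := by positivity
  rw [← seg_append W (show q ≤ s + ρ by omega) (show s + ρ ≤ q' by omega),
    ← seg_append W (show s + ρ ≤ e by omega) h4]
  rw [← seg_append W h2 h3, hs1]
  exact Run.append (Run.append m3 m4) (Run.append hloop m2)

/-- the main record of a run: first and last `m` letters, reducedness -/
theorem main_word (W : ℤ → Lt) (hW : Red W) (m s e p l ρ q q' : ℤ) (k : ℕ) (hm : 1 ≤ m)
    (hper : Per W p s e) (hp : 0 < p) (hdvd : p ∣ l) (hl : 0 < l) (hX : e = s + ρ + k * l)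
    (h1 : q + 2 * m < s + ρ) (hq : s < q + m) (h4 : e ≤ q') (h5 : q' ≤ e + m) :
    ∃ t : List Lt, seg W q (s + ρ) ++ seg W e q' = c1p W m q ++ (t ++ wv (c1m W m q')) ∧
      t ≠ [] ∧ (t.length : ℤ) = (s + ρ - q) + (q' - e) - 2 * m ∧
      RedL (seg W q (s + ρ) ++ seg W e q') := by
  have hperl : Per W l s e := hper.dvd hp hl.le hdvd
  have hkl0 : 0 ≤ (k : ℤ) * l := by positivity
  have hshift : ∀ i, s ≤ i → i + k * l < e → W (i + k * l) = W i := fun i hi hi' =>
    Run.shift_mul hperl hl.le k i hi hi'
  refine ⟨seg W (q + m) (q' - m - k * l), ?_, ?_, ?_, ?_⟩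
  · unfold c1p c1m
    rw [wv_wv]
    have e1 : seg W (q' - m - k * l) (s + ρ) = seg W (q' - m) e := by
      have := seg_shift W (a := q' - m - k * l) (b := s + ρ) (k * l) (by
        intro i hi hi'
        exact hshift i (by omega) (by omega))
      rw [show q' - m - k * l + k * l = q' - m by ring, ← hX] at this
      exact this.symm
    rw [← seg_append W (show q ≤ q + m by omega) (show q + m ≤ s + ρ by omega),
      ← seg_append W (show q + m ≤ q' - m - k * l by omega)
        (show q' - m - k * l ≤ s + ρ by omega), e1,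
      ← seg_append W (show q' - m ≤ e by omega) h4]
    simp only [List.append_assoc]
  · intro h
    have := congrArg List.length h
    rw [seg_length] at this
    simp only [List.length_nil] at this
    omega
  · rw [seg_length]
    omega
  · apply redL_append (redL_seg hW _ _) (redL_seg hW _ _)
    intro x y hx hy
    rw [seg_getLast? W (by omega)] at hx
    have heq : e < q' := by
      by_contra hcon
      rw [seg_of_le W (by omega)] at hy
      simp at hy
    rw [seg_head? W heq] at hy
    simp only [Option.some.injEq] at hx hy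
    have e2 := hshift (s + ρ - 1) (by omega) (by omega)
    rw [show s + ρ - 1 + k * l = e - 1 by omega] at e2
    rw [← hx, ← hy, ← e2]
    have := hW (e - 1)
    rwa [show e - 1 + 1 = e by ring] at this

/-- the ear record of a run -/
theorem ear_word (W : ℤ → Lt) (hW : Red W) (m s e p l ρ q q' : ℤ) (k : ℕ) (hm : 1 ≤ m)
    (hper : Per W p s e) (hleft : W (s - 1 + p) ≠ W (s - 1)) (hright : W (e - p) ≠ W e)
    (hp : 0 < p) (hdvd : p ∣ l) (hX : e = s + ρ + k * l) (hk : 1 ≤ k)
    (hρ : 2 * m ≤ ρ) (hl : ρ + 2 * m < l) (hq : max s q ≤ q + m) (hs : max s q ≤ s + m)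
    (h4 : e ≤ q') (h5 : q' ≤ e + m) :
    ∃ t : List Lt, wv (seg W e q') ++ (seg W (s + ρ) (max s q + l) ++ wv (seg W q (max s q))) =
        c2m W m e l q' ++ (t ++ wv (c2p W m s l q)) ∧
      t ≠ [] ∧ (t.length : ℤ) = (q' - e) + (max s q + l - (s + ρ)) + (max s q - q) - 2 * m ∧
      RedL (wv (seg W e q') ++ (seg W (s + ρ) (max s q + l) ++ wv (seg W q (max s q)))) := by
  have hs' : s ≤ max s q := le_max_left _ _
  have hq' : q ≤ max s q := le_max_right _ _
  have hcase : max s q = s ∨ max s q = q := by
    rcases le_total s q with h | h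
    · exact Or.inr (max_eq_right h)
    · exact Or.inl (max_eq_left h)
  generalize hz : max s q = z at *
  have hl0 : 0 < l := by omega
  have hperl : Per W l s e := hper.dvd hp hl0.le hdvd
  have hpp : Per W p s e := hper
  have hkl : l ≤ k * l := by
    have : (1 : ℤ) ≤ k := by exact_mod_cast hk
    nlinarith
  obtain ⟨c, hc⟩ := hdvd
  have hc0 : 0 < c := by nlinarith
  obtain ⟨n, hn⟩ := Int.eq_ofNat_of_zero_le hc0.le
  have hn1 : 1 ≤ n := by omega
  have hln : l = n * p := by rw [hc, hn]; ring
  -- the class word at the right centre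
  have hc2m : c2m W m e l q' = wv (seg W e q') ++ seg W (e - l) (e - l + (e - q' + m)) := by
    unfold c2m
    have e1 : seg (Vm W e l) (q' - m) q' = wv (seg W (e - l) (e - l + (e - q' + m))) ++
        seg W e q' := by
      rw [← seg_append (Vm W e l) (show q' - m ≤ e by omega) h4]
      congr 1
      · apply List.ext_getElem?
        intro i
        by_cases hi : (i : ℤ) < e - (q' - m)
        · rw [seg_getElem? _ _ _ _ hi, wv_seg_getElem? _ _ _ _ (by omega)]
          unfold Vm
          rw [if_neg (by omega)]
          congr 3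
          ring
        · rw [List.getElem?_eq_none (by rw [seg_length]; omega),
            List.getElem?_eq_none (by rw [wv_length, seg_length]; omega)]
      · apply seg_congr rfl
        intro i hi hi'
        unfold Vm
        rw [if_pos (by omega)]
    rw [e1, wv_append, wv_wv]
  have hc2p : wv (c2p W m s l q) = seg W (z + l - (q + m - z)) (z + l) ++ wv (seg W q z) := by
    unfold c2p
    rw [hz]
    have e1 : seg (Vp W z l) q (q + m) = seg W q z ++ wv (seg W (z + l - (q + m - z)) (z + l)) := by
      rw [← seg_append (Vp W z l) hq' (show z ≤ q + m by omega)]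
      congr 1
      · apply seg_congr rfl
        intro i hi hi'
        unfold Vp
        rw [if_pos (by omega)]
      · apply List.ext_getElem?
        intro i
        by_cases hi : (i : ℤ) < q + m - z
        · rw [seg_getElem? _ _ _ _ hi, wv_seg_getElem? _ _ _ _ (by omega)]
          unfold Vp
          rw [if_neg (by omega)]
          congr 3
          ring
        · rw [List.getElem?_eq_none (by rw [seg_length]; omega),
            List.getElem?_eq_none (by rw [wv_length, seg_length]; omega)]
    rw [e1, wv_append, wv_wv]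
  -- the period shift
  have hshift : seg W (e - l) (e - l + (e - q' + m)) =
      seg W (s + ρ) (s + ρ + (e - q' + m)) := by
    have hkk : ((k - 1 : ℕ) : ℤ) = k - 1 := by push_cast [Nat.cast_sub hk]; ring
    have e1 : e - l = s + ρ + ((k - 1 : ℕ) : ℤ) * l := by rw [hkk, hX]; ring
    have e2 : e - l + (e - q' + m) = s + ρ + (e - q' + m) + ((k - 1 : ℕ) : ℤ) * l := by
      rw [hkk, hX]; ring
    have := seg_shift W (a := s + ρ) (b := s + ρ + (e - q' + m)) (((k - 1 : ℕ) : ℤ) * l) (by
      intro i hi hi'
      apply Run.shift_mul hperl hl0.le (k - 1) i (by omega)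
      omega)
    rw [← e1, ← e2] at this
    exact this
  refine ⟨seg W (s + ρ + (e - q' + m)) (z + l - (q + m - z)), ?_, ?_, ?_, ?_⟩
  · rw [hc2m, hc2p, hshift,
      ← seg_append W (show s + ρ ≤ s + ρ + (e - q' + m) by omega)
        (show s + ρ + (e - q' + m) ≤ z + l by omega),
      ← seg_append W (show s + ρ + (e - q' + m) ≤ z + l - (q + m - z) by omega)
        (show z + l - (q + m - z) ≤ z + l by omega)]
    simp only [List.append_assoc]
  · intro h
    have := congrArg List.length h
    rw [seg_length] at this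
    simp only [List.length_nil] at this
    omega
  · rw [seg_length]
    omega
  · apply redL_append (redL_wv (redL_seg hW _ _))
    · apply redL_append (redL_seg hW _ _) (redL_wv (redL_seg hW _ _))
      intro x y hx hy
      rw [seg_getLast? W (by omega)] at hx
      have hqz : q < z := by
        by_contra hcon
        rw [seg_of_le W (by omega)] at hy
        simp at hy
      have hzs : z = s := by omega
      rw [wv_seg_head? W hqz] at hy
      simp only [Option.some.injEq] at hx hy
      rw [← hx, ← hy]
      intro h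
      have h6 := iv_inj h
      -- `W (z + l - 1) = W (s - 1 + p)`
      have h7 := Run.shift_mul hpp hp.le (n - 1) (s - 1 + p) (by omega) (by
        have : ((n - 1 : ℕ) : ℤ) = n - 1 := by push_cast [Nat.cast_sub hn1]; ring
        rw [this]
        have : s - 1 + p + ((n : ℤ) - 1) * p = s - 1 + l := by rw [hln]; ring
        rw [this]
        omega)
      have h8 : s - 1 + p + ((n - 1 : ℕ) : ℤ) * p = z + l - 1 := by
        have : ((n - 1 : ℕ) : ℤ) = n - 1 := by push_cast [Nat.cast_sub hn1]; ring
        rw [this, hln, hzs]; ring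
      rw [h8] at h7
      apply hleft
      rw [← h7, ← h6, hzs]
    · intro x y hx hy
      have heq : e < q' := by
        by_contra hcon
        rw [seg_of_le W (by omega)] at hx
        simp at hx
      rw [wv_getLast?, seg_head? W heq] at hx
      rw [List.head?_append, seg_head? W (by omega)] at hy
      simp only [Option.map_some, Option.some_or, Option.some.injEq] at hx hy
      rw [← hx, ← hy, iv_iv]
      -- `W (s + ρ) = W (e - p)`
      have hkn : 1 ≤ k * n := Nat.one_le_iff_ne_zero.2 (by positivity)
      have hkn' : ((k * n - 1 : ℕ) : ℤ) = k * n - 1 := by push_cast [Nat.cast_sub hkn]; ring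
      have h7 := Run.shift_mul hpp hp.le (k * n - 1) (s + ρ) (by omega) (by
        rw [hkn']
        have : s + ρ + ((k : ℤ) * n - 1) * p = e - p := by rw [hX, hln]; ring
        rw [this]
        omega)
      have h8 : s + ρ + ((k * n - 1 : ℕ) : ℤ) * p = e - p := by
        rw [hkn', hX, hln]; ring
      rw [h8] at h7
      rw [← h7]
      exact hright

/-- the numbers of a long run -/
theorem run_num {P h m lam L : ℤ} {D : ℕ} (Q : Par P h m lam L D) (X p : ℤ) (hX : lam ≤ X)
    (hp : 1 ≤ p) (hpP : p ≤ P) : p ∣ lp P m D X p ∧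
      2 * m + 4 * P ≤ X - D * lp P m D X p ∧
      (X - D * lp P m D X p) + 2 * m + 4 * P + 2 ≤ lp P m D X p ∧
      D * lp P m D X p ≤ X := by
  obtain ⟨hP, hPh, hm, hD, hDP, hlam, hL⟩ := Q
  have hD' : (16 : ℤ) ≤ (D : ℤ) := by exact_mod_cast hD
  have hDp : 0 < (D : ℤ) * p := by positivity
  unfold lp
  set Y := X - (2 * m + 4 * P) with hY
  set c := Y / (D * p) with hc
  have c1 : D * p * c ≤ Y := Int.mul_ediv_self_le hDp.ne'
  have c2 : Y < D * p * c + D * p := Int.lt_mul_ediv_self_add hDp
  have e1 : (D : ℤ) * (p * c) = D * p * c := by ring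
  have hDp2 : (D : ℤ) * p ≤ m := by
    have : (D : ℤ) * p ≤ D * P := mul_le_mul_of_nonneg_left hpP (by positivity)
    omega
  refine ⟨Dvd.intro _ rfl, ?_, ?_, ?_⟩
  · rw [e1]; omega
  · rw [e1]
    -- `8 m ≤ p c`
    have h8 : 8 * m ≤ p * c := by
      by_contra hcon
      push Not at hcon
      have h9 : (D : ℤ) * (p * c) ≤ D * (8 * m) := mul_le_mul_of_nonneg_left hcon.le (by positivity)
      have h10 : (16 : ℤ) * m ≤ D * m := mul_le_mul_of_nonneg_right hD' (by omega)
      rw [e1] at h9
      have h11 : (D : ℤ) * (8 * m) = 8 * (D * m) := by ring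
      rw [h11] at h9
      omega
    omega
  · rw [e1]; omega

end Pool.LW
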