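import Pool.Agent.Work.MP_99279c_al.LW.Walk
import Pool.Agent.Work.MP_99279c_al.LW.Run
import Pool.Agent.Work.MP_99279c_al.LW.Per
import Pool.Agent.Work.MP_99279c_al.LW.Cls

/-! The main induction. -/

namespace Pool.LW

namespace Ind

variable {B : Type}

/-- a good list of records avoiding the ends in `Used` -/
def OKr (m : ℕ) (bk : Lt → B → Option B) (Used : Finset ((B ⊕ ℤ) × List Lt))
    (rs : List (Rc (B ⊕ ℤ))) : Prop :=
  (∀ r ∈ rs, r.Valid m (bkC bk)) ∧ (endsL rs).Nodup ∧ ∀ z ∈ endsL rs, z ∉ Used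

/-- from `c` at position `q` every graph with the records allows a walk up to `Zend` -/
def Reach (bk : Lt → B → Option B) (W : ℤ → Lt) (Zend q : ℤ) (c : B ⊕ ℤ)
    (rs : List (Rc (B ⊕ ℤ))) : Prop :=
  ∀ (V : Type) (E : Lt → V → V → Prop) (ι : B ⊕ ℤ → V), Sys E → Comp bk rs E ι →
    ∃ Z v, Zend ≤ Z ∧ q ≤ Z ∧ Wk E (seg W q Z) (ι c) v

theorem endsL_cons (r : Rc (B ⊕ ℤ)) (rs : List (Rc (B ⊕ ℤ))) :
    endsL (r :: rs) = (r.lc, r.lw) :: (r.vc, r.vw) :: endsL rs := rfl

theorem comp_cons {bk : Lt → B → Option B} {r : Rc (B ⊕ ℤ)} {rs : List (Rc (B ⊕ ℤ))} {V : Type}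
    {E : Lt → V → V → Prop} {ι : B ⊕ ℤ → V} (h : Comp bk (r :: rs) E ι) :
    Wk E r.word (ι r.lc) (ι r.vc) ∧ Comp bk rs E ι :=
  ⟨h.2 r (by simp), h.1, fun r' hr' => h.2 r' (by simp [hr'])⟩

/-- add one record -/
theorem add_one {m : ℕ} {bk : Lt → B → Option B} {Used : Finset ((B ⊕ ℤ) × List Lt)}
    {rs : List (Rc (B ⊕ ℤ))} (h : OKr m bk Used rs) (r : Rc (B ⊕ ℤ)) (hr : r.Valid m (bkC bk))
    (h1 : (r.lc, r.lw) ∉ endsL rs) (h2 : (r.vc, r.vw) ∉ endsL rs)
    (h3 : (r.lc, r.lw) ≠ (r.vc, r.vw)) (h4 : (r.lc, r.lw) ∉ Used) (h5 : (r.vc, r.vw) ∉ Used) :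
    OKr m bk Used (r :: rs) := by
  obtain ⟨a1, a2, a3⟩ := h
  refine ⟨?_, ?_, ?_⟩
  · intro r' hr'
    rcases List.mem_cons.1 hr' with h | h
    · rw [h]; exact hr
    · exact a1 r' h
  · rw [endsL_cons, List.nodup_cons, List.nodup_cons]
    refine ⟨?_, h2, a2⟩
    rw [List.mem_cons]
    rintro (h | h)
    · exact h3 h
    · exact h1 h
  · intro z hz
    rw [endsL_cons, List.mem_cons, List.mem_cons] at hz
    rcases hz with h | h | h
    · rw [h]; exact h4
    · rw [h]; exact h5
    · exact a3 z h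

theorem costL_cons (m : ℕ) (r : Rc (B ⊕ ℤ)) (rs : List (Rc (B ⊕ ℤ))) :
    costL m (r :: rs) = r.cost m + costL m rs := by
  simp [costL]

/-- adding the two records of a run -/
theorem add_run {P h m lam L : ℤ} {D : ℕ} (Q : Par P h m lam L D) {W : ℤ → Lt} (hW : Red W)
    {bk : Lt → B → Option B} {Zend s e p q q' : ℤ} {c c' : B ⊕ ℤ} (hR : LR W P lam s e p)
    (hq : s ≤ q + 2 * h) (hq' : q < s + 2 * P) (he : e ≤ q') (he' : q' ≤ e + h)
    {Used : Finset ((B ⊕ ℤ) × List Lt)} {rs : List (Rc (B ⊕ ℤ))} (hrs : OKr m.toNat bk Used rs)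
    (hc1 : ∀ x, (c1p W m q).head? = some x → bkC bk x c = none)
    (hc2 : ∀ x, (c2p W m s (lp P m D (e - s) p) q).head? = some x → bkC bk x c = none)
    (hc3 : ∀ x, (c1m W m q').head? = some x → bkC bk x c' = none)
    (hc4 : ∀ x, (c2m W m e (lp P m D (e - s) p) q').head? = some x → bkC bk x c' = none)
    (u1 : (c, c1p W m q) ∉ Used) (u2 : (c, c2p W m s (lp P m D (e - s) p) q) ∉ Used)
    (u3 : (c', c1m W m q') ∉ Used) (u4 : (c', c2m W m e (lp P m D (e - s) p) q') ∉ Used)
    (v1 : (c, c1p W m q) ∉ endsL rs) (v2 : (c, c2p W m s (lp P m D (e - s) p) q) ∉ endsL rs)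
    (v3 : (c', c1m W m q') ∉ endsL rs) (v4 : (c', c2m W m e (lp P m D (e - s) p) q') ∉ endsL rs)
    (w1 : (c', c1m W m q') ≠ (c, c1p W m q))
    (w2 : (c', c1m W m q') ≠ (c, c2p W m s (lp P m D (e - s) p) q))
    (w3 : (c', c2m W m e (lp P m D (e - s) p) q') ≠ (c, c1p W m q))
    (w4 : (c', c2m W m e (lp P m D (e - s) p) q') ≠ (c, c2p W m s (lp P m D (e - s) p) q))
    (hreach : Reach bk W Zend q' c' rs) :
    ∃ rs', OKr m.toNat bk Used rs' ∧
      (D : ℤ) * costL m.toNat rs' ≤ D * costL m.toNat rs + 2 * (e - s) ∧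
      Reach bk W Zend q c rs' := by
  have hP := Q.hP
  have hPh := Q.hPh
  have hm := Q.hm
  obtain ⟨n1, n2, n3, n4⟩ := run_num Q (e - s) p hR.len hR.p1 hR.pP
  set l := lp P m D (e - s) p with hl
  obtain ⟨ρ, hρ⟩ : ∃ ρ : ℤ, ρ = e - s - D * l := ⟨_, rfl⟩
  rw [← hρ] at n2 n3
  have hX : e = s + ρ + (D : ℕ) * l := by rw [hρ]; ring
  have hD : 1 ≤ D := by have := Q.hD; omega
  have hmax1 : s ≤ max s q := le_max_left _ _
  have hmax2 : q ≤ max s q := le_max_right _ _
  have hmax3 : max s q ≤ q + 2 * h := max_le (by omega) (by omega)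
  have hmax4 : max s q < s + 2 * P := max_lt (by omega) (by omega)
  obtain ⟨t1, a1, a2, a3, a4⟩ := main_word W hW m s e p l ρ q q' D (by omega) hR.per
    (by have := hR.p1; omega) n1 (by omega) hX (by omega) (by omega) he (by omega)
  obtain ⟨t2, b1, b2, b3, b4⟩ := ear_word W hW m s e p l ρ q q' D (by omega) hR.per hR.left
    hR.right (by have := hR.p1; omega) n1 hX hD (by omega) (by omega) (by omega) (by omega) he
    (by omega)
  set R1 : Rc (B ⊕ ℤ) := ⟨c, c1p W m q, t1, c1m W m q', c'⟩ with hR1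
  set R2 : Rc (B ⊕ ℤ) := ⟨c', c2m W m e l q', t2, c2p W m s l q, c⟩ with hR2
  have e1 : R1.word = seg W q (s + ρ) ++ seg W e q' := by rw [a1]; rfl
  have e2 : R2.word =
      wv (seg W e q') ++ (seg W (s + ρ) (max s q + l) ++ wv (seg W q (max s q))) := by
    rw [b1]; rfl
  have V1 : R1.Valid m.toNat (bkC bk) :=
    ⟨by simp only [hR1, c1p, seg_length]; congr 1; ring,
      by simp only [hR1, c1m, wv_length, seg_length]; congr 1; ring, a2, by rw [e1]; exact a4,
      hc1, hc3⟩
  have V2 : R2.Valid m.toNat (bkC bk) :=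
    ⟨by simp only [hR2, c2m, wv_length, seg_length]; congr 1; ring,
      by simp only [hR2, c2p, seg_length]; congr 1; ring, b2, by rw [e2]; exact b4,
      hc4, hc2⟩
  have d1 := c1p_ne_c2p Q hW hR hq hq'
  have d2 := c1m_ne_c2m Q hW hR he he'
  have K2 : OKr m.toNat bk Used (R2 :: rs) := add_one hrs R2 V2 v4 v2 w4 u4 u2
  have K1 : OKr m.toNat bk Used (R1 :: R2 :: rs) := by
    apply add_one K2 R1 V1
    · rw [endsL_cons, List.mem_cons, List.mem_cons]
      rintro (h | h | h)
      · exact w3 h.symm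
      · exact d1 (Prod.mk.inj h).2
      · exact v1 h
    · rw [endsL_cons, List.mem_cons, List.mem_cons]
      rintro (h | h | h)
      · exact d2 (Prod.mk.inj h).2
      · exact w2 h
      · exact v3 h
    · exact fun h => w1 h.symm
    · exact u1
    · exact u3
  refine ⟨R1 :: R2 :: rs, K1, ?_, ?_⟩
  · rw [costL_cons, costL_cons]
    have c1 : ((R1.cost m.toNat : ℕ) : ℤ) = 2 * m + 2 + ((s + ρ - q) + (q' - e) - 2 * m) := by
      simp only [Rc.cost, hR1]
      push_cast
      rw [a3]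
      omega
    have c2 : ((R2.cost m.toNat : ℕ) : ℤ) = 2 * m + 2 +
        ((q' - e) + (max s q + l - (s + ρ)) + (max s q - q) - 2 * m) := by
      simp only [Rc.cost, hR2]
      push_cast
      rw [b3]
      omega
    push_cast
    rw [c1, c2]
    have h1 : 2 * m + 2 + ((s + ρ - q) + (q' - e) - 2 * m) + (2 * m + 2 +
        ((q' - e) + (max s q + l - (s + ρ)) + (max s q - q) - 2 * m)) ≤ l + 2 * m := by
      omega
    have h2 : (D : ℤ) * (2 * m + 2 + ((s + ρ - q) + (q' - e) - 2 * m) + (2 * m + 2 +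
        ((q' - e) + (max s q + l - (s + ρ)) + (max s q - q) - 2 * m))) ≤ D * (l + 2 * m) :=
      mul_le_mul_of_nonneg_left h1 (by positivity)
    have h3 : (D : ℤ) * (2 * m) ≤ lam := by
      rw [Q.hlam]
      have : 0 ≤ (D : ℤ) * m := by apply mul_nonneg <;> omega
      nlinarith
    have h4 := hR.len
    nlinarith
  · intro V E ι hE hC
    obtain ⟨g1, hC1⟩ := comp_cons hC
    obtain ⟨g2, hC2⟩ := comp_cons hC1
    obtain ⟨Z, v, z1, z2, z3⟩ := hreach V E ι hE hC2
    rw [e1] at g1
    rw [e2] at g2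
    have key := run_walk hE W s e p l ρ q q' (max s q) D hR.per (by have := hR.p1; omega) n1 hX hD
      (by omega) (by omega) hmax1 hmax2 (by omega) he _ _ g1 g2
    have hqe : q ≤ q' := by
      have : 0 ≤ (D : ℤ) * l := by apply mul_nonneg <;> omega
      omega
    refine ⟨Z, v, z1, by omega, ?_⟩
    rw [← seg_append W hqe z2]
    exact Wk.append key z3

/-- adding the record of a plain connection -/
theorem add_plain {P h m lam L : ℤ} {D : ℕ} (Q : Par P h m lam L D) {W : ℤ → Lt} (hW : Red W)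
    {bk : Lt → B → Option B} {Zend x y : ℤ} {c c' : B ⊕ ℤ} (hxy : x + 2 * m < y)
    (hxy' : y ≤ x + 3 * lam)
    {Used : Finset ((B ⊕ ℤ) × List Lt)} {rs : List (Rc (B ⊕ ℤ))} (hrs : OKr m.toNat bk Used rs)
    (hc1 : bkC bk (W x) c = none) (hc3 : bkC bk (iv (W (y - 1))) c' = none)
    (u1 : (c, c1p W m x) ∉ Used) (u3 : (c', c1m W m y) ∉ Used)
    (v1 : (c, c1p W m x) ∉ endsL rs) (v3 : (c', c1m W m y) ∉ endsL rs)
    (w1 : (c', c1m W m y) ≠ (c, c1p W m x))
    (hreach : Reach bk W Zend y c' rs) :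
    ∃ rs', OKr m.toNat bk Used rs' ∧
      (D : ℤ) * costL m.toNat rs' ≤ D * costL m.toNat rs + 4 * L ∧
      Reach bk W Zend x c rs' := by
  have hP := Q.hP
  have hPh := Q.hPh
  have hm := Q.hm
  set R1 : Rc (B ⊕ ℤ) := ⟨c, c1p W m x, seg W (x + m) (y - m), c1m W m y, c'⟩ with hR1
  have e1 : R1.word = seg W x y := by
    simp only [Rc.word, hR1, c1p, c1m, wv_wv]
    rw [seg_append W (by omega) (by omega), seg_append W (by omega) (by omega)]
  have V1 : R1.Valid m.toNat (bkC bk) := by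
    refine ⟨?_, ?_, ?_, ?_, ?_, ?_⟩
    · simp only [hR1, c1p, seg_length]; congr 1; ring
    · simp only [hR1, c1m, wv_length, seg_length]; congr 1; ring
    · simp only [hR1]
      intro h
      have := congrArg List.length h
      rw [seg_length] at this
      simp only [List.length_nil] at this
      omega
    · rw [e1]; exact redL_seg hW _ _
    · intro z hz
      simp only [hR1, c1p] at hz
      rw [seg_head? W (by omega)] at hz
      simp only [Option.some.injEq] at hz
      rw [← hz]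
      exact hc1
    · intro z hz
      simp only [hR1, c1m] at hz
      rw [wv_seg_head? W (by omega)] at hz
      simp only [Option.some.injEq] at hz
      rw [← hz]
      exact hc3
  refine ⟨R1 :: rs, add_one hrs R1 V1 v1 v3 (fun h => w1 h.symm) u1 u3, ?_, ?_⟩
  · rw [costL_cons]
    have c1 : ((R1.cost m.toNat : ℕ) : ℤ) = y - x + 2 := by
      simp only [Rc.cost, hR1]
      push_cast
      rw [seg_length]
      omega
    push_cast
    rw [c1, Q.hL]
    have hD := Q.hD
    have h1 : y - x + 2 ≤ 4 * lam := by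
      have h2 : lam = 9 * (D * m) := Q.hlam
      have h3 : 0 ≤ ((D : ℤ) - 1) * m := by apply mul_nonneg <;> omega
      nlinarith
    have h2 : (D : ℤ) * (y - x + 2) ≤ D * (4 * lam) := mul_le_mul_of_nonneg_left h1 (by positivity)
    nlinarith
  · intro V E ι hE hC
    obtain ⟨g1, hC1⟩ := comp_cons hC
    obtain ⟨Z, v, z1, z2, z3⟩ := hreach V E ι hE hC1
    rw [e1] at g1
    refine ⟨Z, v, z1, by omega, ?_⟩
    rw [← seg_append W (show x ≤ y by omega) z2]
    exact Wk.append g1 z3

/-- bulk walks in the realising graph -/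
theorem bulk_walk {bk : Lt → B → Option B} {V : Type} {E : Lt → V → V → Prop} {ι : B ⊕ ℤ → V}
    (hC : ∀ x u v, bk x u = some v → E x (ι (Sum.inl u)) (ι (Sum.inl v))) {l : List Lt} {u v : B}
    (h : Wk (fun z a b => bk z a = some b) l u v) : Wk E l (ι (Sum.inl u)) (ι (Sum.inl v)) := by
  induction h with
  | nil u => exact Wk.nil _
  | cons h1 _ ih => exact Wk.cons (hC _ _ _ h1) ih

/-- state A: a bulk piece starts at `Y` -/
def StA (P h m lam L : ℤ) (D : ℕ) (W : ℤ → Lt) (bk : Lt → B → Option B) (Y0 Zend Y : ℤ) : Prop :=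
  ∀ (Used : Finset ((B ⊕ ℤ) × List Lt)) (f0 f1 : ℤ → List Lt),
    (lam - 2 * P) * Used.card ≤ 6 * (Y - Y0) → (∀ j c, (Sum.inr j, c) ∈ Used → j ≤ Y) →
    Sep P (Y + 1) (Y + h + 1) f0 → Sep P (Y + 1) (Y + h + 1) f1 →
    ∃ (u : B) (y : ℤ) (rs : List (Rc (B ⊕ ℤ))), Y < y ∧ y ≤ Y + h ∧
      bk (iv (W (y - 1))) u = none ∧ (Sum.inl u, f0 y) ∉ Used ∧ (Sum.inl u, f1 y) ∉ Used ∧
      (Sum.inl u, f0 y) ∉ endsL rs ∧ (Sum.inl u, f1 y) ∉ endsL rs ∧
      OKr m.toNat bk Used rs ∧
      (D : ℤ) * costL m.toNat rs ≤ 4 * (Zend + 3 * L - Y) ∧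
      Reach bk W Zend y (Sum.inl u) rs

/-- state B: a long run `[s, e)` is entered from the centre `c` at position `q` -/
def StB (P h m lam L : ℤ) (D : ℕ) (W : ℤ → Lt) (bk : Lt → B → Option B) (Y0 Zend s e p q : ℤ)
    (c : B ⊕ ℤ) : Prop :=
  ∀ (Used : Finset ((B ⊕ ℤ) × List Lt)),
    (lam - 2 * P) * Used.card ≤ 6 * (s - Y0) + 2 * (lam - 2 * P) →
    (∀ j c', (Sum.inr j, c') ∈ Used → j ≤ q) →
    (c, c1p W m q) ∉ Used → (c, c2p W m s (lp P m D (e - s) p) q) ∉ Used →
    ∃ rs : List (Rc (B ⊕ ℤ)), OKr m.toNat bk Used rs ∧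
      (D : ℤ) * costL m.toNat rs ≤ 4 * (Zend + 3 * L - s) ∧
      Reach bk W Zend q c rs

/-- the side conditions of state B -/
structure CondB (P h m lam : ℤ) (D : ℕ) (W : ℤ → Lt) (bk : Lt → B → Option B) (s e p q : ℤ)
    (c : B ⊕ ℤ) : Prop where
  lr : LR W P lam s e p
  hq : s ≤ q + 2 * h
  hq' : q < s + 2 * P
  hc1 : ∀ x, (c1p W m q).head? = some x → bkC bk x c = none
  hc2 : ∀ x, (c2p W m s (lp P m D (e - s) p) q).head? = some x → bkC bk x c = none
  hcj : ∀ j, c = Sum.inr j → j ≤ q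

theorem OKr.anti {m : ℕ} {bk : Lt → B → Option B} {U U' : Finset ((B ⊕ ℤ) × List Lt)}
    {rs : List (Rc (B ⊕ ℤ))} (h : OKr m bk U' rs) (hU : U ⊆ U') : OKr m bk U rs :=
  ⟨h.1, h.2.1, fun z hz hz' => h.2.2 z hz (hU hz')⟩

theorem stepB {P h m lam L : ℤ} {D : ℕ} {W : ℤ → Lt} {bk : Lt → B → Option B} {Y0 Zend : ℤ}
    (Q : Par P h m lam L D) (hW : Red W) {s e p q : ℤ} {c : B ⊕ ℤ}
    (C : CondB P h m lam D W bk s e p q c)
    (hA : (∀ s' e' p', LR W P lam s' e' p' → e < e' → ¬ s' ≤ e + 2 * h) →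
      StA P h m lam L D W bk Y0 Zend e)
    (hB : ∀ s' e' p', LR W P lam s' e' p' → e < e' → s' ≤ e + 2 * h →
      CondB P h m lam D W bk s' e' p' e (Sum.inr e) →
      StB P h m lam L D W bk Y0 Zend s' e' p' e (Sum.inr e)) :
    StB P h m lam L D W bk Y0 Zend s e p q c := by
  classical
  intro Used hcard hname u1 u2
  have hP := Q.hP
  have hPh := Q.hPh
  have hm := Q.hm
  have hD := Q.hD
  obtain ⟨n1, n2, n3, n4⟩ := run_num Q (e - s) p C.lr.len C.lr.p1 C.lr.pP
  set l := lp P m D (e - s) p with hl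
  have hlen := C.lr.len
  have hq := C.hq
  have hq' := C.hq'
  have hlam : 36 * m ≤ lam := by
    have h2 : lam = 9 * (D * m) := Q.hlam
    have h3 : 0 ≤ ((D : ℤ) - 16) * m := by apply mul_nonneg <;> omega
    nlinarith
  by_cases hex : ∃ s' e' p', LR W P lam s' e' p' ∧ e < e' ∧ s' ≤ e + 2 * h
  · obtain ⟨s', e', p', hR', he', hs'⟩ := hex
    have hll := long_le Q C.lr hR' he'
    have hj := junction Q hW C.lr hR' he' hs' hll
    rw [← hl] at hj
    obtain ⟨j1, j2, j3, j4⟩ := hj
    obtain ⟨m1, m2, m3, m4⟩ := run_num Q (e' - s') p' hR'.len hR'.p1 hR'.pP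
    have C' : CondB P h m lam D W bk s' e' p' e (Sum.inr e) := by
      refine ⟨hR', by omega, by omega, ?_, ?_, ?_⟩
      · intro x _; rfl
      · intro x _; rfl
      · intro j hj
        have := Sum.inr.inj hj
        omega
    set U' : Finset ((B ⊕ ℤ) × List Lt) := insert (c, c1p W m q) (insert (c, c2p W m s l q)
      (insert (Sum.inr e, c1m W m e) (insert (Sum.inr e, c2m W m e l e) Used))) with hU'
    have hce : c ≠ Sum.inr e := by
      intro h
      have := C.hcj e h
      omega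
    have hnotU : ∀ w, (Sum.inr e, w) ∉ Used := by
      intro w hw
      have := hname e w hw
      omega
    have hcard' : U'.card ≤ Used.card + 4 := by
      rw [hU']
      refine (Finset.card_insert_le _ _).trans ?_
      refine (Nat.add_le_add_right (Finset.card_insert_le _ _) 1).trans ?_
      refine (Nat.add_le_add_right (Nat.add_le_add_right (Finset.card_insert_le _ _) 1) 1).trans ?_
      refine (Nat.add_le_add_right (Nat.add_le_add_right (Nat.add_le_add_right
        (Finset.card_insert_le _ _) 1) 1) 1).trans ?_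
      omega
    obtain ⟨rs, k1, k2, k3⟩ := hB s' e' p' hR' he' hs' C' U' (by
        have h1 : (U'.card : ℤ) ≤ Used.card + 4 := by exact_mod_cast hcard'
        have h2 : 0 ≤ lam - 2 * P := by omega
        have h3 := mul_le_mul_of_nonneg_left h1 h2
        nlinarith) (by
        intro j w hw
        rw [hU'] at hw
        simp only [Finset.mem_insert, Prod.mk.injEq] at hw
        rcases hw with h | h | h | h | h
        · have := C.hcj j h.1.symm; omega
        · have := C.hcj j h.1.symm; omega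
        · have := Sum.inr.inj h.1; omega
        · have := Sum.inr.inj h.1; omega
        · have := hname j w h; omega) (by
        rw [hU']
        simp only [Finset.mem_insert, Prod.mk.injEq, not_or, not_and]
        exact ⟨fun h => absurd h.symm hce, fun h => absurd h.symm hce, fun _ => j1, fun _ => j2,
          hnotU _⟩) (by
        rw [hU']
        simp only [Finset.mem_insert, Prod.mk.injEq, not_or, not_and]
        exact ⟨fun h => absurd h.symm hce, fun h => absurd h.symm hce, fun _ => j3, fun _ => j4,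
          hnotU _⟩)
    have i1 : (c, c1p W m q) ∉ endsL rs := fun hh => k1.2.2 _ hh (by rw [hU']; simp)
    have i2 : (c, c2p W m s l q) ∉ endsL rs := fun hh => k1.2.2 _ hh (by rw [hU']; simp)
    have i3 : (Sum.inr e, c1m W m e) ∉ endsL rs := fun hh => k1.2.2 _ hh (by rw [hU']; simp)
    have i4 : (Sum.inr e, c2m W m e l e) ∉ endsL rs := fun hh => k1.2.2 _ hh (by rw [hU']; simp)
    obtain ⟨rs', r1, r2, r3⟩ := add_run Q hW C.lr hq hq' (le_refl e) (show e ≤ e + h by omega)
      (k1.anti (U := Used) (by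
        rw [hU']
        exact (Finset.subset_insert _ _).trans' ((Finset.subset_insert _ _).trans'
          ((Finset.subset_insert _ _).trans' (Finset.subset_insert _ _)))))
      C.hc1 C.hc2 (fun x _ => rfl) (fun x _ => rfl) u1 u2 (hnotU _) (hnotU _) i1 i2 i3 i4
      (fun h => hce (Prod.mk.inj h).1.symm) (fun h => hce (Prod.mk.inj h).1.symm)
      (fun h => hce (Prod.mk.inj h).1.symm) (fun h => hce (Prod.mk.inj h).1.symm) k3
    refine ⟨rs', r1, ?_, r3⟩
    omega
  · have hno : ∀ s' e' p', LR W P lam s' e' p' → e < e' → ¬ s' ≤ e + 2 * h :=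
      fun s' e' p' a b c => hex ⟨s', e', p', a, b, c⟩
    set U' : Finset ((B ⊕ ℤ) × List Lt) := insert (c, c1p W m q) (insert (c, c2p W m s l q) Used)
      with hU'
    have hcard' : U'.card ≤ Used.card + 2 := by
      rw [hU']
      refine (Finset.card_insert_le _ _).trans ?_
      refine (Nat.add_le_add_right (Finset.card_insert_le _ _) 1).trans ?_
      omega
    obtain ⟨u, y, rs, y1, y2, y3, y4, y5, y6, y7, y8, y9, y10⟩ := hA hno U' (c1m W m)
      (c2m W m e l) (by
        have h1 : (U'.card : ℤ) ≤ Used.card + 2 := by exact_mod_cast hcard'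
        have h2 : 0 ≤ lam - 2 * P := by omega
        have h3 := mul_le_mul_of_nonneg_left h1 h2
        nlinarith) (by
        intro j w hw
        rw [hU'] at hw
        simp only [Finset.mem_insert, Prod.mk.injEq] at hw
        rcases hw with h | h | h
        · have := C.hcj j h.1.symm; omega
        · have := C.hcj j h.1.symm; omega
        · have := hname j w h; omega) (sep_c1m_run Q C.lr) (sep_c2m_run Q hW C.lr)
    have i1 : (c, c1p W m q) ∉ endsL rs := fun hh => y8.2.2 _ hh (by rw [hU']; simp)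
    have i2 : (c, c2p W m s l q) ∉ endsL rs := fun hh => y8.2.2 _ hh (by rw [hU']; simp)
    rw [hU'] at y4 y5
    simp only [Finset.mem_insert, not_or] at y4 y5
    have k1 : OKr m.toNat bk Used rs := y8.anti (by
      rw [hU']
      exact (Finset.subset_insert _ _).trans' (Finset.subset_insert _ _))
    have hb : bkC bk (iv (W (y - 1))) (Sum.inl u) = none := by
      simp only [bkC, y3, Option.map_none]
    have hc3 : ∀ x, (c1m W m y).head? = some x → bkC bk x (Sum.inl u) = none := by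
      intro x hx
      rw [c1m, wv_seg_head? W (by omega)] at hx
      rw [← Option.some.inj hx]
      exact hb
    have hc4 : ∀ x, (c2m W m e l y).head? = some x → bkC bk x (Sum.inl u) = none := by
      intro x hx
      rw [c2m, wv_seg_head? _ (by omega)] at hx
      rw [← Option.some.inj hx, Vm, if_pos (by omega)]
      exact hb
    obtain ⟨rs', r1, r2, r3⟩ := add_run Q hW C.lr hq hq' y1.le y2 k1
      C.hc1 C.hc2 hc3 hc4 u1 u2 y4.2.2 y5.2.2 i1 i2 y6 y7
      y4.1 y4.2.1 y5.1 y5.2.1 y10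
    refine ⟨rs', r1, ?_, r3⟩
    omega

/-- two separated functions for the last piece -/
theorem sep_triv (P a b : ℤ) : Sep P a b (fun x => List.replicate (x - a).toNat ((0 : Fin 2), true)) := by
  intro x x' h1 h2 h3 h4 h5
  have := congrArg List.length h5
  simp only [List.length_replicate] at this
  omega

theorem stepA {P h m lam L : ℤ} {D : ℕ} {W : ℤ → Lt} {bk : Lt → B → Option B} {Y0 Zend : ℤ}
    (Q : Par P h m lam L D) (hW : Red W) (horc : Orc bk W P h lam L Y0 (Zend + 3 * L)) {Y A0 B0 : ℤ}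
    (hY0 : Y0 ≤ Y) (hY : Y ≤ Zend + 3 * L)
    (hper : ∀ p a b, 1 ≤ p → p ≤ P → lam ≤ b - a → Per W p a b → A0 ≤ a ∧ b ≤ B0)
    (hinv : ∀ s e p, LR W P lam s e p → Y + h < e → Y + 2 * h + 1 ≤ s)
    (hA : Y + h < Zend → (∀ s e p, LR W P lam s e p → Y + h < e → Y + h + 2 * L < s) →
      ∀ Y', Y + L ≤ Y' → Y' ≤ Y + L + 3 * lam → StA P h m lam L D W bk Y0 Zend Y')
    (hB : ∀ s e p, LR W P lam s e p → Y + 2 * h + 1 ≤ s → ∀ q (c : B ⊕ ℤ),
      CondB P h m lam D W bk s e p q c → StB P h m lam L D W bk Y0 Zend s e p q c) :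
    StA P h m lam L D W bk Y0 Zend Y := by
  classical
  intro Used f0 f1 hcard hname s0 s1
  have hP := Q.hP
  have hPh := Q.hPh
  have hm := Q.hm
  have hD := Q.hD
  have hlam : 36 * m ≤ lam := by
    have h2 : lam = 9 * (D * m) := Q.hlam
    have h3 : 0 ≤ ((D : ℤ) - 16) * m := by apply mul_nonneg <;> omega
    nlinarith
  have hL : 16 * lam ≤ L := by
    rw [Q.hL]
    have h3 : 0 ≤ ((D : ℤ) - 16) * lam := by apply mul_nonneg <;> omega
    nlinarith
  have hcard0 : (lam - 2 * P) * Used.card ≤ 6 * (Zend + 3 * L - Y0) := by omega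
  by_cases hend : Zend ≤ Y + h
  · -- last piece
    obtain ⟨y, x, u, v, a1, a2, a3, a4, a5, a6, a7, a8, a9, a10, -, -⟩ := horc Y (Y + h + 1) hY0 hY
      (le_refl _) (by omega) Used hcard0 f0 f1 _ _ s0 s1 (sep_triv P _ _) (sep_triv P _ _)
    refine ⟨u, y, [], a1, a2, a6, a9, a10, by simp [endsL], by simp [endsL], ?_, ?_, ?_⟩
    · exact ⟨by simp, by simp [endsL], by simp [endsL]⟩
    · have : costL m.toNat ([] : List (Rc (B ⊕ ℤ))) = 0 := by simp [costL]
      rw [this]
      push_cast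
      omega
    · intro V E ι hE hC
      refine ⟨x, ι (Sum.inl v), by omega, by omega, ?_⟩
      exact bulk_walk hC.1 a8
  · by_cases hex : ∃ s e p, LR W P lam s e p ∧ Y + h < e ∧ s ≤ Y + h + 2 * L
    · obtain ⟨s, e, p, hR, he, hs⟩ := hex
      have hs' := hinv s e p hR he
      obtain ⟨n1, n2, n3, n4⟩ := run_num Q (e - s) p hR.len hR.p1 hR.pP
      set l := lp P m D (e - s) p with hl
      obtain ⟨y, x, u, v, a1, a2, a3, a4, a5, a6, a7, a8, a9, a10, a11, a12⟩ :=
        horc Y (s - h) hY0 hY (by omega) (by omega) Used hcard0 f0 f1 (c1p W m) (c2p W m s l)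
          s0 s1 (by rw [sub_add_cancel]; exact sep_c1p_run Q hR)
          (by rw [sub_add_cancel]; exact sep_c2p_run Q hW hR)
      have hb : bkC bk (W x) (Sum.inl v) = none := by
        simp only [bkC, a7, Option.map_none]
      have C : CondB P h m lam D W bk s e p x (Sum.inl v) := by
        refine ⟨hR, by omega, by omega, ?_, ?_, ?_⟩
        · intro z hz
          rw [c1p, seg_head? W (by omega)] at hz
          rw [← Option.some.inj hz]
          exact hb
        · intro z hz
          rw [c2p, seg_head? _ (by omega)] at hz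
          rw [← Option.some.inj hz, Vp, if_pos (by rw [max_eq_left (by omega)]; omega)]
          exact hb
        · intro j hj
          cases hj
      set U' : Finset ((B ⊕ ℤ) × List Lt) := insert (Sum.inl u, f0 y) (insert (Sum.inl u, f1 y) Used)
        with hU'
      have hcard' : U'.card ≤ Used.card + 2 := by
        rw [hU']
        refine (Finset.card_insert_le _ _).trans ?_
        refine (Nat.add_le_add_right (Finset.card_insert_le _ _) 1).trans ?_
        omega
      have huv : (Sum.inl v : B ⊕ ℤ) ≠ Sum.inl u := fun hh => a5 (Sum.inl.inj hh).symm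
      obtain ⟨rs, k1, k2, k3⟩ := hB s e p hR hs' x (Sum.inl v) C U' (by
          have h1 : (U'.card : ℤ) ≤ Used.card + 2 := by exact_mod_cast hcard'
          have h2 : 0 ≤ lam - 2 * P := by omega
          have h3 := mul_le_mul_of_nonneg_left h1 h2
          nlinarith) (by
          intro j w hw
          rw [hU'] at hw
          simp only [Finset.mem_insert, Prod.mk.injEq, reduceCtorEq, false_and, false_or] at hw
          have := hname j w hw
          omega) (by
          rw [hU']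
          simp only [Finset.mem_insert, Prod.mk.injEq, not_or, not_and]
          exact ⟨fun hh => absurd hh huv, fun hh => absurd hh huv, a11⟩) (by
          rw [hU']
          simp only [Finset.mem_insert, Prod.mk.injEq, not_or, not_and]
          exact ⟨fun hh => absurd hh huv, fun hh => absurd hh huv, a12⟩)
      refine ⟨u, y, rs, a1, a2, a6, a9, a10, fun hh => k1.2.2 _ hh (by rw [hU']; simp),
        fun hh => k1.2.2 _ hh (by rw [hU']; simp), k1.anti (by
          rw [hU']
          exact (Finset.subset_insert _ _).trans' (Finset.subset_insert _ _)), by omega, ?_⟩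
      intro V E ι hE hC
      obtain ⟨Z, z, z1, z2, z3⟩ := k3 V E ι hE hC
      refine ⟨Z, z, z1, by omega, ?_⟩
      rw [← seg_append W (show y ≤ x by omega) z2]
      exact Wk.append (bulk_walk hC.1 a8) z3
    · -- plain connection
      have hno : ∀ s e p, LR W P lam s e p → Y + h < e → Y + h + 2 * L < s := by
        intro s e p h1 h2
        by_contra hcon
        exact hex ⟨s, e, p, h1, h2, by omega⟩
      have hnp : ∀ p a b, 1 ≤ p → p ≤ P → Y + h ≤ a → b ≤ Y + h + 2 * L → lam ≤ b - a →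
          ¬ Per W p a b := by
        intro p a b h1 h2 h3 h4 h5 h6
        obtain ⟨s, e, g1, g2, g3⟩ := extend_run h1 h2 (by omega) h5 h6
          (fun a b h7 h8 => hper p a b h1 h2 h7 h8)
        have := hno s e p g3 (by omega)
        omega
      obtain ⟨t, t1, t2, t3⟩ := scan Q W (Y + h + L + m) (fun p a b h1 h2 h3 h4 h5 =>
        hnp p a b h1 h2 (by omega) (by omega) h5)
      obtain ⟨t', t4, t5, t6⟩ := scan Q W (t + h + m + 2) (fun p a b h1 h2 h3 h4 h5 =>
        hnp p a b h1 h2 (by omega) (by omega) h5)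
      -- X = t - m, Y' = t' - 1
      obtain ⟨y, x, u, v, a1, a2, a3, a4, a5, a6, a7, a8, a9, a10, a11, -⟩ :=
        horc Y (t - m) hY0 hY (by omega) (by omega) Used hcard0 f0 f1 (c1p W m) (c1p W m) s0 s1
          (sep_c1p_good (by omega) (fun x h1 h2 => t3 (x + m) (by omega) (by omega)))
          (sep_c1p_good (by omega) (fun x h1 h2 => t3 (x + m) (by omega) (by omega)))
      set U' : Finset ((B ⊕ ℤ) × List Lt) := insert (Sum.inl v, c1p W m x)
        (insert (Sum.inl u, f0 y) (insert (Sum.inl u, f1 y) Used)) with hU'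
      have hcard' : U'.card ≤ Used.card + 3 := by
        rw [hU']
        refine (Finset.card_insert_le _ _).trans ?_
        refine (Nat.add_le_add_right (Finset.card_insert_le _ _) 1).trans ?_
        refine (Nat.add_le_add_right (Nat.add_le_add_right (Finset.card_insert_le _ _) 1) 1).trans ?_
        omega
      have hsep : Sep P (t' - 1 + 1) (t' - 1 + h + 1) (c1m W m) :=
        sep_c1m_good (by omega) (fun x h1 h2 => t6 x (by omega) (by omega))
      obtain ⟨u', y', rs, y1, y2, y3, y4, y5, y6, y7, y8, y9, y10⟩ := hA (by omega) hno (t' - 1)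
        (by omega) (by omega) U' (c1m W m) (c1m W m) (by
          have h1 : (U'.card : ℤ) ≤ Used.card + 3 := by exact_mod_cast hcard'
          have h2 : 0 ≤ lam - 2 * P := by omega
          have h3 := mul_le_mul_of_nonneg_left h1 h2
          nlinarith) (by
          intro j w hw
          rw [hU'] at hw
          simp only [Finset.mem_insert, Prod.mk.injEq, reduceCtorEq, false_and, false_or] at hw
          have := hname j w hw
          omega) hsep hsep
      have hb : bkC bk (W x) (Sum.inl v) = none := by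
        simp only [bkC, a7, Option.map_none]
      have hb' : bkC bk (iv (W (y' - 1))) (Sum.inl u') = none := by
        simp only [bkC, y3, Option.map_none]
      have k1 : OKr m.toNat bk (insert (Sum.inl u, f0 y) (insert (Sum.inl u, f1 y) Used)) rs :=
        y8.anti (by rw [hU']; exact Finset.subset_insert _ _)
      have huv : (Sum.inl v : B ⊕ ℤ) ≠ Sum.inl u := fun hh => a5 (Sum.inl.inj hh).symm
      have i1 : (Sum.inl v, c1p W m x) ∉ endsL rs := fun hh => y8.2.2 _ hh (by rw [hU']; simp)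
      have i2 : (Sum.inl v, c1p W m x) ∉
          insert (Sum.inl u, f0 y) (insert (Sum.inl u, f1 y) Used) := by
        simp only [Finset.mem_insert, Prod.mk.injEq, not_or, not_and]
        exact ⟨fun hh => absurd hh huv, fun hh => absurd hh huv, a11⟩
      rw [hU'] at y4
      rw [Finset.mem_insert, not_or] at y4
      obtain ⟨rs', r1, r2, r3⟩ := add_plain Q hW (x := x) (y := y') (by omega) (by omega) k1 hb hb'
        i2 y4.2 i1 y6 y4.1 y10
      refine ⟨u, y, rs', a1, a2, a6, a9, a10, fun hh => r1.2.2 _ hh (by simp),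
        fun hh => r1.2.2 _ hh (by simp), r1.anti ((Finset.subset_insert _ _).trans'
          (Finset.subset_insert _ _)), by omega, ?_⟩
      intro V E ι hE hC
      obtain ⟨Z, z, z1, z2, z3⟩ := r3 V E ι hE hC
      refine ⟨Z, z, z1, by omega, ?_⟩
      rw [← seg_append W (show y ≤ x by omega) z2]
      exact Wk.append (bulk_walk hC.1 a8) z3

theorem both {P h m lam L : ℤ} {D : ℕ} (Q : Par P h m lam L D) {W : ℤ → Lt} (hW : Red W)
    {bk : Lt → B → Option B} {Y0 Zend A0 B0 : ℤ} (hB0 : B0 ≤ Zend)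
    (hper : ∀ p a b, 1 ≤ p → p ≤ P → lam ≤ b - a → Per W p a b → A0 ≤ a ∧ b ≤ B0)
    (horc : Orc bk W P h lam L Y0 (Zend + 3 * L)) (k : ℕ) :
    (∀ Y, Y0 ≤ Y → Y ≤ Zend + 3 * L → Zend + 3 * L - Y < k →
      (∀ s e p, LR W P lam s e p → Y + h < e → Y + 2 * h + 1 ≤ s) →
      StA P h m lam L D W bk Y0 Zend Y) ∧
    (∀ s e p q (c : B ⊕ ℤ), Y0 ≤ s → Zend + 3 * L - s < k → CondB P h m lam D W bk s e p q c →
      StB P h m lam L D W bk Y0 Zend s e p q c) := by
  have hP := Q.hP
  have hPh := Q.hPh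
  have hm := Q.hm
  have hD := Q.hD
  have hlam : 36 * m ≤ lam := by
    have h2 : lam = 9 * (D * m) := Q.hlam
    have h3 : 0 ≤ ((D : ℤ) - 16) * m := by apply mul_nonneg <;> omega
    nlinarith
  have hL : 16 * lam ≤ L := by
    rw [Q.hL]
    have h3 : 0 ≤ ((D : ℤ) - 16) * lam := by apply mul_nonneg <;> omega
    nlinarith
  induction k with
  | zero =>
    refine ⟨?_, ?_⟩
    · intro Y h1 h2 h3
      exact absurd h3 (by push_cast; omega)
    · intro s e p q c h1 h2 C
      exfalso
      have h3 := hper p s e C.lr.p1 C.lr.pP C.lr.len C.lr.per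
      have h4 := C.lr.len
      push_cast at h2
      omega
  | succ k ih =>
    obtain ⟨ihA, ihB⟩ := ih
    push_cast
    refine ⟨?_, ?_⟩
    · intro Y h1 h2 h3 hinv
      apply stepA Q hW horc h1 h2 hper hinv
      · intro h4 h5 Y' h6 h7
        apply ihA Y' (by omega) (by omega) (by omega)
        intro s e p h8 h9
        have := h5 s e p h8 (by omega)
        omega
      · intro s e p h4 h5 q c C
        exact ihB s e p q c (by omega) (by omega) C
    · intro s e p q c h1 h2 C
      have h3 := hper p s e C.lr.p1 C.lr.pP C.lr.len C.lr.per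
      have h4 := C.lr.len
      apply stepB Q hW C
      · intro h5
        apply ihA e (by omega) (by omega) (by omega)
        intro s' e' p' h6 h7
        have := h5 s' e' p' h6 (by omega)
        omega
      · intro s' e' p' h5 h6 h7 C'
        have h8 := long_le Q C.lr h5 h6
        exact ihB s' e' p' e (Sum.inr e) (by omega) (by omega) C'

end Ind

open Ind in
theorem main_ind {P h m lam L : ℤ} {D : ℕ} (Q : Par P h m lam L D) {W : ℤ → Lt} (hW : Red W)
    {B : Type} (bk : Lt → B → Option B) (Y0 Zend r : ℤ) (hY0 : Y0 + 2 * h + 1 ≤ -m)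
    (hr : 0 ≤ r) (hZ : r + m ≤ Zend)
    (hper : ∀ p a b, 1 ≤ p → p ≤ P → lam ≤ b - a → Per W p a b → -m ≤ a ∧ b ≤ r + m)
    (hgood : ∀ y, y ≤ -m → good W P m y)
    (horc : Orc bk W P h lam L Y0 (Zend + 3 * L)) :
    ∃ (u : B) (y : ℤ) (rs : List (Rc (B ⊕ ℤ))), Y0 < y ∧ y ≤ Y0 + h ∧
      bk (iv (W (y - 1))) u = none ∧ (Sum.inl u, c1m W m y) ∉ endsL rs ∧
      (∀ r ∈ rs, r.Valid m.toNat (bkC bk)) ∧ (endsL rs).Nodup ∧
      D * (costL m.toNat rs : ℤ) ≤ 4 * (Zend + 3 * L - Y0) ∧
      ∀ (V : Type) (E : Lt → V → V → Prop) (ι : B ⊕ ℤ → V), Sys E → Comp bk rs E ι →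
        ∃ Z v, Zend ≤ Z ∧ Wk E (seg W y Z) (ι (Sum.inl u)) v := by
  have hP := Q.hP
  have hPh := Q.hPh
  have hm := Q.hm
  have hD := Q.hD
  have hlam : 36 * m ≤ lam := by
    have h2 : lam = 9 * (D * m) := Q.hlam
    have h3 : 0 ≤ ((D : ℤ) - 16) * m := by apply mul_nonneg <;> omega
    nlinarith
  have hL : 16 * lam ≤ L := by
    rw [Q.hL]
    have h3 : 0 ≤ ((D : ℤ) - 16) * lam := by apply mul_nonneg <;> omega
    nlinarith
  have hb := (both Q hW hZ hper horc ((Zend + 3 * L - Y0).toNat + 1)).1 Y0 (le_refl _) (by omega)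
    (by push_cast; omega) (by
      intro s e p h1 h2
      have := (hper p s e h1.p1 h1.pP h1.len h1.per).1
      omega)
  have hsep : Sep P (Y0 + 1) (Y0 + h + 1) (c1m W m) :=
    sep_c1m_good (by omega) (fun y h1 h2 => hgood y (by omega))
  obtain ⟨u, y, rs, y1, y2, y3, y4, y5, y6, y7, y8, y9, y10⟩ := hb ∅ (c1m W m) (c1m W m)
    (by simp) (by simp) hsep hsep
  refine ⟨u, y, rs, y1, y2, y3, y6, y8.1, y8.2.1, y9, ?_⟩
  intro V E ι hE hC
  obtain ⟨Z, v, z1, -, z3⟩ := y10 V E ι hE hC
  exact ⟨Z, v, z1, z3⟩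

end Pool.LW
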