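import Pool.Agent.Work.MP_99279c_al.LW.Defs

/-! M7: the window oracle. -/

namespace Pool.LW

/-- The bulk action of a family of permutations with deleted edges. -/
def bkT {T N : ℕ} (σ : Fin T → Fin 2 → Equiv.Perm (Fin N)) (del : Fin T → Fin 2 × Fin N → Bool)
    (x : Lt) (u : Fin T × Fin N) : Option (Fin T × Fin N) :=
  if del u.1 (x.1, if x.2 then u.2 else act (σ u.1) x u.2) = true then none
  else some (u.1, act (σ u.1) x u.2)

namespace Oracle

theorem act_iv {N : ℕ} (σ : Fin 2 → Equiv.Perm (Fin N)) (x : Lt) (u : Fin N) :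
    act σ (iv x) (act σ x u) = u := by
  rcases x with ⟨a, b⟩
  cases b <;> simp [act, iv]

end Oracle

open Oracle in
theorem bkT_symm {T N : ℕ} (σ : Fin T → Fin 2 → Equiv.Perm (Fin N))
    (del : Fin T → Fin 2 × Fin N → Bool) (x : Lt) (u v : Fin T × Fin N)
    (h : bkT σ del x u = some v) : bkT σ del (iv x) v = some u := by
  unfold bkT at h
  by_cases h1 : del u.1 (x.1, if x.2 then u.2 else act (σ u.1) x u.2) = true
  · rw [if_pos h1] at h
    exact absurd h (by simp)
  rw [if_neg h1] at h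
  simp only [Option.some.injEq] at h
  subst h
  unfold bkT
  rw [if_neg]
  · simp [act_iv]
  · intro h2
    apply h1
    refine Eq.trans ?_ h2
    rcases x with ⟨a, b⟩
    cases b
    · simp [iv]
    · have := act_iv (σ u.1) (a, true) u.2
      simp only [iv, Bool.not_true] at this
      simp [iv, this]

namespace Oracle

theorem pth_inj {N : ℕ} (σ : Fin 2 → Equiv.Perm (Fin N)) (V : ℕ → Lt) (k : ℕ) :
    Function.Injective fun v => pth σ V v k := by
  induction k with
  | zero => intro a b h; exact h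
  | succ k ih =>
    intro a b h
    apply ih
    exact (act σ (V k)).injective h

theorem seg_nil (W : ℤ → Lt) {a b : ℤ} (h : b ≤ a) : seg W a b = [] := by
  unfold seg
  have : (b - a).toNat = 0 := by omega
  simp [this]

theorem seg_cons (W : ℤ → Lt) {a b : ℤ} (h : a < b) : seg W a b = W a :: seg W (a + 1) b := by
  unfold seg
  obtain ⟨n, hn⟩ : ∃ n : ℕ, (b - a).toNat = n + 1 := ⟨(b - a).toNat - 1, by omega⟩
  have hn' : (b - (a + 1)).toNat = n := by omega
  rw [hn, hn', List.range_succ_eq_map]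
  simp only [List.map_cons, List.map_map, Nat.cast_zero, add_zero, List.cons.injEq, true_and]
  apply List.map_congr_left
  intro i _
  simp only [Function.comp]
  congr 1
  push_cast
  ring

theorem bk_step {T N : ℕ} (σ : Fin T → Fin 2 → Equiv.Perm (Fin N))
    (del : Fin T → Fin 2 × Fin N → Bool) (t : Fin T) (V : ℕ → Lt) (v : Fin N) (k : ℕ)
    (h : del t (eg (σ t) V v k) ≠ true) :
    bkT σ del (V k) (t, pth (σ t) V v k) = some (t, pth (σ t) V v (k + 1)) := by
  unfold bkT
  rw [if_neg]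
  · rfl
  · exact h

theorem bk_none {T N : ℕ} (σ : Fin T → Fin 2 → Equiv.Perm (Fin N))
    (del : Fin T → Fin 2 × Fin N → Bool) (t : Fin T) (V : ℕ → Lt) (v : Fin N) (k : ℕ)
    (h : del t (eg (σ t) V v k) = true) :
    bkT σ del (V k) (t, pth (σ t) V v k) = none := by
  unfold bkT
  rw [if_pos]
  exact h

theorem bk_none' {T N : ℕ} (σ : Fin T → Fin 2 → Equiv.Perm (Fin N))
    (del : Fin T → Fin 2 × Fin N → Bool) (t : Fin T) (V : ℕ → Lt) (v : Fin N) (k : ℕ)
    (h : del t (eg (σ t) V v k) = true) :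
    bkT σ del (iv (V k)) (t, pth (σ t) V v (k + 1)) = none := by
  rcases hb : bkT σ del (iv (V k)) (t, pth (σ t) V v (k + 1)) with _ | w
  · rfl
  · exfalso
    have hw : w = (t, pth (σ t) V v k) := by
      have h1 := hb
      unfold bkT at h1
      by_cases h4 : del (t, pth (σ t) V v (k + 1)).1 ((iv (V k)).1,
          if (iv (V k)).2 then (t, pth (σ t) V v (k + 1)).2
          else act (σ (t, pth (σ t) V v (k + 1)).1) (iv (V k)) (t, pth (σ t) V v (k + 1)).2) = true
      · rw [if_pos h4] at h1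
        exact absurd h1 (by simp)
      rw [if_neg h4] at h1
      simp only [Option.some.injEq] at h1
      rw [← h1]
      have h2 : pth (σ t) V v (k + 1) = act (σ t) (V k) (pth (σ t) V v k) := rfl
      simp only [h2, act_iv]
    have h3 := bkT_symm σ del _ _ _ hb
    rw [iv_iv, hw, bk_none σ del t V v k h] at h3
    exact absurd h3 (by simp)

theorem walk {T N : ℕ} (σ : Fin T → Fin 2 → Equiv.Perm (Fin N))
    (del : Fin T → Fin 2 × Fin N → Bool) (t : Fin T) (W : ℤ → Lt) (Y : ℤ) (v : Fin N) (n : ℕ) :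
    ∀ a : ℕ, (∀ k, a ≤ k → k < a + n →
      del t (eg (σ t) (fun k : ℕ => W (Y + k)) v k) ≠ true) →
      Wk (fun z p q => bkT σ del z p = some q) (seg W (Y + a) (Y + (a + n : ℕ)))
        (t, pth (σ t) (fun k : ℕ => W (Y + k)) v a)
        (t, pth (σ t) (fun k : ℕ => W (Y + k)) v (a + n)) := by
  induction n with
  | zero =>
    intro a _
    rw [seg_nil W (by simp)]
    exact Wk.nil _
  | succ n ih =>
    intro a h
    rw [seg_cons W (by push_cast; omega)]
    refine Wk.cons (v := (t, pth (σ t) (fun k : ℕ => W (Y + k)) v (a + 1))) ?_ ?_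
    · exact bk_step σ del t (fun k : ℕ => W (Y + k)) v a (h a le_rfl (by omega))
    · have h1 := ih (a + 1) (fun k h1 h2 => h k (by omega) (by omega))
      have e1 : a + 1 + n = a + (n + 1) := by omega
      rw [e1] at h1
      have e2 : Y + ((a + 1 : ℕ) : ℤ) = Y + (a : ℤ) + 1 := by push_cast; ring
      rw [e2] at h1
      exact h1

theorem sep_count {P a b : ℤ} (hP : 1 ≤ P) (hab : a ≤ b) {f : ℤ → List Lt} (hf : Sep P a b f)
    (w : List Lt) :
    (((Finset.Ico a b).filter fun x => f x = w).card : ℤ) ≤ (b - a) / P + 1 := by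
  have h1 : ((Finset.Ico a b).filter fun x => f x = w).card ≤
      (Finset.Icc (0 : ℤ) ((b - a) / P)).card := by
    apply Finset.card_le_card_of_injOn fun x => (x - a) / P
    · intro x hx
      simp only [Finset.coe_filter, Finset.mem_Ico, Set.mem_ofPred_eq] at hx
      simp only [Finset.coe_Icc, Set.mem_Icc]
      constructor
      · exact Int.ediv_nonneg (by omega) (by omega)
      · exact Int.ediv_le_ediv (by omega) (by omega)
    · have key : ∀ x x' : ℤ, a ≤ x → x < x' → x' < b → f x = w → f x' = w →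
          (x - a) / P = (x' - a) / P → False := by
        intro x x' h1 h2 h3 h4 h5 h6
        apply hf x x' h1 h2 h3 _ (h4.trans h5.symm)
        have e1 := Int.mul_ediv_add_emod (x - a) P
        have e2 := Int.mul_ediv_add_emod (x' - a) P
        have e3 := Int.emod_nonneg (x - a) (show P ≠ 0 by omega)
        have e4 := Int.emod_lt_of_pos (x' - a) (show 0 < P by omega)
        rw [h6] at e1
        omega
      intro x hx x' hx' he
      simp only [Finset.coe_filter, Finset.mem_Ico, Set.mem_ofPred_eq] at hx hx'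
      rcases lt_trichotomy x x' with h | h | h
      · exact (key x x' hx.1.1 h hx'.1.2 hx.2 hx'.2 he).elim
      · exact h
      · exact (key x' x hx'.1.1 h hx.1.2 hx'.2 hx.2 he.symm).elim
  have h2 : ((Finset.Icc (0 : ℤ) ((b - a) / P)).card : ℤ) = (b - a) / P + 1 := by
    rw [Int.card_Icc]
    have := Int.ediv_nonneg (show 0 ≤ b - a by omega) (show 0 ≤ P by omega)
    omega
  calc (((Finset.Ico a b).filter fun x => f x = w).card : ℤ)
      ≤ ((Finset.Icc (0 : ℤ) ((b - a) / P)).card : ℤ) := by exact_mod_cast h1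
    _ = (b - a) / P + 1 := h2

/-- each used end kills few start vertices per class function -/
theorem kill {T N : ℕ} {P a b : ℤ} (hP : 1 ≤ P) (hab : a ≤ b) {f : ℤ → List Lt}
    (hf : Sep P a b f) (Used : Finset ((Fin T × Fin N ⊕ ℤ) × List Lt)) (t : Fin T)
    (C : Finset (Fin N)) (pos : Fin N → ℤ) (en : Fin N → Fin N)
    (hpos : ∀ v ∈ C, a ≤ pos v ∧ pos v < b)
    (hdet : ∀ v ∈ C, ∀ v' ∈ C, pos v = pos v' → en v = en v' → v = v') :
    ((C.filter fun v => ((Sum.inl (t, en v) : Fin T × Fin N ⊕ ℤ), f (pos v)) ∈ Used).card : ℤ) ≤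
      ((b - a) / P + 1) * Used.card := by
  have hnn : 0 ≤ (b - a) / P := Int.ediv_nonneg (by omega) (by omega)
  have h1 : (C.filter fun v =>
      ((Sum.inl (t, en v) : Fin T × Fin N ⊕ ℤ), f (pos v)) ∈ Used).card ≤
      ((b - a) / P + 1).toNat * Used.card := by
    apply Finset.card_le_mul_card_image_of_maps_to
      (f := fun v => ((Sum.inl (t, en v) : Fin T × Fin N ⊕ ℤ), f (pos v)))
    · intro v hv
      exact (Finset.mem_filter.mp hv).2
    · intro c _
      have h2 := sep_count hP hab hf c.2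
      have h3 : ((C.filter fun v =>
          ((Sum.inl (t, en v) : Fin T × Fin N ⊕ ℤ), f (pos v)) ∈ Used).filter fun v =>
            ((Sum.inl (t, en v) : Fin T × Fin N ⊕ ℤ), f (pos v)) = c).card ≤
          ((Finset.Ico a b).filter fun x => f x = c.2).card := by
        apply Finset.card_le_card_of_injOn pos
        · intro v hv
          simp only [Finset.coe_filter, Finset.mem_filter, Set.mem_ofPred_eq] at hv
          simp only [Finset.coe_filter, Finset.mem_Ico, Set.mem_ofPred_eq]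
          refine ⟨hpos v hv.1.1, ?_⟩
          rw [← hv.2]
        · intro v hv v' hv' he
          simp only [Finset.coe_filter, Finset.mem_filter, Set.mem_ofPred_eq] at hv hv'
          apply hdet v hv.1.1 v' hv'.1.1 he
          have h4 := hv.2.trans hv'.2.symm
          simp only [Prod.mk.injEq, Sum.inl.injEq] at h4
          exact h4.1.2
      omega
  calc ((C.filter fun v => ((Sum.inl (t, en v) : Fin T × Fin N ⊕ ℤ), f (pos v)) ∈ Used).card : ℤ)
      ≤ ((((b - a) / P + 1).toNat * Used.card : ℕ) : ℤ) := by exact_mod_cast h1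
    _ = ((b - a) / P + 1) * Used.card := by
        push_cast
        rw [Int.toNat_of_nonneg (by omega)]

end Oracle

open Oracle in
theorem oracle {T N : ℕ} (σ : Fin T → Fin 2 → Equiv.Perm (Fin N))
    (del : Fin T → Fin 2 × Fin N → Bool) (W : ℤ → Lt) (P lam L Y0 Zm : ℤ) (h l : ℕ)
    (hP : 1 ≤ P) (hl : (l : ℤ) = 3 * L) (hlam : 2 * P < lam)
    (hbulk : ∀ Y X : ℤ, Y0 ≤ Y → Y ≤ Zm → Y + h + 1 ≤ X → X + h - Y ≤ 3 * L → ∃ t,
      N * h ^ 2 ≤ 32 * l ^ 2 * Nat.card {v : Fin N // GoodV (σ t) (del t)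
        (fun k : ℕ => W (Y + k)) (X + h - Y).toNat h v})
    (hnum : 32 * (l : ℤ) ^ 2 * (4 * ((h : ℤ) / P + 1)) * (6 * (Zm - Y0)) <
      (lam - 2 * P) * (N * h ^ 2)) :
    Orc (bkT σ del) W P h lam L Y0 Zm := by
  classical
  intro Y X hY hYm hX hXY Used hU f0 f1 g0 g1 hf0 hf1 hg0 hg1
  obtain ⟨t, ht⟩ := hbulk Y X hY hYm hX hXY
  set V : ℕ → Lt := fun k : ℕ => W (Y + k) with hV
  obtain ⟨len, hlen⟩ : ∃ len : ℕ, (X + h - Y).toNat = len := ⟨_, rfl⟩
  have hlen' : (len : ℤ) = X + h - Y := by omega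
  rw [hlen] at ht
  set C : Finset (Fin N) := Finset.univ.filter fun v => GoodV (σ t) (del t) V len h v with hC
  have hCcard : Nat.card {v : Fin N // GoodV (σ t) (del t) V len h v} = C.card := by
    rw [Nat.card_eq_fintype_card, Fintype.card_subtype]
  rw [hCcard] at ht
  -- choose the two deleted positions
  have hex : ∀ v : Fin N, ∃ ij : ℕ × ℕ, v ∈ C → ij.1 < h ∧ len - h ≤ ij.2 ∧ ij.2 < len ∧
      ∀ k < len, (del t (eg (σ t) V v k) = true ↔ k = ij.1 ∨ k = ij.2) := by
    intro v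
    by_cases hv : v ∈ C
    · have h1 := (Finset.mem_filter.mp hv).2
      obtain ⟨_, i, hi, j, hj1, hj2, hk⟩ := h1
      exact ⟨(i, j), fun _ => ⟨hi, hj1, hj2, hk⟩⟩
    · exact ⟨(0, 0), fun h => absurd h hv⟩
  choose ij hij using hex
  set posy : Fin N → ℤ := fun v => Y + ((ij v).1 : ℤ) + 1 with hposy
  set posx : Fin N → ℤ := fun v => Y + ((ij v).2 : ℤ) with hposx
  set eny : Fin N → Fin N := fun v => pth (σ t) V v ((ij v).1 + 1) with heny
  set enx : Fin N → Fin N := fun v => pth (σ t) V v (ij v).2 with henx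
  have hdy : ∀ v ∈ C, ∀ v' ∈ C, posy v = posy v' → eny v = eny v' → v = v' := by
    intro v _ v' _ h1 h2
    have h3 : (ij v).1 = (ij v').1 := by
      simp only [hposy] at h1
      omega
    simp only [heny, h3] at h2
    exact pth_inj (σ t) V _ h2
  have hdx : ∀ v ∈ C, ∀ v' ∈ C, posx v = posx v' → enx v = enx v' → v = v' := by
    intro v _ v' _ h1 h2
    have h3 : (ij v).2 = (ij v').2 := by
      simp only [hposx] at h1
      omega
    simp only [henx, h3] at h2
    exact pth_inj (σ t) V _ h2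
  have hpy : ∀ v ∈ C, Y + 1 ≤ posy v ∧ posy v < Y + h + 1 := by
    intro v hv
    have := (hij v hv).1
    simp only [hposy]
    omega
  have hpx : ∀ v ∈ C, X ≤ posx v ∧ posx v < X + h := by
    intro v hv
    have h1 := (hij v hv).2.1
    have h2 := (hij v hv).2.2.1
    simp only [hposx]
    omega
  have k0 := kill hP (by omega) hf0 Used t C posy eny hpy hdy
  have k1 := kill hP (by omega) hf1 Used t C posy eny hpy hdy
  have k2 := kill hP (by omega) hg0 Used t C posx enx hpx hdx
  have k3 := kill hP (by omega) hg1 Used t C posx enx hpx hdx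
  have e1 : (Y + (h : ℤ) + 1 - (Y + 1)) = (h : ℤ) := by ring
  have e2 : (X + (h : ℤ) - X) = (h : ℤ) := by ring
  rw [e1] at k0 k1
  rw [e2] at k2 k3
  set B0 := C.filter fun v => ((Sum.inl (t, eny v) : Fin T × Fin N ⊕ ℤ), f0 (posy v)) ∈ Used
  set B1 := C.filter fun v => ((Sum.inl (t, eny v) : Fin T × Fin N ⊕ ℤ), f1 (posy v)) ∈ Used
  set B2 := C.filter fun v => ((Sum.inl (t, enx v) : Fin T × Fin N ⊕ ℤ), g0 (posx v)) ∈ Used
  set B3 := C.filter fun v => ((Sum.inl (t, enx v) : Fin T × Fin N ⊕ ℤ), g1 (posx v)) ∈ Used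
  have hcard : ((B0 ∪ B1 ∪ B2 ∪ B3).card : ℤ) < C.card := by
    by_contra hcon
    push Not at hcon
    have u1 := Finset.card_union_le (B0 ∪ B1 ∪ B2) B3
    have u2 := Finset.card_union_le (B0 ∪ B1) B2
    have u3 := Finset.card_union_le B0 B1
    have u4 : (C.card : ℤ) ≤ 4 * ((h : ℤ) / P + 1) * Used.card := by
      have u5 : ((B0 ∪ B1 ∪ B2 ∪ B3).card : ℤ) ≤ B0.card + B1.card + B2.card + B3.card := by
        exact_mod_cast (by omega : (B0 ∪ B1 ∪ B2 ∪ B3).card ≤ B0.card + B1.card + B2.card + B3.card)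
      calc (C.card : ℤ) ≤ ((B0 ∪ B1 ∪ B2 ∪ B3).card : ℤ) := hcon
        _ ≤ B0.card + B1.card + B2.card + B3.card := u5
        _ ≤ ((h : ℤ) / P + 1) * Used.card + ((h : ℤ) / P + 1) * Used.card +
            ((h : ℤ) / P + 1) * Used.card + ((h : ℤ) / P + 1) * Used.card := by
            linarith
        _ = 4 * ((h : ℤ) / P + 1) * Used.card := by ring
    have hht : ((N : ℤ) * h ^ 2) ≤ 32 * (l : ℤ) ^ 2 * C.card := by exact_mod_cast ht
    have hhn : 0 ≤ (h : ℤ) / P := Int.ediv_nonneg (by positivity) (by omega)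
    have c1 : (lam - 2 * P) * (N * h ^ 2) ≤
        32 * (l : ℤ) ^ 2 * (4 * ((h : ℤ) / P + 1)) * (6 * (Zm - Y0)) := by
      calc (lam - 2 * P) * (N * h ^ 2) ≤ (lam - 2 * P) * (32 * (l : ℤ) ^ 2 * C.card) :=
            mul_le_mul_of_nonneg_left hht (by omega)
        _ ≤ (lam - 2 * P) * (32 * (l : ℤ) ^ 2 * (4 * ((h : ℤ) / P + 1) * Used.card)) := by
            apply mul_le_mul_of_nonneg_left _ (by omega)
            exact mul_le_mul_of_nonneg_left u4 (by positivity)
        _ = 32 * (l : ℤ) ^ 2 * (4 * ((h : ℤ) / P + 1)) * ((lam - 2 * P) * Used.card) := by ring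
        _ ≤ 32 * (l : ℤ) ^ 2 * (4 * ((h : ℤ) / P + 1)) * (6 * (Zm - Y0)) :=
            mul_le_mul_of_nonneg_left hU (by positivity)
    linarith
  obtain ⟨v, hvC, hvB⟩ : ∃ v ∈ C, v ∉ B0 ∪ B1 ∪ B2 ∪ B3 := by
    apply Finset.exists_mem_notMem_of_card_lt_card
    exact_mod_cast hcard
  have hv := hij v hvC
  obtain ⟨hi, hj1, hj2, hk⟩ := hv
  have hinj := (Finset.mem_filter.mp hvC).2.1
  have hlt : (ij v).1 + 1 < (ij v).2 := by omega
  simp only [Finset.mem_union, not_or] at hvB
  refine ⟨posy v, posx v, (t, eny v), (t, enx v), ?_, ?_, ?_, ?_, ?_, ?_, ?_, ?_, ?_, ?_, ?_, ?_⟩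
  · have := (hpy v hvC).1; omega
  · have := (hpy v hvC).2; omega
  · exact (hpx v hvC).1
  · exact (hpx v hvC).2
  · intro he
    have h1 := (Prod.mk.inj he).2
    have h2 := hinj (show (ij v).1 + 1 ∈ Set.Iic len by simp only [Set.mem_Iic]; omega)
      (show (ij v).2 ∈ Set.Iic len by simp only [Set.mem_Iic]; omega) h1
    omega
  · have h1 := bk_none' σ del t V v (ij v).1 ((hk (ij v).1 (by omega)).2 (Or.inl rfl))
    have h2 : V (ij v).1 = W (posy v - 1) := by
      simp only [hV, hposy]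
      congr 1
      ring
    rw [h2] at h1
    exact h1
  · exact bk_none σ del t V v (ij v).2 ((hk (ij v).2 (by omega)).2 (Or.inr rfl))
  · obtain ⟨n, hn⟩ : ∃ n : ℕ, (ij v).2 = (ij v).1 + 1 + n := ⟨(ij v).2 - (ij v).1 - 1, by omega⟩
    have h1 := walk σ del t W Y v n ((ij v).1 + 1) (fun k h1 h2 h3 => by
      have := (hk k (by omega)).1 h3
      omega)
    rw [← hn] at h1
    have h2 : Y + (((ij v).1 + 1 : ℕ) : ℤ) = posy v := by
      simp only [hposy]
      push_cast
      ring
    rw [h2] at h1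
    exact h1
  · intro hc
    exact hvB.1.1.1 (Finset.mem_filter.mpr ⟨hvC, hc⟩)
  · intro hc
    exact hvB.1.1.2 (Finset.mem_filter.mpr ⟨hvC, hc⟩)
  · intro hc
    exact hvB.1.2 (Finset.mem_filter.mpr ⟨hvC, hc⟩)
  · intro hc
    exact hvB.2 (Finset.mem_filter.mpr ⟨hvC, hc⟩)

end Pool.LW
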