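import Pool.Agent.Work.MP_99279c_al.LW.Seg

/-!
The conjugated bi-infinite word.
-/

namespace Pool.LW

namespace Word

theorem exists_letter : ∀ x y z : Lt, ∃ c : Lt, c ≠ x ∧ c ≠ y ∧ c ≠ z := by decide

/-- the left tail, read to the left, `k = 0` is the letter before the word -/
def tl (P : ℤ) (c : Lt) (k : ℤ) : Lt := if k ≤ 0 then c else if (P + 1) ∣ k - 1 then (1, true) else (0, true)

/-- the bi-infinite word -/
def bi (P : ℤ) (c : Lt) (w : List Lt) (i : ℤ) : Lt :=
  if i < 0 then tl P c (-1 - i) else if i < w.length then w.getD i.toNat (0, true)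
    else iv (tl P c (i - w.length))

theorem tl_succ (P : ℤ) (c : Lt) (hc : c ≠ (1, false)) (k : ℤ) (hk : 0 ≤ k) :
    tl P c k ≠ iv (tl P c (k + 1)) := by
  have h1 : tl P c (k + 1) = if (P + 1) ∣ k + 1 - 1 then (1, true) else (0, true) := by
    unfold tl
    rw [if_neg (by omega)]
  rcases eq_or_lt_of_le hk with h | h
  · subst h
    rw [h1, if_pos (by simp)]
    unfold tl
    rw [if_pos le_rfl]
    exact hc
  · have h2 : tl P c k = if (P + 1) ∣ k - 1 then (1, true) else (0, true) := by
      unfold tl
      rw [if_neg (by omega)]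
    rw [h1, h2]
    split_ifs <;> decide

theorem no_per {P a m : ℤ} (hm : 4 * P + 4 ≤ m) (g : ℤ → Lt) (x y : Lt) (hxy : x ≠ y)
    (σ : ℤ) (hg : ∀ i, a ≤ i → i < a + m → g i = if (P + 1) ∣ i - σ then x else y) (p : ℤ)
    (hp : 1 ≤ p) (hpP : p ≤ P) : ¬ Per g p a (a + m) := by
  intro h
  set t := (σ - a) % (P + 1) with ht
  have ht0 : 0 ≤ t := Int.emod_nonneg _ (by omega)
  have ht1 : t < P + 1 := Int.emod_lt_of_pos _ (by omega)
  have hd : (P + 1) ∣ (a + t) - σ := by
    have h2 := Int.mul_ediv_add_emod (σ - a) (P + 1)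
    rw [← ht] at h2
    exact ⟨-((σ - a) / (P + 1)), by linarith⟩
  have h3 := h (a + t) (by omega) (by omega)
  rw [hg (a + t) (by omega) (by omega), if_pos hd, hg (a + t + p) (by omega) (by omega)] at h3
  by_cases hd' : (P + 1) ∣ a + t + p - σ
  · have h4 : (P + 1) ∣ p := by
      have := dvd_sub hd' hd
      rwa [show a + t + p - σ - (a + t - σ) = p by ring] at this
    have := Int.le_of_dvd (by omega) h4
    omega
  · rw [if_neg hd'] at h3
    exact hxy h3.symm

end Word

open Word in
/-- the conjugated bi-infinite word -/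
theorem word_exists (P : ℤ) (hP : 1 ≤ P) (w : List Lt) (hw : RedL w) (hne : w ≠ []) :
    ∃ W : ℤ → Lt, Red W ∧ seg W 0 w.length = w ∧
      (∀ i, W (w.length - 1 - i) = iv (W i) ∨ (0 ≤ i ∧ i < w.length)) ∧
      ∀ m : ℤ, 4 * P + 4 ≤ m → (∀ p a b, 1 ≤ p → p ≤ P → m ≤ b - a → Per W p a b →
        -m ≤ a ∧ b ≤ w.length + m) ∧ (∀ y, y ≤ -1 → good W P m y) := by
  have hr : 0 < w.length := List.length_pos_iff.mpr hne
  obtain ⟨c, hc1, hc2, hc3⟩ := exists_letter (iv (w.getD 0 (0, true)))
    (w.getD (w.length - 1) (0, true)) (1, false)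
  have eL : ∀ i : ℤ, i < 0 → bi P c w i = tl P c (-1 - i) := by
    intro i hi
    unfold bi
    rw [if_pos hi]
  have eM : ∀ i : ℕ, i < w.length → bi P c w i = w.getD i (0, true) := by
    intro i hi
    unfold bi
    rw [if_neg (by omega), if_pos (by omega), Int.toNat_natCast]
  have eR : ∀ i : ℤ, (w.length : ℤ) ≤ i → bi P c w i = iv (tl P c (i - w.length)) := by
    intro i hi
    unfold bi
    rw [if_neg (by omega), if_neg (by omega)]
  have perL : ∀ m a p : ℤ, 4 * P + 4 ≤ m → 1 ≤ p → p ≤ P → a + m ≤ -1 →
      ¬ Per (bi P c w) p a (a + m) := by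
    intro m a p hm hp hpP ha
    refine no_per hm _ (1, true) (0, true) (by decide) (-2) ?_ p hp hpP
    intro i hi hi'
    rw [eL i (by omega)]
    unfold tl
    rw [if_neg (by omega)]
    have : (P + 1) ∣ -1 - i - 1 ↔ (P + 1) ∣ i - (-2) := by
      rw [← dvd_neg]
      ring_nf
    simp only [this]
  have perR : ∀ m a p : ℤ, 4 * P + 4 ≤ m → 1 ≤ p → p ≤ P → (w.length : ℤ) + 1 ≤ a →
      ¬ Per (bi P c w) p a (a + m) := by
    intro m a p hm hp hpP ha
    refine no_per hm _ (1, false) (0, false) (by decide) (w.length + 1) ?_ p hp hpP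
    intro i hi hi'
    rw [eR i (by omega)]
    unfold tl
    rw [if_neg (by omega)]
    have : i - (w.length : ℤ) - 1 = i - (w.length + 1) := by ring
    rw [this]
    split_ifs <;> rfl
  refine ⟨bi P c w, ?_, ?_, ?_, ?_⟩
  · intro i
    rcases lt_or_ge i (-1) with h | h
    · rw [eL i (by omega), eL (i + 1) (by omega)]
      have := tl_succ P c hc3 (-1 - (i + 1)) (by omega)
      rw [show -1 - (i + 1) + 1 = -1 - i by ring] at this
      exact this
    · rcases eq_or_lt_of_le h with h' | h'
      · rw [← h', show (-1 : ℤ) + 1 = ((0 : ℕ) : ℤ) by norm_num, eM 0 hr, eL (-1) (by omega)]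
        have : tl P c (-1 - -1) = c := by
          unfold tl
          rw [if_pos (by norm_num)]
        rw [this]
        intro h2
        apply hc1
        rw [h2, iv_iv]
      · lift i to ℕ using by omega
        rcases lt_trichotomy (i + 1) w.length with h2 | h2 | h2
        · have h3 : ((i : ℤ) + 1) = ((i + 1 : ℕ) : ℤ) := by push_cast; ring
          rw [h3, eM _ h2, eM i (by omega)]
          unfold RedL at hw
          rw [List.isChain_iff_getElem] at hw
          have := hw i (by omega)
          rw [List.getD_eq_getElem _ _ h2, List.getD_eq_getElem _ _ (by omega)]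
          exact this
        · rw [eR _ (by omega), eM i (by omega)]
          have h3 : (i : ℤ) + 1 - w.length = 0 := by omega
          rw [h3]
          have : tl P c 0 = c := by
            unfold tl
            rw [if_pos le_rfl]
          rw [this]
          intro h4
          have h5 : w.length - 1 = i := by omega
          rw [h5] at hc2
          exact hc2 (iv_inj h4)
        · rw [eR _ (by omega), eR _ (by omega), iv_iv]
          have := tl_succ P c hc3 ((i : ℤ) - w.length) (by omega)
          rw [show (i : ℤ) - w.length + 1 = i + 1 - w.length by ring] at this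
          exact this.symm
  · apply List.ext_getElem
    · rw [seg_length]
      omega
    · intro i h1 h2
      rw [seg_getElem, zero_add, eM i h2, List.getD_eq_getElem _ _ h2]
  · intro i
    rcases lt_or_ge i 0 with h | h
    · left
      rw [eL i h, eR _ (by omega)]
      congr 2
      ring
    · rcases lt_or_ge i w.length with h' | h'
      · exact Or.inr ⟨h, h'⟩
      · left
        rw [eR i h', eL _ (by omega), iv_iv]
        congr 1
        ring
  · intro m hm
    refine ⟨?_, ?_⟩
    · intro p a b hp hpP hab hper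
      constructor
      · by_contra hcon
        exact perL m a p hm hp hpP (by omega) (hper.mono le_rfl (by omega))
      · by_contra hcon
        exact perR m (b - m) p hm hp hpP (by omega) (hper.mono (by omega) (by omega))
    · intro y hy p hp hpP hper
      refine perL m (y - m) p hm hp hpP (by omega) ?_
      rwa [sub_add_cancel]

end Pool.LW
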