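import Pool.Agent.Work.MP_99279c_al.LW.Defs2
import Pool.Agent.Work.MP_99279c_al.LW.Per

/-!
# Second version: scanning and long runs
-/

namespace Pool.LW

theorem scan2 {P h m lam0 : ℤ} (Q : Bas P h m) (hlam : m + h ≤ lam0) (W : ℤ → Lt) (z : ℤ)
    (hno : ∀ p a b, 1 ≤ p → p ≤ P → z - m ≤ a → b ≤ z + lam0 → lam0 ≤ b - a → ¬ Per W p a b) :
    ∃ t, z ≤ t ∧ t ≤ z + lam0 ∧ ∀ y, t ≤ y → y < t + h → good W P m y := by
  obtain ⟨h1, h2, h3⟩ := Q
  exact Per.scan' (by omega) (by omega) (by omega) hlam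
    fun a p ha hb hp hpP => hno p a (a + lam0) hp hpP ha hb (by omega)

theorem long_le2 {P lam0 : ℤ} (hlam : 2 * P < lam0) {W : ℤ → Lt}
    {s e p s' e' p' : ℤ} (h1 : LR W P lam0 s e p) (h2 : LR W P lam0 s' e' p') (he : e < e') :
    e < s' + 2 * P := by
  by_contra hcon
  push Not at hcon
  have a1 := h1.p1
  have a2 := h1.pP
  have a3 := h1.len
  have a4 := h2.p1
  have a5 := h2.pP
  exact h1.right (Per.three_right h2.per h1.per (by omega) (by omega) he (by omega) (by omega))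

end Pool.LW
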