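import Mathlib

/-! Some modulus of `[A, 2A]` keeps a given number away from zero and from the modulus. -/

namespace Pool.LW

theorem two_pow_le_cb (n : ℕ) : 2 ^ n ≤ Nat.centralBinom n := by
  induction n with
  | zero => simp
  | succ n ih =>
    have h := Nat.succ_mul_centralBinom_succ n
    have h2 : (n + 1) * 2 ^ (n + 1) ≤ (n + 1) * Nat.centralBinom (n + 1) := by
      rw [h]
      calc (n + 1) * 2 ^ (n + 1) = 2 * (n + 1) * 2 ^ n := by ring
        _ ≤ 2 * (2 * n + 1) * Nat.centralBinom n :=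
          Nat.mul_le_mul (by omega) ih
    exact Nat.le_of_mul_le_mul_left h2 (Nat.succ_pos n)

/-- some number of `[A, 2A]` has `x` modulo it away from the ends -/
theorem nt (c A x s : ℕ) (hc : 1 ≤ c) (hx : x + c < 2 ^ s) (hcx : c ≤ x) (hA : 2 * c * s ≤ A) :
    ∃ a, A ≤ a ∧ a ≤ 2 * A ∧ c ≤ x % a ∧ x % a + c ≤ a := by
  by_contra hcon
  push Not at hcon
  have hs : 1 ≤ s := by
    rcases Nat.eq_zero_or_pos s with h | h
    · subst h
      simp at hx
      omega
    · exact h
  have hA1 : 1 ≤ A := by nlinarith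
  -- every modulus divides a number close to `x`
  have h1 : ∀ a, A ≤ a → a ≤ 2 * A → ∃ y ∈ Finset.Ico (x - c + 1) (x + c), a ∣ y := by
    intro a ha1 ha2
    have ha : 0 < a := by omega
    have hm := Nat.mod_lt x ha
    have hd := Nat.div_add_mod x a
    by_cases h : c ≤ x % a
    · have h3 := hcon a ha1 ha2 h
      refine ⟨x + (a - x % a), Finset.mem_Ico.mpr ⟨by omega, by omega⟩, x / a + 1, ?_⟩
      rw [mul_add, mul_one]
      omega
    · push Not at h
      have h4 : x % a ≤ x := Nat.mod_le x a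
      exact ⟨x - x % a, Finset.mem_Ico.mpr ⟨by omega, by omega⟩, Nat.dvd_sub_mod x⟩
  set Q := ∏ y ∈ Finset.Ico (x - c + 1) (x + c), y with hQ
  have hQ0 : Q ≠ 0 := by
    rw [hQ, Finset.prod_ne_zero_iff]
    intro y hy
    rw [Finset.mem_Ico] at hy
    omega
  have hC0 : Nat.centralBinom A ≠ 0 := Nat.centralBinom_ne_zero A
  have hdvd : Nat.centralBinom A ∣ Q := by
    rw [← Nat.factorization_prime_le_iff_dvd hC0 hQ0]
    intro p hp
    rw [← hp.pow_dvd_iff_le_factorization hQ0]
    have hle : p ^ (Nat.centralBinom A).factorization p ≤ 2 * A :=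
      Nat.pow_factorization_choose_le (by omega)
    set q := p ^ (Nat.centralBinom A).factorization p with hq
    have hq1 : 0 < q := pow_pos hp.pos _
    -- a multiple of `q` in `[A, 2A]`
    obtain ⟨a, ha1, ha2, ha3⟩ : ∃ a, A ≤ a ∧ a ≤ 2 * A ∧ q ∣ a := by
      by_cases hqA : q ≤ A
      · refine ⟨q * (2 * A / q), ?_, Nat.mul_div_le _ _, Dvd.intro _ rfl⟩
        have h5 := Nat.div_add_mod (2 * A) q
        have h6 := Nat.mod_lt (2 * A) hq1
        omega
      · exact ⟨q, by omega, hle, dvd_rfl⟩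
    obtain ⟨y, hy, hay⟩ := h1 a ha1 ha2
    exact (ha3.trans hay).trans (Finset.dvd_prod_of_mem (fun y => y) hy)
  have h2 : 2 ^ A ≤ Q := (two_pow_le_cb A).trans (Nat.le_of_dvd (Nat.pos_of_ne_zero hQ0) hdvd)
  have h3 : Q ≤ (2 ^ s) ^ (Finset.Ico (x - c + 1) (x + c)).card := by
    refine Finset.prod_le_pow_card _ _ _ ?_
    intro y hy
    rw [Finset.mem_Ico] at hy
    omega
  have h4 : (Finset.Ico (x - c + 1) (x + c)).card = 2 * c - 1 := by
    rw [Nat.card_Ico]
    omega
  rw [h4, ← pow_mul] at h3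
  have h5 : s * (2 * c - 1) < A := by
    have : s * (2 * c - 1) < s * (2 * c) := Nat.mul_lt_mul_of_pos_left (by omega) hs
    nlinarith
  exact absurd (h2.trans h3) (not_le.mpr (Nat.pow_lt_pow_right (by norm_num) h5))

end Pool.LW
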