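import Pool.Agent.Work.MP_99279c_al.LW.Defs2
import Pool.Agent.Work.MP_99279c_al.LW.Nt

namespace Pool.LW

/-- loops for runs of every length at least `lam0` -/
theorem run_num2 {P h m lam0 lam L : ℤ} {D t : ℕ} (Q : Par2 P h m lam0 lam L D t) (X p : ℤ)
    (hX : lam0 ≤ X) (hXt : X < 2 ^ t) (hp : 1 ≤ p) (hpP : p ≤ P) :
    ∃ (l : ℤ) (k : ℕ), LP P m X p l k ∧ D * l ≤ 2 * X + 20 * (D * (m * t)) := by
  obtain ⟨h1, h2, h3, h4, h5, h6, h7, h8⟩ := Q
  have hD : (16 : ℤ) ≤ D := by exact_mod_cast h4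
  have ht : (1 : ℤ) ≤ t := by exact_mod_cast h5
  have hmP : m = 16 * P := by omega
  have hX2 : 800 * (P * t) ≤ X := by rw [h6, hmP] at hX; linarith
  have hPt : P ≤ P * t := by nlinarith
  -- c
  obtain ⟨c, hc⟩ : ∃ c : ℤ, c = (2 * m + 6 * P) / p + 1 := ⟨_, rfl⟩
  have hc1 : 2 * m + 6 * P < c * p := by
    have := Int.lt_ediv_add_one_mul_self (2 * m + 6 * P) (show 0 < p by omega)
    rw [hc]; exact this
  have hc2 : c * p ≤ 2 * m + 6 * P + p := by
    have := Int.ediv_mul_le (2 * m + 6 * P) (show p ≠ 0 by omega)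
    rw [hc, add_mul, one_mul]; omega
  have hc0 : 1 ≤ c := by
    have : 0 ≤ (2 * m + 6 * P) / p := Int.ediv_nonneg (by omega) (by omega)
    omega
  -- x
  obtain ⟨x, hx⟩ : ∃ x : ℤ, x = X / p := ⟨_, rfl⟩
  have hx1 : x * p ≤ X := by rw [hx]; exact Int.ediv_mul_le X (by omega)
  have hx2 : X < (x + 1) * p := by
    rw [hx]; exact Int.lt_ediv_add_one_mul_self X (by omega)
  have hx0 : 0 ≤ x := by
    rw [hx]; exact Int.ediv_nonneg (by omega) (by omega)
  -- q
  obtain ⟨q, hq⟩ : ∃ q : ℤ, q = X / (D * p) := ⟨_, rfl⟩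
  have hDp : 0 < (D : ℤ) * p := by positivity
  have hq1 : q * (D * p) ≤ X := by rw [hq]; exact Int.ediv_mul_le X hDp.ne'
  have hq0 : 0 ≤ q := by rw [hq]; exact Int.ediv_nonneg (by omega) hDp.le
  have hqp : 16 * (q * p) ≤ X := by
    have : 0 ≤ q * p := by positivity
    nlinarith
  -- A
  obtain ⟨A, hA⟩ : ∃ A : ℤ, A = 2 * c * (t + 1) + q := ⟨_, rfl⟩
  have hcp : c * p ≤ 39 * P := by omega
  have hcpt : c * p * (t + 1) ≤ 78 * (P * t) := by
    have e1 : c * p * (t + 1) ≤ 39 * P * (t + 1) := mul_le_mul_of_nonneg_right hcp (by omega)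
    nlinarith
  have hAp : A * p ≤ 156 * (P * t) + q * p := by
    have : A * p = 2 * (c * p * (t + 1)) + q * p := by rw [hA]; ring
    rw [this]; omega
  have hcle : c ≤ 39 * P := by
    have : c * 1 ≤ c * p := mul_le_mul_of_nonneg_left hp (by omega)
    omega
  have hxX : x ≤ X := by
    have : x * 1 ≤ x * p := mul_le_mul_of_nonneg_left hp hx0
    omega
  have hcx : c < x + 1 := by
    have : c * p < (x + 1) * p := by
      have : 39 * P < X := by omega
      omega
    exact lt_of_mul_lt_mul_right this (by omega)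
  obtain ⟨a, ha1, ha2, ha3, ha4⟩ := nt c.toNat A.toNat x.toNat (t + 1) (by omega) (by
      have e1 : ((x.toNat + c.toNat : ℕ) : ℤ) = x + c := by omega
      have e2 : (x + c : ℤ) < 2 ^ (t + 1) := by
        rw [pow_succ]; omega
      exact_mod_cast e1 ▸ e2) (by omega) (by
      have e1 : 0 ≤ c * (t + 1) := by positivity
      have e2 : ((2 * c.toNat * (t + 1) : ℕ) : ℤ) = 2 * c * (t + 1) := by
        push_cast
        rw [Int.toNat_of_nonneg (by omega)]
      have e3 : 2 * c * (t + 1) ≤ A := by omega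
      omega)
  have hA0 : 0 ≤ A := by
    have e1 : 0 ≤ c * (t + 1) := by positivity
    rw [hA]; nlinarith
  have ha1' : A ≤ a := by omega
  have ha2' : (a : ℤ) ≤ 2 * A := by omega
  have hA1 : 4 ≤ A := by
    have e1 : 2 ≤ c * (t + 1) := by nlinarith
    rw [hA]; nlinarith
  have hax : (a : ℤ) ≤ x := by
    have e1 : (a : ℤ) * p ≤ 2 * (A * p) := by nlinarith
    have e2 : (a : ℤ) * p < (x + 1) * p := by omega
    have := lt_of_mul_lt_mul_right e2 (show 0 ≤ p by omega)
    omega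
  have hk : 1 ≤ x.toNat / a := by
    rw [Nat.one_le_div_iff (by omega)]
    omega
  have hmod : ((x.toNat % a : ℕ) : ℤ) + a * ((x.toNat / a : ℕ) : ℤ) = x := by
    have := Nat.mod_add_div x.toNat a
    have e : ((x.toNat % a + a * (x.toNat / a) : ℕ) : ℤ) = (x.toNat : ℤ) := by rw [this]
    push_cast at e ⊢
    omega
  set μ : ℤ := ((x.toNat % a : ℕ) : ℤ) with hμ
  set κ : ℕ := x.toNat / a with hκ
  have hμ1 : c ≤ μ := by omega
  have hμ2 : μ + c ≤ a := by omega
  have hkl : X - κ * (p * a) = (X - x * p) + p * μ := by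
    rw [← hmod]; ring
  refine ⟨p * a, κ, ⟨dvd_mul_right _ _, hk, ?_, ?_⟩, ?_⟩
  · rw [hkl]
    have : p * c ≤ p * μ := mul_le_mul_of_nonneg_left hμ1 (by omega)
    have e : p * c = c * p := mul_comm _ _
    omega
  · rw [hkl]
    have e1 : p * (μ + c) ≤ p * a := mul_le_mul_of_nonneg_left hμ2 (by omega)
    have e2 : p * (μ + c) = p * μ + c * p := by ring
    have e3 : (x + 1) * p = x * p + p := by ring
    omega
  · have e1 : (D : ℤ) * (p * a) ≤ D * (p * (2 * A)) := by
      apply mul_le_mul_of_nonneg_left _ (by omega)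
      exact mul_le_mul_of_nonneg_left ha2' (by omega)
    have e2 : (D : ℤ) * (p * (2 * A)) = 4 * (D * (c * p * (t + 1))) + 2 * (q * (D * p)) := by
      rw [hA]; ring
    have e3 : (D : ℤ) * (c * p * (t + 1)) ≤ D * (78 * (P * t)) :=
      mul_le_mul_of_nonneg_left hcpt (by omega)
    have e4 : (D : ℤ) * (m * t) = 16 * (D * (P * t)) := by rw [hmP]; ring
    have e5 : 0 ≤ (D : ℤ) * (P * t) := by positivity
    nlinarith

end Pool.LW
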