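import Pool.Agent.Work.MP_99279c_al.LW.Walk
import Pool.Agent.Work.MP_99279c_al.LW.Word
import Pool.Agent.Work.MP_99279c_al.LW.Glue
import Pool.Agent.Work.MP_99279c_al.LW.Oracle
import Pool.Agent.Work.MP_99279c_al.LW.Core
import Pool.Agent.Work.MP_99279c_al.LW.Bulk2
import Pool.Agent.Work.MP_99279c_al.LW.Ind2

/-!
Assembly (second version): a short law contradicts the construction.
-/

namespace Pool.LW

theorem core2 {P h m lam0 lam L : ℤ} {D t : ℕ} (Q : Par2 P h m lam0 lam L D t) (n N : ℕ)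
    (w : List Lt) (hw : RedL w) (hne : w ≠ [])
    (hlaw : ∀ f : Fin 2 → Equiv.Perm (Fin n), FreeGroup.lift f (FreeGroup.mk w) = 1)
    (ht : (w.length + 6 * m + 10 * L + 10) * (3 * L + 1) < 2 ^ t)
    (hN : 16 * (3 * L) ^ 2 ≤ N)
    (hnum : 32 * (3 * L) ^ 2 * (4 * (h / P + 1)) * (6 * (w.length + 6 * m + 10 * L + 10)) <
      (lam - 2 * P) * (N * h ^ 2))
    (hn : (D : ℤ) * (256 * t * N) + 4 * (w.length + 6 * m + 10 * L + 10) ≤ D * n) : False := by
  obtain ⟨hP, hh, hm, hD, ht1, hlam0, hlam, hL⟩ := Q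
  have Q : Par2 P h m lam0 lam L D t := ⟨hP, hh, hm, hD, ht1, hlam0, hlam, hL⟩
  have hD' : (16 : ℤ) ≤ D := by exact_mod_cast hD
  have ht' : (1 : ℤ) ≤ t := by exact_mod_cast ht1
  have hm16 : m = 16 * P := by omega
  have hlam0m : 50 * m ≤ lam0 := by rw [hlam0]; nlinarith
  have hlamm : 32 * lam0 ≤ lam := by rw [hlam]; nlinarith
  obtain ⟨W, hW, h0, hsym, hWm⟩ := word_exists P hP w hw hne
  obtain ⟨hper, hgood⟩ := hWm m (by omega)
  set r : ℤ := (w.length : ℤ) with hr
  have hr0 : 0 ≤ r := by omega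
  obtain ⟨h', hh'⟩ : ∃ h' : ℕ, (h' : ℤ) = h := ⟨h.toNat, by omega⟩
  obtain ⟨l, hl⟩ : ∃ l : ℕ, (l : ℤ) = 3 * L := ⟨(3 * L).toNat, by omega⟩
  set Y0 : ℤ := -m - 2 * h - 1 with hY0
  set Zend : ℤ := r - Y0 + m + 1 with hZend
  set Zm : ℤ := Zend + 3 * L with hZm
  have hspan : Zm - Y0 ≤ r + 6 * m + 10 * L + 10 := by omega
  have hspan0 : 0 ≤ Zm - Y0 := by omega
  have hrt : r + 2 * m < 2 ^ t := by
    refine lt_of_le_of_lt ?_ ht
    nlinarith
  -- the bulks
  have hNn : 16 * l ^ 2 ≤ N := by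
    have : (16 : ℤ) * (l : ℤ) ^ 2 ≤ N := by rw [hl]; exact hN
    exact_mod_cast this
  have hcard : Fintype.card (Fin (Zm - Y0 + 1).toNat × Fin (l - 2 * h')) < 2 ^ t := by
    rw [Fintype.card_prod, Fintype.card_fin, Fintype.card_fin]
    have h1 : (((Zm - Y0 + 1).toNat * (l - 2 * h') : ℕ) : ℤ) < ((2 ^ t : ℕ) : ℤ) := by
      push_cast
      refine lt_of_le_of_lt ?_ ht
      refine mul_le_mul ?_ ?_ (by positivity) (by omega)
      · omega
      · omega
    exact_mod_cast h1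
  obtain ⟨σ, del, hbulk⟩ := bulks2 N l h' t (by omega) hNn hcard
    (fun p k => W (Y0 + (p.1 : ℕ) + k)) (fun p => 2 * h' + 1 + (p.2 : ℕ))
    (fun p => ⟨by omega, by have := p.2.2; omega⟩)
    (fun p k _ => by
      have := hW (Y0 + (p.1 : ℕ) + k)
      rw [show Y0 + ((p.1 : ℕ) : ℤ) + ((k + 1 : ℕ) : ℤ) = Y0 + (p.1 : ℕ) + k + 1 by
        push_cast; ring]
      exact this)
  have horc : Orc (bkT σ del) W P h lam L Y0 Zm := by
    rw [← hh']
    refine oracle σ del W P lam L Y0 Zm h' l hP hl (by omega) ?_ ?_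
    · intro Y X h1 h2 h3 h4
      obtain ⟨τ, hτ⟩ := hbulk (⟨(Y - Y0).toNat, by omega⟩,
        ⟨(X + h - Y - 2 * h - 1).toNat, by omega⟩)
      refine ⟨τ, hτ.trans (le_of_eq ?_)⟩
      have e1 : (fun k : ℕ => W (Y0 + ((Y - Y0).toNat : ℕ) + k)) = fun k : ℕ => W (Y + k) := by
        funext k
        congr 2
        omega
      have e2 : 2 * h' + 1 + (X + h - Y - 2 * h - 1).toNat = (X + h' - Y).toNat := by omega
      simp only [e1, e2]
    · refine lt_of_le_of_lt ?_ ?_ (b := 32 * (3 * L) ^ 2 * (4 * (h / P + 1)) *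
        (6 * (r + 6 * m + 10 * L + 10)))
      · rw [hl, hh']
        refine mul_le_mul_of_nonneg_left (by omega) ?_
        have : 0 ≤ h / P := Int.ediv_nonneg (by omega) (by omega)
        positivity
      · rw [hh']
        exact hnum
  obtain ⟨u, y, rs, hy1, hy2, hbu, huend, hval, hnd, hcost, hreal⟩ :=
    main_ind2 Q hW (bkT σ del) Y0 Zend r (by omega) hr0 (by omega) hrt
      (fun p a b h1 h2 h3 h4 => hper p a b h1 h2 (by omega) h4)
      (fun y hy => hgood y (by omega)) horc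
  obtain ⟨V, E, ι, S, hE, hES, hιS, hcardS, hcomp, hleaf⟩ :=
    glue m.toNat (by omega) (bkT σ del) (fun x u v h => bkT_symm σ del x u v h) rs hval hnd
  obtain ⟨Z, v, hZ, hwalk⟩ := hreal V E ι hE hcomp
  have hSn : S.card ≤ n := by
    rw [Fintype.card_prod, Fintype.card_fin, Fintype.card_fin] at hcardS
    have h1 : (D : ℤ) * S.card ≤ D * n := by
      have h2 : (D : ℤ) * S.card ≤ D * ((256 * t * N + costL m.toNat rs : ℕ) : ℤ) := by
        refine mul_le_mul_of_nonneg_left (by exact_mod_cast hcardS) (by omega)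
      push_cast at h2
      have h3 : (D : ℤ) * (256 * t * N + costL m.toNat rs) = D * (256 * t * N) + D * costL m.toNat rs := by
        ring
      rw [h3] at h2
      have h4 : 4 * (Zend + 3 * L - Y0) ≤ 4 * (r + 6 * m + 10 * L + 10) := by omega
      linarith
    have h5 : (S.card : ℤ) ≤ n := le_of_mul_le_mul_left h1 (by omega)
    exact_mod_cast h5
  -- the walk
  have hy0 : y ≤ 0 := by omega
  rw [← seg_append W (show y ≤ r - y by omega) (show r - y ≤ Z by omega)] at hwalk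
  obtain ⟨v1, hw1, hw2⟩ := hwalk.split
  have hlaw' : ∀ f : Fin 2 → Equiv.Perm (Fin n),
      FreeGroup.lift f (FreeGroup.mk (seg W y (r - y))) = 1 := by
    intro f
    rw [hr, Core.conj_seg W w h0 hsym y hy0, ← FreeGroup.mul_mk, ← FreeGroup.mul_mk, Core.mk_wv,
      map_mul, map_mul, hlaw f, map_inv, one_mul, mul_inv_cancel]
  have hv1 := realize hE S hES n hSn _ hlaw' (hιS u) hw1
  rw [← hv1, ← seg_append W (show r - y ≤ r - y + m + 1 by omega)
    (show r - y + m + 1 ≤ Z by omega)] at hw2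
  obtain ⟨v2, hw3, _⟩ := hw2.split
  have hseg : seg W (r - y) (r - y + m + 1) = c1m W m y ++ [W (r - y + m)] := by
    rw [seg_concat W (by omega), show r - y + m + 1 - 1 = r - y + m by ring]
    congr 1
    apply List.ext_getElem?
    intro i
    unfold c1m
    by_cases hi : (i : ℤ) < m
    · rw [wv_seg_getElem? W (y - m) y i (by omega), seg_getElem? W _ _ i (by omega)]
      rcases hsym (y - 1 - i) with h | h
      · rw [← h]
        congr 2
        ring
      · omega
    · rw [List.getElem?_eq_none, List.getElem?_eq_none]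
      · rw [wv_length, seg_length]; omega
      · rw [seg_length]; omega
  rw [hseg] at hw3
  refine hleaf (c1m W m y) (W (r - y + m)) u ?_ ?_ huend ?_ ⟨v2, hw3⟩
  · unfold c1m
    rw [wv_length, seg_length]
    omega
  · rw [← hseg]
    exact redL_seg hW _ _
  · intro x hx
    unfold c1m at hx
    rw [wv_seg_head? W (by omega), Option.some.injEq] at hx
    rw [← hx]
    exact hbu

end Pool.LW
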