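import Mathlib

/-!
Definitions for the lower bound on the length of laws of symmetric groups
(see the proof note of helper36 on this problem).
-/

namespace Pool.LW

/-- A letter: a generator with a sign (`true` for the generator itself). -/
abbrev Lt := Fin 2 × Bool

/-- The inverse letter. -/
def iv (x : Lt) : Lt := (x.1, !x.2)

@[simp] theorem iv_iv (x : Lt) : iv (iv x) = x := by simp [iv]

theorem iv_ne (x : Lt) : iv x ≠ x := by
  rcases x with ⟨a, b⟩
  cases b <;> simp [iv]

theorem iv_inj {x y : Lt} (h : iv x = iv y) : x = y := by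
  rw [← iv_iv x, h, iv_iv]

/-- The factor `W a, ..., W (b - 1)` of a bi-infinite word (empty if `b ≤ a`). -/
def seg (W : ℤ → Lt) (a b : ℤ) : List Lt :=
  (List.range (b - a).toNat).map fun i : ℕ => W (a + i)

/-- The inverse word. -/
def wv (l : List Lt) : List Lt := (l.map iv).reverse

/-- Reduced finite words. -/
def RedL (l : List Lt) : Prop := l.IsChain fun x y => y ≠ iv x

/-- Reduced bi-infinite words. -/
def Red (W : ℤ → Lt) : Prop := ∀ i, W (i + 1) ≠ iv (W i)

/-- `W` has period `p` on the interval `[a, b)`. -/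
def Per (W : ℤ → Lt) (p a b : ℤ) : Prop := ∀ i, a ≤ i → i + p < b → W (i + p) = W i

/-- Walks in a labelled graph: `Wk E l u v` says that reading `l` from `u` leads to `v`. -/
inductive Wk {V : Type} (E : Lt → V → V → Prop) : List Lt → V → V → Prop
  | nil (u : V) : Wk E [] u u
  | cons {x : Lt} {l : List Lt} {u v w : V} : E x u v → Wk E l v w → Wk E (x :: l) u w

/-- A folded labelled graph (a family of partial injections, closed under inverse). -/
structure Sys {V : Type} (E : Lt → V → V → Prop) : Prop where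
  sym : ∀ x u v, E x u v → E (iv x) v u
  func : ∀ x u v v', E x u v → E x u v' → v = v'

/-- A private path: centres `lc`, `vc`, the class words `lw`, `vw` at its two ends and the
label `lab` of its private part. Its total label is `lw ++ lab ++ (inverse of vw)`. -/
structure Rc (C : Type) where
  lc : C
  lw : List Lt
  lab : List Lt
  vw : List Lt
  vc : C

/-- the total label of a record -/
def Rc.word {C : Type} (r : Rc C) : List Lt := r.lw ++ (r.lab ++ wv r.vw)

/-- the two ends of a record -/
def Rc.ends {C : Type} (r : Rc C) : List (C × List Lt) := [(r.lc, r.lw), (r.vc, r.vw)]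

/-- the ends of a list of records -/
def endsL {C : Type} (rs : List (Rc C)) : List (C × List Lt) := rs.flatMap Rc.ends

/-- bound for the number of vertices used by a record -/
def Rc.cost {C : Type} (m : ℕ) (r : Rc C) : ℕ := 2 * m + 2 + r.lab.length

/-- cost of a list of records -/
def costL {C : Type} (m : ℕ) (rs : List (Rc C)) : ℕ := (rs.map (Rc.cost m)).sum

/-- A valid record for class length `m` and the bulk action `bk`. -/
structure Rc.Valid {C : Type} (m : ℕ) (bk : Lt → C → Option C) (r : Rc C) : Prop where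
  hl : r.lw.length = m
  hv : r.vw.length = m
  hlab : r.lab ≠ []
  red : RedL r.word
  bl : ∀ x, r.lw.head? = some x → bk x r.lc = none
  bv : ∀ x, r.vw.head? = some x → bk x r.vc = none

/-- The partial bulk action on `B ⊕ ℤ` (bulk vertices and junctions). -/
def bkC {B : Type} (bk : Lt → B → Option B) : Lt → B ⊕ ℤ → Option (B ⊕ ℤ)
  | x, Sum.inl u => (bk x u).map Sum.inl
  | _, Sum.inr _ => none

/-- A graph `E` with the map `ι` from the centres realises the bulk action and the records. -/
def Comp {B : Type} (bk : Lt → B → Option B) (rs : List (Rc (B ⊕ ℤ))) {V : Type}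
    (E : Lt → V → V → Prop) (ι : B ⊕ ℤ → V) : Prop :=
  (∀ x u v, bk x u = some v → E x (ι (Sum.inl u)) (ι (Sum.inl v))) ∧
    ∀ r ∈ rs, Wk E r.word (ι r.lc) (ι r.vc)

/-- The parameters. -/
structure Par (P h m lam L : ℤ) (D : ℕ) : Prop where
  hP : 1 ≤ P
  hPh : 4 * P ≤ h
  hm : m = 4 * h
  hD : 16 ≤ D
  hDP : (D : ℤ) * P ≤ m
  hlam : lam = 9 * (D * m)
  hL : L = D * lam

/-- no period at most `P` on the window of length `m` before `y` -/
def good (W : ℤ → Lt) (P m y : ℤ) : Prop := ∀ p, 1 ≤ p → p ≤ P → ¬ Per W p (y - m) y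

/-- `[s, e)` is a long run of period `p`. -/
structure LR (W : ℤ → Lt) (P lam s e p : ℤ) : Prop where
  p1 : 1 ≤ p
  pP : p ≤ P
  len : lam ≤ e - s
  per : Per W p s e
  left : W (s - 1 + p) ≠ W (s - 1)
  right : W (e - p) ≠ W e

/-- separation of class functions at distance at most `P` on `[a, b)` -/
def Sep (P a b : ℤ) (f : ℤ → List Lt) : Prop :=
  ∀ x x', a ≤ x → x < x' → x' < b → x' - x ≤ P → f x ≠ f x'

/-- forward class -/
def c1p (W : ℤ → Lt) (m x : ℤ) : List Lt := seg W x (x + m)

/-- backward class -/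
def c1m (W : ℤ → Lt) (m y : ℤ) : List Lt := wv (seg W (y - m) y)

/-- go to `s`, then backwards in the loop of length `l` -/
def Vp (W : ℤ → Lt) (s l : ℤ) : ℤ → Lt := fun j => if j < s then W j else iv (W (2 * s + l - 1 - j))

/-- go back to `e`, then forwards in the loop of length `l` (read as a word ending at `y`) -/
def Vm (W : ℤ → Lt) (e l : ℤ) : ℤ → Lt := fun j => if e ≤ j then W j else iv (W (2 * e - l - 1 - j))

/-- second class at an exit before a run starting at `s` -/
def c2p (W : ℤ → Lt) (m s l x : ℤ) : List Lt := seg (Vp W (max s x) l) x (x + m)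

/-- second class at an entrance after a run ending at `e` -/
def c2m (W : ℤ → Lt) (m e l y : ℤ) : List Lt := wv (seg (Vm W e l) (y - m) y)

/-- the length of the loop of a run of length `X` and period `p` -/
def lp (P m : ℤ) (D : ℕ) (X p : ℤ) : ℤ := p * ((X - (2 * m + 4 * P)) / (D * p))

/-- The window oracle: in every window, entrance and exit vertices with unused ends exist. -/
def Orc {B : Type} (bk : Lt → B → Option B) (W : ℤ → Lt) (P h lam L Y0 Zm : ℤ) : Prop :=
  ∀ Y X : ℤ, Y0 ≤ Y → Y ≤ Zm → Y + h + 1 ≤ X → X + h - Y ≤ 3 * L →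
    ∀ Used : Finset ((B ⊕ ℤ) × List Lt), (lam - 2 * P) * Used.card ≤ 6 * (Zm - Y0) →
      ∀ f0 f1 g0 g1 : ℤ → List Lt,
        Sep P (Y + 1) (Y + h + 1) f0 → Sep P (Y + 1) (Y + h + 1) f1 →
        Sep P X (X + h) g0 → Sep P X (X + h) g1 →
        ∃ (y x : ℤ) (u v : B), Y < y ∧ y ≤ Y + h ∧ X ≤ x ∧ x < X + h ∧ u ≠ v ∧
          bk (iv (W (y - 1))) u = none ∧ bk (W x) v = none ∧
          Wk (fun z a b => bk z a = some b) (seg W y x) u v ∧
          (Sum.inl u, f0 y) ∉ Used ∧ (Sum.inl u, f1 y) ∉ Used ∧
          (Sum.inl v, g0 x) ∉ Used ∧ (Sum.inl v, g1 x) ∉ Used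

/-! ### permutations of `Fin N` (the bulks) -/

/-- action of a letter -/
def act {N : ℕ} (σ : Fin 2 → Equiv.Perm (Fin N)) (x : Lt) : Equiv.Perm (Fin N) :=
  if x.2 then σ x.1 else (σ x.1)⁻¹

/-- the path of a word -/
def pth {N : ℕ} (σ : Fin 2 → Equiv.Perm (Fin N)) (V : ℕ → Lt) (v : Fin N) : ℕ → Fin N
  | 0 => v
  | k + 1 => act σ (V k) (pth σ V v k)

/-- the edge (generator, source) used in step `k` -/
def eg {N : ℕ} (σ : Fin 2 → Equiv.Perm (Fin N)) (V : ℕ → Lt) (v : Fin N) (k : ℕ) :
    Fin 2 × Fin N :=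
  ((V k).1, if (V k).2 then pth σ V v k else pth σ V v (k + 1))

/-- good start vertices: the path is simple and its deleted edges are exactly one of the first
`h` and one of the last `h`. -/
def GoodV {N : ℕ} (σ : Fin 2 → Equiv.Perm (Fin N)) (del : Fin 2 × Fin N → Bool) (V : ℕ → Lt)
    (len h : ℕ) (v : Fin N) : Prop :=
  Set.InjOn (pth σ V v) (Set.Iic len) ∧
    ∃ i < h, ∃ j, len - h ≤ j ∧ j < len ∧ ∀ k < len, (del (eg σ V v k) = true ↔ k = i ∨ k = j)

end Pool.LW
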