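import Pool.Agent.Work.MP_99279c_al.LW.Defs

/-! M9 Final.lean: the numerical choice of the parameters. -/

namespace Pool.LW

theorem fin_pow_lt : ∃ J : ℕ, ∀ j ≥ J, (j + 1) ^ 160 < 2 ^ j := by
  have h := tendsto_pow_const_div_const_pow_of_one_lt 160 (r := (2 : ℝ)) (by norm_num)
  have h2 := h.comp (Filter.tendsto_add_atTop_nat 1)
  have h3 := (h2.eventually (gt_mem_nhds (show (0 : ℝ) < 1 / 2 by norm_num)))
  obtain ⟨J, hJ⟩ := Filter.eventually_atTop.1 h3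
  refine ⟨J, fun j hj => ?_⟩
  have h4 := hJ j hj
  simp only [Function.comp_apply] at h4
  rw [div_lt_iff₀ (by positivity)] at h4
  have h5 : ((j : ℝ) + 1) ^ 160 < 2 ^ j := by
    calc ((j : ℝ) + 1) ^ 160 = (((j + 1 : ℕ) : ℝ)) ^ 160 := by push_cast; rfl
      _ < 1 / 2 * 2 ^ (j + 1) := h4
      _ = 2 ^ j := by rw [pow_succ]; ring
  exact_mod_cast h5

/-- All inequalities between the parameters. -/
theorem fin_num (n k j len : ℕ) (hj : 10 ^ 43 ≤ j) (hjk : j ^ 4 ≤ k) (hkj : k < (j + 1) ^ 4)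
    (hk : k ^ 19 ≤ n) (hkn : n < (k + 1) ^ 19) (h2 : (j + 1) ^ 160 < 2 ^ j)
    (hlen : len ≤ n * (k + 1)) :
    let d := 2 * (k + 2)
    let P := 10 ^ 8 * j * d ^ 4
    let N := n / (2 * j)
    let L := 576 * d ^ 3 * P
    let S := len + 24 * d * P + 10 * L + 10
    S * (3 * L + 1) < 2 ^ j ∧ 256 * (3 * L) ^ 4 ≤ N * (d * P) ^ 2 ∧
      2 * S ≤ n * d ∧ 2 * j * N ≤ n ∧ n ≤ 4 * j * N ∧ 0 < N ∧ 0 < P ∧ 0 < d := by
  intro d P N L S
  have hj1 : 1 ≤ j := le_trans (by norm_num) hj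
  have hk1 : j ≤ k := le_trans (by
    calc j = j ^ 1 := (pow_one j).symm
      _ ≤ j ^ 4 := Nat.pow_le_pow_right hj1 (by norm_num)) hjk
  have hk2 : 2 ≤ k := le_trans (le_trans (by norm_num) hj) hk1
  have hd1 : 1 ≤ d := by simp only [d]; omega
  have hd4 : d ≤ 4 * k := by simp only [d]; omega
  have hd18 : d ^ 18 ≤ 4 ^ 18 * k ^ 18 := by
    rw [← mul_pow]; exact Nat.pow_le_pow_left hd4 18
  have hP1 : 1 ≤ P := by
    exact Nat.mul_pos (Nat.mul_pos (by norm_num) hj1) (pow_pos hd1 4)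
  -- the main inequality
  have hmain : 9130086859014144 * 10 ^ 16 * (j ^ 3 * d ^ 18) ≤ n := by
    calc 9130086859014144 * 10 ^ 16 * (j ^ 3 * d ^ 18)
        ≤ 9130086859014144 * 10 ^ 16 * (j ^ 3 * (4 ^ 18 * k ^ 18)) := by gcongr
      _ = (9130086859014144 * 10 ^ 16 * 4 ^ 18) * j ^ 3 * k ^ 18 := by ring
      _ ≤ 10 ^ 43 * j ^ 3 * k ^ 18 := by gcongr; norm_num
      _ ≤ j * j ^ 3 * k ^ 18 := by gcongr
      _ = j ^ 4 * k ^ 18 := by ring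
      _ ≤ k * k ^ 18 := by gcongr
      _ = k ^ 19 := by ring
      _ ≤ n := hk
  have hjd : ∀ a b : ℕ, a ≤ 3 → b ≤ 18 → j ^ a * d ^ b ≤ j ^ 3 * d ^ 18 := by
    intro a b ha hb
    exact Nat.mul_le_mul (Nat.pow_le_pow_right hj1 ha) (Nat.pow_le_pow_right hd1 hb)
  have hjd0 : 1 ≤ j ^ 3 * d ^ 18 := Nat.mul_pos (pow_pos hj1 3) (pow_pos hd1 18)
  have hPd : d ^ 3 * P = 10 ^ 8 * (j ^ 1 * d ^ 7) := by simp only [P]; ring
  have hjd7 := hjd 1 7 (by norm_num) (by norm_num)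
  have hjd5 := hjd 1 5 (by norm_num) (by norm_num)
  have hsmall : 24 * d * P + 10 * L + 10 ≤ n := by
    have e1 : 24 * d * P = 24 * 10 ^ 8 * (j ^ 1 * d ^ 5) := by simp only [P]; ring
    have e2 : 10 * L = 5760 * 10 ^ 8 * (j ^ 1 * d ^ 7) := by simp only [L, P]; ring
    rw [e1, e2]
    omega
  have hL1 : 3 * L + 1 ≤ n := by
    have e2 : 3 * L = 1728 * 10 ^ 8 * (j ^ 1 * d ^ 7) := by simp only [L, P]; ring
    rw [e2]
    omega
  have hS : 2 * S ≤ n * d := by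
    have : S ≤ n * (k + 1) + n := by
      simp only [S]; omega
    calc 2 * S ≤ 2 * (n * (k + 1) + n) := by omega
      _ = n * d := by simp only [d]; ring
  have hn4 : 4 * j ≤ n := by
    have := hjd 1 0 (by norm_num) (by norm_num)
    simp only [pow_one, pow_zero, mul_one] at this
    omega
  have hN2 : 2 * j * N ≤ n := Nat.mul_div_le n (2 * j)
  have hN4 : n ≤ 4 * j * N := by
    have h3 : n < 2 * j * (N + 1) := by
      have := Nat.lt_mul_div_succ n (show 0 < 2 * j by omega)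
      exact this
    have h4 : 2 * j * (N + 1) = 2 * j * N + 2 * j := by ring
    have h5 : 4 * j * N = 2 * (2 * j * N) := by ring
    omega
  have hN0 : 0 < N := by
    rcases Nat.eq_zero_or_pos N with h | h
    · rw [h] at hN4; omega
    · exact h
  refine ⟨?_, ?_, hS, hN2, hN4, hN0, hP1, hd1⟩
  · have hS1 : S ≤ n * d := by omega
    have hk1' : k + 1 ≤ (j + 1) ^ 4 := hkj
    have hn' : n ≤ (j + 1) ^ 76 := by
      calc n ≤ (k + 1) ^ 19 := hkn.le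
        _ ≤ ((j + 1) ^ 4) ^ 19 := Nat.pow_le_pow_left hk1' 19
        _ = (j + 1) ^ 76 := by rw [← pow_mul]
    have h4 : 4 ≤ j + 1 := by omega
    have he : ∀ x : ℕ, (x ^ 76 * (x * x ^ 4)) * x ^ 76 = x ^ 157 := fun x => by ring
    calc S * (3 * L + 1) ≤ (n * d) * n := Nat.mul_le_mul hS1 hL1
      _ ≤ ((j + 1) ^ 76 * ((j + 1) * (j + 1) ^ 4)) * (j + 1) ^ 76 := by
          gcongr
          calc d ≤ 4 * k := hd4
            _ ≤ (j + 1) * (j + 1) ^ 4 := Nat.mul_le_mul h4 hkj.le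
      _ = (j + 1) ^ 157 := he (j + 1)
      _ ≤ (j + 1) ^ 160 := Nat.pow_le_pow_right (by omega) (by norm_num)
      _ < 2 ^ j := h2
  · have e1 : 256 * (3 * L) ^ 4 = 2282521714753536 * d ^ 10 * P ^ 2 * (d * P) ^ 2 := by
      simp only [L]; ring
    rw [e1]
    refine Nat.mul_le_mul_right _ ?_
    have e2 : 2282521714753536 * d ^ 10 * P ^ 2 = 2282521714753536 * 10 ^ 16 * (j ^ 2 * d ^ 18) := by
      simp only [P]; ring
    rw [e2]
    have h4j : 0 < 4 * j := by omega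
    refine Nat.le_of_mul_le_mul_left ?_ h4j
    calc 4 * j * (2282521714753536 * 10 ^ 16 * (j ^ 2 * d ^ 18))
        = 9130086859014144 * 10 ^ 16 * (j ^ 3 * d ^ 18) := by ring
      _ ≤ n := hmain
      _ ≤ 4 * j * N := hN4

theorem fin_redL {l : List Lt} (h : FreeGroup.IsReduced l) : RedL l := by
  unfold FreeGroup.IsReduced at h
  unfold RedL
  refine List.IsChain.imp ?_ h
  intro a b hab hb
  subst hb
  have := hab rfl
  simp [iv] at this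

theorem fin_par (d P : ℕ) (hP0 : 0 < P) (hd4 : 4 ≤ d) :
    Par (P : ℤ) (d * P) (4 * (d * P)) (9 * (4 * d * (4 * (d * P))))
      (4 * d * (9 * (4 * d * (4 * (d * P))))) (4 * d) := by
  have hPz : (0 : ℤ) < P := by exact_mod_cast hP0
  have hdz : (4 : ℤ) ≤ d := by exact_mod_cast hd4
  constructor
  · omega
  · nlinarith
  · rfl
  · omega
  · push_cast
    nlinarith
  · push_cast; ring
  · push_cast; ring

theorem fin_T (d P len j : ℕ)
    (hT : (len + 24 * d * P + 10 * (576 * d ^ 3 * P) + 10) * (3 * (576 * d ^ 3 * P) + 1) < 2 ^ j) :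
    ((len : ℤ) + 6 * (4 * (d * P)) + 10 * (4 * d * (9 * (4 * d * (4 * (d * P))))) + 10) *
        (3 * (4 * d * (9 * (4 * d * (4 * (d * P))))) + 1) < 2 ^ j := by
  have h : (((len + 24 * d * P + 10 * (576 * d ^ 3 * P) + 10) * (3 * (576 * d ^ 3 * P) + 1) : ℕ) : ℤ)
      < ((2 ^ j : ℕ) : ℤ) := Int.ofNat_lt.2 hT
  rw [Nat.cast_pow] at h
  refine lt_of_le_of_lt (le_of_eq ?_) h
  push_cast; ring

theorem fin_N (d P N : ℕ) (hN : 256 * (3 * (576 * d ^ 3 * P)) ^ 4 ≤ N * (d * P) ^ 2) :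
    (256 : ℤ) * (3 * (4 * d * (9 * (4 * d * (4 * (d * P)))))) ^ 4 ≤ N * (d * P) ^ 2 := by
  have h : ((256 * (3 * (576 * d ^ 3 * P)) ^ 4 : ℕ) : ℤ) ≤ ((N * (d * P) ^ 2 : ℕ) : ℤ) :=
    Int.ofNat_le.2 hN
  push_cast at h
  refine le_trans (le_of_eq ?_) h
  ring

theorem fin_S (d P n len : ℕ) (hS : 2 * (len + 24 * d * P + 10 * (576 * d ^ 3 * P) + 10) ≤ n * d) :
    2 * ((len : ℤ) + 6 * (4 * (d * P)) + 10 * (4 * d * (9 * (4 * d * (4 * (d * P))))) + 10) ≤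
      n * d := by
  have h : ((2 * (len + 24 * d * P + 10 * (576 * d ^ 3 * P) + 10) : ℕ) : ℤ) ≤ ((n * d : ℕ) : ℤ) :=
    Int.ofNat_le.2 hS
  push_cast at h
  refine le_trans (le_of_eq ?_) h
  ring

theorem fin_big (d P N j n : ℕ) (S : ℤ) (hPdef : P = 10 ^ 8 * j * d ^ 4) (hP0 : 0 < P)
    (hN0 : 0 < N) (hj1 : 1 ≤ j) (hd4 : 4 ≤ d) (hN4 : n ≤ 4 * j * N) (hSz : 2 * S ≤ n * d) :
    32 * (3 * (4 * (d : ℤ) * (9 * (4 * d * (4 * (d * P)))))) ^ 2 * (4 * ((d * P : ℤ) / P + 1)) *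
      (6 * S) < (9 * (4 * d * (4 * (d * P))) - 2 * P) * (N * (d * P) ^ 2) := by
  have hPz : (0 : ℤ) < P := by exact_mod_cast hP0
  have hdz : (4 : ℤ) ≤ d := by exact_mod_cast hd4
  have hNz : (0 : ℤ) < N := by exact_mod_cast hN0
  have e0 : ((d : ℤ) * P) / P = d := Int.mul_ediv_cancel _ hPz.ne'
  rw [e0]
  have hN4z : (n : ℤ) ≤ 4 * j * N := by exact_mod_cast hN4
  have hPz2 : (P : ℤ) = 10 ^ 8 * j * d ^ 4 := by rw [hPdef]; push_cast; ring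
  have hj0 : (0 : ℤ) < j := by exact_mod_cast hj1
  have hdz0 : (0 : ℤ) < d := by linarith
  have a1 : (d : ℤ) + 1 ≤ 2 * d := by linarith
  have a2 : 2 * S ≤ 4 * j * N * d := by
    calc 2 * S ≤ n * d := hSz
      _ ≤ 4 * j * N * d := by gcongr
  have hA : (0 : ℤ) ≤ 1146617856 * d ^ 6 * P ^ 2 := by positivity
  calc 32 * (3 * (4 * (d : ℤ) * (9 * (4 * d * (4 * (d * P)))))) ^ 2 * (4 * ((d : ℤ) + 1)) * (6 * S)
      = 1146617856 * (d : ℤ) ^ 6 * (P : ℤ) ^ 2 * (((d : ℤ) + 1) * (2 * S)) := by ring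
    _ ≤ 1146617856 * (d : ℤ) ^ 6 * (P : ℤ) ^ 2 * ((2 * (d : ℤ)) * (4 * (j : ℤ) * N * d)) := by
        refine mul_le_mul_of_nonneg_left ?_ hA
        calc ((d : ℤ) + 1) * (2 * S) ≤ ((d : ℤ) + 1) * (4 * (j : ℤ) * N * d) := by
              refine mul_le_mul_of_nonneg_left a2 (by linarith)
          _ ≤ (2 * (d : ℤ)) * (4 * (j : ℤ) * N * d) := by
              refine mul_le_mul_of_nonneg_right a1 (by positivity)
    _ = 9172942848 * ((j : ℤ) * d ^ 4) * ((d : ℤ) ^ 4 * P ^ 2 * N) := by ring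
    _ < 14200000000 * ((j : ℤ) * d ^ 4) * ((d : ℤ) ^ 4 * P ^ 2 * N) := by
        refine mul_lt_mul_of_pos_right ?_ (by positivity)
        refine mul_lt_mul_of_pos_right (by norm_num) (by positivity)
    _ = 142 * (10 ^ 8 * (j : ℤ) * (d : ℤ) ^ 4) * ((d : ℤ) ^ 4 * P ^ 2 * N) := by ring
    _ = 142 * (P : ℤ) * ((d : ℤ) ^ 4 * P ^ 2 * N) := by rw [← hPz2]
    _ = (142 * (d : ℤ) ^ 2 * P) * (N * ((d : ℤ) * P) ^ 2) := by ring
    _ ≤ (9 * (4 * (d : ℤ) * (4 * (d * P))) - 2 * P) * (N * ((d : ℤ) * P) ^ 2) := by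
        refine mul_le_mul_of_nonneg_right ?_ (by positivity)
        have h1 : (1 : ℤ) * P ≤ (d : ℤ) ^ 2 * P :=
          mul_le_mul_of_nonneg_right (by nlinarith) hPz.le
        have h2 : 9 * (4 * (d : ℤ) * (4 * (d * P))) = 144 * ((d : ℤ) ^ 2 * P) := by ring
        rw [h2]
        linarith

theorem fin_last (d j N n : ℕ) (S : ℤ) (hN2 : 2 * j * N ≤ n) (hSz : 2 * S ≤ n * d) :
    ((4 * d : ℕ) : ℤ) * (j * N) + 4 * S ≤ ((4 * d : ℕ) : ℤ) * n := by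
  have hN2z : 2 * (j : ℤ) * N ≤ n := by exact_mod_cast hN2
  have hd : (0 : ℤ) ≤ 2 * d := by positivity
  push_cast
  nlinarith [mul_le_mul_of_nonneg_left hN2z hd]

theorem fin_k (n len : ℕ) (hn1 : 0 < n) (hlen : (len : ℝ) ≤ (n : ℝ) ^ (1 + 1 / 19 : ℝ)) :
    ∃ k : ℕ, k ^ 19 ≤ n ∧ n < (k + 1) ^ 19 ∧ len ≤ n * (k + 1) := by
  have hx0 : (0 : ℝ) ≤ (n : ℝ) ^ (1 / 19 : ℝ) := by positivity
  have hx19 : ((n : ℝ) ^ (1 / 19 : ℝ)) ^ 19 = n := by
    rw [← Real.rpow_natCast, ← Real.rpow_mul (by positivity)]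
    norm_num
  have hxk := Nat.lt_floor_add_one ((n : ℝ) ^ (1 / 19 : ℝ))
  refine ⟨⌊(n : ℝ) ^ (1 / 19 : ℝ)⌋₊, ?_, ?_, ?_⟩
  · have h1 := Nat.floor_le hx0
    have h2 : ((⌊(n : ℝ) ^ (1 / 19 : ℝ)⌋₊ : ℕ) : ℝ) ^ 19 ≤ n := by
      conv_rhs => rw [← hx19]
      exact pow_le_pow_left₀ (by positivity) h1 19
    exact_mod_cast h2
  · have h2 : (n : ℝ) < (((⌊(n : ℝ) ^ (1 / 19 : ℝ)⌋₊ : ℕ) : ℝ) + 1) ^ 19 := by
      conv_lhs => rw [← hx19]
      exact pow_lt_pow_left₀ hxk hx0 (by norm_num)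
    exact_mod_cast h2
  · have h1 : (n : ℝ) ^ (1 + 1 / 19 : ℝ) = n * (n : ℝ) ^ (1 / 19 : ℝ) := by
      rw [Real.rpow_add (by exact_mod_cast hn1), Real.rpow_one]
    have h3 : (len : ℝ) ≤ n * (((⌊(n : ℝ) ^ (1 / 19 : ℝ)⌋₊ : ℕ) : ℝ) + 1) := by
      refine hlen.trans ?_
      rw [h1]
      exact mul_le_mul_of_nonneg_left hxk.le (by positivity)
    exact_mod_cast h3

/-- The main theorem, from the statement `core`. -/
theorem laws_of_core
    (hcore : ∀ (P h m lam L : ℤ) (D : ℕ), Par P h m lam L D → ∀ (n N T : ℕ) (w : List Lt),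
      RedL w → w ≠ [] →
      (∀ f : Fin 2 → Equiv.Perm (Fin n), FreeGroup.lift f (FreeGroup.mk w) = 1) →
      (w.length + 6 * m + 10 * L + 10) * (3 * L + 1) < 2 ^ T →
      256 * (3 * L) ^ 4 ≤ N * h ^ 2 →
      32 * (3 * L) ^ 2 * (4 * (h / P + 1)) * (6 * (w.length + 6 * m + 10 * L + 10)) <
        (lam - 2 * P) * (N * h ^ 2) →
      (D : ℤ) * (T * N) + 4 * (w.length + 6 * m + 10 * L + 10) ≤ D * n → False) :
    ∃ n0 : ℕ, ∀ n ≥ n0, ∀ w : FreeGroup (Fin 2), w ≠ 1 →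
      (w.toWord.length : ℝ) ≤ (n : ℝ) ^ (1 + 1 / 19 : ℝ) →
      ∃ f : Fin 2 → Equiv.Perm (Fin n), FreeGroup.lift f w ≠ 1 := by
  obtain ⟨J, hJ⟩ := fin_pow_lt
  refine ⟨((max J (10 ^ 43)) ^ 4 + 1) ^ 19, fun n hn w hw hlen => ?_⟩
  by_contra hcon
  push Not at hcon
  -- the parameters `k` and `j`
  set J' := max J (10 ^ 43) with hJ'
  have hn1 : 0 < n := lt_of_lt_of_le (pow_pos (Nat.succ_pos _) 19) hn
  obtain ⟨k, hk, hkn, hlen'⟩ := fin_k n w.toWord.length hn1 hlen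
  have hJk : J' ^ 4 ≤ k := by
    by_contra h
    have h1 : k + 1 ≤ J' ^ 4 := by omega
    have h2 : (k + 1) ^ 19 ≤ (J' ^ 4 + 1) ^ 19 := Nat.pow_le_pow_left (by omega) 19
    exact absurd (lt_of_lt_of_le hkn (h2.trans hn)) (lt_irrefl _)
  set j : ℕ := Nat.sqrt (Nat.sqrt k) with hjdef
  have hjk : j ^ 4 ≤ k := by
    calc j ^ 4 = (j ^ 2) ^ 2 := by ring
      _ ≤ (Nat.sqrt k) ^ 2 := Nat.pow_le_pow_left (Nat.sqrt_le' _) 2
      _ ≤ k := Nat.sqrt_le' _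
  have hkj : k < (j + 1) ^ 4 := by
    have h1 : Nat.sqrt k < (j + 1) ^ 2 := by
      have := Nat.lt_succ_sqrt' (Nat.sqrt k)
      exact this
    calc k < (Nat.sqrt k + 1) ^ 2 := Nat.lt_succ_sqrt' k
      _ ≤ ((j + 1) ^ 2) ^ 2 := Nat.pow_le_pow_left h1 2
      _ = (j + 1) ^ 4 := by ring
  have hJj : J' ≤ j := by
    by_contra h
    have h1 : j + 1 ≤ J' := by omega
    have h2 : (j + 1) ^ 4 ≤ J' ^ 4 := Nat.pow_le_pow_left h1 4
    exact absurd (lt_of_lt_of_le hkj (h2.trans hJk)) (lt_irrefl _)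
  have hj : 10 ^ 43 ≤ j := le_trans (le_max_right _ _) hJj
  have h2 : (j + 1) ^ 160 < 2 ^ j := hJ j (le_trans (le_max_left _ _) hJj)
  obtain ⟨hT, hN, hS, hN2, hN4, hN0, hP0, hd0⟩ := fin_num n k j w.toWord.length hj hjk hkj hk hkn h2
    hlen'
  have hj1 : 1 ≤ j := le_trans (by norm_num) hj
  clear hj h2 hJj hjk hkj hJk hkn hk hn hJ
  clear_value j J'
  have hd4 : 4 ≤ 2 * (k + 2) := by omega
  generalize 2 * (k + 2) = d at hT hN hS hN2 hN4 hN0 hP0 hd0 hd4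
  generalize hP : 10 ^ 8 * j * d ^ 4 = P at hT hN hS hN2 hN4 hN0 hP0 hd0
  generalize n / (2 * j) = N at hT hN hS hN2 hN4 hN0 hP0 hd0
  have hw' : w.toWord ≠ [] := by
    rw [Ne, FreeGroup.toWord_eq_nil_iff]; exact hw
  have hSz := fin_S d P n w.toWord.length hS
  exact hcore P (d * P) (4 * (d * P)) (9 * (4 * d * (4 * (d * P))))
    (4 * d * (9 * (4 * d * (4 * (d * P))))) (4 * d) (fin_par d P hP0 hd4) n N j w.toWord
    (fin_redL FreeGroup.isReduced_toWord) hw'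
    (fun f => by rw [FreeGroup.mk_toWord]; exact hcon f)
    (fin_T d P w.toWord.length j hT) (fin_N d P N hN)
    (fin_big d P N j n _ hP.symm hP0 hN0 hj1 hd4 hN4 hSz)
    (fin_last d j N n _ hN2 hSz)

end Pool.LW
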