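import Mathlib

/-!
Paths of reduced words in random permutations: the switching bound for self-intersecting paths.
-/

namespace Pool.LW.Bk

open Finset Equiv

/-- Letters: generator and sign (`true` is the generator itself). -/
abbrev Ltr := Fin 2 × Bool

/-- The inverse letter. -/
def linv (x : Ltr) : Ltr := (x.1, !x.2)

theorem linv_linv (x : Ltr) : linv (linv x) = x := by
  simp [linv]

variable {α : Type*}

/-- The action of a letter for a pair of permutations. -/
def act (f : Fin 2 → Perm α) (x : Ltr) : Perm α := if x.2 then f x.1 else (f x.1)⁻¹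

theorem act_linv (f : Fin 2 → Perm α) (x : Ltr) : act f (linv x) = (act f x)⁻¹ := by
  rcases x with ⟨g, b⟩
  cases b <;> simp [act, linv]

/-- The path from `v` reading the letters `V 0, V 1, …`. -/
def pth (f : Fin 2 → Perm α) (V : ℕ → Ltr) (v : α) : ℕ → α
  | 0 => v
  | i + 1 => act f (V i) (pth f V v i)

@[simp] theorem pth_zero (f : Fin 2 → Perm α) (V : ℕ → Ltr) (v : α) : pth f V v 0 = v := rfl

theorem pth_succ (f : Fin 2 → Perm α) (V : ℕ → Ltr) (v : α) (i : ℕ) :
    pth f V v (i + 1) = act f (V i) (pth f V v i) := rfl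

theorem pth_inj (f : Fin 2 → Perm α) (V : ℕ → Ltr) (i : ℕ) :
    Function.Injective fun v => pth f V v i := by
  induction i with
  | zero => exact fun a b h => h
  | succ i ih =>
    intro a b h
    exact ih ((act f (V i)).injective h)

/-- Compose the action of the letter `x` with `σ`. -/
def twist (f : Fin 2 → Perm α) (x : Ltr) (σ : Perm α) : Fin 2 → Perm α :=
  Function.update f x.1 (if x.2 then σ * f x.1 else f x.1 * σ⁻¹)

theorem act_twist_self (f : Fin 2 → Perm α) (x : Ltr) (σ : Perm α) :
    act (twist f x σ) x = σ * act f x := by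
  rcases x with ⟨g, b⟩
  cases b <;> simp [act, twist]

theorem act_twist_inv (f : Fin 2 → Perm α) (x : Ltr) (σ : Perm α) :
    act (twist f x σ) (linv x) = act f (linv x) * σ⁻¹ := by
  rw [act_linv, act_twist_self, act_linv, mul_inv_rev]

theorem act_twist_ne (f : Fin 2 → Perm α) (x y : Ltr) (σ : Perm α) (h : y ≠ x)
    (h' : y ≠ linv x) : act (twist f x σ) y = act f y := by
  have h1 : y.1 ≠ x.1 := by
    intro h1
    by_cases h2 : y.2 = x.2
    · exact h (Prod.ext h1 h2)
    · refine h' (Prod.ext h1 ?_)
      show y.2 = !x.2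
      revert h2
      cases y.2 <;> cases x.2 <;> simp
  simp [act, twist, Function.update_of_ne h1]

theorem twist_twist (f : Fin 2 → Perm α) (x : Ltr) (σ τ : Perm α) :
    twist (twist f x σ) x τ = twist f x (τ * σ) := by
  rcases x with ⟨g, b⟩
  cases b <;> simp [twist, mul_assoc]

theorem twist_one (f : Fin 2 → Perm α) (x : Ltr) : twist f x 1 = f := by
  rcases x with ⟨g, b⟩
  cases b <;> simp [twist]

variable [DecidableEq α]

/-- The switching: the path is unchanged up to step `j`, and then it goes to `z`. -/
theorem pth_twist (f : Fin 2 → Perm α) (V : ℕ → Ltr) (v : α) (j : ℕ)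
    (hV : ∀ i, i + 1 ≤ j → V (i + 1) ≠ linv (V i))
    (hd : ∀ a b, a < b → b ≤ j → pth f V v a ≠ pth f V v b)
    (z : α) (hz : ∀ a, a ≤ j → pth f V v a ≠ z) :
    ∀ k, k ≤ j → pth (twist f (V j) (swap (pth f V v (j + 1)) z)) V v k = pth f V v k := by
  intro k
  induction k with
  | zero => intro _; rfl
  | succ k ih =>
    intro hk
    have ih' := ih (by omega)
    rw [pth_succ, ih', pth_succ f V v k]
    by_cases h1 : V k = V j
    · rw [h1, act_twist_self, Perm.mul_apply, ← h1]
      show swap (pth f V v (j + 1)) z (pth f V v (k + 1)) = pth f V v (k + 1)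
      refine swap_apply_of_ne_of_ne ?_ (hz (k + 1) hk)
      intro h2
      rw [pth_succ, pth_succ, h1] at h2
      exact hd k j (by omega) le_rfl ((act f (V j)).injective h2)
    · by_cases h2 : V k = linv (V j)
      · rw [h2, act_twist_inv, Perm.mul_apply, swap_inv, swap_apply_of_ne_of_ne]
        · intro h3
          have h4 : pth f V v (k + 1) = pth f V v j := by
            rw [pth_succ, h3, h2, act_linv, pth_succ]
            simp
          have h5 : k + 1 = j := by
            by_contra h6
            exact hd (k + 1) j (by omega) le_rfl h4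
          refine hV k (by omega) ?_
          rw [h5, h2, linv_linv]
        · exact hz k (by omega)
      · rw [act_twist_ne _ _ _ _ h1 h2]

theorem pth_twist_last (f : Fin 2 → Perm α) (V : ℕ → Ltr) (v : α) (j : ℕ)
    (hV : ∀ i, i + 1 ≤ j → V (i + 1) ≠ linv (V i))
    (hd : ∀ a b, a < b → b ≤ j → pth f V v a ≠ pth f V v b)
    (z : α) (hz : ∀ a, a ≤ j → pth f V v a ≠ z) :
    pth (twist f (V j) (swap (pth f V v (j + 1)) z)) V v (j + 1) = z := by
  rw [pth_succ, pth_twist f V v j hV hd z hz j le_rfl, act_twist_self, Perm.mul_apply]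
  show swap (pth f V v (j + 1)) z (pth f V v (j + 1)) = z
  exact swap_apply_left _ _

variable [Fintype α]

open Classical in
/-- The number of pairs of permutations with first repetition `p_(j+1) = p_i`. -/
theorem card_first (V : ℕ → Ltr) (v : α) (i j : ℕ) (hij : i ≤ j)
    (hV : ∀ i, i + 1 ≤ j → V (i + 1) ≠ linv (V i)) :
    (univ.filter fun f : Fin 2 → Perm α => (∀ a b, a < b → b ≤ j → pth f V v a ≠ pth f V v b) ∧
      pth f V v (j + 1) = pth f V v i).card * (Fintype.card α - (j + 1)) ≤
      Fintype.card (Fin 2 → Perm α) := by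
  set A := univ.filter fun f : Fin 2 → Perm α =>
    (∀ a b, a < b → b ≤ j → pth f V v a ≠ pth f V v b) ∧ pth f V v (j + 1) = pth f V v i with hA
  have hc : ∀ f ∈ A, ((univ : Finset α) \ (range (j + 1)).image (pth f V v)).card =
      Fintype.card α - (j + 1) := by
    intro f hf
    rw [hA, mem_filter] at hf
    rw [card_sdiff_of_subset (subset_univ _), card_univ, card_image_of_injOn, card_range]
    intro a ha b hb hab
    simp only [coe_range, Set.mem_Iio] at ha hb
    rcases lt_trichotomy a b with h | h | h
    · exact absurd hab (hf.2.1 a b h (by omega))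
    · exact h
    · exact absurd hab.symm (hf.2.1 b a h (by omega))
  have h1 : (A.sigma fun f => (univ : Finset α) \ (range (j + 1)).image (pth f V v)).card =
      A.card * (Fintype.card α - (j + 1)) := by
    rw [card_sigma, sum_congr rfl hc, sum_const, smul_eq_mul]
  rw [← h1, ← card_univ]
  refine card_le_card_of_injOn (fun x => twist x.1 (V j) (swap (pth x.1 V v (j + 1)) x.2))
    (fun _ _ => mem_coe.mpr (mem_univ _)) ?_
  rintro ⟨f, z⟩ hf ⟨f', z'⟩ hf' h
  simp only [coe_sigma, Set.mem_sigma_iff, mem_coe, mem_sdiff, mem_univ, true_and, mem_image,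
    mem_range, not_exists, not_and, hA, mem_filter] at hf hf' h
  have hz : ∀ a, a ≤ j → pth f V v a ≠ z := fun a ha => hf.2 a (by omega)
  have hz' : ∀ a, a ≤ j → pth f' V v a ≠ z' := fun a ha => hf'.2 a (by omega)
  have h2 := pth_twist f V v j hV hf.1.1 z hz
  have h2' := pth_twist f' V v j hV hf'.1.1 z' hz'
  have h3 := pth_twist_last f V v j hV hf.1.1 z hz
  have h3' := pth_twist_last f' V v j hV hf'.1.1 z' hz'
  have e1 : z = z' := by rw [← h3, ← h3', h]
  have e2 : pth f V v (j + 1) = pth f' V v (j + 1) := by
    rw [hf.1.2, hf'.1.2, ← h2 i hij, ← h2' i hij, h]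
  have e3 : f = f' := by
    have h4 : twist (twist f (V j) (swap (pth f V v (j + 1)) z)) (V j)
        (swap (pth f V v (j + 1)) z) = f := by
      rw [twist_twist, swap_mul_self, twist_one]
    have h4' : twist (twist f' (V j) (swap (pth f' V v (j + 1)) z')) (V j)
        (swap (pth f' V v (j + 1)) z') = f' := by
      rw [twist_twist, swap_mul_self, twist_one]
    rw [← h4, ← h4', h, e1, e2]
  subst e3
  subst e1
  rfl

/-- The path is simple (all vertices distinct) up to length `len`. -/
def Simple (f : Fin 2 → Perm α) (V : ℕ → Ltr) (len : ℕ) (v : α) : Prop :=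
  ∀ a b, a < b → b ≤ len → pth f V v a ≠ pth f V v b

open Classical in
theorem card_not_simple (V : ℕ → Ltr) (v : α) (len : ℕ)
    (hV : ∀ i, i + 1 < len → V (i + 1) ≠ linv (V i)) :
    (univ.filter fun f : Fin 2 → Perm α => ¬ Simple f V len v).card * (Fintype.card α - len) ≤
      len ^ 2 * Fintype.card (Fin 2 → Perm α) := by
  set B : ℕ → ℕ → Finset (Fin 2 → Perm α) := fun j i =>
    univ.filter fun f : Fin 2 → Perm α => (∀ a b, a < b → b ≤ j → pth f V v a ≠ pth f V v b) ∧
      pth f V v (j + 1) = pth f V v i with hB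
  have hsub : (univ.filter fun f : Fin 2 → Perm α => ¬ Simple f V len v) ⊆
      (range len).biUnion fun j => (range (j + 1)).biUnion fun i => B j i := by
    intro f hf
    rw [mem_filter] at hf
    have hex : ∃ b, b ≤ len ∧ ∃ a, a < b ∧ pth f V v a = pth f V v b := by
      by_contra hne
      refine hf.2 fun a b hab hb h => hne ⟨b, hb, a, hab, h⟩
    have hm := Nat.find_spec hex
    obtain ⟨hb, a, hab, h⟩ := hm
    set b := Nat.find hex with hbdef
    have hmin : ∀ m, m < b → ¬ (m ≤ len ∧ ∃ a, a < m ∧ pth f V v a = pth f V v m) :=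
      fun m hm => Nat.find_min hex hm
    simp only [mem_biUnion, mem_range]
    refine ⟨b - 1, by omega, a, by omega, ?_⟩
    rw [hB]
    simp only [mem_filter, mem_univ, true_and]
    have hb1 : b - 1 + 1 = b := by omega
    rw [hb1]
    refine ⟨fun c d hcd hd hcd' => ?_, h.symm⟩
    exact hmin d (by omega) ⟨by omega, c, hcd, hcd'⟩
  have h1 : (univ.filter fun f : Fin 2 → Perm α => ¬ Simple f V len v).card ≤
      ∑ j ∈ range len, ∑ i ∈ range (j + 1), (B j i).card :=
    (card_le_card hsub).trans (card_biUnion_le.trans (sum_le_sum fun j _ => card_biUnion_le))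
  calc (univ.filter fun f : Fin 2 → Perm α => ¬ Simple f V len v).card * (Fintype.card α - len)
      ≤ (∑ j ∈ range len, ∑ i ∈ range (j + 1), (B j i).card) * (Fintype.card α - len) :=
        Nat.mul_le_mul_right _ h1
    _ = ∑ j ∈ range len, ∑ i ∈ range (j + 1), (B j i).card * (Fintype.card α - len) := by
        rw [sum_mul]
        exact sum_congr rfl fun j _ => by rw [sum_mul]
    _ ≤ ∑ j ∈ range len, ∑ i ∈ range (j + 1), Fintype.card (Fin 2 → Perm α) := by
        refine sum_le_sum fun j hj => sum_le_sum fun i hi => ?_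
        rw [mem_range] at hj hi
        refine le_trans ?_ (card_first V v i j (by omega) fun i hi => hV i (by omega))
        exact Nat.mul_le_mul_left _ (by omega)
    _ ≤ ∑ j ∈ range len, len * Fintype.card (Fin 2 → Perm α) := by
        refine sum_le_sum fun j hj => ?_
        rw [mem_range] at hj
        rw [sum_const, card_range, smul_eq_mul]
        exact Nat.mul_le_mul_right _ (by omega)
    _ = len ^ 2 * Fintype.card (Fin 2 → Perm α) := by
        rw [sum_const, card_range, smul_eq_mul]
        ring

end Pool.LW.Bk
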