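import Pool.Agent.Work.MP_99279c_al.LW.Bulk

/-!
Second moment method (Paley-Zygmund) for the bulks.
-/

namespace Pool.LW.Bk

open Finset Equiv

/-- Paley-Zygmund: many `ω` reach half of the mean. -/
theorem pz {Ω ι : Type*} [Fintype Ω] [DecidableEq Ω] (Q : Finset ι) (Z : ι → Finset Ω)
    (y A : ℝ) (hy : 0 < y) (hA : 0 < A)
    (hmean : 2 * y * Fintype.card Ω ≤ ∑ q ∈ Q, ((Z q).card : ℝ))
    (hsq : ∑ q ∈ Q, ∑ q' ∈ Q, ((Z q ∩ Z q').card : ℝ) ≤ A * Fintype.card Ω) :
    y ^ 2 * Fintype.card Ω ≤
      A * (univ.filter fun ω : Ω => y ≤ ((Q.filter fun q => ω ∈ Z q).card : ℝ)).card := by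
  classical
  set X : Ω → ℝ := fun ω => ((Q.filter fun q => ω ∈ Z q).card : ℝ) with hX
  set M : ℝ := (Fintype.card Ω : ℝ) with hM
  have hM0 : 0 ≤ M := Nat.cast_nonneg _
  have hXs : ∀ ω, X ω = ∑ q ∈ Q, if ω ∈ Z q then (1 : ℝ) else 0 := by
    intro ω
    rw [hX]
    simp
  have hX0 : ∀ ω, 0 ≤ X ω := fun ω => Nat.cast_nonneg _
  have hsum : ∑ ω, X ω = ∑ q ∈ Q, ((Z q).card : ℝ) := by
    simp only [hXs]
    rw [sum_comm]
    refine sum_congr rfl fun v _ => ?_
    simp
  have hsqs : ∑ ω, X ω ^ 2 = ∑ v ∈ Q, ∑ w ∈ Q, ((Z v ∩ Z w).card : ℝ) := by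
    have h1 : ∀ ω, X ω ^ 2 = ∑ v ∈ Q, ∑ w ∈ Q, if ω ∈ Z v ∩ Z w then (1 : ℝ) else 0 := by
      intro ω
      rw [hXs, sq, sum_mul_sum]
      refine sum_congr rfl fun v _ => sum_congr rfl fun w _ => ?_
      by_cases h1 : ω ∈ Z v <;> by_cases h2 : ω ∈ Z w <;> simp [h1, h2]
    simp only [h1]
    rw [sum_comm]
    refine sum_congr rfl fun v _ => ?_
    rw [sum_comm]
    refine sum_congr rfl fun w _ => ?_
    rw [sum_ite_mem, univ_inter, sum_const, nsmul_eq_mul, mul_one]
  set G := univ.filter fun ω : Ω => y ≤ X ω with hG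
  have h1 : ∑ ω, X ω ≤ y * M + ∑ ω ∈ G, X ω := by
    rw [← sum_filter_add_sum_filter_not univ (fun ω => y ≤ X ω), add_comm]
    refine add_le_add ?_ le_rfl
    calc ∑ ω ∈ univ.filter (fun ω => ¬ y ≤ X ω), X ω
        ≤ ∑ ω ∈ univ.filter (fun ω => ¬ y ≤ X ω), y := by
          refine sum_le_sum fun ω hω => ?_
          rw [mem_filter] at hω
          exact (not_le.mp hω.2).le
      _ ≤ ∑ ω : Ω, y := sum_le_sum_of_subset_of_nonneg (subset_univ _) fun _ _ _ => hy.le
      _ = y * M := by rw [sum_const, card_univ, nsmul_eq_mul, mul_comm]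
  have h2 : y * M ≤ ∑ ω ∈ G, X ω := by
    rw [hsum] at h1
    linarith
  have h3 : (∑ ω ∈ G, X ω) ^ 2 ≤ G.card * ∑ ω ∈ G, X ω ^ 2 := sq_sum_le_card_mul_sum_sq
  have h4 : ∑ ω ∈ G, X ω ^ 2 ≤ A * M := by
    refine le_trans (sum_le_sum_of_subset_of_nonneg (subset_univ _) fun _ _ _ => sq_nonneg _) ?_
    rw [hsqs]
    exact hsq
  have h5 : (y * M) ^ 2 ≤ G.card * (A * M) := by
    have h6 : (y * M) ^ 2 ≤ (∑ ω ∈ G, X ω) ^ 2 := by
      have : 0 ≤ y * M := by positivity
      exact pow_le_pow_left₀ this h2 2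
    refine h6.trans (h3.trans ?_)
    exact mul_le_mul_of_nonneg_left h4 (Nat.cast_nonneg _)
  rcases eq_or_lt_of_le hM0 with h0 | hMpos
  · rw [← h0]
    have : 0 ≤ A * (G.card : ℝ) := by positivity
    linarith
  · have h6 : (y ^ 2 * M) * M ≤ (A * G.card) * M := by
      calc (y ^ 2 * M) * M = (y * M) ^ 2 := by ring
        _ ≤ G.card * (A * M) := h5
        _ = (A * G.card) * M := by ring
    exact le_of_mul_le_mul_right h6 hMpos

/-- Labelings which vanish on a given set. -/
theorem card_zero {X : Type*} [Fintype X] [DecidableEq X] (m : ℕ) (E : Finset X) :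
    (univ.filter fun c : X → Fin (m + 1) => ∀ x ∈ E, c x = 0).card * (m + 1) ^ E.card =
      (m + 1) ^ Fintype.card X := by
  classical
  have h1 : (univ.filter fun c : X → Fin (m + 1) => ∀ x ∈ E, c x = 0) =
      Fintype.piFinset fun x => if x ∈ E then {0} else univ := by
    ext c
    simp only [mem_filter, mem_univ, true_and, Fintype.mem_piFinset]
    constructor
    · intro h x
      by_cases hx : x ∈ E
      · simp [hx, h x hx]
      · simp [hx]
    · intro h x hx
      have := h x
      simpa [hx] using this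
  rw [h1, Fintype.card_piFinset, ← prod_mul_prod_compl E]
  have h2 : ∏ x ∈ E, (if x ∈ E then ({0} : Finset (Fin (m + 1))) else univ).card = 1 := by
    refine prod_eq_one fun x hx => ?_
    simp [hx]
  have h3 : ∏ x ∈ Eᶜ, (if x ∈ E then ({0} : Finset (Fin (m + 1))) else univ).card =
      (m + 1) ^ (Fintype.card X - E.card) := by
    have : ∀ x ∈ Eᶜ, (if x ∈ E then ({0} : Finset (Fin (m + 1))) else univ).card = m + 1 := by
      intro x hx
      rw [mem_compl] at hx
      simp [hx]
    rw [prod_congr rfl this, prod_const, card_compl]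
  rw [h2, h3, one_mul, ← pow_add]
  congr 1
  have := card_le_univ E
  omega

/-- Two pairs of coordinates. -/
theorem card_pairs {X : Type*} [Fintype X] [DecidableEq X] (m : ℕ) (a b a' b' : X) (hab : a ≠ b)
    (hab' : a' ≠ b') :
    (univ.filter fun c : X → Fin (m + 1) => (c a = 0 ∧ c b = 0) ∧ (c a' = 0 ∧ c b' = 0)).card *
      (m + 1) ^ 4 ≤ (m + 1) ^ Fintype.card X *
      (1 + (m + 1) * ((if a = a' then 1 else 0) + (if a = b' then 1 else 0) +
        (if b = a' then 1 else 0) + (if b = b' then 1 else 0)) +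
        (m + 1) ^ 2 * ((if a = a' ∧ b = b' then 1 else 0) +
          (if a = b' ∧ b = a' then 1 else 0))) := by
  classical
  set E : Finset X := {a, b} with hE
  set E' : Finset X := {a', b'} with hE'
  have hc : E.card = 2 := card_pair hab
  have hc' : E'.card = 2 := card_pair hab'
  have h1 : (univ.filter fun c : X → Fin (m + 1) =>
      (c a = 0 ∧ c b = 0) ∧ (c a' = 0 ∧ c b' = 0)) =
      univ.filter fun c : X → Fin (m + 1) => ∀ x ∈ E ∪ E', c x = 0 := by
    ext c
    simp only [mem_filter, mem_univ, true_and, hE, hE', mem_union, mem_insert, mem_singleton]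
    constructor
    · rintro ⟨⟨h1, h2⟩, h3, h4⟩ x ((rfl | rfl) | (rfl | rfl)) <;> assumption
    · intro h
      exact ⟨⟨h a (by simp), h b (by simp)⟩, h a' (by simp), h b' (by simp)⟩
  have h2 := card_zero m (E ∪ E')
  have h3 := card_union_add_card_inter E E'
  rw [hc, hc'] at h3
  rw [h1]
  set K := (univ.filter fun c : X → Fin (m + 1) => ∀ x ∈ E ∪ E', c x = 0).card with hK
  have h4 : K * (m + 1) ^ 4 = (m + 1) ^ Fintype.card X * (m + 1) ^ (E ∩ E').card := by
    rw [← h2, mul_assoc, ← pow_add, h3]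
  rw [h4]
  refine Nat.mul_le_mul_left _ ?_
  have hk : (E ∩ E').card ≤ 2 := by
    rw [← hc]
    exact card_le_card inter_subset_left
  have hcases : (E ∩ E').card = 0 ∨ (E ∩ E').card = 1 ∨ (E ∩ E').card = 2 := by omega
  rcases hcases with h | h | h
  · rw [h, pow_zero]
    omega
  · rw [h, pow_one]
    obtain ⟨x, hx⟩ := card_eq_one.mp h
    have hx1 : x ∈ E ∩ E' := by rw [hx]; exact mem_singleton_self x
    rw [mem_inter, hE, hE', mem_insert, mem_singleton, mem_insert, mem_singleton] at hx1
    have h5 : 1 ≤ (if a = a' then 1 else 0) + (if a = b' then 1 else 0) +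
        (if b = a' then 1 else 0) + (if b = b' then 1 else 0) := by
      rcases hx1 with ⟨h6 | h6, h7 | h7⟩
      · have : a = a' := h6.symm.trans h7
        simp only [this, if_true]
        omega
      · have : a = b' := h6.symm.trans h7
        simp only [this, if_true]
        omega
      · have : b = a' := h6.symm.trans h7
        simp only [this, if_true]
        omega
      · have : b = b' := h6.symm.trans h7
        simp only [this, if_true]
        omega
    have h6 := Nat.mul_le_mul_left (m + 1) h5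
    omega
  · rw [h]
    have e1 : E ∩ E' = E := eq_of_subset_of_card_le inter_subset_left (by rw [h, hc])
    have e2 : E ∩ E' = E' := eq_of_subset_of_card_le inter_subset_right (by rw [h, hc'])
    have e3 : E = E' := e1.symm.trans e2
    have ha : a ∈ E' := by rw [← e3, hE]; simp
    have hb : b ∈ E' := by rw [← e3, hE]; simp
    rw [hE', mem_insert, mem_singleton] at ha hb
    have h5 : 1 ≤ (if a = a' ∧ b = b' then 1 else 0) + (if a = b' ∧ b = a' then 1 else 0) := by
      rcases ha with ha | ha <;> rcases hb with hb | hb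
      · exact absurd (ha.trans hb.symm) hab
      · rw [if_pos ⟨ha, hb⟩]; omega
      · rw [if_pos (⟨ha, hb⟩ : a = b' ∧ b = a')]; omega
      · exact absurd (ha.trans hb.symm) hab
    have h6 := Nat.mul_le_mul_left ((m + 1) ^ 2) h5
    omega

/-- Rounds for a success probability `1/256`. -/
theorem rounds2 {β ι : Type*} [Fintype β] [Nonempty β] [DecidableEq ι] (R : ι → β → Prop)
    [∀ i b, Decidable (R i b)] :
    ∀ (T : ℕ) (W : Finset ι),
      (∀ i ∈ W, Fintype.card β ≤ 256 * (univ.filter fun b => R i b).card) →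
      255 ^ T * W.card < 256 ^ T →
      ∃ B : Fin T → β, ∀ i ∈ W, ∃ t, R i (B t)
  | 0, W, _, hW => by
    refine ⟨Fin.elim0, fun i hi => ?_⟩
    have : W.card = 0 := by simpa using hW
    rw [card_eq_zero] at this
    simp [this] at hi
  | T + 1, W, h, hW => by
    have h1 : ∑ b : β, W.card ≤ ∑ b : β, 256 * (W.filter fun i => R i b).card := by
      have e1 : ∑ b : β, (W.filter fun i => R i b).card =
          ∑ i ∈ W, (univ.filter fun b => R i b).card := by
        simp only [card_filter]
        exact sum_comm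
      rw [← mul_sum, e1, mul_sum, sum_const, card_univ, smul_eq_mul]
      calc Fintype.card β * W.card = ∑ i ∈ W, Fintype.card β := by
            rw [sum_const, smul_eq_mul, mul_comm]
        _ ≤ ∑ i ∈ W, 256 * (univ.filter fun b => R i b).card := sum_le_sum h
    obtain ⟨b, _, hb⟩ := exists_le_of_sum_le univ_nonempty h1
    have h2 : 255 ^ T * (W.filter fun i => ¬ R i b).card < 256 ^ T := by
      have h3 := card_filter_add_card_filter_not (s := W) (fun i => R i b)
      have h4 : 256 * (W.filter fun i => ¬ R i b).card ≤ 255 * W.card := by omega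
      have h5 : 256 * (255 ^ T * (W.filter fun i => ¬ R i b).card) < 256 * 256 ^ T := by
        calc 256 * (255 ^ T * (W.filter fun i => ¬ R i b).card)
            = 255 ^ T * (256 * (W.filter fun i => ¬ R i b).card) := by ring
          _ ≤ 255 ^ T * (255 * W.card) := Nat.mul_le_mul_left _ h4
          _ = 255 ^ (T + 1) * W.card := by ring
          _ < 256 ^ (T + 1) := hW
          _ = 256 * 256 ^ T := by ring
      exact Nat.lt_of_mul_lt_mul_left h5
    obtain ⟨B, hB⟩ := rounds2 R T (W.filter fun i => ¬ R i b)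
      (fun i hi => h i (mem_of_mem_filter i hi)) h2
    refine ⟨Fin.cons b B, fun i hi => ?_⟩
    by_cases hR : R i b
    · exact ⟨0, hR⟩
    · obtain ⟨t, ht⟩ := hB i (mem_filter.mpr ⟨hi, hR⟩)
      exact ⟨t.succ, by simpa using ht⟩

end Pool.LW.Bk
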