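import Pool.Agent.Work.MP_99279c_al.LW.Defs

/-! Basic lemmas on `seg`, `wv`, `RedL`. -/

namespace Pool.LW

theorem seg_length (W : ℤ → Lt) (a b : ℤ) : (seg W a b).length = (b - a).toNat := by
  simp [seg]

theorem seg_of_le (W : ℤ → Lt) {a b : ℤ} (h : b ≤ a) : seg W a b = [] := by
  have : (b - a).toNat = 0 := by omega
  simp [seg, this]

theorem seg_getElem (W : ℤ → Lt) (a b : ℤ) (i : ℕ) (hi : i < (seg W a b).length) :
    (seg W a b)[i] = W (a + i) := by
  simp [seg]

theorem seg_getElem? (W : ℤ → Lt) (a b : ℤ) (i : ℕ) (hi : (i : ℤ) < b - a) :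
    (seg W a b)[i]? = some (W (a + i)) := by
  have h : i < (seg W a b).length := by rw [seg_length]; omega
  rw [List.getElem?_eq_getElem h, seg_getElem]

/-- equality of two segments from pointwise equality -/
theorem seg_congr {W W' : ℤ → Lt} {a b a' b' : ℤ} (hlen : b - a = b' - a')
    (h : ∀ i : ℤ, 0 ≤ i → i < b - a → W (a + i) = W' (a' + i)) : seg W a b = seg W' a' b' := by
  unfold seg
  rw [hlen]
  apply List.map_congr_left
  intro i hi
  rw [List.mem_range] at hi
  apply h <;> omega

theorem seg_shift (W : ℤ → Lt) {a b : ℤ} (k : ℤ)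
    (h : ∀ i : ℤ, a ≤ i → i < b → W (i + k) = W i) : seg W (a + k) (b + k) = seg W a b := by
  apply seg_congr (by ring)
  intro i h0 h1
  have := h (a + i) (by omega) (by omega)
  rw [show a + k + i = a + i + k by ring, this]

/-- pointwise equality from equality of two segments -/
theorem of_seg_eq {W W' : ℤ → Lt} {a b a' b' : ℤ} (h : seg W a b = seg W' a' b') :
    ∀ i : ℤ, 0 ≤ i → i < b - a → i < b' - a' → W (a + i) = W' (a' + i) := by
  intro i h0 h1 h2
  have e1 := seg_getElem? W a b i.toNat (by omega)
  have e2 := seg_getElem? W' a' b' i.toNat (by omega)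
  rw [h, e2] at e1
  have e3 : (i.toNat : ℤ) = i := by omega
  rw [e3] at e1
  exact (Option.some.inj e1).symm

theorem seg_append (W : ℤ → Lt) {a b c : ℤ} (h1 : a ≤ b) (h2 : b ≤ c) :
    seg W a b ++ seg W b c = seg W a c := by
  apply List.ext_getElem
  · simp only [List.length_append, seg_length]
    omega
  · intro i hi hi'
    rw [seg_getElem]
    by_cases h : i < (seg W a b).length
    · rw [List.getElem_append_left h, seg_getElem]
    · rw [List.getElem_append_right (by omega), seg_getElem]
      rw [seg_length] at h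
      simp only [seg_length]
      congr 1
      omega

theorem seg_cons (W : ℤ → Lt) {a b : ℤ} (h : a < b) : seg W a b = W a :: seg W (a + 1) b := by
  rw [← seg_append W (show a ≤ a + 1 by omega) (show a + 1 ≤ b by omega)]
  have : seg W a (a + 1) = [W a] := by
    simp [seg]
  rw [this]
  rfl

theorem seg_concat (W : ℤ → Lt) {a b : ℤ} (h : a < b) :
    seg W a b = seg W a (b - 1) ++ [W (b - 1)] := by
  rw [← seg_append W (show a ≤ b - 1 by omega) (show b - 1 ≤ b by omega)]
  have : seg W (b - 1) b = [W (b - 1)] := by
    rw [seg_cons W (by omega), seg_of_le W (by omega)]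
  rw [this]

theorem seg_head? (W : ℤ → Lt) {a b : ℤ} (h : a < b) : (seg W a b).head? = some (W a) := by
  rw [seg_cons W h]; rfl

@[simp] theorem wv_nil : wv [] = [] := rfl

@[simp] theorem wv_length (l : List Lt) : (wv l).length = l.length := by simp [wv]

@[simp] theorem wv_append (l l' : List Lt) : wv (l ++ l') = wv l' ++ wv l := by simp [wv]

@[simp] theorem wv_wv (l : List Lt) : wv (wv l) = l := by
  unfold wv
  rw [List.map_reverse, List.reverse_reverse, List.map_map]
  have : (iv ∘ iv) = id := by funext x; simp
  rw [this, List.map_id]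

theorem wv_inj {l l' : List Lt} (h : wv l = wv l') : l = l' := by
  rw [← wv_wv l, h, wv_wv]

@[simp] theorem wv_singleton (x : Lt) : wv [x] = [iv x] := rfl

theorem wv_cons (x : Lt) (l : List Lt) : wv (x :: l) = wv l ++ [iv x] := by simp [wv]

theorem wv_seg_head? (W : ℤ → Lt) {a b : ℤ} (h : a < b) :
    (wv (seg W a b)).head? = some (iv (W (b - 1))) := by
  rw [seg_concat W h, wv_append, wv_singleton]
  rfl

theorem wv_seg_getElem? (W : ℤ → Lt) (a b : ℤ) (i : ℕ) (hi : (i : ℤ) < b - a) :
    (wv (seg W a b))[i]? = some (iv (W (b - 1 - i))) := by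
  have hl : i < ((seg W a b).map iv).length := by
    rw [List.length_map, seg_length]; omega
  unfold wv
  rw [List.getElem?_reverse hl, List.getElem?_map]
  have h1 : ((seg W a b).map iv).length - 1 - i = (b - 1 - i - a).toNat := by
    rw [List.length_map, seg_length]; omega
  rw [h1, seg_getElem? W a b _ (by omega)]
  have : a + ((b - 1 - i - a).toNat : ℤ) = b - 1 - i := by omega
  rw [this]
  rfl

theorem redL_seg {W : ℤ → Lt} (hW : Red W) (a b : ℤ) : RedL (seg W a b) := by
  unfold RedL
  rw [List.isChain_iff_getElem]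
  intro i hi
  rw [seg_getElem, seg_getElem]
  have := hW (a + i)
  rw [show a + ((i + 1 : ℕ) : ℤ) = a + i + 1 by push_cast; ring]
  exact this

theorem redL_append {l l' : List Lt} (h : RedL l) (h' : RedL l')
    (hj : ∀ x y, l.getLast? = some x → l'.head? = some y → y ≠ iv x) : RedL (l ++ l') := by
  unfold RedL at *
  rw [List.isChain_append]
  refine ⟨h, h', ?_⟩
  intro x hx y hy
  exact hj x y hx hy

theorem RedL.left {l l' : List Lt} (h : RedL (l ++ l')) : RedL l := by
  unfold RedL at *
  exact (List.isChain_append.1 h).1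

theorem RedL.right {l l' : List Lt} (h : RedL (l ++ l')) : RedL l' := by
  unfold RedL at *
  exact (List.isChain_append.1 h).2.1

theorem redL_wv {l : List Lt} (h : RedL l) : RedL (wv l) := by
  induction l with
  | nil => simpa using h
  | cons x l ih =>
    rw [wv_cons]
    have h1 : RedL l := by
      have : RedL ([x] ++ l) := h
      exact this.right
    apply redL_append (ih h1)
    · simp [RedL]
    · intro y z hy hz
      simp only [List.head?_cons, Option.some.injEq] at hz
      subst hz
      cases l with
      | nil => simp at hy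
      | cons w l =>
        rw [wv_cons, List.getLast?_append] at hy
        simp only [List.getLast?_singleton, Option.some_or, Option.some.injEq] at hy
        subst hy
        rw [iv_iv]
        unfold RedL at h
        rw [List.isChain_cons_cons] at h
        intro e
        exact h.1 e.symm

theorem seg_getLast? (W : ℤ → Lt) {a b : ℤ} (h : a < b) :
    (seg W a b).getLast? = some (W (b - 1)) := by
  rw [seg_concat W h, List.getLast?_append]
  rfl

theorem wv_getLast? (l : List Lt) : (wv l).getLast? = l.head?.map iv := by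
  cases l with
  | nil => rfl
  | cons x l =>
    rw [wv_cons, List.getLast?_append]
    rfl

theorem wv_head? (l : List Lt) : (wv l).head? = l.getLast?.map iv := by
  have := wv_getLast? (wv l)
  rw [wv_wv] at this
  rw [this]
  cases (wv l).head? <;> simp

theorem Per.mono {W : ℤ → Lt} {p a b a' b' : ℤ} (h : Per W p a b) (ha : a ≤ a') (hb : b' ≤ b) :
    Per W p a' b' := fun i h1 h2 => h i (by omega) (by omega)

/-- a period is preserved under multiples -/
theorem Per.mul {W : ℤ → Lt} {p a b : ℤ} (h : Per W p a b) (hp : 0 ≤ p) (k : ℕ) :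
    Per W (k * p) a b := by
  induction k with
  | zero => intro i _ _; simp
  | succ k ih =>
    intro i h1 h2
    push_cast at h2 ⊢
    have hk : 0 ≤ (k : ℤ) * p := by positivity
    rw [show i + (k + 1) * p = (i + k * p) + p by ring, h _ (by nlinarith) (by nlinarith)]
    exact ih i h1 (by nlinarith)

theorem Per.dvd {W : ℤ → Lt} {p a b l : ℤ} (h : Per W p a b) (hp : 0 < p) (hl : 0 ≤ l)
    (hd : p ∣ l) : Per W l a b := by
  obtain ⟨k, rfl⟩ := hd
  have hk : 0 ≤ k := by nlinarith
  obtain ⟨n, rfl⟩ := Int.eq_ofNat_of_zero_le hk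
  rw [mul_comm]
  exact h.mul hp.le n

end Pool.LW
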