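import Pool.Agent.Work.MP_99279c_al.LW.Defs

/-! Skeleton: statements of the modules. Each `sorry` is one module (own file). -/

namespace Pool.LW

/-! ## M1 Walk.lean -/

theorem Wk.append {V : Type} {E : Lt → V → V → Prop} {l l' : List Lt} {u v w : V}
    (h : Wk E l u v) (h' : Wk E l' v w) : Wk E (l ++ l') u w := by sorry

theorem Wk.split {V : Type} {E : Lt → V → V → Prop} {l l' : List Lt} {u w : V}
    (h : Wk E (l ++ l') u w) : ∃ v, Wk E l u v ∧ Wk E l' v w := by sorry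

theorem Wk.inv {V : Type} {E : Lt → V → V → Prop} (hE : Sys E) {l : List Lt} {u v : V}
    (h : Wk E l u v) : Wk E (wv l) v u := by sorry

theorem Wk.det {V : Type} {E : Lt → V → V → Prop} (hE : Sys E) {l : List Lt} {u v v' : V}
    (h : Wk E l u v) (h' : Wk E l u v') : v = v' := by sorry

theorem Wk.mono {V : Type} {E E' : Lt → V → V → Prop} (hE : ∀ x u v, E x u v → E' x u v)
    {l : List Lt} {u v : V} (h : Wk E l u v) : Wk E' l u v := by sorry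

theorem realize {V : Type} {E : Lt → V → V → Prop} (hE : Sys E) (S : Finset V)
    (hS : ∀ x u v, E x u v → u ∈ S ∧ v ∈ S) (n : ℕ) (hn : S.card ≤ n) (l : List Lt)
    (hl : ∀ f : Fin 2 → Equiv.Perm (Fin n), FreeGroup.lift f (FreeGroup.mk l) = 1) {u v : V}
    (hu : u ∈ S) (h : Wk E l u v) : u = v := by sorry

/-! ## M2 Glue.lean -/

theorem glue {B : Type} [Fintype B] (m : ℕ) (hm : 1 ≤ m) (bk : Lt → B → Option B)
    (hbk : ∀ x u v, bk x u = some v → bk (iv x) v = some u) (rs : List (Rc (B ⊕ ℤ)))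
    (hv : ∀ r ∈ rs, r.Valid m (bkC bk)) (hnd : (endsL rs).Nodup) :
    ∃ (V : Type) (E : Lt → V → V → Prop) (ι : B ⊕ ℤ → V) (S : Finset V), Sys E ∧
      (∀ x u v, E x u v → u ∈ S ∧ v ∈ S) ∧ (∀ u : B, ι (Sum.inl u) ∈ S) ∧
      S.card ≤ Fintype.card B + costL m rs ∧ Comp bk rs E ι ∧
      ∀ (c : List Lt) (z : Lt) (u : B), c.length = m → RedL (c ++ [z]) →
        (Sum.inl u, c) ∉ endsL rs → (∀ x, c.head? = some x → bk x u = none) →
        ¬ ∃ v, Wk E (c ++ [z]) (ι (Sum.inl u)) v := by sorry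

/-! ## M3 Run.lean -/

theorem run_walk {V : Type} {E : Lt → V → V → Prop} (hE : Sys E) (W : ℤ → Lt)
    (s e p l ρ q q' s' : ℤ) (k : ℕ) (hper : Per W p s e) (hp : 0 < p) (hdvd : p ∣ l)
    (hX : e = s + ρ + k * l) (hk : 1 ≤ k) (hρ : 0 < ρ) (hl : ρ ≤ l) (h1 : s ≤ s') (h2 : q ≤ s')
    (h3 : s' ≤ s + ρ) (h4 : e ≤ q') (A Z : V)
    (main : Wk E (seg W q (s + ρ) ++ seg W e q') A Z)
    (ear : Wk E (wv (seg W e q') ++ (seg W (s + ρ) (s' + l) ++ wv (seg W q s'))) Z A) :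
    Wk E (seg W q q') A Z := by sorry

/-- the main record of a run: first and last `m` letters, reducedness -/
theorem main_word (W : ℤ → Lt) (hW : Red W) (m s e p l ρ q q' : ℤ) (k : ℕ) (hm : 1 ≤ m)
    (hper : Per W p s e) (hp : 0 < p) (hdvd : p ∣ l) (hl : 0 < l) (hX : e = s + ρ + k * l)
    (h1 : q + 2 * m < s + ρ) (hq : s < q + m) (h4 : e ≤ q') (h5 : q' ≤ e + m) :
    ∃ t : List Lt, seg W q (s + ρ) ++ seg W e q' = c1p W m q ++ (t ++ wv (c1m W m q')) ∧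
      t ≠ [] ∧ (t.length : ℤ) = (s + ρ - q) + (q' - e) - 2 * m ∧
      RedL (seg W q (s + ρ) ++ seg W e q') := by sorry

/-- the ear record of a run -/
theorem ear_word (W : ℤ → Lt) (hW : Red W) (m s e p l ρ q q' : ℤ) (k : ℕ) (hm : 1 ≤ m)
    (hper : Per W p s e) (hleft : W (s - 1 + p) ≠ W (s - 1)) (hright : W (e - p) ≠ W e)
    (hp : 0 < p) (hdvd : p ∣ l) (hX : e = s + ρ + k * l) (hk : 1 ≤ k)
    (hρ : 2 * m ≤ ρ) (hl : ρ + 2 * m < l) (hq : max s q ≤ q + m) (hs : max s q ≤ s + m)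
    (h4 : e ≤ q') (h5 : q' ≤ e + m) :
    ∃ t : List Lt, wv (seg W e q') ++ (seg W (s + ρ) (max s q + l) ++ wv (seg W q (max s q))) =
        c2m W m e l q' ++ (t ++ wv (c2p W m s l q)) ∧
      t ≠ [] ∧ (t.length : ℤ) = (q' - e) + (max s q + l - (s + ρ)) + (max s q - q) - 2 * m ∧
      RedL (wv (seg W e q') ++ (seg W (s + ρ) (max s q + l) ++ wv (seg W q (max s q)))) := by
  sorry

/-- the numbers of a long run -/
theorem run_num {P h m lam L : ℤ} {D : ℕ} (Q : Par P h m lam L D) (X p : ℤ) (hX : lam ≤ X)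
    (hp : 1 ≤ p) (hpP : p ≤ P) : p ∣ lp P m D X p ∧
      2 * m + 4 * P ≤ X - D * lp P m D X p ∧
      (X - D * lp P m D X p) + 2 * m + 4 * P + 2 ≤ lp P m D X p ∧
      D * lp P m D X p ≤ X := by sorry

/-! ## M4a Per.lean -/

theorem scan {P h m lam L : ℤ} {D : ℕ} (Q : Par P h m lam L D) (W : ℤ → Lt) (z : ℤ)
    (hno : ∀ p a b, 1 ≤ p → p ≤ P → z - m ≤ a → b ≤ z + lam → lam ≤ b - a → ¬ Per W p a b) :
    ∃ t, z ≤ t ∧ t ≤ z + lam ∧ ∀ y, t ≤ y → y < t + h → good W P m y := by sorry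

theorem long_le {P h m lam L : ℤ} {D : ℕ} (Q : Par P h m lam L D) {W : ℤ → Lt}
    {s e p s' e' p' : ℤ} (h1 : LR W P lam s e p) (h2 : LR W P lam s' e' p') (he : e < e') :
    e < s' + 2 * P := by sorry

theorem extend_run {P lam : ℤ} {W : ℤ → Lt} {p a b A B : ℤ} (hp : 1 ≤ p) (hpP : p ≤ P)
    (hlam : P < lam) (hab : lam ≤ b - a) (hper : Per W p a b)
    (hb : ∀ a b, lam ≤ b - a → Per W p a b → A ≤ a ∧ b ≤ B) :
    ∃ s e, s ≤ a ∧ b ≤ e ∧ LR W P lam s e p := by sorry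

/-! ## M4b Cls.lean -/

theorem sep_c1m_good {W : ℤ → Lt} {P m a b : ℤ} (hm : P < m)
    (h : ∀ y, a ≤ y → y < b → good W P m y) : Sep P a b (c1m W m) := by sorry

theorem sep_c1p_good {W : ℤ → Lt} {P m a b : ℤ} (hm : P < m)
    (h : ∀ x, a ≤ x → x < b → good W P m (x + m)) : Sep P a b (c1p W m) := by sorry

theorem sep_c1p_run {P h m lam L : ℤ} {D : ℕ} (Q : Par P h m lam L D) {W : ℤ → Lt}
    {s e p : ℤ} (h1 : LR W P lam s e p) : Sep P (s - h) s (c1p W m) := by sorry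

theorem sep_c1m_run {P h m lam L : ℤ} {D : ℕ} (Q : Par P h m lam L D) {W : ℤ → Lt}
    {s e p : ℤ} (h1 : LR W P lam s e p) : Sep P (e + 1) (e + h + 1) (c1m W m) := by sorry

theorem sep_c2p_run {P h m lam L : ℤ} {D : ℕ} (Q : Par P h m lam L D) {W : ℤ → Lt}
    (hW : Red W) {s e p : ℤ} (h1 : LR W P lam s e p) :
    Sep P (s - h) s (c2p W m s (lp P m D (e - s) p)) := by sorry

theorem sep_c2m_run {P h m lam L : ℤ} {D : ℕ} (Q : Par P h m lam L D) {W : ℤ → Lt}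
    (hW : Red W) {s e p : ℤ} (h1 : LR W P lam s e p) :
    Sep P (e + 1) (e + h + 1) (c2m W m e (lp P m D (e - s) p)) := by sorry

/-- classes at the left end of a run differ -/
theorem c1p_ne_c2p {P h m lam L : ℤ} {D : ℕ} (Q : Par P h m lam L D) {W : ℤ → Lt}
    (hW : Red W) {s e p q : ℤ} (h1 : LR W P lam s e p) (hq : s ≤ q + 2 * h) (hq' : q < s + 2 * P) :
    c1p W m q ≠ c2p W m s (lp P m D (e - s) p) q := by sorry

/-- classes at the right end of a run differ -/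
theorem c1m_ne_c2m {P h m lam L : ℤ} {D : ℕ} (Q : Par P h m lam L D) {W : ℤ → Lt}
    (hW : Red W) {s e p q : ℤ} (h1 : LR W P lam s e p) (hq : e ≤ q) (hq' : q ≤ e + h) :
    c1m W m q ≠ c2m W m e (lp P m D (e - s) p) q := by sorry

/-- the four classes at a junction are different -/
theorem junction {P h m lam L : ℤ} {D : ℕ} (Q : Par P h m lam L D) {W : ℤ → Lt}
    (hW : Red W) {s e p s' e' p' : ℤ} (h1 : LR W P lam s e p) (h2 : LR W P lam s' e' p')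
    (he : e < e') (hs : s' ≤ e + 2 * h) (hs' : e < s' + 2 * P) :
    c1p W m e ≠ c1m W m e ∧ c1p W m e ≠ c2m W m e (lp P m D (e - s) p) e ∧
      c2p W m s' (lp P m D (e' - s') p') e ≠ c1m W m e ∧
      c2p W m s' (lp P m D (e' - s') p') e ≠ c2m W m e (lp P m D (e - s) p) e := by sorry

/-! ## M5 Ind.lean -/

theorem main_ind {P h m lam L : ℤ} {D : ℕ} (Q : Par P h m lam L D) {W : ℤ → Lt} (hW : Red W)
    {B : Type} (bk : Lt → B → Option B) (Y0 Zend r : ℤ) (hY0 : Y0 + 2 * h + 1 ≤ -m)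
    (hr : 0 ≤ r) (hZ : r + m ≤ Zend)
    (hper : ∀ p a b, 1 ≤ p → p ≤ P → lam ≤ b - a → Per W p a b → -m ≤ a ∧ b ≤ r + m)
    (hgood : ∀ y, y ≤ -m → good W P m y)
    (horc : Orc bk W P h lam L Y0 (Zend + 3 * L)) :
    ∃ (u : B) (y : ℤ) (rs : List (Rc (B ⊕ ℤ))), Y0 < y ∧ y ≤ Y0 + h ∧
      bk (iv (W (y - 1))) u = none ∧ (Sum.inl u, c1m W m y) ∉ endsL rs ∧
      (∀ r ∈ rs, r.Valid m.toNat (bkC bk)) ∧ (endsL rs).Nodup ∧
      D * (costL m.toNat rs : ℤ) ≤ 4 * (Zend + 3 * L - Y0) ∧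
      ∀ (V : Type) (E : Lt → V → V → Prop) (ι : B ⊕ ℤ → V), Sys E → Comp bk rs E ι →
        ∃ Z v, Zend ≤ Z ∧ Wk E (seg W y Z) (ι (Sum.inl u)) v := by sorry

/-! ## M6 bulks -/

/-- M6a Switch.lean -/
theorem switch (N len : ℕ) (V : ℕ → Lt) (hV : ∀ k, k + 1 < len → V (k + 1) ≠ iv (V k))
    (hlen : 1 ≤ len) (hN : len < N) :
    (N - len) * Nat.card {q : (Fin 2 → Equiv.Perm (Fin N)) × Fin N //
        ¬ Set.InjOn (pth q.1 V q.2) (Set.Iic len)} ≤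
      len ^ 2 * Nat.card ((Fin 2 → Equiv.Perm (Fin N)) × Fin N) := by sorry

/-- M6b Second.lean: for a fixed `σ` with at least `N/2` simple starts, at most a quarter of the
labellings is bad. -/
theorem second (N l len h : ℕ) (V : ℕ → Lt) (σ : Fin 2 → Equiv.Perm (Fin N)) (hh : 1 ≤ h)
    (hlen : 2 * h < len) (hl : len ≤ l) (hN : 256 * l ^ 4 ≤ N * h ^ 2)
    (hS : N ≤ 2 * Nat.card {v : Fin N // Set.InjOn (pth σ V v) (Set.Iic len)}) :
    4 * Nat.card {f : Fin 2 × Fin N → Fin (2 * l) //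
        32 * l ^ 2 * Nat.card {v : Fin N // GoodV σ (fun e => decide ((f e : ℕ) = 0)) V len h v} <
          N * h ^ 2} ≤ Nat.card (Fin 2 × Fin N → Fin (2 * l)) := by sorry

/-- M6c Rounds.lean -/
theorem bulks (N l h T : ℕ) (hh : 1 ≤ h) (hN : 256 * l ^ 4 ≤ N * h ^ 2) {I : Type} [Fintype I]
    (hI : Fintype.card I < 2 ^ T) (V : I → ℕ → Lt) (len : I → ℕ)
    (hlen : ∀ i, 2 * h < len i ∧ len i ≤ l)
    (hV : ∀ i k, k + 1 < len i → V i (k + 1) ≠ iv (V i k)) :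
    ∃ (σ : Fin T → Fin 2 → Equiv.Perm (Fin N)) (del : Fin T → Fin 2 × Fin N → Bool),
      ∀ i, ∃ t, N * h ^ 2 ≤
        32 * l ^ 2 * Nat.card {v : Fin N // GoodV (σ t) (del t) (V i) (len i) h v} := by sorry

/-! ## M7 Oracle.lean -/

/-- The bulk action of a family of permutations with deleted edges. -/
def bkT {T N : ℕ} (σ : Fin T → Fin 2 → Equiv.Perm (Fin N)) (del : Fin T → Fin 2 × Fin N → Bool)
    (x : Lt) (u : Fin T × Fin N) : Option (Fin T × Fin N) :=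
  if del u.1 (x.1, if x.2 then u.2 else act (σ u.1) x u.2) = true then none
  else some (u.1, act (σ u.1) x u.2)

theorem bkT_symm {T N : ℕ} (σ : Fin T → Fin 2 → Equiv.Perm (Fin N))
    (del : Fin T → Fin 2 × Fin N → Bool) (x : Lt) (u v : Fin T × Fin N)
    (h : bkT σ del x u = some v) : bkT σ del (iv x) v = some u := by sorry

theorem oracle {T N : ℕ} (σ : Fin T → Fin 2 → Equiv.Perm (Fin N))
    (del : Fin T → Fin 2 × Fin N → Bool) (W : ℤ → Lt) (P lam L Y0 Zm : ℤ) (h l : ℕ)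
    (hP : 1 ≤ P) (hl : (l : ℤ) = 3 * L) (hlam : 2 * P < lam)
    (hbulk : ∀ Y X : ℤ, Y0 ≤ Y → Y ≤ Zm → Y + h + 1 ≤ X → X + h - Y ≤ 3 * L → ∃ t,
      N * h ^ 2 ≤ 32 * l ^ 2 * Nat.card {v : Fin N // GoodV (σ t) (del t)
        (fun k : ℕ => W (Y + k)) (X + h - Y).toNat h v})
    (hnum : 32 * (l : ℤ) ^ 2 * (4 * ((h : ℤ) / P + 1)) * (6 * (Zm - Y0)) <
      (lam - 2 * P) * (N * h ^ 2)) :
    Orc (bkT σ del) W P h lam L Y0 Zm := by sorry

/-! ## M8 Word.lean -/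

/-- the conjugated bi-infinite word -/
theorem word_exists (P : ℤ) (hP : 1 ≤ P) (w : List Lt) (hw : RedL w) (hne : w ≠ []) :
    ∃ W : ℤ → Lt, Red W ∧ seg W 0 w.length = w ∧
      (∀ i, W (w.length - 1 - i) = iv (W i) ∨ (0 ≤ i ∧ i < w.length)) ∧
      ∀ m : ℤ, 4 * P + 4 ≤ m → (∀ p a b, 1 ≤ p → p ≤ P → m ≤ b - a → Per W p a b →
        -m ≤ a ∧ b ≤ w.length + m) ∧ (∀ y, y ≤ -1 → good W P m y) := by sorry

/-! ## M9 Final.lean -/

theorem core {P h m lam L : ℤ} {D : ℕ} (Q : Par P h m lam L D) (n N T : ℕ) (w : List Lt)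
    (hw : RedL w) (hne : w ≠ [])
    (hlaw : ∀ f : Fin 2 → Equiv.Perm (Fin n), FreeGroup.lift f (FreeGroup.mk w) = 1)
    (hT : (w.length + 6 * m + 10 * L + 10) * (3 * L + 1) < 2 ^ T)
    (hN : 256 * (3 * L) ^ 4 ≤ N * h ^ 2)
    (hnum : 32 * (3 * L) ^ 2 * (4 * (h / P + 1)) * (6 * (w.length + 6 * m + 10 * L + 10)) <
      (lam - 2 * P) * (N * h ^ 2))
    (hn : (D : ℤ) * (T * N) + 4 * (w.length + 6 * m + 10 * L + 10) ≤ D * n) : False := by sorry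

theorem laws_superlinear : ∃ n0 : ℕ, ∀ n ≥ n0, ∀ w : FreeGroup (Fin 2), w ≠ 1 →
    (w.toWord.length : ℝ) ≤ (n : ℝ) ^ (1 + 1 / 19 : ℝ) →
    ∃ f : Fin 2 → Equiv.Perm (Fin n), FreeGroup.lift f w ≠ 1 := by sorry

end Pool.LW
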