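import Pool.Agent.Work.MP_99279c_al.LW.Defs2

/-! Skeleton of the second version (exponent 7/6 - o(1)). -/

namespace Pool.LW

/-! ## N Nt.lean -/

/-- some number of `[A, 2A]` has `x` modulo it away from the ends -/
theorem nt (c A x s : ℕ) (hc : 1 ≤ c) (hx : x + c < 2 ^ s) (hcx : c ≤ x) (hA : 2 * c * s ≤ A) :
    ∃ a, A ≤ a ∧ a ≤ 2 * A ∧ c ≤ x % a ∧ x % a + c ≤ a := by sorry

/-- loops for runs of every length at least `lam0` -/
theorem run_num2 {P h m lam0 lam L : ℤ} {D t : ℕ} (Q : Par2 P h m lam0 lam L D t) (X p : ℤ)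
    (hX : lam0 ≤ X) (hXt : X < 2 ^ t) (hp : 1 ≤ p) (hpP : p ≤ P) :
    ∃ (l : ℤ) (k : ℕ), LP P m X p l k ∧ D * l ≤ 2 * X + 20 * (D * (m * t)) := by sorry

/-! ## P Per2.lean -/

theorem scan2 {P h m lam0 : ℤ} (Q : Bas P h m) (hlam : m + h ≤ lam0) (W : ℤ → Lt) (z : ℤ)
    (hno : ∀ p a b, 1 ≤ p → p ≤ P → z - m ≤ a → b ≤ z + lam0 → lam0 ≤ b - a → ¬ Per W p a b) :
    ∃ t, z ≤ t ∧ t ≤ z + lam0 ∧ ∀ y, t ≤ y → y < t + h → good W P m y := by sorry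

theorem long_le2 {P lam0 : ℤ} (hlam : 2 * P < lam0) {W : ℤ → Lt}
    {s e p s' e' p' : ℤ} (h1 : LR W P lam0 s e p) (h2 : LR W P lam0 s' e' p') (he : e < e') :
    e < s' + 2 * P := by sorry

/-! ## C Cls2.lean -/

theorem sep2_c1p_run {P h m lam0 : ℤ} (Q : Bas P h m) (hlam : m ≤ lam0) {W : ℤ → Lt}
    {s e p : ℤ} (h1 : LR W P lam0 s e p) : Sep P (s - h) s (c1p W m) := by sorry

theorem sep2_c1m_run {P h m lam0 : ℤ} (Q : Bas P h m) (hlam : m ≤ lam0) {W : ℤ → Lt}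
    {s e p : ℤ} (h1 : LR W P lam0 s e p) : Sep P (e + 1) (e + h + 1) (c1m W m) := by sorry

theorem sep2_c2p_run {P h m lam0 : ℤ} (Q : Bas P h m) {W : ℤ → Lt}
    (hW : Red W) {s e p l : ℤ} {k : ℕ} (h1 : LR W P lam0 s e p) (hl : LP P m (e - s) p l k) :
    Sep P (s - h) s (c2p W m s l) := by sorry

theorem sep2_c2m_run {P h m lam0 : ℤ} (Q : Bas P h m) {W : ℤ → Lt}
    (hW : Red W) {s e p l : ℤ} {k : ℕ} (h1 : LR W P lam0 s e p) (hl : LP P m (e - s) p l k) :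
    Sep P (e + 1) (e + h + 1) (c2m W m e l) := by sorry

theorem c1p_ne_c2p2 {P h m lam0 : ℤ} (Q : Bas P h m) {W : ℤ → Lt} (hW : Red W)
    {s e p l q : ℤ} {k : ℕ} (h1 : LR W P lam0 s e p) (hl : LP P m (e - s) p l k)
    (hq : s ≤ q + 2 * h) (hq' : q < s + 2 * P) : c1p W m q ≠ c2p W m s l q := by sorry

theorem c1m_ne_c2m2 {P h m lam0 : ℤ} (Q : Bas P h m) {W : ℤ → Lt} (hW : Red W)
    {s e p l q : ℤ} {k : ℕ} (h1 : LR W P lam0 s e p) (hl : LP P m (e - s) p l k)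
    (hq : e ≤ q) (hq' : q ≤ e + h) : c1m W m q ≠ c2m W m e l q := by sorry

theorem junction2 {P h m lam0 : ℤ} (Q : Bas P h m) {W : ℤ → Lt} (hW : Red W)
    {s e p s' e' p' l l' : ℤ} {k k' : ℕ} (h1 : LR W P lam0 s e p) (hl : LP P m (e - s) p l k)
    (h2 : LR W P lam0 s' e' p') (hl' : LP P m (e' - s') p' l' k')
    (he : e < e') (hs : s' ≤ e + 2 * h) (hs' : e < s' + 2 * P) :
    c1p W m e ≠ c1m W m e ∧ c1p W m e ≠ c2m W m e l e ∧
      c2p W m s' l' e ≠ c1m W m e ∧ c2p W m s' l' e ≠ c2m W m e l e := by sorry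

/-! ## I Ind2.lean -/

theorem main_ind2 {P h m lam0 lam L : ℤ} {D t : ℕ} (Q : Par2 P h m lam0 lam L D t) {W : ℤ → Lt}
    (hW : Red W) {B : Type} (bk : Lt → B → Option B) (Y0 Zend r : ℤ) (hY0 : Y0 + 2 * h + 1 ≤ -m)
    (hr : 0 ≤ r) (hZ : r + m ≤ Zend) (hrt : r + 2 * m < 2 ^ t)
    (hper : ∀ p a b, 1 ≤ p → p ≤ P → lam0 ≤ b - a → Per W p a b → -m ≤ a ∧ b ≤ r + m)
    (hgood : ∀ y, y ≤ -m → good W P m y)
    (horc : Orc bk W P h lam L Y0 (Zend + 3 * L)) :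
    ∃ (u : B) (y : ℤ) (rs : List (Rc (B ⊕ ℤ))), Y0 < y ∧ y ≤ Y0 + h ∧
      bk (iv (W (y - 1))) u = none ∧ (Sum.inl u, c1m W m y) ∉ endsL rs ∧
      (∀ r ∈ rs, r.Valid m.toNat (bkC bk)) ∧ (endsL rs).Nodup ∧
      D * (costL m.toNat rs : ℤ) ≤ 4 * (Zend + 3 * L - Y0) ∧
      ∀ (V : Type) (E : Lt → V → V → Prop) (ι : B ⊕ ℤ → V), Sys E → Comp bk rs E ι →
        ∃ Z v, Zend ≤ Z ∧ Wk E (seg W y Z) (ι (Sum.inl u)) v := by sorry

/-! ## B Bulk2.lean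

Paley-Zygmund instead of Chebyshev. For a fixed `σ` with at least `N/2` simple starts let `X` be
the number of simple `v` whose path has exactly the deleted edges `i`, `j` (one in the first `h`,
one in the last `h`), labels in `Fin M`, `M = 2l`. `E X >= N h^2 / (16 l^2)` (as before) and
`E X^2 <= sum over (v,i,j,v',i',j') of P(the edges e_i(v), e_j(v), e_i'(v'), e_j'(v') have label 0)
<= N^2 h^4 / M^4 + 4 N h^4 / M^3 + 2 N h^3 / M^2 <= 3 N^2 h^4 / (16 l^4)` if `8 l^2 <= N`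
(one coincidence: `v'` is determined by `(v,i,i')`; two coincidences: `j'` is determined too since
the path of `v'` is simple). So `P(X >= N h^2/(32 l^2)) >= (E X)^2/(4 E X^2) >= 1/192`, and a random
pair `(σ, del)` serves a given window with probability at least `1/256`. Rounds: `256 t` bulks serve
any set of fewer than `2 ^ t` windows. -/

theorem bulks2 (N l h t : ℕ) (hh : 1 ≤ h) (hN : 16 * l ^ 2 ≤ N) {I : Type} [Fintype I]
    (hI : Fintype.card I < 2 ^ t) (V : I → ℕ → Lt) (len : I → ℕ)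
    (hlen : ∀ i, 2 * h < len i ∧ len i ≤ l)
    (hV : ∀ i k, k + 1 < len i → V i (k + 1) ≠ iv (V i k)) :
    ∃ (σ : Fin (256 * t) → Fin 2 → Equiv.Perm (Fin N))
      (del : Fin (256 * t) → Fin 2 × Fin N → Bool),
      ∀ i, ∃ τ, N * h ^ 2 ≤
        32 * l ^ 2 * Nat.card {v : Fin N // GoodV (σ τ) (del τ) (V i) (len i) h v} := by sorry

/-! ## F Final2.lean -/

theorem core2 {P h m lam0 lam L : ℤ} {D t : ℕ} (Q : Par2 P h m lam0 lam L D t) (n N : ℕ)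
    (w : List Lt) (hw : RedL w) (hne : w ≠ [])
    (hlaw : ∀ f : Fin 2 → Equiv.Perm (Fin n), FreeGroup.lift f (FreeGroup.mk w) = 1)
    (ht : (w.length + 6 * m + 10 * L + 10) * (3 * L + 1) < 2 ^ t)
    (hN : 16 * (3 * L) ^ 2 ≤ N)
    (hnum : 32 * (3 * L) ^ 2 * (4 * (h / P + 1)) * (6 * (w.length + 6 * m + 10 * L + 10)) <
      (lam - 2 * P) * (N * h ^ 2))
    (hn : (D : ℤ) * (256 * t * N) + 4 * (w.length + 6 * m + 10 * L + 10) ≤ D * n) : False := by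
  sorry

theorem laws_seven_sixths (c : ℝ) (hc : c < 7 / 6) : ∃ n0 : ℕ, ∀ n ≥ n0,
    ∀ w : FreeGroup (Fin 2), w ≠ 1 → (w.toWord.length : ℝ) ≤ (n : ℝ) ^ c →
    ∃ f : Fin 2 → Equiv.Perm (Fin n), FreeGroup.lift f w ≠ 1 := by sorry

end Pool.LW
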