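import Pool.Agent.Work.MP_99279c_al.LW.Seg

/-!
Walks in labelled graphs, and the realisation of a finite labelled graph by permutations.
-/

namespace Pool.LW

theorem Wk.append {V : Type} {E : Lt → V → V → Prop} {l l' : List Lt} {u v w : V}
    (h : Wk E l u v) (h' : Wk E l' v w) : Wk E (l ++ l') u w := by
  induction h with
  | nil _ => exact h'
  | cons he _ ih => exact Wk.cons he (ih h')

theorem Wk.split {V : Type} {E : Lt → V → V → Prop} {l l' : List Lt} {u w : V}
    (h : Wk E (l ++ l') u w) : ∃ v, Wk E l u v ∧ Wk E l' v w := by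
  induction l generalizing u with
  | nil => exact ⟨u, Wk.nil u, h⟩
  | cons x l ih =>
    rw [List.cons_append] at h
    cases h with
    | cons he hw =>
      obtain ⟨v, h1, h2⟩ := ih hw
      exact ⟨v, Wk.cons he h1, h2⟩

theorem Wk.inv {V : Type} {E : Lt → V → V → Prop} (hE : Sys E) {l : List Lt} {u v : V}
    (h : Wk E l u v) : Wk E (wv l) v u := by
  induction h with
  | nil u => exact Wk.nil u
  | cons he _ ih =>
    rw [wv_cons]
    exact ih.append (Wk.cons (hE.sym _ _ _ he) (Wk.nil _))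

theorem Wk.det {V : Type} {E : Lt → V → V → Prop} (hE : Sys E) {l : List Lt} {u v v' : V}
    (h : Wk E l u v) (h' : Wk E l u v') : v = v' := by
  induction h with
  | nil _ =>
    cases h'
    rfl
  | cons he _ ih =>
    cases h' with
    | cons he' hw' =>
      have := hE.func _ _ _ _ he he'
      subst this
      exact ih hw'

theorem Wk.mono {V : Type} {E E' : Lt → V → V → Prop} (hE : ∀ x u v, E x u v → E' x u v)
    {l : List Lt} {u v : V} (h : Wk E l u v) : Wk E' l u v := by
  induction h with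
  | nil u => exact Wk.nil u
  | cons he _ ih => exact Wk.cons (hE _ _ _ he) ih

namespace Walk

/-- A partial injection of a finite set extends to a permutation. -/
theorem exists_perm {α : Type} [Fintype α] [DecidableEq α] (R : α → α → Prop)
    (h1 : ∀ a b b', R a b → R a b' → b = b') (h2 : ∀ a a' b, R a b → R a' b → a = a') :
    ∃ σ : Equiv.Perm α, ∀ a b, R a b → σ a = b := by
  classical
  let e : {a // ∃ b, R a b} ≃ {b // ∃ a, R a b} :=
    Equiv.ofBijective (fun a => ⟨a.2.choose, a.1, a.2.choose_spec⟩) ⟨by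
      rintro ⟨a, ha⟩ ⟨a', ha'⟩ h
      have h0 : ha.choose = ha'.choose := congrArg Subtype.val h
      have := ha'.choose_spec
      rw [← h0] at this
      exact Subtype.ext (h2 _ _ _ ha.choose_spec this), by
      rintro ⟨b, a, hab⟩
      refine ⟨⟨a, b, hab⟩, Subtype.ext ?_⟩
      exact h1 _ _ _ (Exists.choose_spec (⟨b, hab⟩ : ∃ b, R a b)) hab⟩
  refine ⟨e.extendSubtype, fun a b hab => ?_⟩
  rw [Equiv.extendSubtype_apply_of_mem e a ⟨b, hab⟩]
  exact h1 _ _ _ (Exists.choose_spec (⟨b, hab⟩ : ∃ b, R a b)) hab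

end Walk

theorem realize {V : Type} {E : Lt → V → V → Prop} (hE : Sys E) (S : Finset V)
    (hS : ∀ x u v, E x u v → u ∈ S ∧ v ∈ S) (n : ℕ) (hn : S.card ≤ n) (l : List Lt)
    (hl : ∀ f : Fin 2 → Equiv.Perm (Fin n), FreeGroup.lift f (FreeGroup.mk l) = 1) {u v : V}
    (hu : u ∈ S) (h : Wk E l u v) : u = v := by
  obtain ⟨ι⟩ : Nonempty (S ↪ Fin n) := by
    apply Function.Embedding.nonempty_of_card_le
    rw [Fintype.card_coe, Fintype.card_fin]
    exact hn
  have hσ : ∀ g : Fin 2, ∃ σ : Equiv.Perm (Fin n), ∀ x y : S, E (g, true) x y → σ (ι x) = ι y := by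
    intro g
    obtain ⟨σ, hσ⟩ := Walk.exists_perm
      (fun a b : Fin n => ∃ x y : S, E (g, true) x y ∧ ι x = a ∧ ι y = b)
      (by
        rintro a b b' ⟨x, y, hxy, hx, hy⟩ ⟨x', y', hxy', hx', hy'⟩
        have : x = x' := ι.injective (hx.trans hx'.symm)
        subst this
        have : (y : V) = y' := hE.func _ _ _ _ hxy hxy'
        rw [← hy, ← hy', Subtype.ext this])
      (by
        rintro a a' b ⟨x, y, hxy, hx, hy⟩ ⟨x', y', hxy', hx', hy'⟩
        have : y = y' := ι.injective (hy.trans hy'.symm)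
        subst this
        have : (x : V) = x' := hE.func _ _ _ _ (hE.sym _ _ _ hxy) (hE.sym _ _ _ hxy')
        rw [← hx, ← hx', Subtype.ext this])
    exact ⟨σ, fun x y hxy => hσ _ _ ⟨x, y, hxy, rfl, rfl⟩⟩
  choose σ hσ using hσ
  let f : Fin 2 → Equiv.Perm (Fin n) := fun g => (σ g)⁻¹
  have key : ∀ (l : List Lt) (u v : V) (hu : u ∈ S) (_ : Wk E l u v), ∃ hv : v ∈ S,
      FreeGroup.lift f (FreeGroup.mk l) (ι ⟨v, hv⟩) = ι ⟨u, hu⟩ := by
    intro l u v hu h
    induction h with
    | nil u =>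
      refine ⟨hu, ?_⟩
      rw [← FreeGroup.one_eq_mk, map_one]
      rfl
    | @cons x l u v w he _ ih =>
      obtain ⟨hw, ih⟩ := ih (hS _ _ _ he).2
      refine ⟨hw, ?_⟩
      have h1 : (FreeGroup.mk (x :: l) : FreeGroup (Fin 2)) = FreeGroup.mk [x] * FreeGroup.mk l := by
        rw [FreeGroup.mul_mk]
        rfl
      rw [h1, map_mul, Equiv.Perm.mul_apply, ih]
      rcases x with ⟨g, b⟩
      cases b with
      | true =>
        have h2 := hσ g ⟨u, hu⟩ ⟨v, (hS _ _ _ he).2⟩ he
        rw [FreeGroup.lift_mk]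
        simp only [List.map_cons, List.map_nil, List.prod_cons, List.prod_nil, mul_one, cond_true]
        rw [← h2]
        exact (σ g).symm_apply_apply _
      | false =>
        have h2 := hσ g ⟨v, (hS _ _ _ he).2⟩ ⟨u, hu⟩ (hE.sym _ _ _ he)
        rw [FreeGroup.lift_mk]
        simp only [List.map_cons, List.map_nil, List.prod_cons, List.prod_nil, mul_one, cond_false]
        rw [← h2]
        change ((σ g)⁻¹)⁻¹ _ = _
        rw [inv_inv]
  obtain ⟨hv, h1⟩ := key l u v hu h
  rw [hl f, Equiv.Perm.one_apply] at h1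
  exact (congrArg Subtype.val (ι.injective h1)).symm

end Pool.LW
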